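import Pool.Agent.E8helper90.RC.Goo

/-!
Subfields of general type of the field generated by moving points consist of small functions: the
algebraic part of the proof.
-/

set_option autoImplicit false

namespace Pool.Agent.E8helper90.RC

open FF Pool.Agent.E8helper90.AF Pool.Agent.W602.GT Pool.Agent.W603.LV
open Pool.Agent.E8helper90.GL (kerF mem_kerF ker_clo alg_of_field)
open Pool.Agent.TH600.LC (clo mem_clo inv_mem_clo subset_clo clo_le clo_mono adjoin_le_clo
  der_mem_clo coe_clo)
open Pool.Agent.TH143.GT (Dual)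

variable {k F : Type} [Field k] [Field F] [Algebra k F]

/-- a valuation on the field of functions which are algebraic over the moving points -/
structure LV {r : ℕ} (G : RD k F r) (ε : Fin r → Bool) (w : F → ℤ) : Prop where
  zero : w 0 = 0
  mul : ∀ a ∈ clo G.S (Set.range G.x), ∀ b ∈ clo G.S (Set.range G.x), a ≠ 0 → b ≠ 0 →
    w (a * b) = w a + w b
  add : ∀ a ∈ clo G.S (Set.range G.x), ∀ b ∈ clo G.S (Set.range G.x), a ≠ 0 → b ≠ 0 →
    a + b ≠ 0 → min (w a) (w b) ≤ w (a + b)
  S : ∀ s ∈ G.S, w s = 0
  R : ∀ z ∈ G.R ε Set.univ, 0 ≤ w z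
  t : ∃ t ∈ G.R ε Set.univ, w t = 1
  T : ∃ T : Fin (r - 1) → F, (∀ i, T i ∈ G.R ε Set.univ) ∧
    ∀ p : MvPolynomial (Fin (r - 1)) G.S, p ≠ 0 → MvPolynomial.aeval T p ≠ 0 ∧
      w (MvPolynomial.aeval T p) = 0

theorem R_le_L0 {r : ℕ} {G : RD k F r} {ε : Fin r → Bool} {J : Set (Fin r)} {z : F}
    (hz : z ∈ G.R ε J) : z ∈ clo G.S (Set.range G.x) :=
  clo_mono (Set.image_subset_range _ _) (RD.M_clo (RD.R_le_M hz))

/-- residual independence over the ground field -/
theorem resid {r r' : ℕ} {G : RD k F r} {ι : Type} {b : ι → F} (hb : Fam G b) (B : Finset ι)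
    {T : Fin r' → F} {w : F → ℤ} (hT : ∀ p : MvPolynomial (Fin r') G.S, p ≠ 0 →
      MvPolynomial.aeval T p ≠ 0 ∧ w (MvPolynomial.aeval T p) = 0)
    (p : MvPolynomial (Fin r' ⊕ B) k) (hp : p ≠ 0) :
    MvPolynomial.aeval (Sum.elim T fun i : B => b i) p ≠ 0 ∧
      w (MvPolynomial.aeval (Sum.elim T fun i : B => b i) p) = 0 := by
  let φ : MvPolynomial B k →ₐ[k] G.S := MvPolynomial.aeval fun i : B => (⟨b i, hb.mem i⟩ : G.S)
  have hφ : Function.Injective φ := by
    have h1 : AlgebraicIndependent k fun i : B => (⟨b i, hb.mem i⟩ : G.S) := by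
      have h2 : AlgebraicIndependent k b := by
        have := hb.ind.comp (Sum.inr : ι → Fin r ⊕ ι) Sum.inr_injective
        exact this
      have h3 := h2.comp (Subtype.val : B → ι) Subtype.val_injective
      exact (AlgHom.algebraicIndependent_iff G.S.val (Subtype.val_injective)).1 h3
    exact h1
  have h0 : MvPolynomial.map (φ : MvPolynomial B k →+* G.S)
      (MvPolynomial.sumAlgEquiv k (Fin r') B p) ≠ 0 := by
    intro h
    apply hp
    have h1 := MvPolynomial.map_injective (σ := Fin r') (φ : MvPolynomial B k →+* G.S) hφ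
    have h2 : MvPolynomial.sumAlgEquiv k (Fin r') B p = 0 := h1 (by rw [h, map_zero])
    exact (map_eq_zero_iff _ (MvPolynomial.sumAlgEquiv k (Fin r') B).injective).1 h2
  have h1 : MvPolynomial.aeval T (MvPolynomial.map (φ : MvPolynomial B k →+* G.S)
      (MvPolynomial.sumAlgEquiv k (Fin r') B p)) =
      MvPolynomial.aeval (Sum.elim T fun i : B => b i) p := by
    clear h0 hp
    induction p using MvPolynomial.induction_on with
    | C a =>
      have e1 : MvPolynomial.sumAlgEquiv k (Fin r') B (MvPolynomial.C a) =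
          MvPolynomial.C (MvPolynomial.C a) := MvPolynomial.sumAlgEquiv_C_inl ..
      rw [e1, MvPolynomial.map_C, MvPolynomial.aeval_C, MvPolynomial.aeval_C]
      change ((φ (MvPolynomial.C a) : G.S) : F) = _
      have e2 : φ (MvPolynomial.C a) = algebraMap k G.S a := MvPolynomial.aeval_C _ _
      rw [e2]
      rfl
    | add p q hp hq => rw [map_add, map_add, map_add, map_add, hp, hq]
    | mul_X p i hp =>
      rw [map_mul, map_mul, map_mul, map_mul, hp]
      congr 1
      rcases i with i | i
      · have e1 : MvPolynomial.sumAlgEquiv k (Fin r') B (MvPolynomial.X (Sum.inl i)) =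
            MvPolynomial.X i := MvPolynomial.sumAlgEquiv_X_inl ..
        rw [e1, MvPolynomial.map_X, MvPolynomial.aeval_X, MvPolynomial.aeval_X]
        rfl
      · have e1 : MvPolynomial.sumAlgEquiv k (Fin r') B (MvPolynomial.X (Sum.inr i)) =
            MvPolynomial.C (MvPolynomial.X i) := MvPolynomial.sumAlgEquiv_X_inr ..
        rw [e1, MvPolynomial.map_C, MvPolynomial.aeval_C, MvPolynomial.aeval_X]
        change ((φ (MvPolynomial.X i) : G.S) : F) = _
        have e2 : φ (MvPolynomial.X i) = (⟨b i, hb.mem i⟩ : G.S) := MvPolynomial.aeval_X _ _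
        rw [e2]
        rfl
  rw [← h1]
  exact hT _ h0

/-- algebraic elements of a subfield -/
theorem alg_sub (L1 : IntermediateField k F) {ι' : Type} (q1 : ι' → L1) {z : L1}
    (hz : (z : F) ∈ clo k (Set.range fun i => (q1 i : F))) :
    IsAlgebraic (Algebra.adjoin k (Set.range q1)) z := by
  have h : Algebra.adjoin k (Set.range fun i => (q1 i : F)) =
      (Algebra.adjoin k (Set.range q1)).map L1.val := by
    rw [AlgHom.map_adjoin, ← Set.range_comp]
    rfl
  have hz' := mem_clo.1 hz
  rw [h] at hz'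
  obtain ⟨p, hp, hp0⟩ := hz'
  let e := Subalgebra.equivMapOfInjective (Algebra.adjoin k (Set.range q1)) L1.val
    Subtype.val_injective
  have he : ∀ c, ((e.symm c : L1) : F) = (c : F) := by
    intro c
    have h1 := Subalgebra.coe_equivMapOfInjective_apply (Algebra.adjoin k (Set.range q1)) L1.val
      Subtype.val_injective (e.symm c)
    have h2 : e (e.symm c) = c := e.apply_symm_apply c
    change ((e (e.symm c) : _) : F) = _ at h1
    rw [h2] at h1
    exact h1.symm
  refine ⟨p.map (e.symm : _ →+* _), (Polynomial.map_ne_zero_iff e.symm.injective).2 hp, ?_⟩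
  apply Subtype.ext
  rw [Polynomial.aeval_def, Polynomial.eval₂_map]
  have h4 := Polynomial.hom_eval₂ p ((algebraMap (Algebra.adjoin k (Set.range q1)) L1).comp
    (e.symm : _ →+* _)) (algebraMap L1 F) z
  change ((Polynomial.eval₂ _ z p : L1) : F) = _ at h4
  rw [h4]
  have h5 : (0 : F) = ((0 : L1) : F) := rfl
  rw [← h5, ← hp0, Polynomial.aeval_def]
  congr 1
  ext c
  exact he c

/-- regularity can be checked on coordinates -/
theorem der_reg' {K : Type} [Field K] [Algebra k K] [CharZero k] [Algebra.EssFiniteType k K]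
    {m : ℕ} (htr : Algebra.trdeg k K = (m + 1 : ℕ)) (v : Place k K) {s : K} {y' : Fin m → K}
    (hs : v.ord s = 1)
    (hy : ∀ p : MvPolynomial (Fin m) k, p ≠ 0 →
      MvPolynomial.aeval y' p ≠ 0 ∧ v.ord (MvPolynomial.aeval y' p) = 0)
    (D : Derivation k K K) (hD0 : v.Reg (D s)) (hD : ∀ i, v.Reg (D (y' i))) : DerReg v D := by
  have hs0 : s ≠ 0 := by
    rintro rfl
    rw [v.ord_zero] at hs
    norm_num at hs
  have hind : AlgebraicIndependent k (Fin.cons s y' : Fin (m + 1) → K) := by
    rw [algebraicIndependent_iff]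
    intro P hP
    by_contra hP0
    have h1 : MvPolynomial.finSuccEquiv k m P ≠ 0 := by
      intro h2
      apply hP0
      exact (map_eq_zero_iff _ (MvPolynomial.finSuccEquiv k m).injective).1 h2
    obtain ⟨t, Q', hQ, hQ0, -⟩ := Pool.Agent.W240.PG.Frame.psi_factor v hs hy _ h1
    rw [Pool.Agent.W240.PG.Frame.aeval_cons, hQ] at hP
    exact (mul_ne_zero (pow_ne_zero t hs0) hQ0) hP
  have hbas : IsTranscendenceBasis k (Fin.cons s y' : Fin (m + 1) → K) := by
    apply hind.isTranscendenceBasis_of_lift_trdeg_le_of_finite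
    rw [htr]
    simp
  refine der_reg v hs hy (Pool.Agent.TH143.GT.fin_adjoin _ hbas) D fun i => ?_
  refine Fin.cases ?_ (fun j => ?_) i
  · rw [Fin.cons_zero]
    exact hD0
  · rw [Fin.cons_succ]
    exact hD j

/-- derivations preserve finitely generated algebraic extensions -/
theorem stab_adjoin [CharZero k] {X A : Set F} {E : Derivation k F F}
    (hX : ∀ z ∈ X, E z ∈ IntermediateField.adjoin k (X ∪ A)) (hA : ∀ z ∈ A, z ∈ clo k X) :
    ∀ z ∈ IntermediateField.adjoin k (X ∪ A), E z ∈ IntermediateField.adjoin k (X ∪ A) := by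
  obtain ⟨L1, hL1⟩ : ∃ L1, L1 = IntermediateField.adjoin k (X ∪ A) := ⟨_, rfl⟩
  rw [← hL1] at hX ⊢
  have hXL : ∀ z ∈ X, z ∈ L1 := fun z hz => by
    rw [hL1]
    exact IntermediateField.subset_adjoin _ _ (Or.inl hz)
  have hAL : ∀ z ∈ A, z ∈ L1 := fun z hz => by
    rw [hL1]
    exact IntermediateField.subset_adjoin _ _ (Or.inr hz)
  -- algebraic elements
  have key : ∀ z ∈ L1, z ∈ clo k X → E z ∈ L1 := by
    intro z hzL hz
    have h1 : ∀ w ∈ Algebra.adjoin k X, w ∈ L1 ∧ E w ∈ L1 := by
      intro w hw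
      induction hw using Algebra.adjoin_induction with
      | mem w hw => exact ⟨hXL w hw, hX w hw⟩
      | algebraMap c => exact ⟨L1.algebraMap_mem c, by rw [E.map_algebraMap]; exact L1.zero_mem⟩
      | add u v _ _ hu hv =>
        exact ⟨L1.add_mem hu.1 hv.1, by rw [map_add]; exact L1.add_mem hu.2 hv.2⟩
      | mul u v _ _ hu hv =>
        refine ⟨L1.mul_mem hu.1 hv.1, ?_⟩
        rw [E.leibniz, smul_eq_mul, smul_eq_mul]
        exact L1.add_mem (L1.mul_mem hu.1 hv.2) (L1.mul_mem hv.1 hu.2)
    -- the field of the elements of `L1` with derivative in `L1`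
    have h2 : IsAlgebraic (Pool.Agent.W619.TW.stab E L1) z := by
      obtain ⟨p, hp, hp0⟩ := mem_clo.1 hz
      let φ : Algebra.adjoin k X →+* Pool.Agent.W619.TW.stab E L1 :=
        { toFun := fun w => ⟨w.1, h1 w.1 w.2⟩
          map_one' := rfl
          map_mul' := fun _ _ => rfl
          map_zero' := rfl
          map_add' := fun _ _ => rfl }
      have hφ : Function.Injective φ := by
        intro a b hab
        have : (φ a : F) = (φ b : F) := congrArg _ hab
        exact Subtype.ext this
      refine ⟨p.map φ, (Polynomial.map_ne_zero_iff hφ).2 hp, ?_⟩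
      rw [← hp0, Polynomial.aeval_def, Polynomial.aeval_def, Polynomial.eval₂_map]
      rfl
    have hint := h2.isIntegral
    have h3 : ∀ q : Polynomial (Pool.Agent.W619.TW.stab E L1), ∃ s ∈ L1,
        E (Polynomial.aeval z q) = s + Polynomial.aeval z (Polynomial.derivative q) * E z := by
      intro q
      induction q using Polynomial.induction_on' with
      | add p q hp hq =>
        obtain ⟨s, hs, e1⟩ := hp
        obtain ⟨t, ht, e2⟩ := hq
        refine ⟨s + t, L1.add_mem hs ht, ?_⟩
        rw [map_add, map_add, e1, e2, Polynomial.derivative_add, map_add]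
        ring
      | monomial n a =>
        refine ⟨z ^ n * E (a : F), L1.mul_mem (pow_mem hzL n) a.2.2, ?_⟩
        rw [Polynomial.aeval_monomial, Polynomial.derivative_monomial, Polynomial.aeval_monomial,
          E.leibniz, E.leibniz_pow, map_mul, map_natCast]
        simp only [smul_eq_mul, nsmul_eq_mul]
        change (a : F) * _ + z ^ n * E (a : F) = z ^ n * E (a : F) + (a : F) * n * z ^ (n - 1) * E z
        ring
    have h4 : ∀ q : Polynomial (Pool.Agent.W619.TW.stab E L1), Polynomial.aeval z q ∈ L1 := by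
      intro q
      induction q using Polynomial.induction_on' with
      | add p q hp hq => rw [map_add]; exact L1.add_mem hp hq
      | monomial n a =>
        rw [Polynomial.aeval_monomial]
        exact L1.mul_mem a.2.1 (pow_mem hzL n)
    obtain ⟨s, hs, e1⟩ := h3 (minpoly (Pool.Agent.W619.TW.stab E L1) z)
    rw [minpoly.aeval, map_zero] at e1
    have hch : CharZero (Pool.Agent.W619.TW.stab E L1) :=
      charZero_of_injective_algebraMap (algebraMap k _).injective
    have h5 : Polynomial.aeval z
        (Polynomial.derivative (minpoly (Pool.Agent.W619.TW.stab E L1) z)) ≠ 0 :=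
      (minpoly.irreducible hint).separable.aeval_derivative_ne_zero (minpoly.aeval _ _)
    have h6 : E z = -s * (Polynomial.aeval z
        (Polynomial.derivative (minpoly (Pool.Agent.W619.TW.stab E L1) z)))⁻¹ := by
      rw [eq_mul_inv_iff_mul_eq₀ h5]
      linear_combination -e1
    rw [h6]
    exact L1.mul_mem (L1.neg_mem hs) (L1.inv_mem (h4 _))
  have hall : L1 ≤ Pool.Agent.W619.TW.stab E L1 := by
    conv_lhs => rw [hL1]
    rw [IntermediateField.adjoin_le_iff]
    rintro z (hz | hz)
    · exact ⟨hXL z hz, hX z hz⟩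
    · exact ⟨hAL z hz, key z (hAL z hz) (hA z hz)⟩
  exact fun z hz => (hall hz).2

end Pool.Agent.E8helper90.RC
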