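import Pool.Agent.E8helper90.RC.Mul
import Pool.Agent.E8helper90.RC.Alg

/-!
There are few points with centre in a subset of codimension two.
-/

set_option autoImplicit false

namespace Pool.Agent.E8helper90.RC

open Filter
open scoped ENNReal
open Pool.Agent.TH600.LC (clo mem_clo inv_mem_clo subset_clo clo_le clo_mono adjoin_le_clo)

variable {k F I : Type} [Field k] [Field F] [Algebra k F]

theorem poly3 {R : Type} [CommRing R] [Nontrivial R] (A B : R) :
    (Polynomial.X ^ 3 + Polynomial.C A * Polynomial.X + Polynomial.C B : Polynomial R) ≠ 0 := by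
  intro h2
  have h3 := congrArg (fun p => Polynomial.coeff p 3) h2
  simp [Polynomial.coeff_X, Polynomial.coeff_C] at h3

/-- the coordinates in a chart are independent -/
theorem c_ind [CharZero k] {r : ℕ} (G : RD k F r) (ε : Fin r → Bool) :
    AlgebraicIndependent G.S fun j => G.ch ε j false := by
  obtain ⟨c, hc⟩ : ∃ c : Fin r → F, c = fun j => G.ch ε j false := ⟨_, rfl⟩
  rw [← hc]
  obtain ⟨E, hE⟩ : ∃ E : IntermediateField G.S F, ∀ z, z ∈ E ↔ z ∈ clo G.S (Set.range c) :=
    ⟨(clo G.S (Set.range c)).toIntermediateField fun _ h => inv_mem_clo h, fun _ => Iff.rfl⟩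
  have hcE : ∀ j, c j ∈ E := fun j => (hE _).2 (subset_clo _ ⟨j, rfl⟩)
  have hyE : ∀ j, G.y j ∈ E := by
    intro j
    have h1 := hcE j
    rw [hc] at h1
    by_cases hε : ε j = true
    · have h2 : G.ch ε j false = G.y j := by simp [RD.ch, hε]
      change G.ch ε j false ∈ E at h1
      rwa [h2] at h1
    · have h2 : G.ch ε j false = (G.y j)⁻¹ := by simp [RD.ch, hε]
      change G.ch ε j false ∈ E at h1
      rw [h2] at h1
      have h3 := E.inv_mem h1
      rwa [inv_inv] at h3
  have hxE : ∀ j, G.x j ∈ E := by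
    intro j
    rw [hE]
    have h1 : G.x j ∈ clo G.S {G.y j} := by
      obtain ⟨yy, hyy⟩ : ∃ yy : Algebra.adjoin G.S ({G.y j} : Set F), (yy : F) = G.y j :=
        ⟨⟨_, Algebra.subset_adjoin rfl⟩, rfl⟩
      obtain ⟨A, hA⟩ : ∃ A : Algebra.adjoin G.S ({G.y j} : Set F), (A : F) = G.a j :=
        ⟨algebraMap _ _ (⟨_, G.cst _ (G.Da j)⟩ : G.S), rfl⟩
      obtain ⟨B, hB⟩ : ∃ B : Algebra.adjoin G.S ({G.y j} : Set F), (B : F) = G.b j :=
        ⟨algebraMap _ _ (⟨_, G.cst _ (G.Db j)⟩ : G.S), rfl⟩
      refine mem_clo.2 ⟨Polynomial.X ^ 3 + Polynomial.C A * Polynomial.X +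
        Polynomial.C (B - yy ^ 2), poly3 _ _, ?_⟩
      · simp only [map_add, map_mul, map_pow, Polynomial.aeval_X, Polynomial.aeval_C]
        change G.x j ^ 3 + (A : F) * G.x j + ((B - yy ^ 2 : Algebra.adjoin G.S ({G.y j} : Set F)) : F)
          = 0
        have h2 : ((B - yy ^ 2 : Algebra.adjoin G.S ({G.y j} : Set F)) : F) =
            (B : F) - (yy : F) ^ 2 := rfl
        rw [h2, hA, hB, hyy, G.hxy]
        ring
    refine clo_le ?_ h1
    rintro z hz
    rw [Set.mem_singleton_iff] at hz
    rw [hz]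
    exact (hE _).1 (hyE j)
  obtain ⟨x', hx'⟩ : ∃ x' : Fin r → E, ∀ j, (x' j : F) = G.x j := ⟨fun j => ⟨_, hxE j⟩, fun _ => rfl⟩
  obtain ⟨c', hc'⟩ : ∃ c' : Fin r → E, ∀ j, (c' j : F) = c j := ⟨fun j => ⟨_, hcE j⟩, fun _ => rfl⟩
  have hval : Function.Injective E.val := Subtype.val_injective
  have h1 : (E.val ∘ x') = G.x := funext hx'
  have h2 : (E.val ∘ c') = c := funext hc'
  have hxi : AlgebraicIndependent G.S x' := by
    rw [← AlgHom.algebraicIndependent_iff E.val hval, h1]
    exact G.ind
  have htr := hxi.lift_cardinalMk_le_trdeg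
  have halg : Algebra.IsAlgebraic (Algebra.adjoin G.S (Set.range c')) E := by
    refine ⟨fun z => alg_sub E c' ?_⟩
    have h3 : (fun i => (c' i : F)) = c := funext hc'
    rw [h3]
    exact (hE z).1 z.2
  have hb := Algebra.IsAlgebraic.isTranscendenceBasis_of_lift_le_trdeg_of_finite G.S c' htr
  rw [← h2, AlgHom.algebraicIndependent_iff E.val hval]
  exact hb.1

/-- **Few points with centre of codimension two.** -/
theorem Sys.cod2 {X : PS k F I} {r : ℕ} {G : RD k F r} (h : Sys X G) [CharZero k]
    (ε : Fin r → Bool) {m : ℕ} {u : Fin m → F} (hu : Set.range u = G.gen ε Set.univ)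
    {B : Type} [CommRing B] [IsDomain B] [Algebra G.S B]
    (mk : Algebra.adjoin G.S (Set.range u) →ₐ[G.S] B) (T : Finset (Fin m)) (hTr : T.card + 2 ≤ r)
    (hT : ∀ j, IsAlgebraic (Algebra.adjoin G.S
      ((fun j => mk ⟨u j, Algebra.subset_adjoin ⟨j, rfl⟩⟩) '' (T : Set (Fin m))))
      (mk ⟨u j, Algebra.subset_adjoin ⟨j, rfl⟩⟩))
    (Q : Finset (Algebra.adjoin G.S (Set.range u)))
    (hQ : ∀ z, mk z = 0 → z ∈ Ideal.span (Q : Set (Algebra.adjoin G.S (Set.range u)))) :
    X.Sm (ind {p | Ch X G ε p ∧ ∀ q ∈ Q, (q : F) = 0 ∨ 0 < X.o (q : F) p}) := by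
  classical
  obtain ⟨Z, hZ⟩ : ∃ Z : Set I, Z = {p | Ch X G ε p ∧ ∀ q ∈ Q, (q : F) = 0 ∨ 0 < X.o (q : F) p} :=
    ⟨_, rfl⟩
  rw [← hZ]
  -- memberships in the chart ring
  have hR : ∀ z : F, z ∈ Algebra.adjoin G.S (Set.range u) ↔ z ∈ G.R ε Set.univ := fun z => by
    rw [hu]
    exact Iff.rfl
  have huj : ∀ j, ∃ j' i, u j = G.ch ε j' i := fun j => by
    have h1 : u j ∈ G.gen ε Set.univ := hu ▸ ⟨j, rfl⟩
    obtain ⟨j', -, i, hi⟩ := h1
    exact ⟨j', i, hi⟩
  have he : ∀ j : Fin r, ∃ j' : Fin m, u j' = G.ch ε j false := fun j => by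
    have h1 : G.ch ε j false ∈ Set.range u := by
      rw [hu]
      exact ⟨j, Set.mem_univ j, false, rfl⟩
    exact h1
  choose e0 he0 using he
  have hind : AlgebraicIndependent G.S fun i => u (e0 i) := by
    have h1 : (fun i => u (e0 i)) = fun j => G.ch ε j false := funext he0
    rw [h1]
    exact c_ind G ε
  have hst : ∀ z ∈ G.S, X.D z ∈ G.S := by
    rw [h.D]
    exact G.st
  have hDR : ∀ j, X.D (u j) ∈ Algebra.adjoin G.S (Set.range u) := by
    intro j
    rw [h.D, hR]
    refine RD.R_stD ε _ ?_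
    rw [← hR]
    exact Algebra.subset_adjoin ⟨j, rfl⟩
  obtain ⟨C, hC⟩ : ∃ C : ℝ≥0∞, C = ∑ j, X.m (X.pl (u j)) := ⟨_, rfl⟩
  have hCtop : C ≠ ∞ := by
    rw [hC]
    refine ENNReal.sum_ne_top.2 fun j _ => ?_
    obtain ⟨j', i, hj⟩ := huj j
    rw [hj]
    exact h.fin ε j' i
  -- the estimate
  have key : ∀ A : ℕ, 0 < A → (A : ℝ≥0∞) * X.m (ind Z) ≤ C := by
    intro A hA
    obtain ⟨d, φ, hd, hφ0, hφ, hzero⟩ := aux hst hDR e0 hind mk T hTr hT A
    obtain ⟨τ0, hτ0, hpl⟩ := PS.pl_vs (X := X) (fun s hs => (h.S s).1 hs) hφ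
    -- the derivatives
    have hDit : ∀ i, X.D^[i] φ ∈ Algebra.adjoin G.S (Set.range u) := by
      intro i
      rw [hR, h.D]
      induction i with
      | zero => rw [← hR]; exact vs_adjoin hφ
      | succ i ih => rw [Function.iterate_succ_apply']; exact RD.R_stD ε _ ih
    have hcomb : ∀ i : Fin (A * d + 1), ∃ c : F → F, (∀ q, c q ∈ G.R ε Set.univ) ∧
        X.D^[i] φ = ∑ q ∈ Q, c (q : F) * (q : F) := by
      intro i
      have h1 := hQ _ (hzero i (Nat.lt_succ_iff.1 i.2) (hDit i))
      obtain ⟨c, hc⟩ := (Submodule.mem_span_finset'.1 h1)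
      refine ⟨fun z => if hz : ∃ q : Q, ((q : Algebra.adjoin G.S (Set.range u)) : F) = z then
        (c hz.choose : F) else 0, fun z => ?_, ?_⟩
      · dsimp only
        split_ifs with hz
        · exact (hR _).1 (c hz.choose).2
        · exact (G.R ε Set.univ).zero_mem
      · have h2 := congrArg (fun z : Algebra.adjoin G.S (Set.range u) => (z : F)) hc
        have h3 : ((∑ a : Q, c a • (a : Algebra.adjoin G.S (Set.range u)) :
            Algebra.adjoin G.S (Set.range u)) : F) =
            ∑ a : Q, (c a : F) * ((a : Algebra.adjoin G.S (Set.range u)) : F) := by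
          rw [AddSubmonoidClass.coe_finsetSum]
          rfl
        change ((∑ a : Q, c a • (a : Algebra.adjoin G.S (Set.range u)) :
            Algebra.adjoin G.S (Set.range u)) : F) = X.D^[i] φ at h2
        rw [← h2, h3, ← Finset.sum_coe_sort Q]
        refine Finset.sum_congr rfl fun a _ => ?_
        have h4 : ∃ q : Q, ((q : Algebra.adjoin G.S (Set.range u)) : F) =
            ((a : Algebra.adjoin G.S (Set.range u)) : F) := ⟨a, rfl⟩
        dsimp only
        rw [dif_pos h4]
        have h5 : h4.choose = a := Subtype.ext (Subtype.ext h4.choose_spec)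
        rw [h5]
    choose c hcR hceq using hcomb
    choose τ hτ1 hτ2 using fun (i : Fin (A * d + 1)) (q : F) => h.pl_R ε (hcR i q)
    obtain ⟨σ, hσ⟩ : ∃ σ : I → ℕ, σ = fun p => (∑ i, ∑ q ∈ Q, τ i (q : F) p) + (-X.v p).toNat :=
      ⟨_, rfl⟩
    have hσs : X.Sm σ := by
      rw [hσ]
      exact (PS.Sm.sum Finset.univ fun i _ =>
        PS.Sm.sum Q (β := fun q => τ i (q : F)) fun q _ => hτ1 i (q : F)).add X.m_v
    -- zeros of high order
    have hmain : ∀ᶠ p in X.H, (A * d) * ind Z p ≤ X.zr φ p + (A * d) * σ p := by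
      filter_upwards [eventually_all.2 fun i : Fin (A * d + 1) =>
          (eventually_all_finset Q).2 fun q _ => hτ2 i (q : F),
        eventually_all.2 fun i : Fin (A * d + 1) =>
          (eventually_all_finset Q).2 fun q _ => PS.ge_mul (c i (q : F)) (q : F),
        eventually_all.2 fun i : Fin (A * d + 1) =>
          PS.ge_sum Q fun q => c i (q : F) * (q : F),
        eventually_all.2 fun i : Fin (A * d + 1) => X.o_der (X.D^[i] φ), X.v_le]
        with p e1 e2 e3 e4 e5
      by_cases hp : p ∈ Z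
      · rw [ind_of_mem hp, mul_one]
        by_cases hσ0 : σ p = 0
        · rw [hσ] at hσ0
          have h6 : ∑ i, ∑ q ∈ Q, τ i (q : F) p = 0 := by
            have : (∑ i, ∑ q ∈ Q, τ i (q : F) p) + (-X.v p).toNat = 0 := hσ0
            omega
          have hv : X.v p = 0 := by
            have : (∑ i, ∑ q ∈ Q, τ i (q : F) p) + (-X.v p).toNat = 0 := hσ0
            omega
          rw [hZ] at hp
          obtain ⟨hch, hq⟩ := hp
          have h7 : ∀ i : Fin (A * d + 1), X.ge (X.D^[i] φ) 1 p := by
            intro i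
            rw [hceq]
            refine e3 i 1 fun q hqQ => ?_
            have h8 : τ i (q : F) p = 0 := by
              have h9 := (Finset.sum_eq_zero_iff_of_nonneg (fun _ _ => Nat.zero_le _)).1 h6 i
                (Finset.mem_univ i)
              exact (Finset.sum_eq_zero_iff_of_nonneg (fun _ _ => Nat.zero_le _)).1 h9 q hqQ
            have h9 := e1 i q hqQ hch
            rw [h8] at h9
            have h10 : X.ge (q : F) 1 p := (hq q hqQ).imp id fun h => h
            have h11 := e2 i q hqQ _ _ (PS.ge_pl h9) h10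
            simpa using h11
          -- the order is large
          have h8 : ∀ l : ℕ, l ≤ A * d → X.ge (X.D^[A * d - l] φ) (l + 1) p := by
            intro l
            induction l with
            | zero =>
              intro _
              have := h7 ⟨A * d, Nat.lt_succ_self _⟩
              simpa using this
            | succ l ih =>
              intro hl
              have h9 := ih (by omega)
              have h10 : A * d - l = (A * d - (l + 1)) + 1 := by omega
              rw [h10, Function.iterate_succ_apply'] at h9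
              have h11 := h7 ⟨A * d - (l + 1), by omega⟩
              have h12 := e4 ⟨A * d - (l + 1), by omega⟩
              change X.ge (X.D^[A * d - (l + 1)] φ) 1 p at h11
              change X.o (X.D^[A * d - (l + 1)] φ) p ≠ 0 → X.D (X.D^[A * d - (l + 1)] φ) ≠ 0 ∧
                X.o (X.D (X.D^[A * d - (l + 1)] φ)) p =
                  X.o (X.D^[A * d - (l + 1)] φ) p - 1 + X.v p at h12
              rcases h11 with h11 | h11
              · exact Or.inl h11
              · obtain ⟨h13, h14⟩ := h12 (by omega)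
                have h15 := h9.resolve_left h13
                right
                push_cast
                omega
          have h9 := h8 (A * d) le_rfl
          rw [Nat.sub_self, Function.iterate_zero, id] at h9
          have h10 := h9.resolve_left hφ0
          have h11 : A * d ≤ X.zr φ p := by
            unfold PS.zr
            have h12 : ((A * d : ℕ) : ℤ) ≤ X.o φ p := by omega
            omega
          omega
        · have h6 : A * d * 1 ≤ A * d * σ p := Nat.mul_le_mul_left _ (Nat.pos_of_ne_zero hσ0)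
          omega
      · rw [ind_of_not hp, mul_zero]
        exact Nat.zero_le _
    have h1 : ((A * d : ℕ) : ℝ≥0∞) * X.m (ind Z) ≤ d * C := by
      calc ((A * d : ℕ) : ℝ≥0∞) * X.m (ind Z) ≤ X.m fun p => (A * d) * ind Z p := X.m_mul _ _
        _ ≤ X.m fun p => X.zr φ p + (A * d) * σ p := X.m_mono hmain
        _ ≤ X.m (X.zr φ) + X.m fun p => (A * d) * σ p := X.m_add _ _
        _ = X.m (X.zr φ) := by
          have h2 : X.m (fun p => (A * d) * σ p) = 0 := PS.Sm.mul hσs (A * d)
          rw [h2, add_zero]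
        _ ≤ X.m (X.pl φ) := X.m_prod hφ0
        _ ≤ X.m fun p => τ0 p + d * ∑ j, X.pl (u j) p := X.m_mono hpl
        _ ≤ X.m τ0 + X.m fun p => d * ∑ j, X.pl (u j) p := X.m_add _ _
        _ = X.m fun p => d * ∑ j, X.pl (u j) p := by
          have h2 : X.m τ0 = 0 := hτ0
          rw [h2, zero_add]
        _ ≤ d * X.m (fun p => ∑ j, X.pl (u j) p) := PS.m_mul_le d _
        _ ≤ d * C := by
          rw [hC]
          exact mul_le_mul_right (PS.m_sum_le Finset.univ fun j => X.pl (u j)) _
    have hd0 : (d : ℝ≥0∞) ≠ 0 := by exact_mod_cast hd.ne'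
    have hdt : (d : ℝ≥0∞) ≠ ∞ := ENNReal.natCast_ne_top d
    have h2 : (d : ℝ≥0∞) * (A * X.m (ind Z)) ≤ d * C := by
      refine le_trans (le_of_eq ?_) h1
      push_cast
      ring
    exact (ENNReal.mul_le_mul_iff_right hd0 hdt).1 h2
  -- conclusion
  change X.m (ind Z) = 0
  by_contra hne
  have h1 : X.m (ind Z) ≠ ∞ := by
    intro htop
    have h2 := key 1 one_pos
    rw [htop, Nat.cast_one, one_mul, top_le_iff] at h2
    exact hCtop h2
  obtain ⟨A, hA⟩ := ENNReal.exists_nat_mul_gt hne hCtop
  have hA0 : 0 < A := by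
    rcases Nat.eq_zero_or_pos A with rfl | h2
    · simp at hA
    · exact h2
  exact absurd (key A hA0) (not_le.2 hA)

end Pool.Agent.E8helper90.RC
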