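import Pool.Agent.E8helper90.RC.Alg

/-!
Subfields of general type of the field generated by moving points consist of small functions.
-/

set_option autoImplicit false

namespace Pool.Agent.E8helper90.RC

open FF Pool.Agent.E8helper90.AF Pool.Agent.W602.GT Pool.Agent.W603.LV
open Pool.Agent.E8helper90.GL (kerF mem_kerF ker_clo alg_of_field)
open Pool.Agent.TH600.LC (clo mem_clo inv_mem_clo subset_clo clo_le clo_mono adjoin_le_clo
  der_mem_clo coe_clo)
open Pool.Agent.TH143.GT (Dual)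

variable {k F : Type} [Field k] [Field F] [Algebra k F]

/-- the field of the functions which are algebraic over the moving points -/
noncomputable def L0 {r : ℕ} (G : RD k F r) : IntermediateField k F where
  carrier := (clo G.S (Set.range G.x) : Set F)
  mul_mem' := fun ha hb => Subalgebra.mul_mem _ ha hb
  one_mem' := Subalgebra.one_mem _
  add_mem' := fun ha hb => Subalgebra.add_mem _ ha hb
  zero_mem' := Subalgebra.zero_mem _
  algebraMap_mem' := fun c => Subalgebra.algebraMap_mem _ (algebraMap k G.S c)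
  inv_mem' := fun _ hz => inv_mem_clo hz

theorem mem_L0 {r : ℕ} {G : RD k F r} {z : F} : z ∈ L0 G ↔ z ∈ clo G.S (Set.range G.x) := Iff.rfl

theorem S_le_L0 {r : ℕ} {G : RD k F r} {z : F} (hz : z ∈ G.S) : z ∈ clo G.S (Set.range G.x) :=
  Subalgebra.algebraMap_mem (clo G.S (Set.range G.x)) (⟨z, hz⟩ : G.S)

theorem x_mem_L0 {r : ℕ} {G : RD k F r} (j : Fin r) : G.x j ∈ clo G.S (Set.range G.x) :=
  subset_clo _ ⟨j, rfl⟩

/-- finitely many elements suffice -/
theorem clo_fin_set {ι : Type} {b : ι → F} {X A : Set F} (hA : A.Finite)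
    (h : ∀ z ∈ A, z ∈ clo k (X ∪ Set.range b)) :
    ∃ B : Finset ι, ∀ z ∈ A, z ∈ clo k (X ∪ b '' (B : Set ι)) := by
  classical
  induction A, hA using Set.Finite.induction_on with
  | empty => exact ⟨∅, fun z hz => absurd hz (Set.notMem_empty z)⟩
  | @insert a A _ _ ih =>
    obtain ⟨B, hB⟩ := ih fun z hz => h z (Set.mem_insert_of_mem _ hz)
    obtain ⟨B', hB'⟩ := clo_fin (h a (Set.mem_insert _ _))
    refine ⟨B ∪ B', fun z hz => ?_⟩
    rw [Finset.coe_union, Set.image_union]
    rcases hz with rfl | hz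
    · exact clo_mono (Set.union_subset_union_right _ Set.subset_union_right) hB'
    · exact clo_mono (Set.union_subset_union_right _ Set.subset_union_left) (hB z hz)

theorem form_small [CharZero k] {r : ℕ} (hr : 0 < r) {G : RD k F r}
    (ha : ∀ j, ∃ c : k, G.a j = algebraMap k F c) (hb' : ∀ j, ∃ c : k, G.b j = algebraMap k F c)
    (hH : ∀ g ∈ clo G.S (Set.range G.x), g ∉ G.S → ∃ ε w, LV G ε w ∧ w g < 0)
    {ι : Type} {b : ι → F} (hb : Fam G b) (K : IntermediateField k F)
    (hK : ∀ z ∈ K, z ∈ clo G.S (Set.range G.x)) (hfg : K.FG) {w N : ℕ}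
    (htr : Algebra.trdeg k K = w) (hN : 0 < N) {ω : (Fin w → Derivation k K K) → K}
    (hω : IsPluri N ω) (hreg : ∀ P : Place k K, Divisorial w P → RegAt P ω)
    {η : Fin w → K} {E : Fin w → Derivation k K K} (hE : Dual η E)
    {E' : Fin w → Derivation k F F} (hE' : ∀ i, Good G b (E' i)) :
    ((ω E : K) : F) * (Matrix.of fun i j => E' i (η j : F)).det ^ N ∈ G.S := by
  classical
  obtain ⟨g, hg⟩ : ∃ g : F, g = ((ω E : K) : F) * (Matrix.of fun i j => E' i (η j : F)).det ^ N :=
    ⟨_, rfl⟩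
  rw [← hg]
  by_contra hgS
  have hy0 : ∀ j, G.y j ∈ clo G.S (Set.range G.x) := fun j =>
    R_le_L0 (ε := fun _ => true) (J := Set.univ) (by
      have h1 := RD.ch_mem (G := G) (ε := fun _ => true) (Set.mem_univ j) false
      have h2 : G.ch (fun _ => true) j false = G.y j := by simp [RD.ch]
      rwa [h2] at h1)
  have hEL : ∀ i, ∀ z ∈ clo G.S (Set.range G.x), E' i z ∈ clo G.S (Set.range G.x) := by
    intro i z hz
    have hch : CharZero F := charZero_of_injective_algebraMap (algebraMap k F).injective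
    have h1 := der_mem_clo (E' i) (fun c => ⟨⟨_, (hE' i).S c c.2⟩, rfl⟩) hz
    refine clo_le ?_ h1
    rintro _ (⟨j, rfl⟩ | ⟨_, ⟨j, rfl⟩, rfl⟩)
    · exact x_mem_L0 j
    · obtain ⟨c, hc⟩ := (hE' i).x j
      change E' i (G.x j) ∈ clo G.S (Set.range G.x)
      rw [hc]
      exact mem_L0.1 ((L0 G).mul_mem ((L0 G).algebraMap_mem c) (mem_L0.2 (hy0 j)))
  have hgL : g ∈ clo G.S (Set.range G.x) := by
    rw [hg]
    refine mem_L0.1 ((L0 G).mul_mem (mem_L0.2 (hK _ (ω E).2)) (pow_mem ?_ N))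
    rw [Matrix.det_apply]
    refine sum_mem fun σ _ => ?_
    have h1 : ∏ i, (Matrix.of fun i j => E' i (η j : F)) (σ i) i ∈ L0 G :=
      prod_mem fun i _ => mem_L0.2 (hEL _ _ (hK _ (η i).2))
    rcases Int.units_eq_one_or (Equiv.Perm.sign σ) with h | h
    · rw [h, one_smul]
      exact h1
    · rw [h, Units.neg_smul, one_smul]
      exact (L0 G).neg_mem h1
  obtain ⟨ε, wv, hv, hneg⟩ := hH g hgL hgS
  obtain ⟨t, ht, hwt⟩ := hv.t
  obtain ⟨T, hTR, hT⟩ := hv.T
  obtain ⟨A, hA⟩ := hfg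
  obtain ⟨A1, hA1⟩ : ∃ A1 : Set F, A1 = (A : Set F) ∪ ({t} ∪ (Set.range T ∪ Set.range G.y)) :=
    ⟨_, rfl⟩
  have hA1f : A1.Finite := by
    rw [hA1]
    exact A.finite_toSet.union ((Set.finite_singleton t).union
      ((Set.finite_range T).union (Set.finite_range G.y)))
  have hA1L : ∀ z ∈ A1, z ∈ clo G.S (Set.range G.x) := by
    rw [hA1]
    rintro z (hz | hz | ⟨i, rfl⟩ | ⟨j, rfl⟩)
    · refine hK z ?_
      rw [← hA]
      exact IntermediateField.subset_adjoin _ _ hz
    · rw [Set.mem_singleton_iff] at hz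
      rw [hz]
      exact R_le_L0 ht
    · exact R_le_L0 (hTR i)
    · exact hy0 j
  obtain ⟨B, hB⟩ := clo_fin_set hA1f fun z hz => L0_clo hb (hA1L z hz)
  obtain ⟨X, hX⟩ : ∃ X : Set F, X = Set.range G.x ∪ b '' (B : Set ι) := ⟨_, rfl⟩
  rw [← hX] at hB
  obtain ⟨L1, hL1⟩ : ∃ L1 : IntermediateField k F, L1 = IntermediateField.adjoin k (X ∪ A1) :=
    ⟨_, rfl⟩
  have hXL : ∀ z ∈ X, z ∈ L1 := fun z hz => by
    rw [hL1]
    exact IntermediateField.subset_adjoin _ _ (Or.inl hz)
  have hAL : ∀ z ∈ A1, z ∈ L1 := fun z hz => by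
    rw [hL1]
    exact IntermediateField.subset_adjoin _ _ (Or.inr hz)
  have hKL : K ≤ L1 := by
    rw [← hA, IntermediateField.adjoin_le_iff]
    intro z hz
    exact hAL z (by rw [hA1]; exact Or.inl hz)
  have htL : t ∈ L1 := hAL t (by rw [hA1]; exact Or.inr (Or.inl rfl))
  have hTL : ∀ i, T i ∈ L1 := fun i => hAL _ (by
    rw [hA1]; exact Or.inr (Or.inr (Or.inl ⟨i, rfl⟩)))
  have hyL : ∀ j, G.y j ∈ L1 := fun j => hAL _ (by
    rw [hA1]; exact Or.inr (Or.inr (Or.inr ⟨j, rfl⟩)))
  have hxL : ∀ j, G.x j ∈ L1 := fun j => hXL _ (by rw [hX]; exact Or.inl ⟨j, rfl⟩)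
  have hbL : ∀ i ∈ B, b i ∈ L1 := fun i hi => hXL _ (by
    rw [hX]; exact Or.inr ⟨i, Finset.mem_coe.2 hi, rfl⟩)
  have hL1L : ∀ z ∈ L1, z ∈ clo G.S (Set.range G.x) := by
    have h1 : L1 ≤ L0 G := by
      rw [hL1, IntermediateField.adjoin_le_iff]
      rintro z (hz | hz)
      · rw [hX] at hz
        rcases hz with ⟨j, rfl⟩ | ⟨i, -, rfl⟩
        · exact mem_L0.2 (x_mem_L0 j)
        · exact mem_L0.2 (S_le_L0 (hb.mem i))
      · exact mem_L0.2 (hA1L z hz)
    exact fun z hz => mem_L0.1 (h1 hz)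
  have hL1X : ∀ z ∈ L1, z ∈ clo k X := by
    have h1 : L1 ≤ (clo k X).toIntermediateField fun _ h => inv_mem_clo h := by
      rw [hL1, IntermediateField.adjoin_le_iff]
      rintro z (hz | hz)
      · exact subset_clo _ hz
      · exact hB z hz
    exact fun z hz => h1 hz
  -- the place
  let P : Place k L1 :=
    { ord := fun z => wv (z : F)
      ord_zero := hv.zero
      ord_mul := fun {f g} hf hg => hv.mul _ (hL1L f f.2) _ (hL1L g g.2)
        (fun h => hf (Subtype.ext h)) fun h => hg (Subtype.ext h)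
      ord_add := fun {f g} hf hg hfg => hv.add _ (hL1L f f.2) _ (hL1L g g.2)
        (fun h => hf (Subtype.ext h)) (fun h => hg (Subtype.ext h)) fun h => hfg (Subtype.ext h)
      ord_const := fun {c} _ => hv.S _ (G.S.algebraMap_mem c)
      surj := ⟨⟨t, htL⟩, fun h => by
        have h1 : t = 0 := congrArg Subtype.val h
        rw [h1, hv.zero] at hwt
        exact zero_ne_one hwt, hwt⟩ }
  have hPord : ∀ z : L1, P.ord z = wv (z : F) := fun _ => rfl
  -- the transcendence degree
  obtain ⟨m, hm⟩ : ∃ m, m = (r - 1) + B.card := ⟨_, rfl⟩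
  have htrL : Algebra.trdeg k L1 = (m + 1 : ℕ) := by
    let q1 : Fin r ⊕ B → L1 := Sum.elim (fun j => ⟨G.x j, hxL j⟩) fun i => ⟨b i, hbL i i.2⟩
    have hq0 : (fun s => (q1 s : F)) = (Sum.elim G.x b) ∘ (Sum.map id Subtype.val) := by
      funext s
      rcases s with s | s <;> rfl
    have hq1 : AlgebraicIndependent k q1 := by
      refine (AlgHom.algebraicIndependent_iff L1.val Subtype.val_injective).1 ?_
      change AlgebraicIndependent k fun s => (q1 s : F)
      rw [hq0]
      exact hb.ind.comp _ (Sum.map_injective.2 ⟨Function.injective_id, Subtype.val_injective⟩)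
    have hq2 : IsTranscendenceBasis k q1 := by
      refine hq1.isTranscendenceBasis_iff_isAlgebraic.2 ⟨fun z => alg_sub L1 q1 ?_⟩
      refine clo_mono ?_ (hL1X z z.2)
      rw [hX]
      rintro z (⟨j, rfl⟩ | ⟨i, hi, rfl⟩)
      · exact ⟨Sum.inl j, rfl⟩
      · exact ⟨Sum.inr ⟨i, hi⟩, rfl⟩
    rw [← hq2.cardinalMk_eq_trdeg]
    simp only [Cardinal.mk_sum, Cardinal.mk_fin, Cardinal.mk_coe_finset, Cardinal.lift_natCast,
      Cardinal.lift_id]
    rw [hm]
    norm_cast
    omega
  have hess : Algebra.EssFiniteType k L1 := by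
    refine IntermediateField.essFiniteType_iff.2 ?_
    rw [hL1]
    refine IntermediateField.fg_adjoin_of_finite (Set.Finite.union ?_ hA1f)
    rw [hX]
    exact (Set.finite_range _).union (B.finite_toSet.image _)
  have hessK : Algebra.EssFiniteType k K := IntermediateField.essFiniteType_iff.2 ⟨A, hA⟩
  -- residually independent elements
  have hcard : Fintype.card (Fin (r - 1) ⊕ B) = m := by
    rw [Fintype.card_sum, Fintype.card_fin, Fintype.card_coe, hm]
  let e : Fin m ≃ Fin (r - 1) ⊕ B := (Fintype.equivFinOfCardEq hcard).symm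
  let y1 : Fin (r - 1) ⊕ B → L1 := Sum.elim (fun i => ⟨T i, hTL i⟩) fun i => ⟨b i, hbL i i.2⟩
  have hy1 : (fun s => (y1 s : F)) = Sum.elim T fun i : B => b i := by
    funext s
    rcases s with s | s <;> rfl
  have hres : ∀ p : MvPolynomial (Fin m) k, p ≠ 0 →
      MvPolynomial.aeval (fun i => y1 (e i)) p ≠ 0 ∧
        P.ord (MvPolynomial.aeval (fun i => y1 (e i)) p) = 0 := by
    intro p hp
    have h1 : ((MvPolynomial.aeval (fun i => y1 (e i)) p : L1) : F) =
        MvPolynomial.aeval (Sum.elim T fun i : B => b i) (MvPolynomial.rename e p) := by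
      have h2 := MvPolynomial.comp_aeval_apply (f := fun i => y1 (e i)) L1.val p
      change ((MvPolynomial.aeval (fun i => y1 (e i)) p : L1) : F) = _ at h2
      rw [h2, MvPolynomial.aeval_rename]
      congr 2
      funext i
      exact congrFun hy1 (e i)
    have h3 : MvPolynomial.rename e p ≠ 0 := by
      rw [Ne, ← map_zero (MvPolynomial.rename (R := k) e),
        (MvPolynomial.rename_injective e e.injective).eq_iff]
      exact hp
    obtain ⟨h4, h5⟩ := resid hb B hT _ h3
    rw [← h1] at h4 h5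
    exact ⟨fun h => h4 (by rw [h]; rfl), h5⟩
  have hdiv : Divisorial (m + 1) P := ⟨fun i => y1 (e i), hres⟩
  -- the derivations
  have hstab : ∀ i, ∀ z ∈ L1, E' i z ∈ L1 := by
    intro i
    rw [hL1]
    refine stab_adjoin ?_ hB
    intro z hz
    rw [← hL1]
    rw [hX] at hz
    rcases hz with ⟨j, rfl⟩ | ⟨l, -, rfl⟩
    · obtain ⟨c, hc⟩ := (hE' i).x j
      rw [hc]
      exact L1.mul_mem (L1.algebraMap_mem c) (hyL j)
    · obtain ⟨c, hc⟩ := (hE' i).b l
      rw [hc]
      exact L1.algebraMap_mem c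
  obtain ⟨D, hD⟩ : ∃ D : Fin w → Derivation k L1 L1, ∀ i z, (D i z : F) = E' i (z : F) :=
    ⟨fun i => resDerF (E' i) L1 (hstab i), fun i z => coe_resDerF _ _ _ _⟩
  have hDR : ∀ i, ∀ z : L1, (z : F) ∈ G.R ε Set.univ → P.Reg (D i z) := by
    intro i z hz
    right
    rw [hPord, hD]
    exact hv.R _ ((hE' i).R ha hb' ε _ hz)
  have hDreg : ∀ i, DerReg P (D i) := by
    intro i
    refine der_reg' htrL P (s := ⟨t, htL⟩) (y' := fun l => y1 (e l)) hwt hres (D i) ?_ ?_
    · exact hDR i _ ht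
    · intro l
      rcases h : e l with j | j
      · refine hDR i _ ?_
        exact hTR j
      · right
        rw [hPord, hD]
        obtain ⟨c, hc⟩ := (hE' i).b j
        have h1 : E' i ((y1 (Sum.inr j) : L1) : F) = algebraMap k F c := hc
        rw [h1, hv.S _ (G.S.algebraMap_mem c)]
  let iA : Algebra K L1 := (IntermediateField.inclusion hKL).toRingHom.toAlgebra
  have hst : IsScalarTower k K L1 := IsScalarTower.of_algebraMap_eq fun _ => rfl
  have hfin := pluri_reg (K := K) (L := L1) htr htrL hN hω hreg hE P hdiv D hDreg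
  have hcoe : ((algebraMap K L1 (ω E) *
      (Matrix.of fun i j => D i (algebraMap K L1 (η j))).det ^ N : L1) : F) = g := by
    rw [hg]
    change ((algebraMap K L1 (ω E) : L1) : F) * (L1.val
      (Matrix.of fun i j => D i (algebraMap K L1 (η j))).det) ^ N = _
    have h1 : L1.val (Matrix.of fun i j => D i (algebraMap K L1 (η j))).det =
        (Matrix.of fun i j => E' i (η j : F)).det := by
      rw [AlgHom.map_det]
      congr 1
      ext i j
      exact hD i _
    rw [h1]
    rfl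
  rcases hfin with h | h
  · rw [h] at hcoe
    have h0 : g = 0 := hcoe.symm
    rw [h0, hv.zero] at hneg
    exact lt_irrefl _ hneg
  · rw [hPord, hcoe] at h
    omega

/-- **Subfields of general type.** -/
theorem core_alg [CharZero k] {r : ℕ} {G : RD k F r}
    (ha : ∀ j, ∃ c : k, G.a j = algebraMap k F c) (hb' : ∀ j, ∃ c : k, G.b j = algebraMap k F c)
    (hH : ∀ g ∈ clo G.S (Set.range G.x), g ∉ G.S → ∃ ε w, LV G ε w ∧ w g < 0)
    (K : IntermediateField k F) (hK : ∀ z ∈ K, z ∈ clo G.S (Set.range G.x)) (hfg : K.FG) {w : ℕ}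
    (hGT : GeneralType k K w) : ∀ z ∈ K, z ∈ G.S := by
  classical
  rcases Nat.eq_zero_or_pos r with hr | hr
  · subst hr
    intro z hz
    apply G.closed
    have h1 := mem_clo.1 (hK z hz)
    have h2 : Set.range G.x = ∅ := Set.range_eq_empty _
    rw [h2, Algebra.adjoin_empty] at h1
    obtain ⟨p, hp, hp0⟩ := h1
    let e := (Algebra.botEquiv G.S F)
    refine ⟨p.map (e : _ →+* _), (Polynomial.map_ne_zero_iff e.injective).2 hp, ?_⟩
    rw [Polynomial.aeval_def, Polynomial.eval₂_map, ← hp0, Polynomial.aeval_def]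
    congr 1
    ext c
    have h3 := e.symm.commutes (e c)
    have h4 : algebraMap G.S (⊥ : Subalgebra G.S F) (e c) = c := by
      have h5 : e (algebraMap G.S (⊥ : Subalgebra G.S F) (e c)) = e c := e.commutes (e c)
      exact e.injective h5
    change algebraMap G.S F (e c) = (c : F)
    conv_rhs => rw [← h4]
    rfl
  obtain ⟨htr, N, hN, ω, hω, hreg, D0, hD0, hind⟩ := hGT
  obtain ⟨ι, b, hb⟩ := exists_fam G
  obtain ⟨κ, η0, hη0⟩ := exists_isTranscendenceBasis' k K
  have hcard : Cardinal.mk κ = Cardinal.mk (Fin w) := by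
    rw [hη0.cardinalMk_eq_trdeg, htr, Cardinal.mk_fin]
  obtain ⟨e⟩ := Cardinal.eq.1 hcard
  obtain ⟨η, hη⟩ : ∃ η : Fin w → K, IsTranscendenceBasis k η :=
    ⟨η0 ∘ e.symm, (isTranscendenceBasis_equiv e.symm).2 hη0⟩
  choose E hE using fun i : Fin w => Pool.Agent.W619.PQ.exists_dual η hη i
  have hdual : Dual η E := ⟨hη, fun i j => by
    rw [hE]
    by_cases h : j = i
    · rw [if_pos h, if_pos h.symm]
    · rw [if_neg h, if_neg (Ne.symm h)]⟩
  have hηF : AlgebraicIndependent k fun i => (η i : F) :=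
    (AlgHom.algebraicIndependent_iff K.val Subtype.val_injective).2 hη.1
  obtain ⟨E', hE', hdet⟩ := exists_good hb hηF fun i => hK _ (η i).2
  have hgS : ∀ a, ((ω a E : K) : F) * (Matrix.of fun i j => E' i (η j : F)).det ^ N ∈ G.S :=
    fun a => form_small hr ha hb' hH hb K hK hfg htr hN (hω a) (fun P hP => hreg P hP a) hdual hE'
  have hω0 : ∀ a, ω a D0 = (Matrix.of fun i j => D0 i (η j)).det ^ N * ω a E :=
    fun a => pluri_eq (hω a) hdual D0
  have hd0 : (Matrix.of fun i j => D0 i (η j)).det ^ N ≠ 0 := fun h => hD0 (by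
    rw [hω0, h, zero_mul])
  have hE0 : ω 0 E ≠ 0 := fun h => hD0 (by rw [hω0, h, mul_zero])
  have hrat : ∀ i : Fin w, ((ω i.succ D0 / ω 0 D0 : K) : F) ∈ G.S := by
    intro i
    have h1 : ((ω i.succ D0 / ω 0 D0 : K) : F) =
        (((ω i.succ E : K) : F) * (Matrix.of fun i j => E' i (η j : F)).det ^ N) /
        (((ω 0 E : K) : F) * (Matrix.of fun i j => E' i (η j : F)).det ^ N) := by
      have h2 : ω i.succ D0 / ω 0 D0 = ω i.succ E / ω 0 E := by
        rw [hω0, hω0, mul_div_mul_left _ _ hd0]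
      rw [h2, mul_div_mul_right _ _ (pow_ne_zero N hdet)]
      rfl
    rw [h1]
    exact G.S.div_mem (hgS _) (hgS _)
  have hbas : IsTranscendenceBasis k fun i : Fin w => ω i.succ D0 / ω 0 D0 := by
    apply hind.isTranscendenceBasis_of_lift_trdeg_le_of_finite
    rw [htr]
    simp
  intro z hz
  apply G.closed
  obtain ⟨p, hp, hp0⟩ := hbas.isAlgebraic.isAlgebraic (⟨z, hz⟩ : K)
  have hle : ∀ c : Algebra.adjoin k (Set.range fun i : Fin w => ω i.succ D0 / ω 0 D0),
      ((c : K) : F) ∈ G.S := by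
    intro c
    have h1 : Algebra.adjoin k (Set.range fun i : Fin w => ω i.succ D0 / ω 0 D0) ≤
        G.S.toSubalgebra.comap K.val := by
      refine Algebra.adjoin_le ?_
      rintro _ ⟨i, rfl⟩
      exact hrat i
    exact h1 c.2
  let φ : Algebra.adjoin k (Set.range fun i : Fin w => ω i.succ D0 / ω 0 D0) →+* G.S :=
    { toFun := fun c => ⟨((c : K) : F), hle c⟩
      map_one' := rfl
      map_mul' := fun _ _ => rfl
      map_zero' := rfl
      map_add' := fun _ _ => rfl }
  have hφ : Function.Injective φ := by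
    intro a b hab
    have : ((a : K) : F) = ((b : K) : F) := congrArg (fun s : G.S => (s : F)) hab
    exact Subtype.ext (Subtype.ext this)
  refine ⟨p.map φ, (Polynomial.map_ne_zero_iff hφ).2 hp, ?_⟩
  have h4 := Polynomial.hom_eval₂ p (algebraMap _ K) (algebraMap K F) (⟨z, hz⟩ : K)
  rw [Polynomial.aeval_def] at hp0
  rw [hp0, map_zero] at h4
  rw [Polynomial.aeval_def, Polynomial.eval₂_map, h4]
  rfl

/-- **Quotients of pluricanonical forms.** -/
theorem ratio_small [CharZero k] {r : ℕ} {G : RD k F r}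
    (ha : ∀ j, ∃ c : k, G.a j = algebraMap k F c) (hb' : ∀ j, ∃ c : k, G.b j = algebraMap k F c)
    (hH : ∀ g ∈ clo G.S (Set.range G.x), g ∉ G.S → ∃ ε w, LV G ε w ∧ w g < 0)
    (K : IntermediateField k F) (hK : ∀ z ∈ K, z ∈ clo G.S (Set.range G.x)) (hfg : K.FG)
    {w N : ℕ} (htr : Algebra.trdeg k K = w) (hN : 0 < N)
    {ω ω' : (Fin w → Derivation k K K) → K} (hω : IsPluri N ω) (hω' : IsPluri N ω')
    (hreg : ∀ P : Place k K, Divisorial w P → RegAt P ω)
    (hreg' : ∀ P : Place k K, Divisorial w P → RegAt P ω')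
    {D0 : Fin w → Derivation k K K} (hD0 : ω D0 ≠ 0) : ((ω' D0 / ω D0 : K) : F) ∈ G.S := by
  classical
  rcases Nat.eq_zero_or_pos r with hr | hr
  · subst hr
    apply G.closed
    have h1 := mem_clo.1 (hK _ (ω' D0 / ω D0).2)
    have h2 : Set.range G.x = ∅ := Set.range_eq_empty _
    rw [h2, Algebra.adjoin_empty] at h1
    obtain ⟨p, hp, hp0⟩ := h1
    let e := (Algebra.botEquiv G.S F)
    refine ⟨p.map (e : _ →+* _), (Polynomial.map_ne_zero_iff e.injective).2 hp, ?_⟩
    rw [Polynomial.aeval_def, Polynomial.eval₂_map, ← hp0, Polynomial.aeval_def]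
    congr 1
    ext c
    have h4 : algebraMap G.S (⊥ : Subalgebra G.S F) (e c) = c := by
      have h5 : e (algebraMap G.S (⊥ : Subalgebra G.S F) (e c)) = e c := e.commutes (e c)
      exact e.injective h5
    change algebraMap G.S F (e c) = (c : F)
    conv_rhs => rw [← h4]
    rfl
  obtain ⟨ι, b, hb⟩ := exists_fam G
  obtain ⟨κ, η0, hη0⟩ := exists_isTranscendenceBasis' k K
  have hcard : Cardinal.mk κ = Cardinal.mk (Fin w) := by
    rw [hη0.cardinalMk_eq_trdeg, htr, Cardinal.mk_fin]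
  obtain ⟨e⟩ := Cardinal.eq.1 hcard
  obtain ⟨η, hη⟩ : ∃ η : Fin w → K, IsTranscendenceBasis k η :=
    ⟨η0 ∘ e.symm, (isTranscendenceBasis_equiv e.symm).2 hη0⟩
  choose E hE using fun i : Fin w => Pool.Agent.W619.PQ.exists_dual η hη i
  have hdual : Dual η E := ⟨hη, fun i j => by
    rw [hE]
    by_cases h : j = i
    · rw [if_pos h, if_pos h.symm]
    · rw [if_neg h, if_neg (Ne.symm h)]⟩
  have hηF : AlgebraicIndependent k fun i => (η i : F) :=
    (AlgHom.algebraicIndependent_iff K.val Subtype.val_injective).2 hη.1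
  obtain ⟨E', hE', hdet⟩ := exists_good hb hηF fun i => hK _ (η i).2
  have hg1 := form_small hr ha hb' hH hb K hK hfg htr hN hω hreg hdual hE'
  have hg2 := form_small hr ha hb' hH hb K hK hfg htr hN hω' hreg' hdual hE'
  have hω0 : ω D0 = (Matrix.of fun i j => D0 i (η j)).det ^ N * ω E := pluri_eq hω hdual D0
  have hω1 : ω' D0 = (Matrix.of fun i j => D0 i (η j)).det ^ N * ω' E := pluri_eq hω' hdual D0
  have hd0 : (Matrix.of fun i j => D0 i (η j)).det ^ N ≠ 0 := fun h => hD0 (by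
    rw [hω0, h, zero_mul])
  have h1 : ((ω' D0 / ω D0 : K) : F) =
      (((ω' E : K) : F) * (Matrix.of fun i j => E' i (η j : F)).det ^ N) /
      (((ω E : K) : F) * (Matrix.of fun i j => E' i (η j : F)).det ^ N) := by
    have h2 : ω' D0 / ω D0 = ω' E / ω E := by
      rw [hω0, hω1, mul_div_mul_left _ _ hd0]
    rw [h2, mul_div_mul_right _ _ (pow_ne_zero N hdet)]
    rfl
  rw [h1]
  exact G.S.div_mem hg2 hg1

end Pool.Agent.E8helper90.RC
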