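import Pool.Agent.E8helper90.AF.Fie
import Pool.Agent.W619.TW.Der

/-!
Differentially simple subrings of a differential field.
-/

set_option autoImplicit false

namespace Pool.Agent.E8helper90.RC

open Polynomial

variable {k F : Type} [Field k] [Field F] [Algebra k F]

/-- `J` is a differential ideal of the subring `R` -/
structure DIdeal (D : Derivation k F F) (R : Subalgebra k F) (J : Set F) : Prop where
  sub : J ⊆ R
  zero : 0 ∈ J
  add : ∀ a ∈ J, ∀ b ∈ J, a + b ∈ J
  mul : ∀ r ∈ R, ∀ a ∈ J, r * a ∈ J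
  der : ∀ a ∈ J, D a ∈ J

/-- the ring `R` is stable under `D` and has no nonzero proper differential ideals -/
def DS (D : Derivation k F F) (R : Subalgebra k F) : Prop :=
  (∀ z ∈ R, D z ∈ R) ∧ ∀ J : Set F, DIdeal D R J → (∃ a ∈ J, a ≠ 0) → (1 : F) ∈ J

variable {D : Derivation k F F} {R : Subalgebra k F} {J : Set F}

theorem DIdeal.neg (h : DIdeal D R J) {a : F} (ha : a ∈ J) : -a ∈ J := by
  have := h.mul (-1) (R.neg_mem R.one_mem) a ha
  rwa [neg_one_mul] at this

theorem DIdeal.sub_mem (h : DIdeal D R J) {a b : F} (ha : a ∈ J) (hb : b ∈ J) : a - b ∈ J := by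
  rw [sub_eq_add_neg]
  exact h.add a ha _ (h.neg hb)

theorem DIdeal.nat_div [CharZero k] (h : DIdeal D R J) {a : F} {n : ℕ} (hn : n ≠ 0)
    (ha : (n : F) * a ∈ J) : a ∈ J := by
  have hch : CharZero F := charZero_of_injective_algebraMap (algebraMap k F).injective
  have h1 := h.mul (algebraMap k F (1 / n)) (R.algebraMap_mem _) _ ha
  have h2 : algebraMap k F (1 / n) * ((n : F) * a) = a := by
    have hn' : (n : F) ≠ 0 := by exact_mod_cast hn
    rw [map_div₀, map_one, map_natCast]
    field_simp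
  rwa [h2] at h1

/-- the generators of a differential ideal -/
theorem cert {ψ : F} (hR : DS D R) (hψ : ψ ∈ R) (h0 : ψ ≠ 0) :
    ∃ (n : ℕ) (r : Fin n → F), (∀ l, r l ∈ R) ∧ ∑ l, r l * D^[l] ψ = 1 := by
  classical
  have hit : ∀ n : ℕ, D^[n] ψ ∈ R := by
    intro n
    induction n with
    | zero => exact hψ
    | succ n ih =>
      rw [Function.iterate_succ_apply']
      exact hR.1 _ ih
  obtain ⟨J, hJ⟩ : ∃ J : Set F, J = {z | ∃ (n : ℕ) (r : ℕ → F), (∀ l, r l ∈ R) ∧
    ∑ l ∈ Finset.range n, r l * D^[l] ψ = z} := ⟨_, rfl⟩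
  have hext : ∀ {n m : ℕ} (r : ℕ → F), (∀ l, r l ∈ R) → n ≤ m → ∃ r' : ℕ → F, (∀ l, r' l ∈ R) ∧
      ∑ l ∈ Finset.range m, r' l * D^[l] ψ = ∑ l ∈ Finset.range n, r l * D^[l] ψ := by
    intro n m r hr hnm
    refine ⟨fun l => if l < n then r l else 0, fun l => ?_, ?_⟩
    · dsimp only
      split_ifs
      · exact hr l
      · exact R.zero_mem
    · have h1 : Finset.range n ⊆ Finset.range m := Finset.range_subset_range.2 hnm
      rw [← Finset.sum_subset h1]
      · refine Finset.sum_congr rfl fun l hl => ?_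
        dsimp only
        rw [if_pos (Finset.mem_range.1 hl)]
      · intro l _ hl
        dsimp only
        rw [if_neg (fun h => hl (Finset.mem_range.2 h)), zero_mul]
  have hid : DIdeal D R J := by
    rw [hJ]
    constructor
    · rintro z ⟨n, r, hr, rfl⟩
      exact R.sum_mem fun l _ => R.mul_mem (hr l) (hit l)
    · exact ⟨0, fun _ => 0, fun _ => R.zero_mem, by simp⟩
    · rintro a ⟨n, r, hr, rfl⟩ b ⟨m, s, hs, rfl⟩
      obtain ⟨r', h1, h2⟩ := hext (n := n) (m := n + m) r hr (by omega)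
      obtain ⟨s', h3, h4⟩ := hext (n := m) (m := n + m) s hs (by omega)
      refine ⟨n + m, fun l => r' l + s' l, fun l => R.add_mem (h1 l) (h3 l), ?_⟩
      rw [← h2, ← h4, ← Finset.sum_add_distrib]
      exact Finset.sum_congr rfl fun l _ => by ring
    · rintro c hc a ⟨n, r, hr, rfl⟩
      refine ⟨n, fun l => c * r l, fun l => R.mul_mem hc (hr l), ?_⟩
      rw [Finset.mul_sum]
      exact Finset.sum_congr rfl fun l _ => by ring
    · rintro a ⟨n, r, hr, rfl⟩
      refine ⟨n + 1, fun l => (if l < n then D (r l) else 0) + (if l = 0 then 0 else r (l - 1)),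
        fun l => ?_, ?_⟩
      · dsimp only
        refine R.add_mem ?_ ?_
        · split_ifs
          · exact hR.1 _ (hr l)
          · exact R.zero_mem
        · split_ifs
          · exact R.zero_mem
          · exact hr _
      · rw [map_sum]
        have h1 : ∀ l, D (r l * D^[l] ψ) = D (r l) * D^[l] ψ + r l * D^[l + 1] ψ := by
          intro l
          rw [D.leibniz, smul_eq_mul, smul_eq_mul, Function.iterate_succ_apply']
          ring
        simp only [h1, Finset.sum_add_distrib, add_mul]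
        congr 1
        · rw [Finset.sum_range_succ, if_neg (lt_irrefl n), zero_mul, add_zero]
          refine Finset.sum_congr rfl fun l hl => ?_
          rw [if_pos (Finset.mem_range.1 hl)]
        · rw [Finset.sum_range_succ', if_pos rfl, zero_mul, add_zero]
          refine Finset.sum_congr rfl fun l hl => ?_
          rw [if_neg (Nat.succ_ne_zero l), Nat.add_sub_cancel]
  have h1 := hR.2 J hid ⟨ψ, by
    rw [hJ]
    exact ⟨1, fun _ => 1, fun _ => R.one_mem, by simp⟩, h0⟩
  rw [hJ] at h1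
  obtain ⟨n, r, hr, h2⟩ := h1
  refine ⟨n, fun l => r l, fun l => hr l, ?_⟩
  rw [← h2, Finset.sum_range]

/-- **The tower step.** -/
theorem DS.tower {R' : Subalgebra k F} {M' : Subalgebra k F} (hR : DS D R) (hRR' : R ≤ R')
    (hR' : ∀ z ∈ R', D z ∈ R') (hM : DS D M') (hRM : R' ≤ M')
    (hfrac : ∀ z ∈ M', ∃ s ∈ R, s ≠ 0 ∧ s * z ∈ R') : DS D R' := by
  refine ⟨hR', fun J hJ hne => ?_⟩
  -- the ideal with denominators
  obtain ⟨J', hJ'⟩ : ∃ J' : Set F, J' = {z | z ∈ M' ∧ ∃ s ∈ R, s ≠ 0 ∧ s * z ∈ J} := ⟨_, rfl⟩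
  have hid : DIdeal D M' J' := by
    rw [hJ']
    constructor
    · exact fun z hz => hz.1
    · exact ⟨M'.zero_mem, 1, R.one_mem, one_ne_zero, by rw [mul_zero]; exact hJ.zero⟩
    · rintro a ⟨ha, s, hs, hs0, h1⟩ b ⟨hb, t, ht, ht0, h2⟩
      refine ⟨M'.add_mem ha hb, s * t, R.mul_mem hs ht, mul_ne_zero hs0 ht0, ?_⟩
      have e : s * t * (a + b) = t * (s * a) + s * (t * b) := by ring
      rw [e]
      exact hJ.add _ (hJ.mul t (hRR' ht) _ h1) _ (hJ.mul s (hRR' hs) _ h2)
    · rintro c hc a ⟨ha, s, hs, hs0, h1⟩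
      obtain ⟨t, ht, ht0, h2⟩ := hfrac c hc
      refine ⟨M'.mul_mem hc ha, s * t, R.mul_mem hs ht, mul_ne_zero hs0 ht0, ?_⟩
      have e : s * t * (c * a) = (t * c) * (s * a) := by ring
      rw [e]
      exact hJ.mul _ h2 _ h1
    · rintro a ⟨ha, s, hs, hs0, h1⟩
      refine ⟨hM.1 a ha, s * s, R.mul_mem hs hs, mul_ne_zero hs0 hs0, ?_⟩
      have h2 := hJ.der _ h1
      have h3 := hJ.mul s (hRR' hs) _ h2
      have h4 := hJ.mul (D s) (hRR' (hR.1 s hs)) _ h1
      have e : s * s * D a = s * D (s * a) - D s * (s * a) := by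
        rw [D.leibniz, smul_eq_mul, smul_eq_mul]
        ring
      rw [e]
      exact hJ.sub_mem h3 h4
  have h1 : (1 : F) ∈ J' := by
    refine hM.2 J' hid ?_
    obtain ⟨a, ha, ha0⟩ := hne
    refine ⟨a, ?_, ha0⟩
    rw [hJ']
    exact ⟨hRM (hJ.sub ha), 1, R.one_mem, one_ne_zero, by rwa [one_mul]⟩
  rw [hJ'] at h1
  obtain ⟨-, s, hs, hs0, h2⟩ := h1
  rw [mul_one] at h2
  have hid2 : DIdeal D R (J ∩ R) := by
    constructor
    · exact Set.inter_subset_right
    · exact ⟨hJ.zero, R.zero_mem⟩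
    · exact fun a ha b hb => ⟨hJ.add a ha.1 b hb.1, R.add_mem ha.2 hb.2⟩
    · exact fun r hr a ha => ⟨hJ.mul r (hRR' hr) a ha.1, R.mul_mem hr ha.2⟩
    · exact fun a ha => ⟨hJ.der a ha.1, hR.1 a ha.2⟩
  exact (hR.2 _ hid2 ⟨s, ⟨h2, hs⟩, hs0⟩).1

/-- maximal differential ideals are prime -/
theorem exists_prime [CharZero k] (hR : ∀ z ∈ R, D z ∈ R) (hJ : DIdeal D R J)
    (h1 : (1 : F) ∉ J) : ∃ P : Set F, J ⊆ P ∧ DIdeal D R P ∧ (1 : F) ∉ P ∧
      ∀ a ∈ R, ∀ b ∈ R, a * b ∈ P → a ∈ P ∨ b ∈ P := by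
  classical
  obtain ⟨P, hP, hmax⟩ := zorn_subset_nonempty {P : Set F | DIdeal D R P ∧ (1 : F) ∉ P} (by
    rintro c hc hchain ⟨y, hy⟩
    refine ⟨⋃₀ c, ⟨⟨?_, ?_, ?_, ?_, ?_⟩, ?_⟩, fun s hs => Set.subset_sUnion_of_mem hs⟩
    · exact Set.sUnion_subset fun s hs => (hc hs).1.sub
    · exact ⟨y, hy, (hc hy).1.zero⟩
    · rintro a ⟨s, hs, ha⟩ b ⟨t, ht, hb⟩
      rcases hchain.total hs ht with h | h
      · exact ⟨t, ht, (hc ht).1.add a (h ha) b hb⟩
      · exact ⟨s, hs, (hc hs).1.add a ha b (h hb)⟩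
    · rintro r hr a ⟨s, hs, ha⟩
      exact ⟨s, hs, (hc hs).1.mul r hr a ha⟩
    · rintro a ⟨s, hs, ha⟩
      exact ⟨s, hs, (hc hs).1.der a ha⟩
    · rintro ⟨s, hs, ha⟩
      exact (hc hs).2 ha) J ⟨hJ, h1⟩
  obtain ⟨hPid, hP1⟩ := hmax.prop
  have hmx : ∀ Q : Set F, DIdeal D R Q → (1 : F) ∉ Q → P ⊆ Q → Q ⊆ P := fun Q h2 h3 h4 =>
    hmax.le_of_ge ⟨h2, h3⟩ h4
  -- nilpotent elements
  have hnil : ∀ a ∈ R, ∀ n : ℕ, a ^ n ∈ P → a ∈ P := by
    obtain ⟨Q, hQ⟩ : ∃ Q : Set F, Q = {a | a ∈ R ∧ ∃ n : ℕ, a ^ n ∈ P} := ⟨_, rfl⟩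
    have hQid : DIdeal D R Q := by
      rw [hQ]
      constructor
      · exact fun a ha => ha.1
      · exact ⟨R.zero_mem, 1, by rw [pow_one]; exact hPid.zero⟩
      · rintro a ⟨ha, n, h2⟩ b ⟨hb, m, h3⟩
        refine ⟨R.add_mem ha hb, n + m, ?_⟩
        rw [add_pow]
        have h4 : ∀ s : Finset ℕ, (∀ i ∈ s, i ≤ n + m) →
            ∑ i ∈ s, a ^ i * b ^ (n + m - i) * ((n + m).choose i : F) ∈ P := by
          intro s
          induction s using Finset.induction_on with
          | empty =>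
            intro _
            rw [Finset.sum_empty]
            exact hPid.zero
          | insert i s hi ih =>
            intro hs
            rw [Finset.sum_insert hi]
            refine hPid.add _ ?_ _ (ih fun j hj => hs j (Finset.mem_insert_of_mem hj))
            have hin := hs i (Finset.mem_insert_self i s)
            have hnat : ((n + m).choose i : F) ∈ R := R.natCast_mem _
            by_cases hin' : n ≤ i
            · have e : a ^ i * b ^ (n + m - i) * ((n + m).choose i : F) =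
                  (a ^ (i - n) * b ^ (n + m - i) * ((n + m).choose i : F)) * a ^ n := by
                have : a ^ i = a ^ (i - n) * a ^ n := by rw [← pow_add]; congr 1; omega
                rw [this]
                ring
              rw [e]
              exact hPid.mul _ (R.mul_mem (R.mul_mem (R.pow_mem ha _) (R.pow_mem hb _)) hnat) _ h2
            · have e : a ^ i * b ^ (n + m - i) * ((n + m).choose i : F) =
                  (a ^ i * b ^ (n + m - i - m) * ((n + m).choose i : F)) * b ^ m := by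
                have : b ^ (n + m - i) = b ^ (n + m - i - m) * b ^ m := by
                  rw [← pow_add]; congr 1; omega
                rw [this]
                ring
              rw [e]
              exact hPid.mul _ (R.mul_mem (R.mul_mem (R.pow_mem ha _) (R.pow_mem hb _)) hnat) _ h3
        exact h4 _ fun i hi => by
          have := Finset.mem_range.1 hi
          omega
      · rintro r hr a ⟨ha, n, h2⟩
        refine ⟨R.mul_mem hr ha, n, ?_⟩
        rw [mul_pow]
        exact hPid.mul _ (R.pow_mem hr n) _ h2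
      · rintro a ⟨ha, n, h2⟩
        refine ⟨hR a ha, 2 * n, ?_⟩
        have hDa := hR a ha
        have key : ∀ j : ℕ, j ≤ n → a ^ (n - j) * (D a) ^ (2 * j) ∈ P := by
          intro j
          induction j with
          | zero =>
            intro _
            rw [Nat.sub_zero, mul_zero, pow_zero, mul_one]
            exact h2
          | succ j ih =>
            intro hj
            have h3 := ih (by omega)
            have h4 := hPid.der _ h3
            obtain ⟨m, hm⟩ : ∃ m, n - j = m + 1 := ⟨n - j - 1, by omega⟩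
            have hm' : n - (j + 1) = m := by omega
            rw [hm] at h3 h4
            rw [hm']
            rw [D.leibniz, D.leibniz_pow, D.leibniz_pow, smul_eq_mul, smul_eq_mul, smul_eq_mul,
              smul_eq_mul, nsmul_eq_mul, nsmul_eq_mul, Nat.add_sub_cancel] at h4
            have h5 := hPid.mul (D a) hDa _ h4
            have h6 := hPid.mul (((2 * j : ℕ) : F) * D (D a)) (R.mul_mem (R.natCast_mem _)
              (hR _ hDa)) _ h3
            refine hPid.nat_div (n := m + 1) (Nat.succ_ne_zero m) ?_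
            have e : ((m + 1 : ℕ) : F) * (a ^ m * (D a) ^ (2 * (j + 1))) =
                D a * (a ^ (m + 1) * (((2 * j : ℕ) : F) * ((D a) ^ (2 * j - 1) * D (D a))) +
                  (D a) ^ (2 * j) * (((m + 1 : ℕ) : F) * (a ^ m * D a))) -
                ((2 * j : ℕ) : F) * D (D a) * (a ^ (m + 1) * (D a) ^ (2 * j)) := by
              rcases Nat.eq_zero_or_pos j with rfl | hjp
              · simp only [mul_zero, Nat.cast_zero, zero_mul, zero_add, pow_zero, mul_one, sub_zero,
                  one_mul]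
                ring
              · obtain ⟨i, rfl⟩ : ∃ i, j = i + 1 := ⟨j - 1, by omega⟩
                have : 2 * (i + 1) - 1 = 2 * i + 1 := by omega
                rw [this]
                push_cast
                ring
            rw [e]
            exact hPid.sub_mem h5 h6
        have h3 := key n le_rfl
        rwa [Nat.sub_self, pow_zero, one_mul] at h3
    have hQ1 : (1 : F) ∉ Q := by
      rw [hQ]
      rintro ⟨-, n, h2⟩
      rw [one_pow] at h2
      exact hP1 h2
    intro a ha n hn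
    refine hmx Q hQid hQ1 (fun b hb => ?_) ?_
    · rw [hQ]
      exact ⟨hPid.sub hb, 1, by rwa [pow_one]⟩
    · rw [hQ]
      exact ⟨ha, n, hn⟩
  refine ⟨P, hP, hPid, hP1, fun a ha b hb hab => ?_⟩
  by_contra hcon
  push Not at hcon
  obtain ⟨h2, h3⟩ := hcon
  obtain ⟨Q, hQ⟩ : ∃ Q : Set F, Q = {c | c ∈ R ∧ ∃ n : ℕ, c * b ^ n ∈ P} := ⟨_, rfl⟩
  have hQid : DIdeal D R Q := by
    rw [hQ]
    constructor
    · exact fun a ha => ha.1
    · exact ⟨R.zero_mem, 0, by rw [zero_mul]; exact hPid.zero⟩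
    · rintro c ⟨hc, n, h4⟩ e ⟨he, m, h5⟩
      refine ⟨R.add_mem hc he, n + m, ?_⟩
      have e1 : (c + e) * b ^ (n + m) = b ^ m * (c * b ^ n) + b ^ n * (e * b ^ m) := by
        rw [pow_add]
        ring
      rw [e1]
      exact hPid.add _ (hPid.mul _ (R.pow_mem hb m) _ h4) _ (hPid.mul _ (R.pow_mem hb n) _ h5)
    · rintro r hr c ⟨hc, n, h4⟩
      refine ⟨R.mul_mem hr hc, n, ?_⟩
      rw [mul_assoc]
      exact hPid.mul r hr _ h4
    · rintro c ⟨hc, n, h4⟩
      refine ⟨hR c hc, n + 1, ?_⟩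
      have h5 := hPid.mul b hb _ (hPid.der _ h4)
      have h6 := hPid.mul ((n : F) * D b) (R.mul_mem (R.natCast_mem n) (hR b hb)) _ h4
      have e : D c * b ^ (n + 1) = b * D (c * b ^ n) - (n : F) * D b * (c * b ^ n) := by
        rw [D.leibniz, D.leibniz_pow, smul_eq_mul, smul_eq_mul, smul_eq_mul, nsmul_eq_mul]
        rcases Nat.eq_zero_or_pos n with rfl | hn
        · simp
          ring
        · obtain ⟨i, rfl⟩ : ∃ i, n = i + 1 := ⟨n - 1, by omega⟩
          rw [Nat.add_sub_cancel]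
          push_cast
          ring
      rw [e]
      exact hPid.sub_mem h5 h6
  have hQ1 : (1 : F) ∉ Q := by
    rw [hQ]
    rintro ⟨-, n, h4⟩
    rw [one_mul] at h4
    exact h3 (hnil b hb n h4)
  apply h2
  refine hmx Q hQid hQ1 (fun c hc => ?_) ?_
  · rw [hQ]
    exact ⟨hPid.sub hc, 0, by rw [pow_zero, mul_one]; exact hc⟩
  · rw [hQ]
    exact ⟨ha, 1, by rwa [pow_one]⟩

end Pool.Agent.E8helper90.RC
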