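import Pool.Agent.E8helper90.RC.Gen

/-!
Subvarieties of the largest dimension.
-/

set_option autoImplicit false

namespace Pool.Agent.E8helper90.RC

open FF Filter Cardinal MvPolynomial
open Pool.Agent.W602.GT (coords SubVar IsForm val)
open Pool.Agent.W603.CY (ui mem_ui UL um um_surj um_eq um_zero_iff um_ne_iff
  um_add um_mul um_neg um_pow um_sum um_inv um_div um_alg um_aeval)
open Pool.Agent.E8helper90.AF

/-- The point `y` of `P^N` lies on the subvariety with the generic point `y'`: all forms which vanish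
at `y'` vanish at `y`. -/
def In {K' K : Type} [Field K'] [Algebra ℂ K'] [Field K] [Algebra ℂ K] {N : ℕ}
    (y' : Fin (N + 1) → K') (y : Fin (N + 1) → K) : Prop :=
  ∀ q : MvPolynomial (Fin (N + 1)) ℂ, IsForm q → val y' q = 0 → val y q = 0

theorem In.trans {K1 K2 K3 : Type} [Field K1] [Algebra ℂ K1] [Field K2] [Algebra ℂ K2] [Field K3]
    [Algebra ℂ K3] {N : ℕ} {y1 : Fin (N + 1) → K1} {y2 : Fin (N + 1) → K2}
    {y3 : Fin (N + 1) → K3} (h1 : In y1 y2) (h2 : In y2 y3) : In y1 y3 :=
  fun q hq h => h2 q hq (h1 q hq h)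

/-- equations of a subvariety -/
theorem exists_eqs {K : Type} [Field K] [Algebra ℂ K] {N : ℕ} (y : Fin (N + 1) → K) :
    ∃ B : Finset (MvPolynomial (Fin (N + 1)) ℂ), (∀ p ∈ B, IsForm p ∧ val y p = 0) ∧
      ∀ (L : Type) [Field L] [Algebra ℂ L] (f : Fin (N + 1) → L),
        (∀ p ∈ B, val f p = 0) → In y f := by
  obtain ⟨B, hB, hs⟩ := (Submodule.fg_span_iff_fg_span_finset_subset (R := MvPolynomial
    (Fin (N + 1)) ℂ) {q : MvPolynomial (Fin (N + 1)) ℂ | IsForm q ∧ val y q = 0}).1
    (IsNoetherian.noetherian _)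
  refine ⟨B, fun p hp => hB hp, fun L _ _ f hf q hq h0 => ?_⟩
  have h1 : q ∈ Submodule.span (MvPolynomial (Fin (N + 1)) ℂ)
      (B : Set (MvPolynomial (Fin (N + 1)) ℂ)) := by
    rw [← hs]
    exact Submodule.subset_span ⟨hq, h0⟩
  have h2 : Submodule.span (MvPolynomial (Fin (N + 1)) ℂ)
      (B : Set (MvPolynomial (Fin (N + 1)) ℂ)) ≤
      RingHom.ker (MvPolynomial.aeval f : MvPolynomial (Fin (N + 1)) ℂ →ₐ[ℂ] L) := by
    rw [Submodule.span_le]
    intro p hp
    exact hf p hp
  exact h2 h1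

/-- a subvariety is not contained in a different subvariety of the same dimension -/
theorem dim_eq {K' K : Type} [Field K'] [Algebra ℂ K'] [Field K] [Algebra ℂ K] {N v : ℕ}
    {y' : Fin (N + 1) → K'} {y : Fin (N + 1) → K} (htr' : Algebra.trdeg ℂ K' = v)
    (h0 : y ≠ 0) (hgen : coords ℂ y = ⊤) (htr : Algebra.trdeg ℂ K = v) (h : In y' y) :
    In y y' := by
  classical
  obtain ⟨l, J, hl, hind⟩ := exists_ind_coords (w := v) h0 hgen htr le_rfl
  have hvX : ∀ {L : Type} [Field L] [Algebra ℂ L] (f : Fin (N + 1) → L) (j : Fin (N + 1)),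
      val f (X j : MvPolynomial (Fin (N + 1)) ℂ) = f j := fun f j => aeval_X _ _
  have hl' : y' l ≠ 0 := by
    intro h1
    apply hl
    rw [← hvX y l]
    exact h _ ⟨1, isHomogeneous_X _ _⟩ (by rw [hvX, h1])
  have hkey : ∀ g : MvPolynomial (Fin v) ℂ, aeval (fun s => y' (J s) / y' l) g = 0 → g = 0 := by
    intro g hg
    have h1 : val y' (hom l J g) = 0 := by
      unfold val
      rw [hom_eval l J g y' hl', hg, mul_zero]
    have h2 := h _ ⟨_, hom_form l J g⟩ h1
    unfold val at h2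
    rw [hom_eval l J g y hl] at h2
    exact (algebraicIndependent_iff.1 hind) g
      ((mul_eq_zero.1 h2).resolve_left (pow_ne_zero _ hl))
  have hind' : AlgebraicIndependent ℂ fun s => y' (J s) / y' l :=
    algebraicIndependent_iff.2 hkey
  have hbas : IsTranscendenceBasis ℂ fun s => y' (J s) / y' l := by
    apply hind'.isTranscendenceBasis_of_lift_trdeg_le_of_finite
    rw [htr']
    simp
  rintro q ⟨m, hm⟩ hq0
  by_contra hq'
  obtain ⟨z, hz⟩ : ∃ z : K', z = val y' q / y' l ^ m := ⟨_, rfl⟩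
  have hz0 : z ≠ 0 := by
    rw [hz]
    exact div_ne_zero hq' (pow_ne_zero _ hl')
  obtain ⟨p, hp0, hp⟩ := (hbas.isAlgebraic.isAlgebraic z).exists_nonzero_coeff_and_aeval_eq_zero
    (mem_nonZeroDivisors_of_ne_zero hz0)
  have hc : ∀ k, ∃ c : MvPolynomial (Fin v) ℂ, aeval (fun s => y' (J s) / y' l) c =
      ((p.coeff k : Algebra.adjoin ℂ (Set.range fun s => y' (J s) / y' l)) : K') := by
    intro k
    have h1 : ∀ a ∈ Algebra.adjoin ℂ (Set.range fun s => y' (J s) / y' l),
        ∃ c : MvPolynomial (Fin v) ℂ, aeval (fun s => y' (J s) / y' l) c = a := by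
      intro a ha
      rw [Algebra.adjoin_range_eq_range_aeval] at ha
      exact ha
    exact h1 _ (p.coeff k).2
  choose c hc using hc
  obtain ⟨D, hD⟩ : ∃ D : ℕ, ∀ k ∈ Finset.range (p.natDegree + 1), (c k).totalDegree ≤ D :=
    ⟨∑ k ∈ Finset.range (p.natDegree + 1), (c k).totalDegree, fun k hk =>
      Finset.single_le_sum (f := fun k => (c k).totalDegree) (fun _ _ => Nat.zero_le _) hk⟩
  obtain ⟨Q, hQ⟩ : ∃ Q : MvPolynomial (Fin (N + 1)) ℂ, Q =
      ∑ k ∈ Finset.range (p.natDegree + 1), X l ^ (D - (c k).totalDegree + m * (p.natDegree - k)) *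
        (hom l J (c k) * q ^ k) := ⟨_, rfl⟩
  have hQf : IsForm Q := by
    refine ⟨D + 1 + m * p.natDegree, ?_⟩
    rw [hQ]
    refine IsHomogeneous.sum _ _ _ fun k hk => ?_
    have h1 := ((isHomogeneous_X ℂ l).pow (D - (c k).totalDegree + m * (p.natDegree - k))).mul
      ((hom_form l J (c k)).mul (hm.pow k))
    have h2 : 1 * (D - (c k).totalDegree + m * (p.natDegree - k)) +
        ((c k).totalDegree + 1 + m * k) = D + 1 + m * p.natDegree := by
      have h3 := hD k hk
      have h4 : k ≤ p.natDegree := by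
        have := Finset.mem_range.1 hk
        omega
      obtain ⟨a, ha⟩ := Nat.exists_eq_add_of_le h4
      have h5 : p.natDegree - k = a := by omega
      rw [h5, ha, mul_add m k a, one_mul]
      omega
    rwa [h2] at h1
  have hval : ∀ {L : Type} [Field L] [Algebra ℂ L] (f : Fin (N + 1) → L), f l ≠ 0 →
      val f Q = ∑ k ∈ Finset.range (p.natDegree + 1),
        f l ^ (D - (c k).totalDegree + m * (p.natDegree - k)) *
        (f l ^ ((c k).totalDegree + 1) * aeval (fun s => f (J s) / f l) (c k) * val f q ^ k) := by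
    intro L _ _ f hfl
    rw [hQ]
    unfold val
    rw [map_sum]
    refine Finset.sum_congr rfl fun k _ => ?_
    rw [map_mul, map_mul, map_pow, map_pow, aeval_X, hom_eval l J (c k) f hfl]
  have hQ' : val y' Q = 0 := by
    rw [hval y' hl']
    have h1 : ∀ k ∈ Finset.range (p.natDegree + 1),
        y' l ^ (D - (c k).totalDegree + m * (p.natDegree - k)) *
        (y' l ^ ((c k).totalDegree + 1) * aeval (fun s => y' (J s) / y' l) (c k) *
          val y' q ^ k) = y' l ^ (D + 1 + m * p.natDegree) *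
          (((p.coeff k : Algebra.adjoin ℂ (Set.range fun s => y' (J s) / y' l)) : K') *
            z ^ k) := by
      intro k hk
      have h2 : val y' q = y' l ^ m * z := by
        rw [hz, mul_div_cancel₀ _ (pow_ne_zero _ hl')]
      rw [h2, hc, mul_pow, ← pow_mul]
      have h3 := hD k hk
      have h4 : k ≤ p.natDegree := by
        have := Finset.mem_range.1 hk
        omega
      have h6 : D + 1 + m * p.natDegree = (D - (c k).totalDegree + m * (p.natDegree - k)) +
          ((c k).totalDegree + 1) + m * k := by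
        obtain ⟨a, ha⟩ := Nat.exists_eq_add_of_le h4
        have h5 : p.natDegree - k = a := by omega
        rw [h5, ha, mul_add m k a]
        omega
      rw [h6, pow_add, pow_add]
      ring
    rw [Finset.sum_congr rfl h1, ← Finset.mul_sum]
    rw [Polynomial.aeval_eq_sum_range] at hp
    have h2 : ∑ k ∈ Finset.range (p.natDegree + 1),
        ((p.coeff k : Algebra.adjoin ℂ (Set.range fun s => y' (J s) / y' l)) : K') * z ^ k =
        0 := by
      rw [← hp]
      exact Finset.sum_congr rfl fun k _ => rfl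
    rw [h2, mul_zero]
  have hQ0 := h Q hQf hQ'
  rw [hval y hl, Finset.sum_range_succ'] at hQ0
  simp only [hq0, pow_zero, mul_one] at hQ0
  have h7 : ∀ k ∈ Finset.range p.natDegree,
      y l ^ (D - (c (k + 1)).totalDegree + m * (p.natDegree - (k + 1))) *
      (y l ^ ((c (k + 1)).totalDegree + 1) * aeval (fun s => y (J s) / y l) (c (k + 1)) *
        0 ^ (k + 1)) = 0 := by
    intro k _
    rw [zero_pow (Nat.succ_ne_zero k), mul_zero, mul_zero]
  rw [Finset.sum_eq_zero h7, zero_add] at hQ0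
  have h8 : c 0 = 0 := by
    apply (algebraicIndependent_iff.1 hind) (c 0)
    exact (mul_eq_zero.1 ((mul_eq_zero.1 hQ0).resolve_left (pow_ne_zero _ hl))).resolve_left
      (pow_ne_zero _ hl)
  apply hp0
  have h9 := hc 0
  rw [h8, map_zero] at h9
  exact Subtype.ext h9.symm

/-- a point of projective space with coordinates in a field, and a number -/
structure Pt (N : ℕ) : Type 1 where
  /-- the field -/
  K : Type
  [fld : Field K]
  [alg : Algebra ℂ K]
  /-- the coordinates -/
  y : Fin (N + 1) → K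
  /-- the dimension -/
  v : ℕ

attribute [instance] Pt.fld Pt.alg

/-- dimensions of subvarieties -/
theorem dim_le {K : Type} [Field K] [Algebra ℂ K] {N v : ℕ} {ι : Type}
    {F : ι → MvPolynomial (Fin (N + 1)) ℂ} {y : Fin (N + 1) → K} (h : SubVar F K v y) :
    v ≤ N + 1 := by
  obtain ⟨l, J, hl, hind⟩ := exists_ind_coords (w := v) h.ne h.gen h.dim le_rfl
  have hJ : Function.Injective J := by
    intro a b hab
    apply hind.injective
    change y (J a) / y l = y (J b) / y l
    rw [hab]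
  have h1 := Fintype.card_le_of_injective J hJ
  rwa [Fintype.card_fin, Fintype.card_fin] at h1

/-- the subvariety with a given generic point -/
theorem sub_field0 {U : Type} [Field U] [Algebra ℂ U] {N w : ℕ} {ι : Type}
    {F : ι → MvPolynomial (Fin (N + 1)) ℂ}
    {Z : Fin (N + 1) → U} {l0 : Fin (N + 1)} (hl : Z l0 = 1) (hF : ∀ e, val Z (F e) = 0)
    {J : Fin w → Fin (N + 1)} (hJ : AlgebraicIndependent ℂ fun s => Z (J s)) :
    ∃ (w' : ℕ) (K : IntermediateField ℂ U) (z : Fin (N + 1) → K), w ≤ w' ∧ K.FG ∧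
      (∀ j, (z j : U) = Z j) ∧ SubVar F K w' z ∧ coords ℂ Z = K ∧
      Algebra.trdeg ℂ K = w' ∧ ∀ H : MvPolynomial (Fin (N + 1)) ℂ,
        ((val z H : K) : U) = val Z H := by
  obtain ⟨K, hK⟩ : ∃ K : IntermediateField ℂ U, K = IntermediateField.adjoin ℂ (Set.range Z) :=
    ⟨_, rfl⟩
  have hZK : ∀ j, Z j ∈ K := fun j => by
    rw [hK]
    exact IntermediateField.subset_adjoin _ _ ⟨j, rfl⟩
  have hKfg : K.FG := by
    rw [hK]
    exact IntermediateField.fg_adjoin_of_finite (Set.finite_range Z)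
  obtain ⟨z, hz⟩ : ∃ z : Fin (N + 1) → K, ∀ j, (z j : U) = Z j := ⟨fun j => ⟨Z j, hZK j⟩,
    fun _ => rfl⟩
  have hzl : z l0 = 1 := Subtype.ext (by rw [hz, hl]; rfl)
  have htop : coords ℂ z = ⊤ := by
    rw [eq_top_iff, ← adjoin_top Z K hK z hz]
    unfold coords
    rw [IntermediateField.adjoin_le_iff]
    rintro _ ⟨j, rfl⟩
    refine IntermediateField.subset_adjoin _ _ ⟨j, l0, ?_, ?_⟩
    · rw [hzl]
      exact one_ne_zero
    · rw [hzl, div_one]
  have hco : coords ℂ Z = K := by
    rw [hK]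
    unfold coords
    apply le_antisymm
    · rw [IntermediateField.adjoin_le_iff]
      rintro _ ⟨i, j, _, rfl⟩
      exact div_mem (IntermediateField.subset_adjoin _ _ ⟨i, rfl⟩)
        (IntermediateField.subset_adjoin _ _ ⟨j, rfl⟩)
    · rw [IntermediateField.adjoin_le_iff]
      rintro _ ⟨j, rfl⟩
      refine IntermediateField.subset_adjoin _ _ ⟨j, l0, ?_, ?_⟩
      · rw [hl]
        exact one_ne_zero
      · rw [hl, div_one]
  obtain ⟨w', hw'⟩ : ∃ w' : ℕ, Algebra.trdeg ℂ K = w' := by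
    have h1 : Algebra.EssFiniteType ℂ K := IntermediateField.essFiniteType_iff.2 hKfg
    exact Cardinal.lt_aleph0.1 (trdeg_lt_aleph0 ℂ K)
  have hev : ∀ H : MvPolynomial (Fin (N + 1)) ℂ, ((val z H : K) : U) = val Z H := by
    intro H
    have h2 := MvPolynomial.comp_aeval_apply (f := z) K.val H
    have h3 : (fun i => K.val (z i)) = Z := funext hz
    rw [h3] at h2
    exact h2
  have hsub : SubVar F K w' z :=
    { ne := fun h => by
        have h1 := congrFun h l0
        rw [hzl] at h1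
        exact one_ne_zero h1
      mem := fun e => Subtype.ext ((hev (F e)).trans (hF e))
      gen := htop
      dim := hw' }
  have hind : AlgebraicIndependent ℂ fun s => z (J s) := by
    rw [← AlgHom.algebraicIndependent_iff K.val Subtype.val_injective]
    have h2 : (K.val ∘ fun s => z (J s)) = fun s => Z (J s) := funext fun s => hz (J s)
    rw [h2]
    exact hJ
  have h2 : w ≤ w' := by
    have h3 := hind.cardinalMk_le_trdeg
    rw [hw', Cardinal.mk_fin] at h3
    exact_mod_cast h3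
  exact ⟨w', K, z, h2, hKfg, hz, hsub, hco, hw', hev⟩

/-- **Finitely many subvarieties of the largest dimension.** -/
theorem fin_comp {N v : ℕ} {ι κ : Type} [Finite κ] {F : ι → MvPolynomial (Fin (N + 1)) ℂ}
    {I : κ → MvPolynomial (Fin (N + 1)) ℂ} (hF : ∀ e, IsForm (F e)) (hI : ∀ e, IsForm (I e))
    (hdim : ∀ (K : Type) [Field K] [Algebra ℂ K] (v' : ℕ) (y : Fin (N + 1) → K),
      SubVar F K v' y → (∃ e, val y (I e) ≠ 0) → v' ≤ v) (B : Pt N → Prop)
    (hB : ∀ Y, B Y → SubVar F Y.K v Y.y ∧ ∃ e, val Y.y (I e) ≠ 0) :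
    ∃ S : Finset (Pt N), (∀ Y ∈ S, B Y) ∧ ∀ Y, B Y → ∃ Y' ∈ S, In Y'.y Y.y := by
  classical
  by_contra hcon
  push Not at hcon
  obtain ⟨Y, hY, hr⟩ := exists_seq_of_forall_finset_exists B (fun a b => ¬ In a.y b.y) fun s hs => by
    obtain ⟨y, hy, h⟩ := hcon s hs
    exact ⟨y, hy, h⟩
  have h1 : ∀ i, ∃ q : Fin (N + 1) × (Fin v → Fin (N + 1)), (Y i).y q.1 ≠ 0 ∧
      AlgebraicIndependent ℂ fun s => (Y i).y (q.2 s) / (Y i).y q.1 := by
    intro i
    obtain ⟨hs, -⟩ := hB _ (hY i)
    obtain ⟨l, J, h2, h3⟩ := exists_ind_coords (w := v) hs.ne hs.gen hs.dim le_rfl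
    exact ⟨(l, J), h2, h3⟩
  obtain ⟨⟨l, J⟩, hlJ⟩ := exists_index (p := fun (q : Fin (N + 1) × (Fin v → Fin (N + 1))) i =>
    (Y i).y q.1 ≠ 0 ∧ AlgebraicIndependent ℂ fun s => (Y i).y (q.2 s) / (Y i).y q.1) h1
  obtain ⟨e1, he1⟩ := exists_index fun i => (hB _ (hY i)).2
  obtain ⟨Z, hZ⟩ : ∃ Z : Fin (N + 1) → UL fun i => (Y i).K,
      ∀ j, Z j = um fun i => (Y i).y j / (Y i).y l := ⟨_, fun _ => rfl⟩
  have hev : ∀ H : MvPolynomial (Fin (N + 1)) ℂ, val Z H =
      um fun i => val (fun j => (Y i).y j / (Y i).y l) H := by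
    intro H
    have h2 := um_aeval (k := ℂ) (fun j i => (Y i).y j / (Y i).y l) H
    unfold val
    rw [h2]
    congr 2
    funext j
    exact hZ j
  have hsc : ∀ H : MvPolynomial (Fin (N + 1)) ℂ, IsForm H →
      (val Z H = 0 ↔ ∀ᶠ i in (hyperfilter ℕ : Filter ℕ), val (Y i).y H = 0) := by
    rintro H ⟨m, hm⟩
    rw [hev, um_zero_iff]
    refine Filter.eventually_congr ?_
    filter_upwards [hlJ] with i hi
    have h3 : val (Y i).y H = (Y i).y l ^ m * val (fun j => (Y i).y j / (Y i).y l) H := by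
      unfold val
      rw [aeval_def, aeval_def, eval₂_eq', eval₂_eq', Finset.mul_sum]
      refine Finset.sum_congr rfl fun α hα => ?_
      have h1 : ∑ i, α i = m := by
        have h3 := hm (mem_support_iff.1 hα)
        rw [Finsupp.weight_apply, Finsupp.sum_fintype _ _ (fun _ => by simp)] at h3
        simpa using h3
      have h2 : ∏ j, (Y i).y j ^ α j =
          (Y i).y l ^ m * ∏ j, ((Y i).y j / (Y i).y l) ^ α j := by
        rw [← h1, ← Finset.prod_pow_eq_pow_sum, ← Finset.prod_mul_distrib]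
        refine Finset.prod_congr rfl fun i _ => ?_
        rw [← mul_pow, mul_div_cancel₀ _ hi.1]
      rw [h2]
      ring
    rw [h3]
    constructor
    · intro h4
      rw [h4, mul_zero]
    · intro h4
      exact (mul_eq_zero.1 h4).resolve_left (pow_ne_zero m hi.1)
  have hZl : Z l = 1 := by
    have h2 : (um (fun _ => 1) : UL fun i => (Y i).K) = 1 :=
      map_one (Ideal.Quotient.mk (ui fun i => (Y i).K))
    rw [hZ, ← h2, um_eq]
    filter_upwards [hlJ] with i hi
    exact div_self hi.1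
  have hFZ : ∀ e, val Z (F e) = 0 := fun e => (hsc _ (hF e)).2
    (Eventually.of_forall fun i => (hB _ (hY i)).1.mem e)
  have hind : AlgebraicIndependent ℂ fun s => Z (J s) := by
    rw [algebraicIndependent_iff]
    intro p hp
    have h2 : (fun s => Z (J s)) = fun s => um fun i => (Y i).y (J s) / (Y i).y l :=
      funext fun s => hZ (J s)
    rw [h2, ← um_aeval, um_zero_iff] at hp
    obtain ⟨i, h3, h4⟩ := (hp.and hlJ).exists
    exact (algebraicIndependent_iff.1 h4.2) p h3
  obtain ⟨v', K, z, hvv', -, hz, hsub, -, htr, hevz⟩ := sub_field0 hZl hFZ hind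
  have hIz : val z (I e1) ≠ 0 := by
    intro h2
    have h3 : val Z (I e1) = 0 := by
      rw [← hevz, h2]
      rfl
    rw [hsc _ (hI e1)] at h3
    obtain ⟨i, h4, h5⟩ := (h3.and he1).exists
    exact h5 h4
  have h2 : v' = v := le_antisymm (hdim K v' z hsub ⟨e1, hIz⟩) hvv'
  subst h2
  have hzf : ∀ q : MvPolynomial (Fin (N + 1)) ℂ, IsForm q →
      (val z q = 0 ↔ ∀ᶠ i in (hyperfilter ℕ : Filter ℕ), val (Y i).y q = 0) := by
    intro q hq
    rw [← hsc q hq, ← hevz]
    constructor
    · intro h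
      rw [h]
      rfl
    · intro h
      exact Subtype.ext h
  obtain ⟨E, hE1, hE2⟩ := exists_eqs z
  have h3 : ∀ᶠ i in (hyperfilter ℕ : Filter ℕ), ∀ q ∈ E, val (Y i).y q = 0 :=
    (eventually_all_finset E).2 fun q hq => (hzf q (hE1 q hq).1).1 (hE1 q hq).2
  have h4 : ∀ᶠ i in (hyperfilter ℕ : Filter ℕ), In z (Y i).y ∧ In (Y i).y z := by
    filter_upwards [h3] with i hi
    have h5 := hE2 _ (Y i).y hi
    have h6 := (hB _ (hY i)).1
    exact ⟨h5, dim_eq htr h6.ne h6.gen h6.dim h5⟩
  obtain ⟨i, hi⟩ := h4.exists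
  have h5 : ∀ᶠ j in (hyperfilter ℕ : Filter ℕ), i < j :=
    Nat.hyperfilter_le_atTop (eventually_gt_atTop i)
  obtain ⟨j, hj, hij⟩ := (h4.and h5).exists
  exact hr i j hij (hi.2.trans hj.1)

end Pool.Agent.E8helper90.RC
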