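import Pool.Agent.E8helper90.RC.Dif
import Pool.Agent.W602.GT.Der

/-!
The coordinate ring of a point of an elliptic curve which moves with a speed in the base field is
differentially simple.
-/

set_option autoImplicit false

namespace Pool.Agent.E8helper90.RC

open Polynomial Pool.Agent.E8helper90.AF
open Pool.Agent.TH600.LC (clo mem_clo inv_mem_clo subset_clo clo_le clo_mono adjoin_le_clo)

section gen

variable {k A : Type} [Field k] [Field A] [Algebra k A]

/-- the polynomial with differentiated coefficients -/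
theorem exists_mapD (δ : Derivation k A A) (q : A[X]) : ∃ q' : A[X],
    (∀ i, q'.coeff i = δ (q.coeff i)) ∧ ∀ (E : Type) [Field E] [Algebra k E] [Algebra A E]
      (Δ : Derivation k E E), (∀ c, Δ (algebraMap A E c) = algebraMap A E (δ c)) → ∀ z : E,
      Δ (aeval z q) = aeval z q' + aeval z (derivative q) * Δ z := by
  induction q using Polynomial.induction_on' with
  | add p q hp hq =>
    obtain ⟨p', h1, h2⟩ := hp
    obtain ⟨q', h3, h4⟩ := hq
    refine ⟨p' + q', fun i => by rw [coeff_add, coeff_add, map_add, h1, h3], ?_⟩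
    intro E _ _ _ Δ hΔ z
    rw [map_add, map_add, map_add, h2 E Δ hΔ, h4 E Δ hΔ, derivative_add, map_add]
    ring
  | monomial n a =>
    refine ⟨monomial n (δ a), fun i => ?_, ?_⟩
    · rw [coeff_monomial, coeff_monomial]
      split_ifs
      · rfl
      · rw [map_zero]
    · intro E _ _ _ Δ hΔ z
      rw [aeval_monomial, aeval_monomial, derivative_monomial, aeval_monomial, Δ.leibniz, hΔ,
        Δ.leibniz_pow, map_mul, map_natCast]
      simp only [smul_eq_mul, nsmul_eq_mul]
      ring

variable {F E : Type} [Field F] [Field E] [Algebra k F] [Algebra k E] [Algebra F E]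
  [IsScalarTower k F E]

/-- extension of derivations to algebraic extensions -/
theorem exists_ext [CharZero k] [Algebra.IsAlgebraic F E] (D : Derivation k F F) :
    ∃ Δ : Derivation k E E, ∀ z : F, Δ (algebraMap F E z) = algebraMap F E (D z) := by
  obtain ⟨B, hB⟩ := exists_isTranscendenceBasis k F
  have hB' := hB.algebraMap_comp (A := E)
  obtain ⟨Δ, hΔ⟩ := Pool.Agent.W602.GT.exists_der _ hB' (fun b => algebraMap F E (D b))
  refine ⟨Δ, fun z => ?_⟩
  have h1 := Pool.Agent.W619.TW.der_zero ((Δ.compAlgebraMap F) -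
    (Algebra.linearMap F E).compDer D) _ hB (fun i => by
      rw [Derivation.sub_apply]
      have h2 := hΔ i
      exact sub_eq_zero.2 h2) z
  rw [Derivation.sub_apply, sub_eq_zero] at h1
  exact h1

omit [IsScalarTower k F E] in
/-- constants in algebraic extensions are algebraic over the constants -/
theorem const_alg [CharZero k] {D : Derivation k F F} {Δ : Derivation k E E}
    (hΔ : ∀ z : F, Δ (algebraMap F E z) = algebraMap F E (D z)) {M : IntermediateField k F}
    (hc : ∀ z, D z = 0 → z ∈ M) {c : E} (hc0 : Δ c = 0) (halg : IsAlgebraic F c) :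
    IsAlgebraic M c := by
  have hch : CharZero F := charZero_of_injective_algebraMap (algebraMap k F).injective
  have hint := halg.isIntegral
  obtain ⟨q', h1, h2⟩ := exists_mapD D (minpoly F c)
  have h3 := h2 E Δ hΔ c
  rw [minpoly.aeval, map_zero, hc0, mul_zero, add_zero] at h3
  have h4 : q' = 0 := by
    by_contra hne
    have h5 := Polynomial.natDegree_le_of_dvd (minpoly.dvd F c h3.symm) hne
    have h6 : q'.natDegree < (minpoly F c).natDegree := by
      rw [Polynomial.natDegree_lt_iff_degree_lt hne]
      rw [Polynomial.degree_lt_iff_coeff_zero]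
      intro m hm
      rw [h1]
      rcases hm.lt_or_eq with hm | hm
      · rw [coeff_eq_zero_of_natDegree_lt hm, map_zero]
      · rw [← hm, (minpoly.monic hint).coeff_natDegree, D.map_one_eq_zero]
    omega
  have h5 : ∀ i, (minpoly F c).coeff i ∈ M := fun i => hc _ (by rw [← h1, h4, coeff_zero])
  obtain ⟨r, hr⟩ := (Polynomial.lifts_iff_set_range (f := algebraMap M F) _).1
    ((Polynomial.lifts_iff_coeff_lifts (f := algebraMap M F) (minpoly F c)).2
      fun n => ⟨⟨_, h5 n⟩, rfl⟩)
  refine ⟨r, ?_, ?_⟩
  · rintro rfl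
    rw [Polynomial.map_zero] at hr
    exact minpoly.ne_zero hint hr.symm
  · rw [← Polynomial.aeval_map_algebraMap F, hr, minpoly.aeval]

end gen

section ell

variable {k F : Type} [Field k] [Field F] [Algebra k F] [CharZero k]

/-- a point of an elliptic curve with the speed `c` in the field `M` -/
structure EllPt (D : Derivation k F F) (M : IntermediateField k F) (x y a b c : F) : Prop where
  eq : y ^ 2 = x ^ 3 + a * x + b
  disc : 4 * a ^ 3 + 27 * b ^ 2 ≠ 0
  Da : D a = 0
  Db : D b = 0
  cM : c ∈ M
  c0 : c ≠ 0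
  Dx : D x = c * y
  st : ∀ z ∈ M, D z ∈ M
  cst : ∀ z, D z = 0 → z ∈ M
  tr : Transcendental M x

variable {D : Derivation k F F} {M : IntermediateField k F} {x y a b c : F}

theorem EllPt.y0 (h : EllPt D M x y a b c) : y ≠ 0 := by
  intro hy
  apply h.tr
  have h1 := h.eq
  rw [hy] at h1
  refine ⟨X ^ 3 + C (⟨a, h.cst a h.Da⟩ : M) * X + C (⟨b, h.cst b h.Db⟩ : M), ?_, ?_⟩
  · intro h2
    have h3 := congrArg (fun p => Polynomial.coeff p 3) h2
    simp [coeff_X, coeff_C] at h3
  · simp only [map_add, map_mul, map_pow, aeval_X, aeval_C]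
    change x ^ 3 + a * x + b = 0
    linear_combination -h1

theorem EllPt.Dy (h : EllPt D M x y a b c) : 2 * D y = c * (3 * x ^ 2 + a) := by
  have e := congrArg D h.eq
  rw [map_add, map_add, Derivation.leibniz_pow, Derivation.leibniz_pow, Derivation.leibniz,
    h.Da, h.Db, h.Dx] at e
  simp only [smul_eq_mul, nsmul_eq_mul, Nat.cast_ofNat] at e
  apply mul_left_cancel₀ h.y0
  linear_combination e

theorem EllPt.Dy' (h : EllPt D M x y a b c) : D y = algebraMap k F (1 / 2) * (c * (3 * x ^ 2 + a)) := by
  have h1 := h.Dy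
  have h2 : algebraMap k F (1 / 2) * 2 = 1 := by
    rw [map_div₀, map_one, map_ofNat, div_mul_cancel₀ _]
    have hch : CharZero F := charZero_of_injective_algebraMap (algebraMap k F).injective
    exact two_ne_zero
  linear_combination (algebraMap k F (1 / 2)) * h1 - D y * h2

/-- the affine coordinate ring -/
def affR (M : IntermediateField k F) (x y : F) : Subalgebra k F :=
  (Algebra.adjoin M ({x, y} : Set F)).restrictScalars k

theorem mem_affR {z : F} : z ∈ affR M x y ↔ z ∈ Algebra.adjoin M ({x, y} : Set F) := Iff.rfl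

theorem M_le_affR (z : F) (hz : z ∈ M) : z ∈ affR M x y :=
  mem_affR.2 (Subalgebra.algebraMap_mem _ (⟨z, hz⟩ : M))

theorem x_mem : x ∈ affR M x y := mem_affR.2 (Algebra.subset_adjoin (by simp))

theorem y_mem : y ∈ affR M x y := mem_affR.2 (Algebra.subset_adjoin (by simp))

/-- stability of a ring generated by elements with derivatives in the ring -/
theorem adjoin_stable {M : IntermediateField k F} {G : Set F} (hM : ∀ z ∈ M, D z ∈ M)
    (hG : ∀ z ∈ G, D z ∈ Algebra.adjoin M G) {z : F} (hz : z ∈ Algebra.adjoin M G) :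
    D z ∈ Algebra.adjoin M G := by
  induction hz using Algebra.adjoin_induction with
  | mem z hz => exact hG z hz
  | algebraMap r => exact Subalgebra.algebraMap_mem _ (⟨_, hM r r.2⟩ : M)
  | add u v _ _ hu hv => rw [map_add]; exact Subalgebra.add_mem _ hu hv
  | mul u v hu' hv' hu hv =>
    rw [D.leibniz, smul_eq_mul, smul_eq_mul]
    exact Subalgebra.add_mem _ (Subalgebra.mul_mem _ hu' hv) (Subalgebra.mul_mem _ hv' hu)

theorem EllPt.stable (h : EllPt D M x y a b c) : ∀ z ∈ affR M x y, D z ∈ affR M x y := by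
  intro z hz
  refine adjoin_stable h.st ?_ hz
  rintro z (rfl | hz)
  · rw [h.Dx]
    exact (affR M z y).mul_mem (M_le_affR c h.cM) y_mem
  · rw [Set.mem_singleton_iff] at hz
    subst hz
    rw [h.Dy']
    have h3 : (3 : F) ∈ affR M x z := by
      have := (affR M x z).natCast_mem 3
      exact_mod_cast this
    exact (affR M x z).mul_mem ((affR M x z).algebraMap_mem _) ((affR M x z).mul_mem
      (M_le_affR c h.cM) ((affR M x z).add_mem ((affR M x z).mul_mem h3
        ((affR M x z).pow_mem x_mem 2)) (M_le_affR a (h.cst a h.Da))))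

/-- the constant difference of two points with the same speed -/
theorem diff_const {E : Type} [Field E] [Algebra k E] (Δ : Derivation k E E)
    {x y x' y' a b c : E} (h : y ^ 2 = x ^ 3 + a * x + b) (h' : y' ^ 2 = x' ^ 3 + a * x' + b)
    (hx : Δ x = c * y) (hx' : Δ x' = c * y') (hy : 2 * Δ y = c * (3 * x ^ 2 + a))
    (hy' : 2 * Δ y' = c * (3 * x' ^ 2 + a)) (hne : x - x' ≠ 0) :
    Δ (((y + y') / (x - x')) ^ 2 - x - x') = 0 := by
  have hch : CharZero E := charZero_of_injective_algebraMap (algebraMap k E).injective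
  obtain ⟨l, hl⟩ : ∃ l, l = (y + y') / (x - x') := ⟨_, rfl⟩
  have hl1 : l * (x - x') = y + y' := by rw [hl, div_mul_cancel₀ _ hne]
  have h1 : 2 * Δ l = c * (x - x') := by
    have e := congrArg Δ hl1
    rw [Δ.leibniz, map_sub, map_add, smul_eq_mul, smul_eq_mul, hx, hx'] at e
    have e2 : (x - x') * (2 * Δ l) = (x - x') * (c * (x - x')) := by
      apply mul_left_cancel₀ hne
      linear_combination 2 * (x - x') * e + (x - x') * hy + (x - x') * hy' -
        2 * c * (y - y') * hl1 - 2 * c * h + 2 * c * h'
    exact mul_left_cancel₀ hne e2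
  rw [← hl, map_sub, map_sub, Δ.leibniz_pow, hx, hx']
  simp only [smul_eq_mul, nsmul_eq_mul, Nat.cast_ofNat, Nat.add_one_sub_one, pow_one]
  linear_combination l * h1 + c * hl1

end ell

end Pool.Agent.E8helper90.RC
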