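import Pool.Agent.E8helper90.RC.EllS

/-!
The coordinate ring at infinity of a moving point of an elliptic curve is differentially simple.
-/

set_option autoImplicit false

namespace Pool.Agent.E8helper90.RC

variable {k F : Type} [Field k] [Field F] [Algebra k F] [CharZero k]
variable {D : Derivation k F F} {M : IntermediateField k F} {x y a b c : F}

theorem half (k : Type) {F : Type} [Field k] [Field F] [Algebra k F] [CharZero k] :
    algebraMap k F (1 / 2) * 2 = 1 := by
  have hch : CharZero F := charZero_of_injective_algebraMap (algebraMap k F).injective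
  rw [map_div₀, map_one, map_ofNat, div_mul_cancel₀ _]
  exact two_ne_zero

/-- the derivative of the coordinate `1 / y` -/
theorem EllPt.Dw (h : EllPt D M x y a b c) :
    D (y⁻¹) = -(algebraMap k F (1 / 2) * c * (3 * (x * y⁻¹) ^ 2 + a * (y⁻¹) ^ 2)) := by
  have hy := h.y0
  rw [Derivation.leibniz_inv, smul_eq_mul, h.Dy']
  field_simp

/-- the derivative of the coordinate `x / y` -/
theorem EllPt.Dz (h : EllPt D M x y a b c) :
    D (x * y⁻¹) = c * (-(algebraMap k F (1 / 2)) + a * (x * y⁻¹) * y⁻¹ +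
      algebraMap k F (1 / 2) * 3 * b * (y⁻¹) ^ 2) := by
  have hy := h.y0
  have h2 := half k (F := F)
  have heq := h.eq
  rw [D.leibniz, smul_eq_mul, smul_eq_mul, h.Dw, h.Dx]
  field_simp
  linear_combination (-(c * y ^ 2) + c * a * x) * h2 + 3 * c * algebraMap k F (1 / 2) * heq

/-- the coordinate ring at infinity -/
def projR (M : IntermediateField k F) (x y : F) : Subalgebra k F :=
  (Algebra.adjoin M ({x * y⁻¹, y⁻¹} : Set F)).restrictScalars k

omit [CharZero k] in
theorem mem_projR {z : F} : z ∈ projR M x y ↔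
    z ∈ Algebra.adjoin M ({x * y⁻¹, y⁻¹} : Set F) := Iff.rfl

omit [CharZero k] in
theorem M_le_projR (z : F) (hz : z ∈ M) : z ∈ projR M x y :=
  mem_projR.2 (Subalgebra.algebraMap_mem _ (⟨z, hz⟩ : M))

omit [CharZero k] in
theorem z_mem : x * y⁻¹ ∈ projR M x y := mem_projR.2 (Algebra.subset_adjoin (by simp))

omit [CharZero k] in
theorem w_mem : y⁻¹ ∈ projR M x y := mem_projR.2 (Algebra.subset_adjoin (by simp))

theorem EllPt.proj_stable (h : EllPt D M x y a b c) : ∀ z ∈ projR M x y, D z ∈ projR M x y := by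
  intro z hz
  have h3 : (3 : F) ∈ projR M x y := by
    have := (projR M x y).natCast_mem 3
    exact_mod_cast this
  have hh : algebraMap k F (1 / 2) ∈ projR M x y := (projR M x y).algebraMap_mem _
  have hc := M_le_projR (x := x) (y := y) c h.cM
  have ha := M_le_projR (x := x) (y := y) a (h.cst a h.Da)
  have hb := M_le_projR (x := x) (y := y) b (h.cst b h.Db)
  refine adjoin_stable h.st ?_ hz
  intro z hz
  change D z ∈ projR M x y
  rcases hz with hz | hz
  · rw [hz, h.Dz]
    exact (projR M x y).mul_mem hc ((projR M x y).add_mem ((projR M x y).add_mem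
      ((projR M x y).neg_mem hh) ((projR M x y).mul_mem ((projR M x y).mul_mem ha z_mem) w_mem))
      ((projR M x y).mul_mem ((projR M x y).mul_mem ((projR M x y).mul_mem hh h3) hb)
        ((projR M x y).pow_mem w_mem 2)))
  · rw [Set.mem_singleton_iff] at hz
    rw [hz, h.Dw]
    exact (projR M x y).neg_mem ((projR M x y).mul_mem ((projR M x y).mul_mem hh hc)
      ((projR M x y).add_mem ((projR M x y).mul_mem h3 ((projR M x y).pow_mem z_mem 2))
        ((projR M x y).mul_mem ha ((projR M x y).pow_mem w_mem 2))))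

theorem aff_to_proj (hy : y ≠ 0) {r : F} (hr : r ∈ affR M x y) :
    ∃ n : ℕ, ∀ m, n ≤ m → y⁻¹ ^ m * r ∈ projR M x y := by
  have key : ∀ r ∈ Algebra.adjoin M ({x, y} : Set F), ∃ n : ℕ, y⁻¹ ^ n * r ∈ projR M x y := by
    intro r hr
    induction hr using Algebra.adjoin_induction with
    | mem z hz =>
      refine ⟨1, ?_⟩
      rcases hz with hz | hz
      · rw [hz, pow_one, mul_comm]
        exact z_mem
      · rw [Set.mem_singleton_iff] at hz
        rw [hz, pow_one, inv_mul_cancel₀ hy]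
        exact (projR M x y).one_mem
    | algebraMap r => exact ⟨0, by rw [pow_zero, one_mul]; exact M_le_projR _ r.2⟩
    | add u v _ _ hu hv =>
      obtain ⟨n, hn⟩ := hu
      obtain ⟨m, hm⟩ := hv
      refine ⟨n + m, ?_⟩
      have e : y⁻¹ ^ (n + m) * (u + v) = y⁻¹ ^ m * (y⁻¹ ^ n * u) + y⁻¹ ^ n * (y⁻¹ ^ m * v) := by
        rw [pow_add]; ring
      rw [e]
      exact (projR M x y).add_mem ((projR M x y).mul_mem ((projR M x y).pow_mem w_mem m) hn)
        ((projR M x y).mul_mem ((projR M x y).pow_mem w_mem n) hm)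
    | mul u v _ _ hu hv =>
      obtain ⟨n, hn⟩ := hu
      obtain ⟨m, hm⟩ := hv
      refine ⟨n + m, ?_⟩
      have e : y⁻¹ ^ (n + m) * (u * v) = (y⁻¹ ^ n * u) * (y⁻¹ ^ m * v) := by
        rw [pow_add]; ring
      rw [e]
      exact (projR M x y).mul_mem hn hm
  obtain ⟨n, hn⟩ := key r hr
  refine ⟨n, fun m hm => ?_⟩
  have e : y⁻¹ ^ m * r = y⁻¹ ^ (m - n) * (y⁻¹ ^ n * r) := by
    rw [← mul_assoc, ← pow_add]
    congr 2
    omega
  rw [e]
  exact (projR M x y).mul_mem ((projR M x y).pow_mem w_mem _) hn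

theorem proj_to_aff (hy : y ≠ 0) {r : F} (hr : r ∈ projR M x y) :
    ∃ n : ℕ, y ^ n * r ∈ affR M x y := by
  have key : ∀ r ∈ Algebra.adjoin M ({x * y⁻¹, y⁻¹} : Set F), ∃ n : ℕ, y ^ n * r ∈ affR M x y := by
    intro r hr
    induction hr using Algebra.adjoin_induction with
    | mem z hz =>
      refine ⟨1, ?_⟩
      rcases hz with hz | hz
      · rw [hz, pow_one]
        have e : y * (x * y⁻¹) = x := by field_simp
        rw [e]
        exact x_mem
      · rw [Set.mem_singleton_iff] at hz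
        rw [hz, pow_one, mul_inv_cancel₀ hy]
        exact (affR M x y).one_mem
    | algebraMap r => exact ⟨0, by rw [pow_zero, one_mul]; exact M_le_affR _ r.2⟩
    | add u v _ _ hu hv =>
      obtain ⟨n, hn⟩ := hu
      obtain ⟨m, hm⟩ := hv
      refine ⟨n + m, ?_⟩
      have e : y ^ (n + m) * (u + v) = y ^ m * (y ^ n * u) + y ^ n * (y ^ m * v) := by
        rw [pow_add]; ring
      rw [e]
      exact (affR M x y).add_mem ((affR M x y).mul_mem ((affR M x y).pow_mem y_mem m) hn)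
        ((affR M x y).mul_mem ((affR M x y).pow_mem y_mem n) hm)
    | mul u v _ _ hu hv =>
      obtain ⟨n, hn⟩ := hu
      obtain ⟨m, hm⟩ := hv
      refine ⟨n + m, ?_⟩
      have e : y ^ (n + m) * (u * v) = (y ^ n * u) * (y ^ m * v) := by
        rw [pow_add]; ring
      rw [e]
      exact (affR M x y).mul_mem hn hm
  exact key r hr

/-- **The coordinate ring at infinity is differentially simple.** -/
theorem EllPt.proj_DS (h : EllPt D M x y a b c) : DS D (projR M x y) := by
  classical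
  have hy := h.y0
  have hch : CharZero F := charZero_of_injective_algebraMap (algebraMap k F).injective
  obtain ⟨B, hB⟩ : ∃ B : Subalgebra k F, B = projR M x y := ⟨_, rfl⟩
  have hwB : y⁻¹ ∈ B := by rw [hB]; exact w_mem
  have hzB : x * y⁻¹ ∈ B := by rw [hB]; exact z_mem
  refine ⟨h.proj_stable, fun J hJ hne => ?_⟩
  rw [← hB] at hJ
  have hst := h.proj_stable
  rw [← hB] at hst
  -- a power of the coordinate `1 / y` is in the ideal
  have hpow : ∃ n : ℕ, y⁻¹ ^ n ∈ J := by
    obtain ⟨J', hJ'⟩ : ∃ J' : Set F, J' = {r | r ∈ affR M x y ∧ ∃ n : ℕ, y⁻¹ ^ n * r ∈ J} :=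
      ⟨_, rfl⟩
    have hid : DIdeal D (affR M x y) J' := by
      rw [hJ']
      constructor
      · exact fun r hr => hr.1
      · exact ⟨(affR M x y).zero_mem, 0, by rw [mul_zero]; exact hJ.zero⟩
      · rintro u ⟨hu, n, hn⟩ v ⟨hv, m, hm⟩
        refine ⟨(affR M x y).add_mem hu hv, n + m, ?_⟩
        have e : y⁻¹ ^ (n + m) * (u + v) = y⁻¹ ^ m * (y⁻¹ ^ n * u) + y⁻¹ ^ n * (y⁻¹ ^ m * v) := by
          rw [pow_add]; ring
        rw [e]
        exact hJ.add _ (hJ.mul _ (B.pow_mem hwB m) _ hn) _ (hJ.mul _ (B.pow_mem hwB n) _ hm)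
      · rintro r hr u ⟨hu, n, hn⟩
        obtain ⟨m, hm⟩ := aff_to_proj hy hr
        refine ⟨(affR M x y).mul_mem hr hu, m + n, ?_⟩
        have e : y⁻¹ ^ (m + n) * (r * u) = (y⁻¹ ^ m * r) * (y⁻¹ ^ n * u) := by
          rw [pow_add]; ring
        rw [e]
        exact hJ.mul _ (by rw [hB]; exact hm m le_rfl) _ hn
      · rintro u ⟨hu, n, hn⟩
        refine ⟨h.stable u hu, n + 1, ?_⟩
        have h1 := hJ.mul _ hwB _ (hJ.der _ hn)
        have h2 := hJ.mul ((n : F) * D (y⁻¹)) (B.mul_mem (B.natCast_mem n) (hst _ hwB)) _ hn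
        have e : y⁻¹ ^ (n + 1) * D u = y⁻¹ * D (y⁻¹ ^ n * u) -
            (n : F) * D (y⁻¹) * (y⁻¹ ^ n * u) := by
          rw [D.leibniz, D.leibniz_pow]
          simp only [smul_eq_mul, nsmul_eq_mul]
          rcases Nat.eq_zero_or_pos n with rfl | hnp
          · simp
          · obtain ⟨m, rfl⟩ : ∃ m, n = m + 1 := ⟨n - 1, by omega⟩
            rw [Nat.add_sub_cancel]
            ring
        rw [e]
        exact hJ.sub_mem h1 h2
    obtain ⟨u, hu, hu0⟩ := hne
    have huB := hJ.sub hu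
    rw [hB] at huB
    obtain ⟨n, hn⟩ := proj_to_aff hy huB
    have h1 := h.aff_DS.2 J' hid ⟨y ^ n * u, by
      rw [hJ']
      refine ⟨hn, n, ?_⟩
      have e : y⁻¹ ^ n * (y ^ n * u) = u := by
        rw [← mul_assoc, ← mul_pow, inv_mul_cancel₀ hy, one_pow, one_mul]
      rw [e]
      exact hu, mul_ne_zero (pow_ne_zero n hy) hu0⟩
    rw [hJ'] at h1
    obtain ⟨-, m, hm⟩ := h1
    exact ⟨m, by rwa [mul_one] at hm⟩
  obtain ⟨n, hn⟩ := hpow
  obtain ⟨w, hw⟩ : ∃ w, w = y⁻¹ := ⟨_, rfl⟩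
  obtain ⟨z, hz⟩ : ∃ z, z = x * y⁻¹ := ⟨_, rfl⟩
  have hwz : z ^ 3 = w * (1 - a * z * w - b * w ^ 2) := by
    rw [hz, hw]
    have := h.eq
    field_simp
    linear_combination -this
  rw [← hw] at hn hwB
  rw [← hz] at hzB
  have haB : a ∈ B := by rw [hB]; exact M_le_projR a (h.cst a h.Da)
  have hbB : b ∈ B := by rw [hB]; exact M_le_projR b (h.cst b h.Db)
  have h3B : (3 : F) ∈ B := by
    have := B.natCast_mem 3
    exact_mod_cast this
  have hzn : ∃ m : ℕ, z ^ m ∈ J := by
    refine ⟨3 * n, ?_⟩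
    rw [pow_mul, hwz, mul_pow, mul_comm]
    exact hJ.mul _ (B.pow_mem (B.sub_mem (B.sub_mem B.one_mem (B.mul_mem (B.mul_mem haB hzB) hwB))
      (B.mul_mem hbB (B.pow_mem hwB 2))) n) _ hn
  obtain ⟨m, hm, hmin⟩ : ∃ m : ℕ, z ^ m ∈ J ∧ ∀ l, l < m → z ^ l ∉ J :=
    ⟨Nat.find hzn, Nat.find_spec hzn, fun l hl => Nat.find_min hzn hl⟩
  rcases Nat.eq_zero_or_pos m with rfl | hmp
  · rwa [pow_zero] at hm
  · exfalso
    obtain ⟨l, rfl⟩ : ∃ l, m = l + 1 := ⟨m - 1, by omega⟩
    apply hmin l (by omega)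
    have h1 := hJ.der _ hm
    rw [D.leibniz_pow, hz, h.Dz, ← hz, ← hw, smul_eq_mul, nsmul_eq_mul, Nat.add_sub_cancel] at h1
    have h1' := hJ.nat_div (n := l + 1) (Nat.succ_ne_zero l) h1
    -- divide by the speed
    have hcB : c⁻¹ ∈ B := by
      rw [hB]
      exact M_le_projR _ (M.inv_mem h.cM)
    have h2 := hJ.mul (-(2 * c⁻¹)) (B.neg_mem (B.mul_mem (by
      have := B.natCast_mem 2
      exact_mod_cast this) hcB)) _ h1'
    obtain ⟨ν, hν⟩ : ∃ ν, ν = w * (2 * (a * z) + 3 * b * w) := ⟨_, rfl⟩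
    have hhalf := half k (F := F)
    have h3 : z ^ l * (1 - ν) ∈ J := by
      have e : z ^ l * (1 - ν) = -(2 * c⁻¹) * (z ^ l * (c * (-(algebraMap k F (1 / 2)) +
          a * z * w + algebraMap k F (1 / 2) * 3 * b * w ^ 2))) := by
        have hc0 := h.c0
        rw [hν]
        field_simp
        linear_combination (-(z ^ l) * (1 - 3 * b * w ^ 2)) * hhalf
      rw [e]
      exact h2
    have h4 : ν ^ n ∈ J := by
      rw [hν, mul_pow, mul_comm]
      exact hJ.mul _ (B.pow_mem (B.add_mem (B.mul_mem (by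
        have := B.natCast_mem 2
        exact_mod_cast this) (B.mul_mem haB hzB)) (B.mul_mem (B.mul_mem h3B hbB) hwB)) n) _ hn
    have hνB : ν ∈ B := by
      rw [hν]
      exact B.mul_mem hwB (B.add_mem (B.mul_mem (by
        have := B.natCast_mem 2
        exact_mod_cast this) (B.mul_mem haB hzB)) (B.mul_mem (B.mul_mem h3B hbB) hwB))
    have h5 : ∀ j : ℕ, z ^ l * (1 - ν ^ j) ∈ J := by
      intro j
      induction j with
      | zero =>
        rw [pow_zero, sub_self, mul_zero]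
        exact hJ.zero
      | succ j ih =>
        have e : z ^ l * (1 - ν ^ (j + 1)) = z ^ l * (1 - ν ^ j) + ν ^ j * (z ^ l * (1 - ν)) := by
          ring
        rw [e]
        exact hJ.add _ ih _ (hJ.mul _ (B.pow_mem hνB j) _ h3)
    have h6 := hJ.add _ (h5 n) _ (hJ.mul _ (B.pow_mem hzB l) _ h4)
    have e : z ^ l * (1 - ν ^ n) + z ^ l * ν ^ n = z ^ l := by ring
    rwa [e] at h6

end Pool.Agent.E8helper90.RC
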