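import Pool.Agent.E8helper90.RC.Ell

/-!
The affine and the projective coordinate rings of a moving point of an elliptic curve are
differentially simple.
-/

set_option autoImplicit false

namespace Pool.Agent.E8helper90.RC

open Polynomial Pool.Agent.E8helper90.AF
open Pool.Agent.TH600.LC (clo mem_clo inv_mem_clo subset_clo clo_le clo_mono adjoin_le_clo)

variable {k F : Type} [Field k] [Field F] [Algebra k F] [CharZero k]
variable {D : Derivation k F F} {M : IntermediateField k F} {x y a b c : F}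

/-- a prime differential ideal contains no nonzero element -/
theorem EllPt.no_prime (h : EllPt D M x y a b c) {P : Set F} (hP : DIdeal D (affR M x y) P)
    (h1 : (1 : F) ∉ P) (hprime : ∀ u ∈ affR M x y, ∀ v ∈ affR M x y, u * v ∈ P → u ∈ P ∨ v ∈ P)
    (hne : ∃ z ∈ P, z ≠ 0) : False := by
  classical
  have hch : CharZero F := charZero_of_injective_algebraMap (algebraMap k F).injective
  have hchM : CharZero M := charZero_of_injective_algebraMap (algebraMap k M).injective
  obtain ⟨A, hA⟩ : ∃ A : Subalgebra M F, A = Algebra.adjoin M ({x, y} : Set F) := ⟨_, rfl⟩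
  have hAR : ∀ z, z ∈ affR M x y ↔ z ∈ A := fun z => by rw [hA]; exact Iff.rfl
  have hxA : x ∈ A := (hAR x).1 x_mem
  have hyA : y ∈ A := (hAR y).1 y_mem
  let I : Ideal A :=
    { carrier := {z | (z : F) ∈ P}
      zero_mem' := hP.zero
      add_mem' := fun {u v} hu hv => hP.add _ hu _ hv
      smul_mem' := fun r u hu => hP.mul _ ((hAR _).2 r.2) _ hu }
  have hI : ∀ z : A, z ∈ I ↔ (z : F) ∈ P := fun z => Iff.rfl
  have hIp : I.IsPrime := by
    constructor
    · intro htop
      have h2 : (1 : A) ∈ I := by rw [htop]; trivial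
      exact h1 h2
    · intro u v huv
      exact hprime u ((hAR _).2 u.2) v ((hAR _).2 v.2) huv
  obtain ⟨B, hB1, hB2, hB3, mk, hmk0, hmks⟩ : ∃ (B : Type) (_ : CommRing B) (_ : IsDomain B)
      (_ : Algebra M B) (mk : A →ₐ[M] B), (∀ z : A, mk z = 0 ↔ (z : F) ∈ P) ∧
        Function.Surjective mk :=
    ⟨A ⧸ I, inferInstance, Ideal.Quotient.isDomain I, inferInstance, Ideal.Quotient.mkₐ M I,
      fun z => by
        rw [← hI]
        exact Ideal.Quotient.eq_zero_iff_mem, Ideal.Quotient.mkₐ_surjective M I⟩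
  -- the first coordinate is algebraic modulo the ideal
  have hxi : IsAlgebraic M (mk ⟨x, hxA⟩) := by
    obtain ⟨z, hz, hz0⟩ := hne
    have hcx : x ∈ clo M {x} := subset_clo _ rfl
    have hcy : y ∈ clo M {x} := by
      have h2 : y ^ 2 ∈ clo M {x} := by
        rw [h.eq]
        exact Subalgebra.add_mem _ (Subalgebra.add_mem _ (Subalgebra.pow_mem _ hcx 3)
          (Subalgebra.mul_mem _ (Subalgebra.algebraMap_mem _ (⟨a, h.cst a h.Da⟩ : M)) hcx))
          (Subalgebra.algebraMap_mem _ (⟨b, h.cst b h.Db⟩ : M))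
      exact mem_clo.2 ((mem_clo.1 h2).of_pow (by norm_num))
    have hle : A ≤ clo M {x} := by
      rw [hA, Algebra.adjoin_le_iff]
      rintro w (rfl | hw)
      · exact hcx
      · rw [Set.mem_singleton_iff] at hw
        rw [hw]
        exact hcy
    have hzA := (hAR z).1 (hP.sub hz)
    have halg := mem_clo.1 (hle hzA)
    obtain ⟨q, hq0, hq⟩ := halg.exists_nonzero_coeff_and_aeval_eq_zero
      (mem_nonZeroDivisors_of_ne_zero hz0)
    have hsub : ∀ w ∈ Algebra.adjoin M ({x} : Set F), w ∈ A := by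
      intro w hw
      rw [hA]
      exact Algebra.adjoin_mono (by simp) hw
    have hdiv : aeval z q.divX ∈ A := by
      rw [aeval_eq_sum_range]
      exact A.sum_mem fun i _ => by
        rw [Algebra.smul_def]
        exact A.mul_mem (hsub _ (q.divX.coeff i).2) (A.pow_mem hzA i)
    have h2 : ((q.coeff 0 : Algebra.adjoin M ({x} : Set F)) : F) ∈ P := by
      have h3 : aeval z q = aeval z q.divX * z + (q.coeff 0 : Algebra.adjoin M ({x} : Set F)) := by
        conv_lhs => rw [← Polynomial.divX_mul_X_add q]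
        rw [map_add, map_mul, aeval_X, aeval_C]
        rfl
      rw [hq] at h3
      have h4 : ((q.coeff 0 : Algebra.adjoin M ({x} : Set F)) : F) = -(aeval z q.divX * z) := by
        linear_combination -h3
      rw [h4]
      exact hP.neg (hP.mul _ ((hAR _).2 hdiv) _ hz)
    have h5 : ∀ w ∈ Algebra.adjoin M ({x} : Set F), ∃ p : M[X], aeval x p = w := by
      intro w hw
      rw [Algebra.adjoin_singleton_eq_range_aeval] at hw
      exact hw
    obtain ⟨p, hp⟩ := h5 _ (q.coeff 0).2
    have hp' : aeval x p = ((q.coeff 0 : Algebra.adjoin M ({x} : Set F)) : F) := hp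
    refine ⟨p, ?_, ?_⟩
    · rintro rfl
      rw [map_zero] at hp'
      exact hq0 (Subtype.ext hp'.symm)
    · have h6 : aeval (mk ⟨x, hxA⟩) p = mk (aeval (⟨x, hxA⟩ : A) p) :=
        (Polynomial.aeval_algHom_apply mk _ p)
      rw [h6, hmk0]
      have h7 : ((aeval (⟨x, hxA⟩ : A) p : A) : F) = aeval x p :=
        (Polynomial.aeval_algHom_apply A.val (⟨x, hxA⟩ : A) p).symm
      rw [h7, hp']
      exact h2
  have hAXY : (⟨y, hyA⟩ : A) ^ 2 = (⟨x, hxA⟩ : A) ^ 3 +
      algebraMap M A ⟨a, h.cst a h.Da⟩ * ⟨x, hxA⟩ + algebraMap M A ⟨b, h.cst b h.Db⟩ :=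
    Subtype.ext h.eq
  have hxint : IsIntegral M (mk ⟨x, hxA⟩) := hxi.isIntegral
  have hyint : IsIntegral M (mk ⟨y, hyA⟩) := by
    refine IsIntegral.of_pow (n := 2) (by norm_num) ?_
    rw [← map_pow, hAXY, map_add, map_add, map_mul, map_pow, AlgHom.commutes, AlgHom.commutes]
    exact ((hxint.pow 3).add (isIntegral_algebraMap.mul hxint)).add isIntegral_algebraMap
  have hall : ∀ z : A, IsIntegral M (mk z) := by
    intro z
    have key : ∀ w (hw : w ∈ Algebra.adjoin M ({x, y} : Set F)),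
        IsIntegral M (mk ⟨w, by rw [hA]; exact hw⟩) := by
      intro w hw
      induction hw using Algebra.adjoin_induction with
      | mem w hw =>
        rcases hw with rfl | hw
        · exact hxint
        · rw [Set.mem_singleton_iff] at hw
          subst hw
          exact hyint
      | algebraMap r =>
        have : (⟨algebraMap M F r, by rw [hA]; exact Subalgebra.algebraMap_mem _ r⟩ : A) =
            algebraMap M A r := rfl
        rw [this, AlgHom.commutes]
        exact isIntegral_algebraMap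
      | add u v hu' hv' hu hv =>
        have : (⟨u + v, by rw [hA]; exact Subalgebra.add_mem _ hu' hv'⟩ : A) =
            ⟨u, by rw [hA]; exact hu'⟩ + ⟨v, by rw [hA]; exact hv'⟩ := rfl
        rw [this, map_add]
        exact hu.add hv
      | mul u v hu' hv' hu hv =>
        have : (⟨u * v, by rw [hA]; exact Subalgebra.mul_mem _ hu' hv'⟩ : A) =
            ⟨u, by rw [hA]; exact hu'⟩ * ⟨v, by rw [hA]; exact hv'⟩ := rfl
        rw [this, map_mul]
        exact hu.mul hv
    have hz := z.2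
    have hz' : (z : F) ∈ Algebra.adjoin M ({x, y} : Set F) := by rw [← hA]; exact hz
    exact key z hz'
  have halgq : Algebra.IsAlgebraic M B := ⟨fun z => by
    obtain ⟨w, rfl⟩ := hmks z
    exact (hall w).isAlgebraic⟩
  -- the point in an algebraic closure
  obtain ⟨φ⟩ : Nonempty (B →ₐ[M] AlgebraicClosure F) := ⟨IsAlgClosed.lift⟩
  obtain ⟨Δ, hΔ⟩ := exists_ext (E := AlgebraicClosure F) D
  obtain ⟨δ, hδ⟩ : ∃ δ : Derivation k M M, δ = resDerF D M h.st := ⟨_, rfl⟩
  have hδM : ∀ z : M, ((δ z : M) : F) = D z := fun z => by rw [hδ, coe_resDerF]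
  have hΔM : ∀ z : M, Δ (algebraMap M (AlgebraicClosure F) z) =
      algebraMap M (AlgebraicClosure F) (δ z) := by
    intro z
    rw [IsScalarTower.algebraMap_apply M F (AlgebraicClosure F) z,
      IsScalarTower.algebraMap_apply M F (AlgebraicClosure F) (δ z)]
    have h2 := hΔ (algebraMap M F z)
    rw [h2]
    congr 1
    exact (hδM z).symm
  have hDM : ∀ z : M, D (algebraMap M F z) = algebraMap M F (δ z) := fun z => (hδM z).symm
  have hcomp : ∀ (z : A) (z' : A), (z' : F) = D z → Δ (φ (mk z)) = φ (mk z') := by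
    intro z z' hz'
    have hint := hall z
    obtain ⟨q', hq1, hq2⟩ := exists_mapD δ (minpoly M (mk z))
    have e1 := hq2 _ Δ hΔM (φ (mk z))
    have e2 := hq2 F D hDM (z : F)
    have e3 : aeval (φ (mk z)) (minpoly M (mk z)) = 0 := by
      rw [Polynomial.aeval_algHom_apply, minpoly.aeval, map_zero]
    rw [e3, map_zero] at e1
    have e4 : (aeval (z : F) (minpoly M (mk z))) ∈ P := by
      have h5 : ((aeval z (minpoly M (mk z)) : A) : F) = aeval (z : F) (minpoly M (mk z)) :=
        (Polynomial.aeval_algHom_apply A.val z _).symm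
      rw [← h5, ← hmk0, ← Polynomial.aeval_algHom_apply mk, minpoly.aeval]
    have e5 := hP.der _ e4
    rw [e2, ← hz'] at e5
    have e6 : aeval (z : F) q' + aeval (z : F) (derivative (minpoly M (mk z))) * (z' : F) =
        ((aeval z q' + aeval z (derivative (minpoly M (mk z))) * z' : A) : F) := by
      have h5 : ((aeval z q' : A) : F) = aeval (z : F) q' :=
        (Polynomial.aeval_algHom_apply A.val z _).symm
      have h6 : ((aeval z (derivative (minpoly M (mk z))) : A) : F) =
          aeval (z : F) (derivative (minpoly M (mk z))) :=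
        (Polynomial.aeval_algHom_apply A.val z _).symm
      push_cast
      rfl
    rw [e6, ← hmk0, map_add, map_mul, ← Polynomial.aeval_algHom_apply,
      ← Polynomial.aeval_algHom_apply] at e5
    have e7 := congrArg φ e5
    rw [map_zero, map_add, map_mul, ← Polynomial.aeval_algHom_apply,
      ← Polynomial.aeval_algHom_apply] at e7
    have hsep : (minpoly M (mk z)).Separable := (minpoly.irreducible hint).separable
    have e8 : aeval (φ (mk z)) (derivative (minpoly M (mk z))) ≠ 0 :=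
      hsep.aeval_derivative_ne_zero e3
    apply mul_left_cancel₀ e8
    linear_combination -e1 - e7
  obtain ⟨x', hx'⟩ : ∃ x', x' = φ (mk ⟨x, hxA⟩) := ⟨_, rfl⟩
  obtain ⟨y', hy'⟩ : ∃ y', y' = φ (mk ⟨y, hyA⟩) := ⟨_, rfl⟩
  obtain ⟨ι, hι⟩ : ∃ ι : F →+* AlgebraicClosure F, ι = algebraMap F (AlgebraicClosure F) :=
    ⟨_, rfl⟩
  have hιinj : Function.Injective ι := ι.injective
  have hιM : ∀ z : M, φ (mk (algebraMap M A z)) = ι (z : F) := by
    intro z
    rw [AlgHom.commutes, AlgHom.commutes, hι]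
    rfl
  have hxy' : y' ^ 2 = x' ^ 3 + ι a * x' + ι b := by
    have e := congrArg (fun z => φ (mk z)) hAXY
    simp only [map_add, map_mul, map_pow] at e
    rw [← hx', ← hy'] at e
    have e1 := hιM ⟨a, h.cst a h.Da⟩
    have e2 := hιM ⟨b, h.cst b h.Db⟩
    rw [e1, e2] at e
    exact e
  have hΔι : ∀ z, Δ (ι z) = ι (D z) := fun z => by rw [hι]; exact hΔ z
  have hcyA : c * y ∈ A := A.mul_mem (Subalgebra.algebraMap_mem _ (⟨c, h.cM⟩ : M)) hyA
  have hDx' : Δ x' = ι c * y' := by
    rw [hx', hcomp ⟨x, hxA⟩ ⟨c * y, hcyA⟩ h.Dx.symm]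
    have e : (⟨c * y, hcyA⟩ : A) = algebraMap M A ⟨c, h.cM⟩ * ⟨y, hyA⟩ := rfl
    rw [e, map_mul, map_mul, ← hy', hιM]
  have hDyA : D y ∈ A := (hAR _).1 (h.stable _ y_mem)
  have hDy' : 2 * Δ y' = ι c * (3 * x' ^ 2 + ι a) := by
    rw [hy', hcomp ⟨y, hyA⟩ ⟨D y, hDyA⟩ rfl]
    have e : (2 : A) * ⟨D y, hDyA⟩ = algebraMap M A ⟨c, h.cM⟩ * (3 * ⟨x, hxA⟩ ^ 2 +
        algebraMap M A ⟨a, h.cst a h.Da⟩) := Subtype.ext h.Dy
    have e1 := congrArg (fun z => φ (mk z)) e
    simp only [map_add, map_mul, map_pow, map_ofNat] at e1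
    rw [← hx', hιM ⟨c, h.cM⟩, hιM ⟨a, h.cst a h.Da⟩] at e1
    exact e1
  -- the point is not a point of order two
  have hy'0 : y' ≠ 0 := by
    intro h0
    have h2 := hDy'
    rw [h0, map_zero, mul_zero] at h2
    have hιc : ι c ≠ 0 := fun hh => h.c0 (hιinj (by rw [hh, map_zero]))
    have h3 := (mul_eq_zero.1 h2.symm).resolve_left hιc
    have h4 := hxy'
    rw [h0] at h4
    have hdisc := h.disc
    apply hdisc
    apply hιinj
    simp only [map_add, map_mul, map_pow, map_ofNat, map_zero]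
    have e1 : ι a = -3 * x' ^ 2 := by linear_combination h3
    have e2 : ι b = 2 * x' ^ 3 := by
      rw [e1] at h4
      linear_combination -h4
    rw [e1, e2]
    ring
  -- algebraicity over the base field
  have hx'alg : IsAlgebraic M x' := by
    rw [hx']
    exact ((hall _).map φ).isAlgebraic
  have hy'alg : IsAlgebraic M y' := by
    rw [hy']
    exact ((hall _).map φ).isAlgebraic
  have htr' : ∀ z : AlgebraicClosure F, IsAlgebraic M z → ι x ≠ z := by
    rintro z hz rfl
    apply h.tr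
    have h2 := (isAlgebraic_algebraMap_iff (R := M) (S := F) (A := AlgebraicClosure F)
      (algebraMap F (AlgebraicClosure F)).injective (a := x)).1 (by rw [← hι]; exact hz)
    exact h2
  have hne' : ι x - x' ≠ 0 := fun hh => htr' x' hx'alg (sub_eq_zero.1 hh)
  obtain ⟨c0, hc0⟩ : ∃ c0, c0 = ((ι y + y') / (ι x - x')) ^ 2 - ι x - x' := ⟨_, rfl⟩
  have hιeq : (ι y) ^ 2 = (ι x) ^ 3 + ι a * ι x + ι b := by
    rw [← map_pow, h.eq]
    simp only [map_add, map_mul, map_pow]
  have hc0D : Δ c0 = 0 := by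
    rw [hc0]
    refine diff_const Δ (a := ι a) (b := ι b) (c := ι c) hιeq hxy' ?_ hDx' ?_ hDy' hne'
    · rw [hΔι, h.Dx, map_mul]
    · rw [hΔι]
      have e := congrArg ι h.Dy
      simp only [map_add, map_mul, map_pow, map_ofNat] at e
      exact e
  have hc0alg : IsAlgebraic M c0 := const_alg (fun z => hΔ z) h.cst hc0D
    (Algebra.IsAlgebraic.isAlgebraic c0)
  -- the relation
  obtain ⟨N, hN⟩ : ∃ N : IntermediateField M (AlgebraicClosure F),
    N = algebraicClosure M (AlgebraicClosure F) := ⟨_, rfl⟩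
  have hNm : ∀ z : AlgebraicClosure F, IsAlgebraic M z → z ∈ N := fun z hz => by
    rw [hN]
    exact mem_algebraicClosure_iff.2 hz
  have hNalg : Algebra.IsAlgebraic M N := by
    rw [hN]
    infer_instance
  have hxN : Transcendental N (ι x) := by
    intro halg
    have h2 : IsAlgebraic M (ι x) := halg.restrictScalars M
    exact htr' _ h2 rfl
  have hιMalg : ∀ z ∈ M, IsAlgebraic M (ι z) := by
    intro z hz
    rw [hι]
    have : algebraMap F (AlgebraicClosure F) z = algebraMap M (AlgebraicClosure F) ⟨z, hz⟩ := rfl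
    rw [this]
    exact isAlgebraic_algebraMap _
  obtain ⟨x1, hx1⟩ : ∃ x1 : N, (x1 : AlgebraicClosure F) = x' := ⟨⟨x', hNm _ hx'alg⟩, rfl⟩
  obtain ⟨y1, hy1⟩ : ∃ x1 : N, (x1 : AlgebraicClosure F) = y' := ⟨⟨y', hNm _ hy'alg⟩, rfl⟩
  obtain ⟨c1, hc1⟩ : ∃ x1 : N, (x1 : AlgebraicClosure F) = c0 := ⟨⟨c0, hNm _ hc0alg⟩, rfl⟩
  obtain ⟨a1, ha1⟩ : ∃ x1 : N, (x1 : AlgebraicClosure F) = ι a :=
    ⟨⟨ι a, hNm _ (hιMalg a (h.cst a h.Da))⟩, rfl⟩
  obtain ⟨b1, hb1⟩ : ∃ x1 : N, (x1 : AlgebraicClosure F) = ι b :=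
    ⟨⟨ι b, hNm _ (hιMalg b (h.cst b h.Db))⟩, rfl⟩
  obtain ⟨q, hq⟩ : ∃ q : N[X], q = (C c1 + X + C x1) * (X - C x1) ^ 2 -
    (X ^ 3 + C a1 * X + C b1) - C (y1 ^ 2) := ⟨_, rfl⟩
  obtain ⟨p, hp⟩ : ∃ p : N[X], p = C (4 * y1 ^ 2) * (X ^ 3 + C a1 * X + C b1) := ⟨_, rfl⟩
  have hsq : (ι y + y') ^ 2 = (c0 + ι x + x') * (ι x - x') ^ 2 := by
    have e : c0 + ι x + x' = ((ι y + y') / (ι x - x')) ^ 2 := by rw [hc0]; ring
    rw [e, div_pow, div_mul_cancel₀ _ (pow_ne_zero 2 hne')]
  have hCv : ∀ z : N, aeval (ι x) (C z : N[X]) = (z : AlgebraicClosure F) := fun z => by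
    rw [aeval_C]
    rfl
  have hqe : aeval (ι x) q = 2 * y' * ι y := by
    rw [hq]
    simp only [map_sub, map_add, map_mul, map_pow, aeval_X, hCv]
    rw [hx1, hy1, hc1, ha1, hb1]
    linear_combination -hsq + hιeq
  have hpe : aeval (ι x) p = aeval (ι x) (q ^ 2) := by
    rw [map_pow, hqe, hp]
    simp only [map_add, map_mul, map_pow, aeval_X, hCv]
    have h4 : ((4 : N) : AlgebraicClosure F) = 4 := rfl
    rw [hy1, ha1, hb1, h4]
    linear_combination -4 * y' ^ 2 * hιeq
  have hpq : p = q ^ 2 := transcendental_iff_injective.1 hxN hpe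
  have hy10 : y1 ≠ 0 := by
    rintro rfl
    apply hy'0
    rw [← hy1]
    rfl
  have hchN : CharZero N := charZero_of_injective_algebraMap (algebraMap M N).injective
  have hcub : (X ^ 3 + C a1 * X + C b1 : N[X]).natDegree = 3 := by compute_degree!
  have hpd : p.natDegree = 3 := by
    have h4 : (4 : N) ≠ 0 := by
      have := (Nat.cast_ne_zero (R := N)).2 (by norm_num : (4 : ℕ) ≠ 0)
      exact_mod_cast this
    rw [hp, natDegree_C_mul (mul_ne_zero h4 (pow_ne_zero 2 hy10)), hcub]
  rw [hpq, natDegree_pow] at hpd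
  omega

/-- **The affine coordinate ring of a moving point is differentially simple.** -/
theorem EllPt.aff_DS (h : EllPt D M x y a b c) : DS D (affR M x y) := by
  refine ⟨h.stable, fun J hJ hne => ?_⟩
  by_contra h1
  obtain ⟨P, hJP, hP, hP1, hprime⟩ := exists_prime h.stable hJ h1
  obtain ⟨z, hz, hz0⟩ := hne
  exact h.no_prime hP hP1 hprime ⟨z, hJP hz, hz0⟩

end Pool.Agent.E8helper90.RC
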