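import Pool.Agent.E8helper90.RC.Ins
import Pool.Agent.E8helper90.AF.Final
import Pool.Agent.W602.GT.SpDefs

/-!
Maps to varieties of general type which are algebraic over moving points of elliptic curves: the
ultraproduct of counterexamples.
-/

set_option autoImplicit false

namespace Pool.Agent.E8helper90.RC

open FF Filter MvPolynomial Pool.Agent.E8helper90.AF
open Pool.Agent.W602.GT (GeneralType coords)
open Pool.Agent.W603.LV (hgt hgt_nonneg hgt_finset hgt_inv vo unif ord_unif ord_der der_mul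
  vo_finite const_of_der Ge canDeg exists_der hgt_root)
open Pool.Agent.W603.PV (pht pht_le)
open Pool.Agent.W603.CY (hgt_add_le hgt_mul_le)
open Pool.Agent.TH600.LC (clo mem_clo inv_mem_clo subset_clo clo_le clo_mono adjoin_le_clo
  coe_clo)

/-- `G` is a form of degree `m` in the coordinates of projective space; its coefficients are
polynomials in the parameters -/
def FormIn {N : ℕ} {σ : Type} (m : ℕ) (G : MvPolynomial (Fin (N + 1) ⊕ σ) ℂ) : Prop :=
  ∀ α ∈ G.support, ∑ i, α (Sum.inl i) = m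

theorem FormIn.scale {N m : ℕ} {σ : Type} [Fintype σ] {G : MvPolynomial (Fin (N + 1) ⊕ σ) ℂ}
    (hG : FormIn m G) {K : Type} [Field K] [Algebra ℂ K] {c : K} (hc : c ≠ 0)
    (y : Fin (N + 1) → K) (t : σ → K) :
    aeval (Sum.elim y t) G = c ^ m * aeval (Sum.elim (fun i => y i / c) t) G := by
  rw [aeval_def, aeval_def, eval₂_eq', eval₂_eq', Finset.mul_sum]
  refine Finset.sum_congr rfl fun α hα => ?_
  rw [Fintype.prod_sum_type, Fintype.prod_sum_type]
  simp only [Sum.elim_inl, Sum.elim_inr]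
  have h2 : ∏ i, y i ^ α (Sum.inl i) = c ^ m * ∏ i, (y i / c) ^ α (Sum.inl i) := by
    rw [← hG α hα, ← Finset.prod_pow_eq_pow_sum, ← Finset.prod_mul_distrib]
    refine Finset.prod_congr rfl fun i _ => ?_
    rw [← mul_pow, mul_div_cancel₀ _ hc]
  rw [h2]
  ring

theorem FormIn.zero {N m : ℕ} {σ : Type} [Fintype σ] {G : MvPolynomial (Fin (N + 1) ⊕ σ) ℂ}
    (hG : FormIn m G) {K : Type} [Field K] [Algebra ℂ K] {c : K} (hc : c ≠ 0)
    (y : Fin (N + 1) → K) (t : σ → K) :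
    aeval (Sum.elim (fun i => y i / c) t) G = 0 ↔ aeval (Sum.elim y t) G = 0 := by
  rw [hG.scale hc y t]
  constructor
  · intro h
    rw [h, mul_zero]
  · intro h
    exact (mul_eq_zero.1 h).resolve_left (pow_ne_zero m hc)

/-- the value of the polynomial `G` at the point `ξ` and the parameters `t` -/
noncomputable def at2 {K : Type} [Field K] [Algebra ℂ K] {N r : ℕ} (ξ : Fin (N + 1) → K)
    (t : Fin r → ℂ) (G : MvPolynomial (Fin (N + 1) ⊕ Fin r) ℂ) : K :=
  aeval (Sum.elim ξ fun l => algebraMap ℂ K (t l)) G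

/-- the value of the polynomial `G` at the point `ξ`, the constant parameters `t` and the further
parameters `β` -/
noncomputable def at3 {K : Type} [Field K] [Algebra ℂ K] {N r M : ℕ} (ξ : Fin (N + 1) → K)
    (t : Fin r → ℂ) (β : Fin M → K) (G : MvPolynomial (Fin (N + 1) ⊕ Fin r ⊕ Fin M) ℂ) : K :=
  aeval (Sum.elim ξ (Sum.elim (fun l => algebraMap ℂ K (t l)) β)) G

/-- `F` and `J` are forms in the coordinates of `P^N` whose coefficients are polynomials in the
parameters `t`. For all `t` in `ℂ^r`, every subvariety of positive dimension `w` of the closed subset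
`X_t` of `P^N` with the equations `F (·, t) = 0` is of general type unless it is contained in the
closed subset `Z_t` with the equations `J (·, t) = 0`. Here `K` is the function field of the
subvariety and `y` its generic point. -/
def SubGT {N r : ℕ} {ι κ : Type} (F : ι → MvPolynomial (Fin (N + 1) ⊕ Fin r) ℂ)
    (J : κ → MvPolynomial (Fin (N + 1) ⊕ Fin r) ℂ) : Prop :=
  ∀ (t : Fin r → ℂ) (K : Type) [Field K] [Algebra ℂ K] (y : Fin (N + 1) → K) (w : ℕ),
    (∃ l, y l ≠ 0) → coords ℂ y = ⊤ → Algebra.trdeg ℂ K = w → 0 < w →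
    (∀ e, at2 y t (F e) = 0) → (∃ e, at2 y t (J e) ≠ 0) → GeneralType ℂ K w

/-- For all `t` in `ℂ^r`, all fields `Ω ⊇ ℂ`, all points `ξ` of `X_t` outside `Z_t` with coordinates in
`Ω` and all `β` in `Ω^M` with `H(ξ, t, β) = 0`, the quotients of the coordinates of `ξ` are algebraic
over `ℂ(β, (P/R)(ξ, t, β))`: the map `(ξ, β) ↦ (β, (P/R)(ξ, t, β))` is quasi-finite. Functions `P/R`
with `R(ξ, t, β) = 0` are left out: here the quotient is zero. -/
def QFin {N r M n : ℕ} {ι κ η : Type} (F : ι → MvPolynomial (Fin (N + 1) ⊕ Fin r) ℂ)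
    (J : κ → MvPolynomial (Fin (N + 1) ⊕ Fin r) ℂ)
    (H : η → MvPolynomial (Fin (N + 1) ⊕ Fin r ⊕ Fin M) ℂ)
    (P R : Fin n → MvPolynomial (Fin (N + 1) ⊕ Fin r ⊕ Fin M) ℂ) : Prop :=
  ∀ (t : Fin r → ℂ) (Ω : Type) [Field Ω] [Algebra ℂ Ω] (ξ : Fin (N + 1) → Ω) (β : Fin M → Ω),
    (∃ l, ξ l ≠ 0) → (∀ e, at2 ξ t (F e) = 0) → (∃ e, at2 ξ t (J e) ≠ 0) →
    (∀ e, at3 ξ t β (H e) = 0) → ∀ i l,
    IsAlgebraic (Algebra.adjoin ℂ (Set.range β ∪ Set.range fun c =>
      at3 ξ t β (P c) / at3 ξ t β (R c))) (ξ i / ξ l)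

theorem u_aeval {L : ℕ → Type} [∀ i, Field (L i)] [∀ i, Algebra ℂ (L i)] {F : Type} [Field F]
    [Algebra ℂ F] (u : (∀ i, L i) →+* F) {σ : Type} [Fintype σ] (z : σ → ∀ i, L i)
    {H : MvPolynomial σ ℂ} (hH : ∀ α ∈ H.support,
      algebraMap ℂ F (H.coeff α) = u fun i => algebraMap ℂ (L i) (H.coeff α)) :
    aeval (fun s => u (z s)) H = u fun i => aeval (fun s => z s i) H := by
  have h1 : (fun i => aeval (fun s => z s i) H) = ∑ α ∈ H.support,
      (fun i => algebraMap ℂ (L i) (H.coeff α)) * ∏ s, z s ^ α s := by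
    funext i
    rw [aeval_def, eval₂_eq', Finset.sum_apply]
    refine Finset.sum_congr rfl fun α _ => ?_
    rw [Pi.mul_apply, Finset.prod_apply]
    rfl
  rw [h1, map_sum, aeval_def, eval₂_eq']
  refine Finset.sum_congr rfl fun α hα => ?_
  rw [map_mul, map_prod, hH α hα]
  congr 1
  exact Finset.prod_congr rfl fun s _ => (map_pow _ _ _).symm

theorem alg_mono {R R' F : Type} [CommRing R] [CommRing R'] [Field F] [Algebra R F]
    [Algebra R' F] (A : Subalgebra R F) (B : Subalgebra R' F) (h : ∀ z ∈ A, z ∈ B) {z : F}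
    (hz : IsAlgebraic A z) : IsAlgebraic B z := by
  obtain ⟨p, hp, hp0⟩ := hz
  let φ : A →+* B :=
    { toFun := fun z => ⟨z.1, h z.1 z.2⟩
      map_one' := rfl
      map_mul' := fun _ _ => rfl
      map_zero' := rfl
      map_add' := fun _ _ => rfl }
  have hφ : Function.Injective φ := by
    intro a b hab
    have : (φ a : F) = (φ b : F) := congrArg _ hab
    exact Subtype.ext this
  refine ⟨p.map φ, (Polynomial.map_ne_zero_iff hφ).2 hp, ?_⟩
  rw [← hp0, Polynomial.aeval_def, Polynomial.aeval_def, Polynomial.eval₂_map]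
  rfl

/-- elements which are algebraic over the closure -/
theorem alg_clo {S F : Type} [Field S] [Field F] [Algebra S F] {X : Set F} {z : F}
    (h1 : IsAlgebraic (clo S X) z) : z ∈ clo S X := by
  have h2 : IsAlgebraic (Algebra.adjoin S ((clo S X : Subalgebra S F) : Set F)) z := by
    rw [Algebra.adjoin_eq]
    exact h1
  exact clo_le (le_refl _) (mem_clo.2 h2)

section small

variable {L : ℕ → Type} [∀ i, Field (L i)] [∀ i, Algebra ℂ (L i)] [∀ i, IsFF ℂ (L i)]
  {U : Type} [Field U] [Algebra ℂ U] {u : (∀ i, L i) →+* U}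

omit [∀ i, Algebra ℂ (L i)] [∀ i, IsFF ℂ (L i)] [Algebra ℂ U] in
theorem u_inv (h0 : ∀ z, u z = 0 ↔ ∀ᶠ i in (hyperfilter ℕ : Filter ℕ), z i = 0)
    (w : ∀ i, L i) : u (fun i => (w i)⁻¹) = (u w)⁻¹ := by
  by_cases hw : u w = 0
  · rw [hw, inv_zero, h0]
    filter_upwards [(h0 w).1 hw] with i hi
    rw [hi, inv_zero]
  · have h1 : ∀ᶠ i in (hyperfilter ℕ : Filter ℕ), w i ≠ 0 := by
      rw [h0] at hw
      exact Ultrafilter.eventually_not.2 hw
    apply eq_inv_of_mul_eq_one_left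
    rw [← map_mul, ← sub_eq_zero, ← map_one u, ← map_sub, h0]
    filter_upwards [h1] with i hi
    change (w i)⁻¹ * w i - 1 = 0
    rw [inv_mul_cancel₀ hi, sub_self]

/-- the field of the elements of bounded height -/
noncomputable def smallU (h0 : ∀ z, u z = 0 ↔ ∀ᶠ i in (hyperfilter ℕ : Filter ℕ), z i = 0)
    (h2 : ∀ c' : ℂ, ∃ c : ℕ → ℂ, algebraMap ℂ U c' = u fun i => algebraMap ℂ (L i) (c i))
    (χ : ℕ → ℤ) : IntermediateField ℂ U where
  carrier := {z | ∃ w, u w = z ∧ ∃ B : ℕ, ∀ᶠ i in (hyperfilter ℕ : Filter ℕ),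
    hgt ℂ (w i) ≤ B * χ i}
  mul_mem' := by
    rintro _ _ ⟨v, rfl, B, hB⟩ ⟨w, rfl, C, hC⟩
    refine ⟨v * w, map_mul _ _ _, B + C, ?_⟩
    filter_upwards [hB, hC] with i h1 h2
    refine (hgt_mul_le _ _).trans ?_
    push_cast
    linarith
  one_mem' := ⟨1, map_one _, 0, Eventually.of_forall fun i => by
    have h3 : hgt ℂ (1 : L i) = 0 := hgt_const ⟨1, (map_one _).symm⟩
    change hgt ℂ (1 : L i) ≤ _
    rw [h3]
    simp⟩
  add_mem' := by
    rintro _ _ ⟨v, rfl, B, hB⟩ ⟨w, rfl, C, hC⟩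
    refine ⟨v + w, map_add _ _ _, B + C, ?_⟩
    filter_upwards [hB, hC] with i h1 h2
    refine (hgt_add_le _ _).trans ?_
    push_cast
    linarith
  zero_mem' := ⟨0, map_zero _, 0, Eventually.of_forall fun i => by
    have h3 : hgt ℂ (0 : L i) = 0 := hgt_const ⟨0, (map_zero _).symm⟩
    change hgt ℂ (0 : L i) ≤ _
    rw [h3]
    simp⟩
  algebraMap_mem' := fun c' => by
    obtain ⟨c, hc⟩ := h2 c'
    refine ⟨_, hc.symm, 0, Eventually.of_forall fun i => ?_⟩
    rw [hgt_const ⟨c i, rfl⟩]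
    simp
  inv_mem' := by
    rintro _ ⟨v, rfl, B, hB⟩
    refine ⟨fun i => (v i)⁻¹, u_inv h0 v, B, ?_⟩
    filter_upwards [hB] with i h1
    rw [hgt_inv]
    exact h1

theorem mem_smallU {h0 : ∀ z, u z = 0 ↔ ∀ᶠ i in (hyperfilter ℕ : Filter ℕ), z i = 0}
    {h2 : ∀ c' : ℂ, ∃ c : ℕ → ℂ, algebraMap ℂ U c' = u fun i => algebraMap ℂ (L i) (c i)}
    {χ : ℕ → ℤ} {w : ∀ i, L i} : u w ∈ smallU h0 h2 χ ↔
      ∃ B : ℕ, ∀ᶠ i in (hyperfilter ℕ : Filter ℕ), hgt ℂ (w i) ≤ B * χ i := by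
  constructor
  · rintro ⟨v, hv, B, hB⟩
    have h1 : u (v - w) = 0 := by rw [map_sub, hv, sub_self]
    refine ⟨B, ?_⟩
    filter_upwards [hB, (h0 _).1 h1] with i h3 h4
    have h5 : v i = w i := sub_eq_zero.1 h4
    rwa [← h5]
  · rintro ⟨B, hB⟩
    exact ⟨w, rfl, B, hB⟩

theorem smallU_closed (hs : Function.Surjective u)
    {h0 : ∀ z, u z = 0 ↔ ∀ᶠ i in (hyperfilter ℕ : Filter ℕ), z i = 0}
    {h2 : ∀ c' : ℂ, ∃ c : ℕ → ℂ, algebraMap ℂ U c' = u fun i => algebraMap ℂ (L i) (c i)}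
    {χ : ℕ → ℤ} {z : U} (hz : IsAlgebraic (smallU h0 h2 χ) z) : z ∈ smallU h0 h2 χ := by
  obtain ⟨p, hp, hp0⟩ := hz
  obtain ⟨w, rfl⟩ := hs z
  have h1 : ∀ t : ℕ, ∃ e : ∀ i, L i, u e = ((p.coeff t : smallU h0 h2 χ) : U) ∧
      ∃ B : ℕ, ∀ᶠ i in (hyperfilter ℕ : Filter ℕ), hgt ℂ (e i) ≤ B * χ i := by
    intro t
    exact (p.coeff t).2
  choose e he B hB using h1
  have h2' : u (fun i => ∑ t ∈ Finset.range (p.natDegree + 1), e t i * w i ^ t) = 0 := by
    have h3 : (fun i => ∑ t ∈ Finset.range (p.natDegree + 1), e t i * w i ^ t) =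
        ∑ t ∈ Finset.range (p.natDegree + 1), e t * w ^ t := by
      funext i
      rw [Finset.sum_apply]
      rfl
    rw [h3, map_sum]
    rw [Polynomial.aeval_eq_sum_range] at hp0
    rw [← hp0]
    refine Finset.sum_congr rfl fun t _ => ?_
    rw [map_mul, map_pow, he]
    rfl
  have h3 : u (e p.natDegree) ≠ 0 := by
    rw [he]
    intro h
    have h4 : p.coeff p.natDegree = 0 := Subtype.ext h
    exact hp (Polynomial.leadingCoeff_eq_zero.1 h4)
  rw [mem_smallU]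
  refine ⟨B p.natDegree + ∑ t ∈ Finset.range p.natDegree, B t, ?_⟩
  have h5 : ∀ᶠ i in (hyperfilter ℕ : Filter ℕ), ∀ t ∈ Finset.range (p.natDegree + 1),
      hgt ℂ (e t i) ≤ B t * χ i := (Filter.eventually_all_finset _).2 fun t _ => hB t
  have h6 : ∀ᶠ i in (hyperfilter ℕ : Filter ℕ), e p.natDegree i ≠ 0 := by
    rw [Ne, h0] at h3
    exact Ultrafilter.eventually_not.2 h3
  filter_upwards [(h0 _).1 h2', h6, h5] with i q1 q2 q3
  refine (hgt_root (fun t => e t i) q2 (w i) q1).trans ?_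
  push_cast
  rw [add_mul, Finset.sum_mul]
  refine add_le_add (q3 _ (Finset.mem_range.2 (Nat.lt_succ_self _)))
    (Finset.sum_le_sum fun t ht => q3 t (Finset.mem_range.2 ?_))
  have := Finset.mem_range.1 ht
  omega

end small

end Pool.Agent.E8helper90.RC
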