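import Pool.Agent.W240.PG.Frame
import Pool.Agent.W762.PG.PRES
import Pool.Agent.TH143.GT.Pull

/-!
Derivations which are regular on coordinates at a divisorial place are regular at the place; the
pull-back of pluricanonical forms.
-/

set_option autoImplicit false

open FF IntermediateField Pool.Agent.W619.PQ Pool.Agent.W619.PL Pool.Agent.W619.TW
  Pool.Agent.W603.LV Pool.Agent.W240.PG.Frame Pool.Agent.W602.GT

namespace Pool.Agent.E8helper90.RC

/-- regularity can be checked on coordinates -/
theorem der_reg {k K : Type} [Field k] [Field K] [Algebra k K] [CharZero k] {m : ℕ}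
    (v : Place k K) {s : K} {y' : Fin m → K} (hs : v.ord s = 1)
    (hy : ∀ p : MvPolynomial (Fin m) k, p ≠ 0 →
      MvPolynomial.aeval y' p ≠ 0 ∧ v.ord (MvPolynomial.aeval y' p) = 0)
    (hfd : FiniteDimensional
      (IntermediateField.adjoin k (Set.range (Fin.cons s y' : Fin (m + 1) → K))) K)
    (D : Derivation k K K) (hD : ∀ i, v.Reg (D ((Fin.cons s y' : Fin (m + 1) → K) i))) :
    DerReg v D := by
  have hs0 : s ≠ 0 := by
    rintro rfl
    rw [v.ord_zero] at hs
    norm_num at hs
  obtain ⟨y, hydef⟩ : ∃ y : Fin (m + 1) → K, y = Fin.cons s y' := ⟨_, rfl⟩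
  rw [← hydef] at hfd hD
  have hregy : ∀ i, v.Reg (y i) := by
    intro i
    refine Fin.cases ?_ (fun j => ?_) i
    · right; rw [hydef, Fin.cons_zero, hs]; norm_num
    · right
      rw [hydef, Fin.cons_succ]
      have h1 := (hy (MvPolynomial.X j) (MvPolynomial.X_ne_zero j)).2
      rw [MvPolynomial.aeval_X] at h1
      exact h1.ge
  have hEreg : ∀ (P : MvPolynomial (Fin (m + 1)) k),
      Ge v 0 (MvPolynomial.aeval y P) ∧ Ge v 0 (D (MvPolynomial.aeval y P)) := by
    intro P
    induction P using MvPolynomial.induction_on with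
    | C a =>
      have h1 : MvPolynomial.aeval y (MvPolynomial.C a : MvPolynomial (Fin (m + 1)) k) =
          algebraMap k K a := by simp
      rw [h1]
      refine ⟨Ge.const a, ?_⟩
      rw [Derivation.map_algebraMap]
      exact Or.inl rfl
    | add p q hp hq =>
      rw [map_add, map_add]
      exact ⟨hp.1.add hq.1, hp.2.add hq.2⟩
    | mul_X p j hp =>
      rw [map_mul, MvPolynomial.aeval_X]
      have h1 : Ge v 0 (y j) := hregy j
      have h2 : Ge v 0 (D (y j)) := hD j
      refine ⟨by simpa using hp.1.mul h1, ?_⟩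
      rw [Derivation.leibniz, smul_eq_mul, smul_eq_mul]
      have h3 := hp.1.mul h2
      have h4 := h1.mul hp.2
      rw [add_zero] at h3 h4
      exact h3.add h4
  -- the field generated by the coordinates
  let K0 : IntermediateField k K := IntermediateField.adjoin k (Set.range y)
  have hfd' : FiniteDimensional K0 K := hfd
  have hsK : s ∈ K0 := by
    apply IntermediateField.subset_adjoin
    exact ⟨0, by rw [hydef, Fin.cons_zero]⟩
  let v0 : Place k K0 :=
    { ord := fun f => v.ord (f : K)
      ord_zero := v.ord_zero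
      ord_mul := fun {f g} hf hg => by
        have hf' : (f : K) ≠ 0 := fun h => hf (Subtype.ext h)
        have hg' : (g : K) ≠ 0 := fun h => hg (Subtype.ext h)
        exact v.ord_mul hf' hg'
      ord_add := fun {f g} hf hg hfg => by
        have hf' : (f : K) ≠ 0 := fun h => hf (Subtype.ext h)
        have hg' : (g : K) ≠ 0 := fun h => hg (Subtype.ext h)
        have hfg' : (f : K) + (g : K) ≠ 0 := fun h => hfg (Subtype.ext h)
        exact v.ord_add hf' hg' hfg'
      ord_const := fun {c} hc => v.ord_const hc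
      surj := ⟨⟨s, hsK⟩, fun h => hs0 (congrArg Subtype.val h), hs⟩ }
  have hover : Over v v0 1 := ⟨one_pos, fun f => by
    rw [Nat.cast_one, one_mul]; rfl⟩
  refine Pool.Agent.W762.PG.main k K0 K v0 v 1 hover D ?_ (Or.inl rfl)
  intro x hx
  change Ge v 0 (D (x : K))
  have hxr : Ge v 0 (x : K) := by
    rcases hx with hx | hx
    · left; rw [hx]; rfl
    · right; exact hx
  by_cases hx0 : (x : K) = 0
  · rw [hx0, map_zero]; exact Or.inl rfl
  have hxm : (x : K) ∈ IntermediateField.adjoin k (Set.range y) := x.2
  rw [IntermediateField.mem_adjoin_range_iff] at hxm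
  obtain ⟨p, q, hpq⟩ := hxm
  have hp0 : MvPolynomial.aeval y p ≠ 0 := by
    intro h1; apply hx0; rw [hpq, h1, zero_div]
  have hq0 : MvPolynomial.aeval y q ≠ 0 := by
    intro h1; apply hx0; rw [hpq, h1, div_zero]
  have hp1 : MvPolynomial.finSuccEquiv k m p ≠ 0 := by
    intro h2
    apply hp0
    rw [(map_eq_zero_iff _ (MvPolynomial.finSuccEquiv k m).injective).1 h2, map_zero]
  have hq1 : MvPolynomial.finSuccEquiv k m q ≠ 0 := by
    intro h2
    apply hq0
    rw [(map_eq_zero_iff _ (MvPolynomial.finSuccEquiv k m).injective).1 h2, map_zero]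
  obtain ⟨a, P', hP, hP0, hPo⟩ := psi_factor v hs hy _ hp1
  obtain ⟨b, Q', hQ, hQ0, hQo⟩ := psi_factor v hs hy _ hq1
  rw [← aeval_cons, ← hydef] at hP hQ
  -- the exponent is nonnegative
  have hab : b ≤ a := by
    have h1 : 0 ≤ v.ord (x : K) := hxr.resolve_left hx0
    rw [hpq, v.ord_div hp0 hq0, hP, hQ, v.ord_mul (pow_ne_zero _ hs0) hP0,
      v.ord_mul (pow_ne_zero _ hs0) hQ0, v.ord_pow, v.ord_pow, hs, hPo, hQo] at h1
    omega
  -- numerator and denominator
  set Pn : MvPolynomial (Fin (m + 1)) k :=
    (MvPolynomial.finSuccEquiv k m).symm (Polynomial.X ^ (a - b) * P') with hPn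
  set Qn : MvPolynomial (Fin (m + 1)) k := (MvPolynomial.finSuccEquiv k m).symm Q' with hQn
  have hPe : MvPolynomial.aeval y Pn = s ^ (a - b) * psi s y' P' := by
    rw [hydef, aeval_cons, hPn, AlgEquiv.apply_symm_apply, map_mul, map_pow]
    simp [Pool.Agent.W240.PG.Frame.psi]
  have hQe : MvPolynomial.aeval y Qn = psi s y' Q' := by
    rw [hydef, aeval_cons, hQn, AlgEquiv.apply_symm_apply]
  have hx2 : (x : K) * MvPolynomial.aeval y Qn = MvPolynomial.aeval y Pn := by
    rw [hPe, hQe, hpq, hP, hQ]
    have h5 : s ^ a = s ^ (a - b) * s ^ b := by rw [← pow_add]; congr 1; omega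
    have h6 : s ^ b ≠ 0 := pow_ne_zero _ hs0
    rw [h5]
    field_simp
  have hD' := congrArg D hx2
  rw [Derivation.leibniz, smul_eq_mul, smul_eq_mul] at hD'
  have h7 : Ge v 0 (MvPolynomial.aeval y Qn * D (x : K)) := by
    have h8 : MvPolynomial.aeval y Qn * D (x : K) =
        D (MvPolynomial.aeval y Pn) - (x : K) * D (MvPolynomial.aeval y Qn) := by
      linear_combination hD'
    rw [h8]
    have h9 := hxr.mul (hEreg Qn).2
    rw [add_zero] at h9
    exact (hEreg Pn).2.sub h9
  rw [hQe] at h7
  have h10 := Ge.of_mul hQ0 h7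
  rw [hQo, sub_zero] at h10
  exact h10

section forms

variable {k K L : Type} [Field k] [Field K] [Field L] [Algebra k K] [Algebra k L] [Algebra K L]
  [IsScalarTower k K L]

open Pool.Agent.TH143.GT (Dual pull local_reg der_sum)

/-- the determinant form of coordinates -/
noncomputable def detF {w : ℕ} (y : Fin w → K) :
    MultilinearMap K (fun _ : Fin w => Derivation k K K) K :=
  (Matrix.detRowAlternating (R := K) (n := Fin w)).toMultilinearMap.compLinearMap fun _ =>
    { toFun := fun D j => D (y j)
      map_add' := fun D E => rfl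
      map_smul' := fun c D => rfl }

theorem detF_apply {w : ℕ} (y : Fin w → K) (D : Fin w → Derivation k K K) :
    detF y D = (Matrix.of fun i j => D i (y j)).det := rfl

/-- pluricanonical forms in coordinates -/
theorem pluri_eq [CharZero k] {N w : ℕ} {ω : (Fin w → Derivation k K K) → K} (hω : IsPluri N ω)
    {y : Fin w → K} {E : Fin w → Derivation k K K} (h : Dual y E)
    (D : Fin w → Derivation k K K) :
    ω D = (Matrix.of fun i j => D i (y j)).det ^ N * ω E := by
  rw [← hω]
  congr 1
  funext i
  exact h.expand (D i)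

theorem pull_det {w : ℕ} {y : Fin w → K} {E : Fin w → Derivation k K K} (h : Dual y E)
    (D : Fin w → Derivation k L L) :
    pull (detF y) y E D = (Matrix.of fun i j => D i (algebraMap K L (y j))).det := by
  classical
  unfold pull
  have h1 : (Matrix.of fun i j => D i (algebraMap K L (y j))).det =
      (Matrix.detRowAlternating (R := L) (n := Fin w)).toMultilinearMap fun i =>
        ∑ l, D i (algebraMap K L (y l)) • (Pi.single l 1 : Fin w → L) := by
    change (Matrix.of fun i j => D i (algebraMap K L (y j))).det = Matrix.det _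
    congr 1
    ext i j
    simp [Finset.sum_apply, Pi.single_apply]
  rw [h1, MultilinearMap.map_sum]
  refine Finset.sum_congr rfl fun J _ => ?_
  rw [MultilinearMap.map_smul_univ, smul_eq_mul]
  congr 1
  rw [detF_apply]
  change algebraMap K L (Matrix.det _) = Matrix.det _
  rw [RingHom.map_det]
  congr 1
  ext i j
  simp only [RingHom.mapMatrix_apply, Matrix.map_apply, Matrix.of_apply]
  rw [h.2]
  by_cases hij : J i = j
  · rw [if_pos hij, map_one, hij, Pi.single_eq_same]
  · rw [if_neg hij, map_zero, Pi.single_eq_of_ne (Ne.symm hij)]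

/-- **Regularity of the pull-back of pluricanonical forms.** -/
theorem pluri_reg [CharZero k] [Algebra.EssFiniteType k K] {w n N : ℕ}
    (hw : Algebra.trdeg k K = w) (hn : Algebra.trdeg k L = n) (hN : 0 < N)
    {ω : (Fin w → Derivation k K K) → K} (hω : IsPluri N ω)
    (hreg : ∀ P : Place k K, Divisorial w P → RegAt P ω)
    {y : Fin w → K} {E : Fin w → Derivation k K K} (h : Dual y E) (P : Place k L)
    (hP : Divisorial n P) (D : Fin w → Derivation k L L) (hD : ∀ i, DerReg P (D i)) :
    P.Reg (algebraMap K L (ω E) *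
      (Matrix.of fun i j => D i (algebraMap K L (y j))).det ^ N) := by
  have hlog : ∀ v : Place k K, Divisorial w v → ∀ D : Fin w → Derivation k K K,
      (∀ i, DerReg v (D i)) → v.Reg (ω E * detF y D ^ N) := by
    intro v hv D hD
    have h1 := hreg v hv D hD
    rw [pluri_eq hω h D, mul_comm, ← detF_apply] at h1
    exact h1
  have h1 := (local_reg (Bd := fun _ => False) hw hn (detF y) hN (ω E)
    (fun v hv D hD => hlog v hv D fun i f hf => by
      by_cases hf0 : f = 0
      · rw [hf0, map_zero]
        exact v.reg_zero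
      · have h2 := v.reg_mul (hD i f) hf
        rwa [div_mul_cancel₀ _ hf0] at h2)
    (fun v hv _ D hD => hlog v hv D hD) h P hP D).2 hD fun _ _ _ => id
  rwa [pull_det h] at h1

end forms

end Pool.Agent.E8helper90.RC
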