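import Pool.Agent.E8helper90.RC.Sig
import Pool.Agent.E8helper90.RC.Fin

/-!
Exceptional sets, and sequences of points which avoid all exceptional sets over a countable field.
-/

set_option autoImplicit false

namespace Pool.Agent.E8helper90.RC

open FF Filter Cardinal MvPolynomial
open Pool.Agent.W602.GT (coords SubVar IsForm val)
open Pool.Agent.W603.CY (ui mem_ui UL um um_surj um_eq um_zero_iff um_ne_iff
  um_add um_mul um_neg um_pow um_sum um_inv um_div um_alg um_aeval)
open Pool.Agent.E8helper90.AF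

/-- `G` is a finite set of forms. Every subvariety of dimension at least `w` of the closed subset
`X = {F = 0}` of `P^N` which is contained in the closed subset defined by `G` is contained in the
closed subset `{J = 0}`. -/
def Exc {N : ℕ} {ι κ : Type} (F : ι → MvPolynomial (Fin (N + 1)) ℂ)
    (J : κ → MvPolynomial (Fin (N + 1)) ℂ) (w : ℕ)
    (G : Finset (MvPolynomial (Fin (N + 1)) ℂ)) : Prop :=
  (∀ p ∈ G, IsForm p) ∧ ∀ (K : Type) [Field K] [Algebra ℂ K] (v : ℕ) (y : Fin (N + 1) → K),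
    SubVar F K v y → w ≤ v → (∃ e, val y (J e) ≠ 0) → ∃ p ∈ G, val y p ≠ 0

section seq

variable {N : ℕ} {ι κ : Type} {F : ι → MvPolynomial (Fin (N + 1)) ℂ}
  {E : κ → MvPolynomial (Fin (N + 1)) ℂ} {w : ℕ}

open Classical in
/-- products -/
noncomputable def mulF (A B : Finset (MvPolynomial (Fin (N + 1)) ℂ)) :
    Finset (MvPolynomial (Fin (N + 1)) ℂ) := (A ×ˢ B).image fun p => p.1 * p.2

theorem mulF_ne {A B : Finset (MvPolynomial (Fin (N + 1)) ℂ)} {K : Type} [Field K] [Algebra ℂ K]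
    {y : Fin (N + 1) → K} : (∃ p ∈ mulF A B, val y p ≠ 0) ↔
      (∃ p ∈ A, val y p ≠ 0) ∧ ∃ p ∈ B, val y p ≠ 0 := by
  classical
  unfold mulF
  constructor
  · rintro ⟨p, hp, h⟩
    obtain ⟨⟨a, b⟩, hab, rfl⟩ := Finset.mem_image.1 hp
    obtain ⟨ha, hb⟩ := Finset.mem_product.1 hab
    have h1 : val y (a * b) = val y a * val y b := map_mul _ _ _
    rw [h1] at h
    exact ⟨⟨a, ha, left_ne_zero_of_mul h⟩, ⟨b, hb, right_ne_zero_of_mul h⟩⟩
  · rintro ⟨⟨a, ha, h1⟩, ⟨b, hb, h2⟩⟩
    refine ⟨a * b, Finset.mem_image.2 ⟨(a, b), Finset.mem_product.2 ⟨ha, hb⟩, rfl⟩, ?_⟩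
    have h3 : val y (a * b) = val y a * val y b := map_mul _ _ _
    rw [h3]
    exact mul_ne_zero h1 h2

theorem Exc.mul {A B : Finset (MvPolynomial (Fin (N + 1)) ℂ)} (hA : Exc F E w A)
    (hB : Exc F E w B) : Exc F E w (mulF A B) := by
  classical
  refine ⟨fun p hp => ?_, fun K _ _ v y hy hv he =>
    mulF_ne.2 ⟨hA.2 K v y hy hv he, hB.2 K v y hy hv he⟩⟩
  unfold mulF at hp
  obtain ⟨⟨a, b⟩, hab, rfl⟩ := Finset.mem_image.1 hp
  obtain ⟨ha, hb⟩ := Finset.mem_product.1 hab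
  obtain ⟨d, hd⟩ := hA.1 a ha
  obtain ⟨e, he⟩ := hB.1 b hb
  exact ⟨d + e, hd.mul he⟩

theorem Exc.one : Exc F E w {1} := by
  refine ⟨fun p hp => ?_, fun K _ _ v y _ _ _ => ⟨1, Finset.mem_singleton_self 1, ?_⟩⟩
  · rw [Finset.mem_singleton.1 hp]
    exact ⟨0, isHomogeneous_one _ _⟩
  · have h3 : val y (1 : MvPolynomial (Fin (N + 1)) ℂ) = 1 := map_one _
    rw [h3]
    exact one_ne_zero

open Classical in
/-- **A sequence of exceptional sets.** -/
theorem exists_seq (F : ι → MvPolynomial (Fin (N + 1)) ℂ)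
    (E : κ → MvPolynomial (Fin (N + 1)) ℂ) (w : ℕ) {k0 : Subfield ℂ} (hk0 : #k0 ≤ ℵ₀) :
    ∃ Q : ℕ → Finset (MvPolynomial (Fin (N + 1)) ℂ), (∀ i, Exc F E w (Q i)) ∧
      ∀ G : Finset (MvPolynomial (Fin (N + 1)) k0), Exc F E w (G.image (MvPolynomial.map k0.subtype)) →
        ∃ j, ∀ i, j < i → ∀ (K : Type) [Field K] [Algebra ℂ K] (y : Fin (N + 1) → K),
          (∃ p ∈ Q i, val y p ≠ 0) → ∃ p ∈ G.image (MvPolynomial.map k0.subtype), val y p ≠ 0 := by
  have hc : Countable (MvPolynomial (Fin (N + 1)) k0) := by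
    rw [← Cardinal.mk_le_aleph0_iff]
    refine MvPolynomial.cardinalMk_le_max.trans (max_le (max_le hk0 ?_) le_rfl)
    exact Cardinal.mk_le_aleph0
  obtain ⟨e, he⟩ := exists_surjective_nat (Finset (MvPolynomial (Fin (N + 1)) k0))
  obtain ⟨e', he'⟩ : ∃ e' : ℕ → Finset (MvPolynomial (Fin (N + 1)) ℂ), ∀ i,
      e' i = (e i).image (MvPolynomial.map k0.subtype) := ⟨_, fun _ => rfl⟩
  obtain ⟨Q, hQ0, hQ⟩ : ∃ Q : ℕ → Finset (MvPolynomial (Fin (N + 1)) ℂ), Q 0 = {1} ∧
      ∀ i, Q (i + 1) = if Exc F E w (e' i) then mulF (Q i) (e' i) else Q i :=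
    ⟨fun i => Nat.rec {1} (fun i q => if Exc F E w (e' i) then mulF q (e' i) else q) i, rfl,
      fun _ => rfl⟩
  have hE : ∀ i, Exc F E w (Q i) := by
    intro i
    induction i with
    | zero =>
      rw [hQ0]
      exact Exc.one
    | succ i ih =>
      rw [hQ]
      split_ifs with h
      · exact ih.mul h
      · exact ih
  refine ⟨Q, hE, fun G hG => ?_⟩
  obtain ⟨j, rfl⟩ := he G
  rw [← he'] at hG ⊢
  refine ⟨j, fun i hi K _ _ y => ?_⟩
  induction i with
  | zero => omega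
  | succ i ih =>
    intro h
    by_cases hj : j < i
    · refine ih hj ?_
      rw [hQ] at h
      split_ifs at h with h1
      · exact (mulF_ne.1 h).1
      · exact h
    · have hij : i = j := by omega
      subst hij
      rw [hQ, if_pos hG] at h
      exact (mulF_ne.1 h).2

end seq

section coords

/-- transcendence bases which consist of quotients of coordinates -/
theorem exists_ind_coords {K : Type} [Field K] [Algebra ℂ K] {N w : ℕ} {y : Fin (N + 1) → K}
    (h0 : y ≠ 0) (hgen : coords ℂ y = ⊤) {v : ℕ} (htr : Algebra.trdeg ℂ K = v) (hwv : w ≤ v) :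
    ∃ (l : Fin (N + 1)) (J : Fin w → Fin (N + 1)), y l ≠ 0 ∧
      AlgebraicIndependent ℂ fun s => y (J s) / y l := by
  classical
  obtain ⟨l, hl⟩ := Function.ne_iff.1 h0
  have hl' : y l ≠ 0 := hl
  obtain ⟨g, hg⟩ : ∃ g : Fin (N + 1) → K, ∀ j, g j = y j / y l := ⟨_, fun _ => rfl⟩
  have h1 : IntermediateField.adjoin ℂ (Set.range g) = ⊤ := by
    rw [eq_top_iff, ← hgen]
    unfold coords
    rw [IntermediateField.adjoin_le_iff]
    rintro _ ⟨i, j, hj, rfl⟩
    have h2 : y i / y j = g i / g j := by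
      rw [hg, hg]
      field_simp
    rw [h2]
    exact div_mem (IntermediateField.subset_adjoin _ _ ⟨i, rfl⟩)
      (IntermediateField.subset_adjoin _ _ ⟨j, rfl⟩)
  have : Algebra.IsAlgebraic (Algebra.adjoin ℂ (Set.range g)) K := by
    refine ⟨fun z => ?_⟩
    have hz : z ∈ IntermediateField.adjoin ℂ (Set.range g) := by
      rw [h1]
      exact IntermediateField.mem_top
    obtain ⟨r, hr, s, hs, rfl⟩ := IntermediateField.mem_adjoin_iff_div.1 hz
    have hr' : IsAlgebraic (Algebra.adjoin ℂ (Set.range g)) r :=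
      isAlgebraic_algebraMap (⟨r, hr⟩ : Algebra.adjoin ℂ (Set.range g))
    have hs' : IsAlgebraic (Algebra.adjoin ℂ (Set.range g)) s :=
      isAlgebraic_algebraMap (⟨s, hs⟩ : Algebra.adjoin ℂ (Set.range g))
    rw [div_eq_mul_inv]
    exact hr'.mul hs'.inv
  obtain ⟨t, ht, hb⟩ := exists_isTranscendenceBasis_subset (R := ℂ) (Set.range g)
  have hcard : #t = #(Fin v) := by
    rw [hb.cardinalMk_eq_trdeg, htr, Cardinal.mk_fin]
  obtain ⟨e⟩ := Cardinal.eq.1 hcard
  have hJ : ∀ s : Fin w, ∃ j, g j = (e.symm (Fin.castLE hwv s) : K) := fun s =>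
    ht (e.symm (Fin.castLE hwv s)).2
  choose J hJ using hJ
  refine ⟨l, J, hl', ?_⟩
  have h3 : (fun s => y (J s) / y l) = (fun z : t => (z : K)) ∘
      fun s => e.symm (Fin.castLE hwv s) := by
    funext s
    rw [← hg]
    exact hJ s
  rw [h3]
  exact hb.1.comp _ (e.symm.injective.comp (Fin.castLE_injective hwv))

/-- the homogeneous form of a polynomial in the quotients of the coordinates -/
noncomputable def hom {R : Type} [CommRing R] {N w : ℕ} (l : Fin (N + 1)) (J : Fin w → Fin (N + 1))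
    (h : MvPolynomial (Fin w) R) : MvPolynomial (Fin (N + 1)) R :=
  ∑ α ∈ h.support, C (h.coeff α) * (X l ^ (h.totalDegree + 1 - ∑ s, α s) * ∏ s, X (J s) ^ α s)

theorem hom_form {R : Type} [CommRing R] {N w : ℕ} (l : Fin (N + 1)) (J : Fin w → Fin (N + 1))
    (h : MvPolynomial (Fin w) R) : (hom l J h).IsHomogeneous (h.totalDegree + 1) := by
  refine IsHomogeneous.sum _ _ _ fun α hα => ?_
  have h1 : ∑ s, α s ≤ h.totalDegree := by
    have := le_totalDegree hα
    rwa [Finsupp.sum_fintype _ _ (fun _ => rfl)] at this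
  have h2 : (∏ s, (X (J s) : MvPolynomial (Fin (N + 1)) R) ^ α s).IsHomogeneous (∑ s, α s) := by
    refine IsHomogeneous.prod _ _ _ fun s _ => ?_
    have := (isHomogeneous_X R (J s)).pow (α s)
    rwa [one_mul] at this
  have h3 : ((X l : MvPolynomial (Fin (N + 1)) R) ^
      (h.totalDegree + 1 - ∑ s, α s)).IsHomogeneous (h.totalDegree + 1 - ∑ s, α s) := by
    have := (isHomogeneous_X R l).pow (h.totalDegree + 1 - ∑ s, α s)
    rwa [one_mul] at this
  have h4 := (isHomogeneous_C (Fin (N + 1)) (h.coeff α)).mul (h3.mul h2)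
  have h5 : 0 + (h.totalDegree + 1 - ∑ s, α s + ∑ s, α s) = h.totalDegree + 1 := by omega
  rwa [h5] at h4

theorem hom_eval {R : Type} [CommRing R] {K : Type} [Field K] [Algebra R K] {N w : ℕ}
    (l : Fin (N + 1)) (J : Fin w → Fin (N + 1)) (h : MvPolynomial (Fin w) R)
    (y : Fin (N + 1) → K) (hl : y l ≠ 0) :
    aeval y (hom l J h) = y l ^ (h.totalDegree + 1) * aeval (fun s => y (J s) / y l) h := by
  unfold hom
  rw [map_sum, aeval_def (f := fun s => y (J s) / y l), eval₂_eq', Finset.mul_sum]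
  refine Finset.sum_congr rfl fun α hα => ?_
  have h1 : ∑ s, α s ≤ h.totalDegree := by
    have := le_totalDegree hα
    rwa [Finsupp.sum_fintype _ _ (fun _ => rfl)] at this
  rw [map_mul, map_mul, map_pow, map_prod, aeval_C, aeval_X]
  simp only [map_pow, aeval_X]
  have h2 : ∏ s, y (J s) ^ α s = y l ^ (∑ s, α s) * ∏ s, (y (J s) / y l) ^ α s := by
    rw [← Finset.prod_pow_eq_pow_sum, ← Finset.prod_mul_distrib]
    refine Finset.prod_congr rfl fun s _ => ?_
    rw [← mul_pow, mul_div_cancel₀ _ hl]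
  rw [h2, ← mul_assoc (y l ^ (h.totalDegree + 1 - ∑ s, α s)), ← pow_add]
  have h3 : h.totalDegree + 1 - ∑ s, α s + ∑ s, α s = h.totalDegree + 1 := by omega
  rw [h3]
  ring

theorem hom_eval_zero {R : Type} [CommRing R] {K : Type} [Field K] [Algebra R K] {N w : ℕ}
    (l : Fin (N + 1)) (J : Fin w → Fin (N + 1)) (h : MvPolynomial (Fin w) R)
    (y : Fin (N + 1) → K) (hl : y l = 0) : aeval y (hom l J h) = 0 := by
  unfold hom
  rw [map_sum]
  refine Finset.sum_eq_zero fun α hα => ?_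
  have h1 : ∑ s, α s ≤ h.totalDegree := by
    have := le_totalDegree hα
    rwa [Finsupp.sum_fintype _ _ (fun _ => rfl)] at this
  rw [map_mul, map_mul, map_pow, aeval_X, hl, zero_pow (by omega), zero_mul, mul_zero]

end coords

open Classical in
/-- **Sequences which avoid the exceptional sets are generic.** -/
theorem generic {L : ℕ → Type} [∀ i, Field (L i)] [∀ i, Algebra ℂ (L i)] {N w : ℕ} {ι κ : Type}
    {F : ι → MvPolynomial (Fin (N + 1)) ℂ} {E : κ → MvPolynomial (Fin (N + 1)) ℂ}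
    {k0 : Subfield ℂ}
    (f : ∀ i, Fin (N + 1) → L i) {Q : ℕ → Finset (MvPolynomial (Fin (N + 1)) ℂ)}
    (hQ : ∀ G : Finset (MvPolynomial (Fin (N + 1)) k0), Exc F E w (G.image (MvPolynomial.map k0.subtype)) →
        ∃ j, ∀ i, j < i → ∀ (K : Type) [Field K] [Algebra ℂ K] (y : Fin (N + 1) → K),
          (∃ p ∈ Q i, val y p ≠ 0) → ∃ p ∈ G.image (MvPolynomial.map k0.subtype), val y p ≠ 0)
    (hf : ∀ i, ∃ p ∈ Q i, val (f i) p ≠ 0) :
    ∃ (l : Fin (N + 1)) (J : Fin w → Fin (N + 1)), (∀ᶠ i in (hyperfilter ℕ : Filter ℕ), f i l ≠ 0) ∧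
      AlgebraicIndependent k0 fun s => (um fun i => f i (J s) / f i l : UL L) := by
  by_contra hcon
  push Not at hcon
  have key : ∀ (l : Fin (N + 1)) (J : Fin w → Fin (N + 1)),
      ∃ p : MvPolynomial (Fin (N + 1)) k0, IsForm (MvPolynomial.map k0.subtype p) ∧
        (∀ᶠ i in (hyperfilter ℕ : Filter ℕ), val (f i) (MvPolynomial.map k0.subtype p) = 0) ∧
        ∀ (K : Type) [Field K] [Algebra ℂ K] (y : Fin (N + 1) → K), y l ≠ 0 →
          AlgebraicIndependent ℂ (fun s => y (J s) / y l) → val y (MvPolynomial.map k0.subtype p) ≠ 0 := by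
    intro l J
    by_cases h1 : ∀ᶠ i in (hyperfilter ℕ : Filter ℕ), f i l ≠ 0
    · have h2 := hcon l J h1
      rw [algebraicIndependent_iff] at h2
      push Not at h2
      obtain ⟨h, h3, h4⟩ := h2
      have h5 : ∀ (K : Type) [Field K] [Algebra ℂ K] (y : Fin (N + 1) → K),
          val y (MvPolynomial.map k0.subtype (hom l J h)) = aeval y (hom l J h) := by
        intro K _ _ y
        unfold val
        rw [aeval_def, eval₂_map, aeval_def]
        rfl
      refine ⟨hom l J h, ⟨_, (hom_form l J h).map _⟩, ?_, ?_⟩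
      · rw [← um_aeval, um_zero_iff] at h3
        filter_upwards [h1, h3] with i h6 h7
        rw [h5, hom_eval l J h (f i) h6, h7, mul_zero]
      · intro K _ _ y hl hind
        rw [h5, hom_eval l J h y hl]
        refine mul_ne_zero (pow_ne_zero _ hl) fun h6 => h4 ?_
        have hind' : AlgebraicIndependent k0 fun s => y (J s) / y l :=
          ind_of_hom (R := ℂ) k0.subtype Subtype.val_injective (fun _ => rfl) hind
        exact (algebraicIndependent_iff.1 hind') h h6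
    · refine ⟨X l, ?_, ?_, ?_⟩
      · rw [map_X]
        exact ⟨1, isHomogeneous_X _ _⟩
      · filter_upwards [Ultrafilter.eventually_not.2 h1] with i hi
        rw [map_X]
        have h2 : val (f i) (X l : MvPolynomial (Fin (N + 1)) ℂ) = f i l := aeval_X _ _
        rw [h2]
        exact not_not.1 hi
      · intro K _ _ y hl _
        rw [map_X]
        have h2 : val y (X l : MvPolynomial (Fin (N + 1)) ℂ) = y l := aeval_X _ _
        rwa [h2]
  choose p hp1 hp2 hp3 using key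
  obtain ⟨G, hG⟩ : ∃ G : Finset (MvPolynomial (Fin (N + 1)) k0),
      G = Finset.univ.image fun q : Fin (N + 1) × (Fin w → Fin (N + 1)) => p q.1 q.2 := ⟨_, rfl⟩
  have hGE : Exc F E w (G.image (MvPolynomial.map k0.subtype)) := by
    constructor
    · intro q hq
      obtain ⟨r, hr, rfl⟩ := Finset.mem_image.1 hq
      rw [hG] at hr
      obtain ⟨s, -, rfl⟩ := Finset.mem_image.1 hr
      exact hp1 s.1 s.2
    · intro K _ _ v y hy hwv _
      obtain ⟨l, J, h1, h2⟩ := exists_ind_coords (w := w) hy.ne hy.gen hy.dim hwv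
      refine ⟨MvPolynomial.map k0.subtype (p l J), Finset.mem_image.2 ⟨_, ?_, rfl⟩, hp3 l J K y h1 h2⟩
      rw [hG]
      exact Finset.mem_image.2 ⟨(l, J), Finset.mem_univ _, rfl⟩
  obtain ⟨j, hj⟩ := hQ G hGE
  have h1 : ∀ᶠ i in (hyperfilter ℕ : Filter ℕ), j < i :=
    Nat.hyperfilter_le_atTop (eventually_gt_atTop j)
  have h2 : ∀ᶠ i in (hyperfilter ℕ : Filter ℕ), ∀ q : Fin (N + 1) × (Fin w → Fin (N + 1)),
      val (f i) (MvPolynomial.map k0.subtype (p q.1 q.2)) = 0 := eventually_all.2 fun q => hp2 q.1 q.2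
  obtain ⟨i, h3, h4⟩ := (h1.and h2).exists
  obtain ⟨q, hq, h5⟩ := hj i h3 (L i) (f i) (hf i)
  obtain ⟨r, hr, rfl⟩ := Finset.mem_image.1 hq
  rw [hG] at hr
  obtain ⟨s, -, rfl⟩ := Finset.mem_image.1 hr
  exact h5 (h4 s)

end Pool.Agent.E8helper90.RC
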