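import Pool.Agent.E8helper90.RC.Tow
import Pool.Agent.E8helper90.RC.Fra
import Pool.Agent.E8helper90.GL.Lie

/-!
Derivations which preserve the chart rings.
-/

set_option autoImplicit false

namespace Pool.Agent.E8helper90.RC

open Pool.Agent.E8helper90.AF
open Pool.Agent.E8helper90.GL (kerF mem_kerF ker_clo alg_of_field)
open Pool.Agent.TH600.LC (clo mem_clo inv_mem_clo subset_clo clo_le clo_mono adjoin_le_clo
  der_mem_clo coe_clo)

variable {k F : Type} [Field k] [Field F] [Algebra k F]

/-- transitivity of algebraic closures -/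
theorem clo_tower {S : IntermediateField k F} {T U : Set F} (hS : ∀ z ∈ S, z ∈ clo k U)
    (hT : T ⊆ (clo k U : Set F)) {z : F} (hz : z ∈ clo S T) : z ∈ clo k U := by
  have h0 : ∀ w ∈ Algebra.adjoin S T, w ∈ clo k U := by
    intro w hw
    induction hw using Algebra.adjoin_induction with
    | mem w hw => exact hT hw
    | algebraMap s => exact hS s s.2
    | add u v _ _ hu hv => exact Subalgebra.add_mem _ hu hv
    | mul u v _ _ hu hv => exact Subalgebra.mul_mem _ hu hv
  obtain ⟨p, hp, hp0⟩ := mem_clo.1 hz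
  let φ : Algebra.adjoin S T →+* clo k U :=
    { toFun := fun z => ⟨z.1, h0 z.1 z.2⟩
      map_one' := rfl
      map_mul' := fun _ _ => rfl
      map_zero' := rfl
      map_add' := fun _ _ => rfl }
  have hφ : Function.Injective φ := by
    intro a b hab
    have : (φ a : F) = (φ b : F) := congrArg _ hab
    exact Subtype.ext this
  have h1 : IsAlgebraic (clo k U) z := by
    refine ⟨p.map φ, (Polynomial.map_ne_zero_iff hφ).2 hp, ?_⟩
    rw [← hp0, Polynomial.aeval_def, Polynomial.aeval_def, Polynomial.eval₂_map]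
    rfl
  have h2 : IsAlgebraic (Algebra.adjoin k ((clo k U : Subalgebra k F) : Set F)) z := by
    rw [Algebra.adjoin_eq]
    exact h1
  exact clo_le (le_refl _) (mem_clo.2 h2)

/-- finitely many elements suffice -/
theorem clo_fin {ι : Type} {b : ι → F} {X : Set F} {z : F}
    (hz : z ∈ clo k (X ∪ Set.range b)) : ∃ B : Finset ι, z ∈ clo k (X ∪ b '' (B : Set ι)) := by
  classical
  have h1 : z ∈ (AlgebraicIndependent.matroid k F).closure (X ∪ Set.range b) := by
    rw [← coe_clo]
    exact hz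
  obtain ⟨Y, hY, hfin, -, hzY⟩ := Matroid.exists_mem_finite_closure_of_mem_closure h1
  have h2 : z ∈ clo k Y := by
    have : z ∈ (clo k Y : Set F) := by
      rw [coe_clo]
      exact hzY
    exact this
  obtain ⟨t, -, htf, ht⟩ := (Set.exists_subset_image_finite_and (f := b) (s := Set.univ)
    (p := fun Z => Y ⊆ X ∪ Z)).1 ⟨Y ∩ Set.range b, by
      rw [Set.image_univ]
      exact Set.inter_subset_right, hfin.subset Set.inter_subset_left, by
      intro y hy
      rcases hY hy with h | h
      · exact Or.inl h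
      · exact Or.inr ⟨hy, h⟩⟩
  refine ⟨htf.toFinset, ?_⟩
  rw [Set.Finite.coe_toFinset]
  exact clo_mono ht h2

/-- a transcendence basis of the field of coefficients -/
structure Fam {r : ℕ} (G : RD k F r) {ι : Type} (b : ι → F) : Prop where
  mem : ∀ i, b i ∈ G.S
  ind : AlgebraicIndependent k (Sum.elim G.x b)
  alg : ∀ z ∈ G.S, z ∈ clo k (Set.range b)
  der : ∀ (c : Fin r → F) (e : ι → F), (∀ i, e i ∈ G.S) → ∃ E : Derivation k F F,
    (∀ j, E (G.x j) = c j) ∧ (∀ i, E (b i) = e i) ∧ ∀ z ∈ G.S, E z ∈ G.S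

/-- the prescribed derivations -/
theorem exists_der_ind [CharZero k] {ι : Type} {q : ι → F} (hq : AlgebraicIndependent k q)
    (c : ι → F) : ∃ E : Derivation k F F, ∀ i, E (q i) = c i := by
  classical
  have h1 : AlgebraicIndepOn k id (Set.range q) := hq.coe_range
  obtain ⟨t, ht, hb⟩ := exists_isTranscendenceBasis_superset h1
  obtain ⟨E, hE⟩ := Pool.Agent.W602.GT.exists_der _ hb
    (fun u => if h : ∃ i, q i = u then c h.choose else 0)
  refine ⟨E, fun i => ?_⟩
  have h2 := hE ⟨q i, ht ⟨i, rfl⟩⟩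
  change E (q i) = _ at h2
  rw [h2]
  have h3 : ∃ i', q i' = q i := ⟨i, rfl⟩
  change (if h : ∃ i', q i' = q i then c h.choose else 0) = c i
  rw [dif_pos h3, hq.injective h3.choose_spec]

theorem exists_fam [CharZero k] {r : ℕ} (G : RD k F r) : ∃ (ι : Type) (b : ι → F), Fam G b := by
  classical
  obtain ⟨ι, b0, hb0⟩ := exists_isTranscendenceBasis' k G.S
  have hind : AlgebraicIndependent k (Sum.elim G.x fun i => (b0 i : F)) :=
    hb0.1.sumElim_comp G.ind
  refine ⟨ι, fun i => (b0 i : F), fun i => (b0 i).2, hind, ?_, ?_⟩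
  · intro z hz
    have h1 := hb0.isAlgebraic.isAlgebraic (⟨z, hz⟩ : G.S)
    obtain ⟨p, hp, hp0⟩ := h1
    have hle : ∀ w : Algebra.adjoin k (Set.range b0),
        ((w : G.S) : F) ∈ Algebra.adjoin k (Set.range fun i => (b0 i : F)) := by
      intro w
      have h2 : (Algebra.adjoin k (Set.range b0)).map G.S.val =
          Algebra.adjoin k (Set.range fun i => (b0 i : F)) := by
        rw [AlgHom.map_adjoin, ← Set.range_comp]
        rfl
      rw [← h2]
      exact ⟨_, w.2, rfl⟩
    let φ : Algebra.adjoin k (Set.range b0) →+*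
        Algebra.adjoin k (Set.range fun i => (b0 i : F)) :=
      { toFun := fun w => ⟨_, hle w⟩
        map_one' := rfl
        map_mul' := fun _ _ => rfl
        map_zero' := rfl
        map_add' := fun _ _ => rfl }
    have hφ : Function.Injective φ := by
      intro a b hab
      have : (φ a : F) = (φ b : F) := congrArg _ hab
      exact Subtype.ext (Subtype.ext this)
    refine mem_clo.2 ⟨p.map φ, (Polynomial.map_ne_zero_iff hφ).2 hp, ?_⟩
    have h3 := congrArg (fun w : G.S => (w : F)) hp0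
    rw [Polynomial.aeval_def, Polynomial.eval₂_map]
    rw [Polynomial.aeval_def] at h3
    have h4 : ((Polynomial.eval₂ (algebraMap (Algebra.adjoin k (Set.range b0)) G.S)
        (⟨z, hz⟩ : G.S) p : G.S) : F) = Polynomial.eval₂ ((algebraMap G.S F).comp
          (algebraMap (Algebra.adjoin k (Set.range b0)) G.S)) z p := by
      have := Polynomial.hom_eval₂ p (algebraMap (Algebra.adjoin k (Set.range b0)) G.S)
        (algebraMap G.S F) (⟨z, hz⟩ : G.S)
      exact this
    change ((Polynomial.eval₂ (algebraMap (Algebra.adjoin k (Set.range b0)) G.S)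
        (⟨z, hz⟩ : G.S) p : G.S) : F) = 0 at h3
    rw [h4] at h3
    rw [← h3]
    rfl
  · intro c e he
    obtain ⟨E, hE⟩ := exists_der_ind hind (Sum.elim c e)
    refine ⟨E, fun j => hE (Sum.inl j), fun i => hE (Sum.inr i), ?_⟩
    obtain ⟨E0, hE0⟩ := Pool.Agent.W602.GT.exists_der _ hb0 (fun i => (⟨e i, he i⟩ : G.S))
    intro z hz
    have h1 := Pool.Agent.W619.TW.der_comp E0 E b0 hb0 (fun i => by
      rw [hE0]
      exact hE (Sum.inr i)) ⟨z, hz⟩
    change E z = _ at h1
    rw [h1]
    exact (E0 ⟨z, hz⟩).2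

/-- good derivations -/
structure Good {r : ℕ} (G : RD k F r) {ι : Type} (b : ι → F) (E : Derivation k F F) : Prop where
  S : ∀ z ∈ G.S, E z ∈ G.S
  b : ∀ i, ∃ c : k, E (b i) = algebraMap k F c
  x : ∀ j, ∃ c : k, E (G.x j) = algebraMap k F c * G.y j

/-- good derivations preserve the chart rings -/
theorem Good.R [CharZero k] {r : ℕ} {G : RD k F r} {ι : Type} {b : ι → F}
    {E : Derivation k F F} (h : Good G b E) (ha : ∀ j, ∃ c : k, G.a j = algebraMap k F c)
    (hb : ∀ j, ∃ c : k, G.b j = algebraMap k F c) (ε : Fin r → Bool) {J : Set (Fin r)} :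
    ∀ z ∈ G.R ε J, E z ∈ G.R ε J := by
  refine RD.R_st ε E h.S (fun j _ => ?_) (fun j _ => ?_) fun j _ => ?_
  · obtain ⟨c, hc⟩ := h.x j
    exact ⟨_, G.S.algebraMap_mem c, hc⟩
  · obtain ⟨c, hc⟩ := ha j
    rw [hc, E.map_algebraMap]
  · obtain ⟨c, hc⟩ := hb j
    rw [hc, E.map_algebraMap]

theorem L0_clo {r : ℕ} {G : RD k F r} {ι : Type} {b : ι → F} (hb : Fam G b) {z : F}
    (hz : z ∈ clo G.S (Set.range G.x)) : z ∈ clo k (Set.range G.x ∪ Set.range b) :=
  clo_tower (fun z hz => clo_mono Set.subset_union_right (hb.alg z hz))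
    (fun z hz => subset_clo _ (Or.inl hz)) hz

/-- **There are enough good derivations.** -/
theorem exists_good [CharZero k] {r : ℕ} {G : RD k F r} {ι : Type} {b : ι → F} (hb : Fam G b)
    {w : ℕ} {η : Fin w → F} (hη : AlgebraicIndependent k η)
    (hL : ∀ i, η i ∈ clo G.S (Set.range G.x)) : ∃ E : Fin w → Derivation k F F,
      (∀ i, Good G b (E i)) ∧ (Matrix.of fun i j => E i (η j)).det ≠ 0 := by
  classical
  obtain ⟨V, hV⟩ : ∃ V : Set (Fin w → F), V = {g | ∃ E, Good G b E ∧ g = fun j => E (η j)} :=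
    ⟨_, rfl⟩
  -- the coordinate derivations
  have hdd : ∀ i, ∃ E : Derivation k F F, (∀ j, E (G.x j) = 0) ∧
      (∀ i', E (b i') = if i' = i then 1 else 0) ∧ ∀ z ∈ G.S, E z ∈ G.S := fun i => by
    obtain ⟨E, h1, h2, h3⟩ := hb.der (fun _ => 0) (fun i' => if i' = i then 1 else 0) (fun i' => by
      split_ifs
      · exact G.S.one_mem
      · exact G.S.zero_mem)
    exact ⟨E, h1, h2, h3⟩
  choose dd hd1 hd2 hd3 using hdd
  have hdj : ∀ j, ∃ E : Derivation k F F, (∀ l, E (G.x l) = if l = j then G.y j else 0) ∧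
      (∀ i, E (b i) = 0) ∧ ∀ z ∈ G.S, E z ∈ G.S := fun j => by
    obtain ⟨E, h1, h2, h3⟩ := hb.der (fun l => if l = j then G.y j else 0) (fun _ => 0)
      (fun _ => G.S.zero_mem)
    exact ⟨E, h1, h2, h3⟩
  choose dj hj1 hj2 hj3 using hdj
  have gd : ∀ i, Good G b (dd i) := fun i => ⟨hd3 i, fun i' => by
    rw [hd2]
    split_ifs
    · exact ⟨1, (map_one _).symm⟩
    · exact ⟨0, (map_zero _).symm⟩, fun j => ⟨0, by rw [hd1, map_zero, zero_mul]⟩⟩
  have gj : ∀ j, Good G b (dj j) := fun j => ⟨hj3 j, fun i' => ⟨0, by rw [hj2, map_zero]⟩,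
    fun l => by
      rw [hj1]
      split_ifs with h
      · exact ⟨1, by rw [map_one, one_mul, h]⟩
      · exact ⟨0, by rw [map_zero, zero_mul]⟩⟩
  -- a finite set
  have hfin : ∀ j, ∃ B : Finset ι, η j ∈ clo k (Set.range G.x ∪ b '' (B : Set ι)) := fun j =>
    clo_fin (L0_clo hb (hL j))
  choose B hB using hfin
  obtain ⟨B0, hB0⟩ : ∃ B0 : Finset ι, B0 = Finset.univ.biUnion B := ⟨_, rfl⟩
  have hηB : ∀ j, η j ∈ clo k (Set.range G.x ∪ b '' (B0 : Set ι)) := fun j => by
    refine clo_mono (Set.union_subset_union_right _ (Set.image_mono ?_)) (hB j)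
    intro i hi
    rw [hB0]
    exact Finset.mem_coe.2 (Finset.mem_biUnion.2 ⟨j, Finset.mem_univ j, hi⟩)
  have hspan : ∀ E : Derivation k F F, (fun j => E (η j)) ∈ Submodule.span F V := by
    intro E
    have key : ∀ z ∈ clo k (Set.range G.x ∪ b '' (B0 : Set ι)), (E -
        (∑ i ∈ B0, E (b i) • dd i + ∑ j, (E (G.x j) / G.y j) • dj j)) z = 0 := by
      intro z hz
      refine ker_clo _ ?_ hz
      rintro z (⟨l, rfl⟩ | ⟨i, hi, rfl⟩)
      · rw [Derivation.sub_apply, Derivation.add_apply, Pool.Agent.TH143.GT.der_sum,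
          Pool.Agent.TH143.GT.der_sum, Finset.sum_eq_zero (fun i _ => by rw [hd1, smul_zero]),
          Finset.sum_eq_single l (fun j _ hj => by rw [hj1, if_neg (Ne.symm hj), smul_zero])
            (fun h => absurd (Finset.mem_univ l) h), hj1, if_pos rfl, zero_add, smul_eq_mul,
          div_mul_cancel₀ _ (RD.y_ne l), sub_self]
      · rw [Derivation.sub_apply, Derivation.add_apply, Pool.Agent.TH143.GT.der_sum,
          Pool.Agent.TH143.GT.der_sum, Finset.sum_eq_single i
            (fun i' _ hi' => by rw [hd2, if_neg (Ne.symm hi'), smul_zero])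
            (fun h => absurd (Finset.mem_coe.1 hi) h), hd2, if_pos rfl,
          Finset.sum_eq_zero (fun j _ => by rw [hj2, smul_zero]), add_zero, smul_eq_mul, mul_one,
          sub_self]
    have h1 : (fun j => E (η j)) = ∑ i ∈ B0, E (b i) • (fun j => dd i (η j)) +
        ∑ l, (E (G.x l) / G.y l) • (fun j => dj l (η j)) := by
      funext j
      have h2 := key (η j) (hηB j)
      rw [Derivation.sub_apply, Derivation.add_apply, Pool.Agent.TH143.GT.der_sum,
        Pool.Agent.TH143.GT.der_sum, sub_eq_zero] at h2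
      rw [h2, Pi.add_apply, Finset.sum_apply, Finset.sum_apply]
      rfl
    rw [h1]
    refine Submodule.add_mem _ (Submodule.sum_mem _ fun i _ => Submodule.smul_mem _ _
      (Submodule.subset_span ?_)) (Submodule.sum_mem _ fun l _ => Submodule.smul_mem _ _
      (Submodule.subset_span ?_))
    · rw [hV]
      exact ⟨_, gd i, rfl⟩
    · rw [hV]
      exact ⟨_, gj l, rfl⟩
  have htop : (⊤ : Submodule F (Fin w → F)) ≤ Submodule.span F V := by
    intro g _
    have h1 : g = ∑ i, g i • (Pi.single i 1 : Fin w → F) := by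
      funext j
      simp [Finset.sum_apply, Pi.single_apply]
    rw [h1]
    refine Submodule.sum_mem _ fun i _ => Submodule.smul_mem _ _ ?_
    obtain ⟨E, hE⟩ := exists_der_ind hη (fun j => if j = i then 1 else 0)
    have h2 := hspan E
    have h3 : (fun j => E (η j)) = (Pi.single i 1 : Fin w → F) := by
      funext j
      rw [hE, Pi.single_apply]
    rwa [h3] at h2
  let β := Module.Basis.ofSpan htop
  let e := β.indexEquiv (Pi.basisFun F (Fin w))
  have hβ : ∀ i : Fin w, ∃ E, Good G b E ∧ β (e.symm i) = fun j => E (η j) := by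
    intro i
    have h1 : β (e.symm i) ∈ V := Module.Basis.ofSpan_subset htop ⟨_, rfl⟩
    exact hV.le h1
  choose E hE hEβ using hβ
  refine ⟨E, hE, ?_⟩
  have h1 : LinearIndependent F fun i => β (e.symm i) := β.linearIndependent.comp _ e.symm.injective
  have h2 : (Matrix.of fun i j => E i (η j)).row = fun i => β (e.symm i) := by
    funext i
    rw [hEβ]
    rfl
  rw [← h2, Matrix.linearIndependent_rows_iff_isUnit, Matrix.isUnit_iff_isUnit_det] at h1
  exact h1.ne_zero

end Pool.Agent.E8helper90.RC
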