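import Mathlib

/-!
A bound for the Hilbert function of a finitely generated domain.
-/

set_option autoImplicit false

namespace Pool.Agent.E8helper90.RC

open Polynomial

variable {S B : Type} [Field S] [CommRing B] [Algebra S B] {m : ℕ}

/-- monomials -/
def mon (u : Fin m → B) (α : Fin m → ℕ) : B := ∏ j, u j ^ α j

theorem mon_add (u : Fin m → B) (α β : Fin m → ℕ) : mon u (α + β) = mon u α * mon u β := by
  unfold mon
  rw [← Finset.prod_mul_distrib]
  exact Finset.prod_congr rfl fun j _ => by rw [Pi.add_apply, pow_add]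

theorem mon_zero (u : Fin m → B) : mon u 0 = 1 := by
  unfold mon
  simp

theorem mon_single (u : Fin m → B) (j : Fin m) (n : ℕ) : mon u (Pi.single j n) = u j ^ n := by
  unfold mon
  rw [Finset.prod_eq_single j]
  · rw [Pi.single_eq_same]
  · intro i _ hi
    rw [Pi.single_eq_of_ne hi, pow_zero]
  · intro h
    exact absurd (Finset.mem_univ j) h

/-- the span of the monomials with exponents below a bound -/
def bx (S : Type) {B : Type} [Field S] [CommRing B] [Algebra S B] {m : ℕ} (u : Fin m → B)
    (b : Fin m → ℕ) : Submodule S B :=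
  Submodule.span S ((fun α => mon u α) '' {α : Fin m → ℕ | ∀ j, α j ≤ b j})

theorem mon_mem_bx {u : Fin m → B} {b α : Fin m → ℕ} (h : ∀ j, α j ≤ b j) :
    mon u α ∈ bx S u b := Submodule.subset_span ⟨α, h, rfl⟩

theorem bx_mono {u : Fin m → B} {b b' : Fin m → ℕ} (h : ∀ j, b j ≤ b' j) :
    bx S u b ≤ bx S u b' := by
  refine Submodule.span_mono ?_
  rintro z ⟨α, hα, rfl⟩
  exact ⟨α, fun j => (hα j).trans (h j), rfl⟩

theorem bx_mul {u : Fin m → B} {b b' c : Fin m → ℕ} (h : ∀ j, b j + b' j ≤ c j) {y z : B}
    (hy : y ∈ bx S u b) (hz : z ∈ bx S u b') : y * z ∈ bx S u c := by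
  induction hy using Submodule.span_induction with
  | mem y hy =>
    obtain ⟨α, hα, rfl⟩ := hy
    induction hz using Submodule.span_induction with
    | mem z hz =>
      obtain ⟨β, hβ, rfl⟩ := hz
      change mon u α * mon u β ∈ _
      rw [← mon_add]
      exact mon_mem_bx fun j => (Nat.add_le_add (hα j) (hβ j)).trans (h j)
    | zero => rw [mul_zero]; exact Submodule.zero_mem _
    | add y z _ _ hy hz => rw [mul_add]; exact Submodule.add_mem _ hy hz
    | smul c z _ hz => rw [mul_smul_comm]; exact Submodule.smul_mem _ c hz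
  | zero => rw [zero_mul]; exact Submodule.zero_mem _
  | add y z _ _ hy hz => rw [add_mul]; exact Submodule.add_mem _ hy hz
  | smul c z _ hz => rw [smul_mul_assoc]; exact Submodule.smul_mem _ c hz

theorem finite_box (b : Fin m → ℕ) : {α : Fin m → ℕ | ∀ j, α j ≤ b j}.Finite := by
  refine Set.Finite.subset (Set.finite_Iic b) fun α hα => ?_
  exact fun j => hα j

theorem bx_fin (u : Fin m → B) (b : Fin m → ℕ) : Module.Finite S (bx S u b) := by
  unfold bx
  exact Module.Finite.span_of_finite S ((finite_box b).image _)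

theorem finrank_bx (u : Fin m → B) (b : Fin m → ℕ) :
    Module.finrank S (bx S u b) ≤ ∏ j, (b j + 1) := by
  classical
  obtain ⟨A, hA⟩ : ∃ A : Finset (Fin m → ℕ), A = Fintype.piFinset fun j => Finset.range (b j + 1) :=
    ⟨_, rfl⟩
  have h1 : bx S u b = Submodule.span S ((A.image fun α => mon u α : Finset B) : Set B) := by
    unfold bx
    congr 1
    ext z
    simp only [Set.mem_image, Set.mem_ofPred_eq, Finset.coe_image, Finset.mem_coe, hA,
      Fintype.mem_piFinset, Finset.mem_range, Nat.lt_succ_iff]
  rw [h1]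
  refine (finrank_span_finset_le_card _).trans (Finset.card_image_le.trans ?_)
  rw [hA, Fintype.card_piFinset]
  simp

/-- the exponents in the set `T` -/
def tb (T : Finset (Fin m)) (e : ℕ) (j : Fin m) : ℕ := if j ∈ T then e else 0

theorem adjoin_bx (u : Fin m → B) (T : Finset (Fin m)) {z : B}
    (hz : z ∈ Algebra.adjoin S (u '' (T : Set (Fin m)))) : ∃ e, z ∈ bx S u (tb T e) := by
  induction hz using Algebra.adjoin_induction with
  | mem z hz =>
    obtain ⟨j, hj, rfl⟩ := hz
    refine ⟨1, ?_⟩
    rw [← pow_one (u j), ← mon_single]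
    refine mon_mem_bx fun i => ?_
    by_cases hi : i = j
    · subst hi
      rw [Pi.single_eq_same]
      unfold tb
      rw [if_pos (by exact_mod_cast hj)]
    · rw [Pi.single_eq_of_ne hi]
      exact Nat.zero_le _
  | algebraMap s =>
    refine ⟨0, ?_⟩
    rw [Algebra.algebraMap_eq_smul_one, ← mon_zero u]
    exact Submodule.smul_mem _ s (mon_mem_bx fun j => Nat.zero_le _)
  | add y z _ _ hy hz =>
    obtain ⟨e, he⟩ := hy
    obtain ⟨f, hf⟩ := hz
    refine ⟨e + f, Submodule.add_mem _ (bx_mono (fun j => ?_) he) (bx_mono (fun j => ?_) hf)⟩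
    · unfold tb
      split_ifs <;> omega
    · unfold tb
      split_ifs <;> omega
  | mul y z _ _ hy hz =>
    obtain ⟨e, he⟩ := hy
    obtain ⟨f, hf⟩ := hz
    refine ⟨e + f, bx_mul (fun j => ?_) he hf⟩
    unfold tb
    split_ifs <;> omega

/-- **The Hilbert function of a domain.** -/
theorem hilbert [IsDomain B] (u : Fin m → B) (T : Finset (Fin m))
    (hT : ∀ j, IsAlgebraic (Algebra.adjoin S (u '' (T : Set (Fin m)))) (u j)) :
    ∃ C : ℕ, ∀ e : ℕ, Module.finrank S
      (Submodule.span S ((fun α => mon u α) '' {α : Fin m → ℕ | ∑ j, α j ≤ e})) ≤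
        C * (e + 1) ^ T.card := by
  classical
  -- relations with a common leading coefficient
  obtain ⟨A, hA⟩ : ∃ A, A = Algebra.adjoin S (u '' (T : Set (Fin m))) := ⟨_, rfl⟩
  rw [← hA] at hT
  choose p hp hp0 using hT
  obtain ⟨N, hN⟩ : ∃ N : ℕ, N = ∑ j, (p j).natDegree := ⟨_, rfl⟩
  have hpN : ∀ j, (p j).natDegree ≤ N := fun j => by
    rw [hN]
    exact Finset.single_le_sum (f := fun j => (p j).natDegree) (fun _ _ => Nat.zero_le _)
      (Finset.mem_univ j)
  have hdeg : ∀ j, 0 < (p j).natDegree := by
    intro j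
    by_contra h0
    have h1 : (p j).natDegree = 0 := by omega
    have h2 := hp0 j
    rw [Polynomial.eq_C_of_natDegree_eq_zero h1, Polynomial.aeval_C] at h2
    apply hp j
    rw [Polynomial.eq_C_of_natDegree_eq_zero h1]
    have h3 : (p j).coeff 0 = 0 := Subtype.ext h2
    rw [h3, Polynomial.C_0]
  obtain ⟨δ, hδ⟩ : ∃ δ : A, δ = ∏ j, (p j).leadingCoeff := ⟨_, rfl⟩
  have hδ0 : (δ : B) ≠ 0 := by
    intro h
    have h1 : δ = 0 := Subtype.ext h
    rw [hδ, Finset.prod_eq_zero_iff] at h1
    obtain ⟨j, -, hj⟩ := h1
    exact hp j (Polynomial.leadingCoeff_eq_zero.1 hj)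
  have hrel : ∀ j, ∃ a : ℕ → A, (δ : B) * u j ^ (p j).natDegree =
      ∑ l ∈ Finset.range (p j).natDegree, (a l : B) * u j ^ l := by
    intro j
    refine ⟨fun l => -((∏ i ∈ Finset.univ.erase j, (p i).leadingCoeff) * (p j).coeff l), ?_⟩
    have h1 := hp0 j
    rw [Polynomial.aeval_eq_sum_range, Finset.sum_range_succ] at h1
    have h2 : δ = (∏ i ∈ Finset.univ.erase j, (p i).leadingCoeff) * (p j).leadingCoeff := by
      rw [hδ, Finset.prod_erase_mul _ _ (Finset.mem_univ j)]
    have h3 : ∑ l ∈ Finset.range (p j).natDegree, (p j).coeff l • u j ^ l =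
        -((p j).leadingCoeff • u j ^ (p j).natDegree) := by
      rw [Polynomial.leadingCoeff]
      linear_combination h1
    rw [h2]
    push_cast
    have h4 : ∀ l, -((∏ i ∈ Finset.univ.erase j, ((p i).leadingCoeff : B)) * ((p j).coeff l : B)) *
        u j ^ l = -(∏ i ∈ Finset.univ.erase j, ((p i).leadingCoeff : B)) *
          ((p j).coeff l • u j ^ l) := by
      intro l
      rw [Algebra.smul_def]
      change _ = _ * (((p j).coeff l : B) * _)
      ring
    simp only [h4]
    rw [← Finset.mul_sum, h3, Algebra.smul_def]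
    change _ = _ * -(((p j).leadingCoeff : B) * _)
    ring
  choose a ha using hrel
  -- a bound for the coefficients
  obtain ⟨E, hδE, haE⟩ : ∃ E : ℕ, (δ : B) ∈ bx S u (tb T E) ∧
      ∀ j, ∀ l ∈ Finset.range (p j).natDegree, (a j l : B) ∈ bx S u (tb T E) := by
    have h1 : ∀ z : A, ∃ e, (z : B) ∈ bx S u (tb T e) := fun z => adjoin_bx u T (by
      rw [← hA]; exact z.2)
    choose f hf using h1
    have hmono : ∀ e e', e ≤ e' → bx S u (tb T e) ≤ bx S u (tb T e') := fun e e' h => by
      refine bx_mono fun j => ?_
      unfold tb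
      split_ifs <;> omega
    refine ⟨f δ + ∑ j, ∑ l ∈ Finset.range (p j).natDegree, f (a j l), hmono _ _ (by omega) (hf δ),
      fun j l hl => hmono _ _ ?_ (hf _)⟩
    have h2 : f (a j l) ≤ ∑ l ∈ Finset.range (p j).natDegree, f (a j l) :=
      Finset.single_le_sum (f := fun l => f (a j l)) (fun _ _ => Nat.zero_le _) hl
    have h3 : ∑ l ∈ Finset.range (p j).natDegree, f (a j l) ≤
        ∑ j, ∑ l ∈ Finset.range (p j).natDegree, f (a j l) :=
      Finset.single_le_sum (f := fun j => ∑ l ∈ Finset.range (p j).natDegree, f (a j l))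
        (fun _ _ => Nat.zero_le _) (Finset.mem_univ j)
    omega
  -- the box
  obtain ⟨bb, hbb⟩ : ∃ bb : ℕ → Fin m → ℕ, bb = fun e j => tb T (e * (E + 1)) j + N := ⟨_, rfl⟩
  have hstep0 : ∀ e, ∀ z ∈ bx S u (bb e), (δ : B) * z ∈ bx S u (bb (e + 1)) := by
    intro e z hz
    refine bx_mul (fun j => ?_) hδE hz
    rw [hbb]
    unfold tb
    dsimp only
    split_ifs
    · nlinarith
    · omega
  have hstep : ∀ e j, ∀ z ∈ bx S u (bb e), (δ : B) * (u j * z) ∈ bx S u (bb (e + 1)) := by
    intro e j z hz
    unfold bx at hz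
    induction hz using Submodule.span_induction with
    | mem z hz =>
      obtain ⟨α, hα, rfl⟩ := hz
      change (δ : B) * (u j * mon u α) ∈ _
      have hα' : ∀ i, α i ≤ bb e i := hα
      by_cases hj : j ∈ T ∨ α j < N
      · have h1 : u j * mon u α = mon u (Pi.single j 1 + α) := by
          rw [mon_add, mon_single, pow_one]
        rw [h1]
        refine bx_mul (b := tb T E) (b' := Pi.single j 1 + α) (fun i => ?_) hδE
          (mon_mem_bx fun _ => le_rfl)
        rw [Pi.add_apply]
        have h2 := hα' i
        rw [hbb] at h2 ⊢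
        unfold tb at h2 ⊢
        by_cases hi : i = j
        · subst hi
          rw [Pi.single_eq_same]
          dsimp only at h2 ⊢
          rcases hj with hj | hj
          · rw [if_pos hj] at h2
            rw [if_pos hj, if_pos hj]
            nlinarith
          · split_ifs at h2 ⊢
            · nlinarith
            · omega
        · rw [Pi.single_eq_of_ne hi]
          dsimp only at h2 ⊢
          split_ifs at h2 ⊢
          · nlinarith
          · omega
      · push Not at hj
        obtain ⟨hjT, hjN⟩ := hj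
        have h1 := hα' j
        rw [hbb] at h1
        unfold tb at h1
        dsimp only at h1
        rw [if_neg hjT] at h1
        have h2 : α j = N := by omega
        obtain ⟨β, hβ⟩ : ∃ β : Fin m → ℕ, β = Function.update α j 0 := ⟨_, rfl⟩
        have h3 : α = Pi.single j N + β := by
          funext i
          rw [Pi.add_apply, hβ]
          by_cases hi : i = j
          · subst hi
            rw [Pi.single_eq_same, Function.update_self, h2, add_zero]
          · rw [Pi.single_eq_of_ne hi, Function.update_of_ne hi, zero_add]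
        have h4 : (δ : B) * (u j * mon u α) = ∑ l ∈ Finset.range (p j).natDegree,
            (a j l : B) * mon u (Pi.single j (l + (N + 1 - (p j).natDegree)) + β) := by
          rw [h3, mon_add, mon_single]
          have h5 : u j ^ (N + 1) = u j ^ (p j).natDegree * u j ^ (N + 1 - (p j).natDegree) := by
            rw [← pow_add]
            congr 1
            have := hpN j
            omega
          have h6 : (δ : B) * (u j * (u j ^ N * mon u β)) =
              ((δ : B) * u j ^ (p j).natDegree) * (u j ^ (N + 1 - (p j).natDegree) * mon u β) := by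
            have : u j * (u j ^ N * mon u β) = u j ^ (N + 1) * mon u β := by ring
            rw [this, h5]
            ring
          rw [h6, ha, Finset.sum_mul]
          refine Finset.sum_congr rfl fun l _ => ?_
          rw [mon_add, mon_single, pow_add]
          ring
        rw [h4]
        refine Submodule.sum_mem _ fun l hl => ?_
        refine bx_mul (b := tb T E) (b' := Pi.single j (l + (N + 1 - (p j).natDegree)) + β)
          (fun i => ?_) (haE j l hl) (mon_mem_bx fun _ => le_rfl)
        rw [Pi.add_apply]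
        have h7 := hα' i
        have h8 := Finset.mem_range.1 hl
        have h9 := hpN j
        by_cases hi : i = j
        · subst hi
          rw [Pi.single_eq_same, hβ, Function.update_self, hbb]
          unfold tb
          dsimp only
          rw [if_neg hjT, if_neg hjT]
          omega
        · rw [Pi.single_eq_of_ne hi, hβ, Function.update_of_ne hi]
          rw [hbb] at h7 ⊢
          unfold tb at h7 ⊢
          dsimp only at h7 ⊢
          split_ifs at h7 ⊢
          · nlinarith
          · omega
    | zero => rw [mul_zero, mul_zero]; exact Submodule.zero_mem _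
    | add y z _ _ hy hz => rw [mul_add, mul_add]; exact Submodule.add_mem _ hy hz
    | smul c z _ hz =>
      rw [mul_smul_comm, mul_smul_comm]
      exact Submodule.smul_mem _ c hz
  have hpow : ∀ n : ℕ, ∀ α : Fin m → ℕ, ∑ j, α j = n → ∀ e, n ≤ e →
      (δ : B) ^ e * mon u α ∈ bx S u (bb e) := by
    have hlift : ∀ n, ∀ z : B, (δ : B) ^ n * z ∈ bx S u (bb n) → ∀ e, n ≤ e →
        (δ : B) ^ e * z ∈ bx S u (bb e) := by
      intro n z hz e he
      induction e, he using Nat.le_induction with
      | base => exact hz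
      | succ e _ ih =>
        have h1 := hstep0 e _ ih
        rwa [← mul_assoc, ← pow_succ'] at h1
    intro n
    induction n with
    | zero =>
      intro α hα e he
      refine hlift 0 _ ?_ e he
      have h1 : α = 0 := by
        funext j
        have h2 : α j ≤ ∑ j, α j := Finset.single_le_sum (f := α) (fun _ _ => Nat.zero_le _)
          (Finset.mem_univ j)
        rw [hα] at h2
        exact Nat.le_zero.1 h2
      rw [pow_zero, one_mul, h1]
      exact mon_mem_bx fun j => Nat.zero_le _
    | succ n ih =>
      intro α hα e he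
      refine hlift (n + 1) _ ?_ e he
      obtain ⟨j, hj⟩ : ∃ j, 0 < α j := by
        by_contra hcon
        push Not at hcon
        have h1 : ∑ j, α j = 0 := Finset.sum_eq_zero fun j _ => Nat.le_zero.1 (hcon j)
        omega
      obtain ⟨β, hβ⟩ : ∃ β : Fin m → ℕ, β = Function.update α j (α j - 1) := ⟨_, rfl⟩
      have h3 : α = Pi.single j 1 + β := by
        funext i
        rw [Pi.add_apply, hβ]
        by_cases hi : i = j
        · subst hi
          rw [Pi.single_eq_same, Function.update_self]
          omega
        · rw [Pi.single_eq_of_ne hi, Function.update_of_ne hi, zero_add]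
      have h4 : ∑ j, β j = n := by
        have h5 : ∑ i, α i = ∑ i, (Pi.single j 1 : Fin m → ℕ) i + ∑ i, β i := by
          rw [← Finset.sum_add_distrib]
          exact Finset.sum_congr rfl fun i _ => by rw [← Pi.add_apply, ← h3]
        rw [Finset.sum_pi_single'] at h5
        simp only [Finset.mem_univ, if_true] at h5
        omega
      have h5 := hstep n j _ (ih β h4 n le_rfl)
      have h6 : (δ : B) * (u j * ((δ : B) ^ n * mon u β)) = (δ : B) ^ (n + 1) * mon u α := by
        rw [h3, mon_add, mon_single]
        ring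
      rwa [h6] at h5
  refine ⟨(E + 1 + N + 1) ^ T.card * (N + 1) ^ m, fun e => ?_⟩
  obtain ⟨V, hV⟩ : ∃ V : Submodule S B, V =
    Submodule.span S ((fun α => mon u α) '' {α : Fin m → ℕ | ∑ j, α j ≤ e}) := ⟨_, rfl⟩
  rw [← hV]
  have hδe : ((δ : B) ^ e) ≠ 0 := pow_ne_zero e hδ0
  have hVm : V.map (LinearMap.mulLeft S ((δ : B) ^ e)) ≤ bx S u (bb e) := by
    rw [hV, Submodule.map_span, Submodule.span_le]
    rintro z ⟨w, ⟨α, hα, rfl⟩, rfl⟩
    exact hpow _ α rfl e hα
  have hfin := bx_fin (S := S) u (bb e)
  have h1 : Module.finrank S V = Module.finrank S (V.map (LinearMap.mulLeft S ((δ : B) ^ e))) := by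
    refine (LinearEquiv.finrank_eq (Submodule.equivMapOfInjective _ ?_ V))
    intro x y hxy
    exact mul_left_cancel₀ hδe hxy
  rw [h1]
  refine (Submodule.finrank_mono hVm).trans ((finrank_bx u _).trans ?_)
  have h2 : ∀ j, bb e j + 1 ≤ (if j ∈ T then (E + 1 + N + 1) * (e + 1) else 1) * (N + 1) := by
    intro j
    rw [hbb]
    unfold tb
    dsimp only
    split_ifs
    · nlinarith [Nat.zero_le N, Nat.zero_le e, Nat.zero_le E, Nat.zero_le (N * e),
        Nat.zero_le (E * e), Nat.zero_le (N * (E * e)), Nat.zero_le (N * N * e),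
        Nat.zero_le (N * E), Nat.zero_le (N * N)]
    · omega
  refine (Finset.prod_le_prod (fun _ _ => Nat.zero_le _) fun j _ => h2 j).trans ?_
  rw [Finset.prod_mul_distrib, Finset.prod_const, Finset.card_univ, Fintype.card_fin,
    Finset.prod_ite_mem, Finset.univ_inter, Finset.prod_const, mul_pow]
  exact le_of_eq (by ring)

end Pool.Agent.E8helper90.RC
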