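import Pool.Agent.E8helper90.RC.Lim
import Pool.Agent.E8helper90.RC.Cor

/-!
The field of the small functions; functions on varieties of general type which are algebraic over
moving points of elliptic curves are small.
-/

set_option autoImplicit false

namespace Pool.Agent.E8helper90.RC

open Filter
open scoped ENNReal
open Pool.Agent.TH600.LC (clo mem_clo inv_mem_clo subset_clo clo_le clo_mono adjoin_le_clo coe_clo)

variable {k F I : Type} [Field k] [Field F] [Algebra k F]

/-- constants have order zero, and the elements of the kernel of the derivation are small -/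
structure PC (X : PS k F I) : Prop where
  o_const : ∀ {c : k}, c ≠ 0 → ∀ᶠ p in X.H, X.o (algebraMap k F c) p = 0
  ker : ∀ z, X.D z = 0 → X.Sm (X.pl z)

variable {X : PS k F I}

theorem PC.pl_const (h : PC X) (c : k) : ∀ᶠ p in X.H, X.pl (algebraMap k F c) p = 0 := by
  by_cases hc : c = 0
  · rw [hc, map_zero]
    exact Eventually.of_forall fun p => PS.pl_zero p
  · filter_upwards [h.o_const hc] with p hp
    unfold PS.pl
    rw [hp]
    rfl

/-- the field of the small functions -/
noncomputable def SF (h : PC X) : IntermediateField k F where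
  carrier := {z | X.Sm (X.pl z)}
  mul_mem' := fun {a b} ha hb => (PS.Sm.add ha hb).mono (PS.pl_mul a b)
  one_mem' := PS.Sm.zero.mono (by
    filter_upwards [PS.pl_one (X := X)] with p hp
    rw [hp])
  add_mem' := fun {a b} ha hb => (PS.Sm.add ha hb).mono (by
    filter_upwards [PS.pl_add (X := X) a b] with p hp
    exact hp.trans (max_le (Nat.le_add_right _ _) (Nat.le_add_left _ _)))
  zero_mem' := PS.Sm.zero.mono (Eventually.of_forall fun p => by rw [PS.pl_zero])
  algebraMap_mem' := fun c => PS.Sm.zero.mono (by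
    filter_upwards [h.pl_const c] with p hp
    rw [hp])
  inv_mem' := by
    intro a ha
    have ha' : X.Sm (X.pl a) := ha
    by_cases ha0 : a = 0
    · rw [ha0, inv_zero]
      exact PS.Sm.zero.mono (Eventually.of_forall fun p => by rw [PS.pl_zero])
    · have h1 : X.Sm (X.zr a) := le_antisymm ((X.m_prod ha0).trans ha'.le) bot_le
      refine h1.mono ?_
      filter_upwards [X.o_inv ha0] with p hp
      unfold PS.pl PS.zr
      rw [hp, neg_neg]

theorem mem_SF {h : PC X} {z : F} : z ∈ SF h ↔ X.Sm (X.pl z) := Iff.rfl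

theorem SF_der {h : PC X} {z : F} (hz : z ∈ SF h) : X.D z ∈ SF h := by
  rw [mem_SF] at hz ⊢
  by_cases hDz : X.D z = 0
  · rw [hDz]
    exact PS.Sm.zero.mono (Eventually.of_forall fun p => by rw [PS.pl_zero])
  refine ((PS.Sm.mul hz 2).add X.m_v).mono ?_
  filter_upwards [X.o_der z, X.o_der0 hDz, X.v_le] with p h1 h2 h3
  unfold PS.pl
  by_cases h0 : X.o z p = 0
  · have := h2 h0
    omega
  · rw [(h1 h0).2]
    omega

theorem SF_closed {h : PC X} {z : F} (hz : IsAlgebraic (SF h) z) : z ∈ SF h := by
  obtain ⟨P, hP, hP0⟩ := hz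
  have ha : ((P.coeff P.natDegree : SF h) : F) ≠ 0 := fun h0 => hP
    (Polynomial.leadingCoeff_eq_zero.1 (Subtype.ext h0))
  have hrel : ∑ i ∈ Finset.range (P.natDegree + 1), ((P.coeff i : SF h) : F) * z ^ i = 0 := by
    rw [Polynomial.aeval_eq_sum_range] at hP0
    rw [← hP0]
    exact Finset.sum_congr rfl fun i _ => by rw [Algebra.smul_def]; rfl
  have h1 := Sys.root_bound (X := X) (a := fun i => ((P.coeff i : SF h) : F)) ha hrel
  have h2 : X.Sm (X.zr ((P.coeff P.natDegree : SF h) : F)) :=
    le_antisymm ((X.m_prod ha).trans (P.coeff P.natDegree).2.le) bot_le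
  rw [mem_SF]
  refine (h2.add (PS.Sm.sum (Finset.range P.natDegree)
    (β := fun i => X.pl ((P.coeff i : SF h) : F)) fun i _ => (P.coeff i).2)).mono ?_
  filter_upwards [h1] with p h1
  by_cases hneg : X.o z p < 0
  · have h3 := h1 (fun i => X.pl ((P.coeff i : SF h) : F) p) (fun i _ => le_rfl) hneg
    have h4 : ((X.pl z p : ℕ) : ℤ) = -X.o z p := by
      unfold PS.pl
      exact Int.toNat_of_nonneg (by omega)
    have h5 : X.o ((P.coeff P.natDegree : SF h) : F) p ≤
        (X.zr ((P.coeff P.natDegree : SF h) : F) p : ℕ) := by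
      unfold PS.zr
      exact Int.self_le_toNat _
    zify
    rw [h4]
    linarith
  · have : X.pl z p = 0 := by
      unfold PS.pl
      omega
    rw [this]
    exact Nat.zero_le _

/-- poles of the coordinates of points of elliptic curves -/
theorem PC.ell (h : PC X) {x y : F} {a b : k}
    (hxy : y ^ 2 = x ^ 3 + algebraMap k F a * x + algebraMap k F b) :
    ∀ᶠ p in X.H, X.pl y p ≤ 3 * X.pl x p ∧
      (X.o x p < 0 → X.pl (x * y⁻¹) p = 0 ∧ X.pl y⁻¹ p = 0) := by
  by_cases hy : y = 0
  · rw [hy, inv_zero, mul_zero]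
    refine Eventually.of_forall fun p => ?_
    rw [PS.pl_zero]
    exact ⟨Nat.zero_le _, fun _ => ⟨rfl, rfl⟩⟩
  by_cases hx : x = 0
  · have hyb : y ^ 2 = algebraMap k F b := by
      rw [hxy, hx]
      ring
    filter_upwards [X.o_pow hy 2, h.pl_const b] with p h1 h2
    rw [hyb] at h1
    unfold PS.pl at h2 ⊢
    rw [hx, X.o_zero]
    refine ⟨by omega, fun h3 => absurd h3 (lt_irrefl _)⟩
  have e1 : y ^ 2 = x ^ 3 + (algebraMap k F a * x + algebraMap k F b) := by rw [hxy]; ring
  have e2 : x ^ 3 = y ^ 2 + (-(algebraMap k F a * x + algebraMap k F b)) := by rw [hxy]; ring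
  filter_upwards [X.o_pow hy 2, X.o_pow hx 3, h.pl_const a, h.pl_const b,
    PS.ge_mul (X := X) (algebraMap k F a) x, PS.ge_add (X := X) (algebraMap k F a * x) (algebraMap k F b),
    PS.ge_add (X := X) (x ^ 3) (algebraMap k F a * x + algebraMap k F b),
    PS.ge_add (X := X) (y ^ 2) (-(algebraMap k F a * x + algebraMap k F b)),
    X.o_neg (algebraMap k F a * x + algebraMap k F b), X.o_inv hy,
    X.o_mul hx (inv_ne_zero hy)]
    with p h1 h2 h3 h4 h5 h6 h7 h8 h9 h10 h11
  have hab : ∀ n : ℤ, n ≤ 0 → n ≤ X.o x p →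
      X.ge (algebraMap k F a * x + algebraMap k F b) n p := by
    intro n hn hn'
    have g1 := h5 0 n (by simpa using PS.ge_pl h3.le) (Or.inr hn')
    rw [zero_add] at g1
    have g2 : X.ge (algebraMap k F b) n p := (PS.ge_pl (n := 0) h4.le).mono (by simpa using hn)
    exact h6 n g1 g2
  constructor
  · obtain ⟨m, hm⟩ : ∃ m : ℤ, m = -(X.pl x p : ℤ) := ⟨_, rfl⟩
    have hm0 : m ≤ 0 := by omega
    have hmx : m ≤ X.o x p := by
      rw [hm]
      unfold PS.pl
      omega
    have g1 : X.ge (x ^ 3) (3 * m) p := Or.inr (by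
      rw [h2]
      push_cast
      linarith)
    have g2 := h7 (3 * m) g1 (hab (3 * m) (by linarith) (by linarith))
    rw [← e1] at g2
    have g3 := g2.resolve_left (pow_ne_zero 2 hy)
    rw [h1] at g3
    push_cast at g3
    have g4 : -X.o y p ≤ 3 * (X.pl x p : ℤ) := by linarith
    unfold PS.pl at g4 ⊢
    omega
  · intro hneg
    have g0 : 2 * X.o y p ≤ 3 * X.o x p := by
      by_contra hcon
      push Not at hcon
      have g1 : X.ge (y ^ 2) (3 * X.o x p + 1) p := Or.inr (by
        rw [h1]
        push_cast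
        linarith)
      have g2 : X.ge (-(algebraMap k F a * x + algebraMap k F b)) (3 * X.o x p + 1) p := by
        rcases hab (3 * X.o x p + 1) (by linarith) (by linarith) with g | g
        · left
          rw [g, neg_zero]
        · right
          rw [h9]
          exact g
      have g3 := h8 _ g1 g2
      rw [← e2] at g3
      have g4 := g3.resolve_left (pow_ne_zero 3 hx)
      rw [h2] at g4
      push_cast at g4
      linarith
    unfold PS.pl
    rw [h11, h10]
    constructor
    · omega
    · omega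

/-- the field with the moving points -/
theorem exists_RD (h : PC X) [CharZero k] {n : ℕ} (x y : Fin n → F) (a b : Fin n → k)
    (hab : ∀ j, 4 * a j ^ 3 + 27 * b j ^ 2 ≠ 0)
    (hxy : ∀ j, y j ^ 2 = x j ^ 3 + algebraMap k F (a j) * x j + algebraMap k F (b j))
    (c : Fin n → F) (hc : ∀ j, c j ∈ SF h) (hD : ∀ j, X.D (x j) = c j * y j)
    (hfin : ∀ j, X.m (X.pl (x j)) ≠ ∞) : ∃ (r : ℕ) (G : RD k F r), (∀ z, z ∈ G.S ↔ z ∈ SF h) ∧
      (∀ j, ∃ c : k, G.a j = algebraMap k F c) ∧ (∀ j, ∃ c : k, G.b j = algebraMap k F c) ∧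
      (∀ z ∈ clo (SF h) (Set.range x), z ∈ clo G.S (Set.range G.x)) ∧
      ∀ g ∈ clo G.S (Set.range G.x), g ∉ G.S → ∃ ε w, LV G ε w ∧ w g < 0 := by
  classical
  have hchF : CharZero F := charZero_of_injective_algebraMap (algebraMap k F).injective
  obtain ⟨J, hJ⟩ := (AlgebraicIndependent.matroid (SF h) F).exists_isBasis (Set.range x)
    (by intro z _; exact Set.mem_univ z)
  have hJf : J.Finite := (Set.finite_range x).subset hJ.subset
  have hJi : AlgebraicIndepOn (SF h) id J := (AlgebraicIndependent.matroid_indep_iff).1 hJ.indep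
  have hfJ : Fintype J := hJf.fintype
  obtain ⟨r, e⟩ : ∃ r, Nonempty (Fin r ≃ J) := ⟨_, ⟨(Fintype.equivFin J).symm⟩⟩
  obtain ⟨e⟩ := e
  have hσ : ∀ s : Fin r, ∃ j, x j = (e s : F) := fun s => hJ.subset (e s).2
  choose σ hσ using hσ
  have hind : AlgebraicIndependent (SF h) fun s => x (σ s) := by
    have h1 := AlgebraicIndependent.comp (ι' := Fin r) hJi (fun s => e s) e.injective
    have h2 : (fun s => x (σ s)) = (fun i : J => id (i : F)) ∘ fun s => e s := by
      funext s
      exact hσ s
    rw [h2]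
    exact h1
  have hcl : clo (SF h) (Set.range x) ≤ clo (SF h) (Set.range fun s => x (σ s)) := by
    have h1 : (Set.range fun s => x (σ s)) = J := by
      ext z
      constructor
      · rintro ⟨s, rfl⟩
        change x (σ s) ∈ J
        rw [hσ]
        exact (e s).2
      · intro hz
        refine ⟨e.symm ⟨z, hz⟩, ?_⟩
        change x (σ _) = z
        rw [hσ, Equiv.apply_symm_apply]
    rw [h1]
    intro z hz
    have hz' : z ∈ (clo (SF h) (Set.range x) : Set F) := hz
    change z ∈ (clo (SF h) J : Set F)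
    rw [coe_clo] at hz' ⊢
    rwa [hJ.closure_eq_closure]
  let G : RD k F r :=
    { D := X.D
      S := SF h
      x := fun s => x (σ s)
      y := fun s => y (σ s)
      a := fun s => algebraMap k F (a (σ s))
      b := fun s => algebraMap k F (b (σ s))
      c := fun s => c (σ s)
      cst := fun z hz => mem_SF.2 (h.ker z hz)
      st := fun z hz => SF_der hz
      closed := fun z hz => SF_closed hz
      cS := fun s => hc (σ s)
      hxy := fun s => hxy (σ s)
      disc := fun s => by
        have h1 : 4 * algebraMap k F (a (σ s)) ^ 3 + 27 * algebraMap k F (b (σ s)) ^ 2 =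
            algebraMap k F (4 * a (σ s) ^ 3 + 27 * b (σ s) ^ 2) := by
          simp only [map_add, map_mul, map_pow, map_ofNat]
        rw [h1, Ne, map_eq_zero]
        exact hab (σ s)
      Da := fun s => X.D.map_algebraMap _
      Db := fun s => X.D.map_algebraMap _
      Dx := fun s => hD (σ s)
      ind := hind }
  have hfy : ∀ j, X.m (X.pl (y j)) ≠ ∞ := by
    intro j
    refine ne_top_of_le_ne_top (ENNReal.mul_ne_top (ENNReal.natCast_ne_top 3) (hfin j))
      ((X.m_mono ?_).trans (PS.m_mul_le 3 (X.pl (x j))))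
    filter_upwards [h.ell (hxy j)] with p hp
    exact hp.1
  have hfyi : ∀ j, X.m (X.pl (y j)⁻¹) ≠ ∞ := by
    intro j
    by_cases hy : y j = 0
    · rw [hy, inv_zero]
      have h1 : X.m (X.pl 0) = 0 := PS.Sm.zero.mono
        (Eventually.of_forall fun p => by rw [PS.pl_zero])
      rw [h1]
      exact ENNReal.zero_ne_top
    · refine ne_top_of_le_ne_top (hfy j) ((X.m_mono ?_).trans (X.m_prod hy))
      filter_upwards [X.o_inv hy] with p hp
      unfold PS.pl
      rw [hp, neg_neg]
  have hsys : Sys X G :=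
    { D := rfl
      S := fun z => Iff.rfl
      cov := by
        filter_upwards [eventually_all.2 fun s => h.ell (hxy (σ s))] with p hp
        refine ⟨fun s => decide (0 ≤ X.o (x (σ s)) p), fun s i => ?_⟩
        by_cases h0 : 0 ≤ X.o (x (σ s)) p
        · have h1 : decide (0 ≤ X.o (x (σ s)) p) = true := decide_eq_true h0
          have h2 : X.pl (x (σ s)) p = 0 := by
            unfold PS.pl
            omega
          cases i
          · have h3 : G.ch (fun s => decide (0 ≤ X.o (x (σ s)) p)) s false = y (σ s) := by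
              simp [RD.ch, h1, G]
            rw [h3]
            have := (hp s).1
            omega
          · have h3 : G.ch (fun s => decide (0 ≤ X.o (x (σ s)) p)) s true = x (σ s) := by
              simp [RD.ch, h1, G]
            rw [h3, h2]
        · have h1 : decide (0 ≤ X.o (x (σ s)) p) = false := decide_eq_false h0
          obtain ⟨h4, h5⟩ := (hp s).2 (not_le.1 h0)
          cases i
          · have h3 : G.ch (fun s => decide (0 ≤ X.o (x (σ s)) p)) s false = (y (σ s))⁻¹ := by
              simp [RD.ch, h1, G]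
            rw [h3]
            exact h5
          · have h3 : G.ch (fun s => decide (0 ≤ X.o (x (σ s)) p)) s true =
                x (σ s) * (y (σ s))⁻¹ := by
              simp [RD.ch, h1, G]
            rw [h3]
            exact h4
      fin := by
        intro ε s i
        by_cases hε : ε s = true
        · cases i
          · have h3 : G.ch ε s false = y (σ s) := by simp [RD.ch, hε, G]
            rw [h3]
            exact hfy _
          · have h3 : G.ch ε s true = x (σ s) := by simp [RD.ch, hε, G]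
            rw [h3]
            exact hfin _
        · cases i
          · have h3 : G.ch ε s false = (y (σ s))⁻¹ := by simp [RD.ch, hε, G]
            rw [h3]
            exact hfyi _
          · have h3 : G.ch ε s true = x (σ s) * (y (σ s))⁻¹ := by simp [RD.ch, hε, G]
            rw [h3]
            exact ne_top_of_le_ne_top (ENNReal.add_ne_top.2 ⟨hfin (σ s), hfyi (σ s)⟩)
              ((X.m_mono (PS.pl_mul _ _)).trans (X.m_add _ _)) }
  exact ⟨r, G, fun _ => Iff.rfl, fun s => ⟨_, rfl⟩, fun s => ⟨_, rfl⟩, fun z hz => hcl hz,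
    fun g hg hgS => hsys.exists_LV hg hgS⟩

/-- **Functions on varieties of general type are small.** -/
theorem abs_main (h : PC X) [CharZero k] {n : ℕ} (x y : Fin n → F) (a b : Fin n → k)
    (hab : ∀ j, 4 * a j ^ 3 + 27 * b j ^ 2 ≠ 0)
    (hxy : ∀ j, y j ^ 2 = x j ^ 3 + algebraMap k F (a j) * x j + algebraMap k F (b j))
    (c : Fin n → F) (hc : ∀ j, c j ∈ SF h) (hD : ∀ j, X.D (x j) = c j * y j)
    (hfin : ∀ j, X.m (X.pl (x j)) ≠ ∞) (K : IntermediateField k F) (hfg : K.FG)
    (hK : ∀ z ∈ K, z ∈ clo (SF h) (Set.range x)) {w : ℕ}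
    (hGT : Pool.Agent.W602.GT.GeneralType k K w) : ∀ z ∈ K, z ∈ SF h := by
  obtain ⟨r, G, h1, h2, h3, h4, h5⟩ := exists_RD h x y a b hab hxy c hc hD hfin
  exact fun z hz => (h1 z).1 (core_alg h2 h3 h5 K (fun z hz => h4 z (hK z hz)) hfg hGT z hz)

/-- **Quotients of pluricanonical forms are small.** -/
theorem abs_ratio (h : PC X) [CharZero k] {n : ℕ} (x y : Fin n → F) (a b : Fin n → k)
    (hab : ∀ j, 4 * a j ^ 3 + 27 * b j ^ 2 ≠ 0)
    (hxy : ∀ j, y j ^ 2 = x j ^ 3 + algebraMap k F (a j) * x j + algebraMap k F (b j))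
    (c : Fin n → F) (hc : ∀ j, c j ∈ SF h) (hD : ∀ j, X.D (x j) = c j * y j)
    (hfin : ∀ j, X.m (X.pl (x j)) ≠ ∞) (K : IntermediateField k F) (hfg : K.FG)
    (hK : ∀ z ∈ K, z ∈ clo (SF h) (Set.range x)) {w N : ℕ} (htr : Algebra.trdeg k K = w)
    (hN : 0 < N) {ω ω' : (Fin w → Derivation k K K) → K}
    (hω : Pool.Agent.W602.GT.IsPluri N ω) (hω' : Pool.Agent.W602.GT.IsPluri N ω')
    (hreg : ∀ P : FF.Place k K, Pool.Agent.W602.GT.Divisorial w P →
      Pool.Agent.W602.GT.RegAt P ω)
    (hreg' : ∀ P : FF.Place k K, Pool.Agent.W602.GT.Divisorial w P →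
      Pool.Agent.W602.GT.RegAt P ω') {D0 : Fin w → Derivation k K K} (hD0 : ω D0 ≠ 0) :
    ((ω' D0 / ω D0 : K) : F) ∈ SF h := by
  obtain ⟨r, G, h1, h2, h3, h4, h5⟩ := exists_RD h x y a b hab hxy c hc hD hfin
  exact (h1 _).1 (ratio_small h2 h3 h5 K (fun z hz => h4 z (hK z hz)) hfg htr hN hω hω' hreg hreg'
    hD0)

end Pool.Agent.E8helper90.RC
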