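import Pool.Agent.E8helper90.RC.Iso
import Pool.Agent.E8helper90.RC.Sma

/-!
The system of the points of a sequence of curves.
-/

set_option autoImplicit false

namespace Pool.Agent.E8helper90.RC

open FF Filter
open scoped ENNReal Topology
open Pool.Agent.W603.LV (hgt hgt_nonneg hgt_finset hgt_inv vo unif ord_unif ord_der der_mul
  vo_finite const_of_der Ge)
open Pool.Agent.E8helper90.AF (pol pol_nonneg pol_finset)

/-- limits along an ultrafilter -/
theorem tend_limsup (f : ℕ → ℝ≥0∞) :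
    Tendsto f (hyperfilter ℕ : Filter ℕ) (𝓝 (limsup f (hyperfilter ℕ : Filter ℕ))) := by
  obtain ⟨x, -, hx⟩ := isCompact_univ.ultrafilter_le_nhds ((hyperfilter ℕ).map f) (by simp)
  have h1 : Tendsto f (hyperfilter ℕ : Filter ℕ) (𝓝 x) := hx
  rw [h1.limsup_eq]
  exact h1

theorem limsup_zero_iff {T : ℕ → ℕ} (hT : ∀ i, 0 < T i) (a : ℕ → ℕ) :
    limsup (fun i => (a i : ℝ≥0∞) / T i) (hyperfilter ℕ : Filter ℕ) = 0 ↔
      ∀ n : ℕ, ∀ᶠ i in (hyperfilter ℕ : Filter ℕ), n * a i ≤ T i := by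
  have hT0 : ∀ i, (T i : ℝ≥0∞) ≠ 0 := fun i => by
    exact_mod_cast (hT i).ne'
  constructor
  · intro h n
    have h1 := tend_limsup fun i => (a i : ℝ≥0∞) / T i
    rw [h] at h1
    have h2 : (0 : ℝ≥0∞) < ((n + 1 : ℕ) : ℝ≥0∞)⁻¹ :=
      ENNReal.inv_pos.2 (ENNReal.natCast_ne_top _)
    filter_upwards [h1.eventually (gt_mem_nhds h2)] with i hi
    have h3 : (a i : ℝ≥0∞) < ((n + 1 : ℕ) : ℝ≥0∞)⁻¹ * T i := by
      rwa [ENNReal.div_lt_iff (Or.inl (hT0 i)) (Or.inl (ENNReal.natCast_ne_top _))] at hi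
    have h4 : ((n + 1 : ℕ) : ℝ≥0∞) * a i ≤ T i := by
      calc ((n + 1 : ℕ) : ℝ≥0∞) * a i ≤ ((n + 1 : ℕ) : ℝ≥0∞) * (((n + 1 : ℕ) : ℝ≥0∞)⁻¹ * T i) :=
            mul_le_mul_right h3.le _
        _ = T i := by
            rw [← mul_assoc, ENNReal.mul_inv_cancel (by exact_mod_cast Nat.succ_ne_zero n)
              (ENNReal.natCast_ne_top _), one_mul]
    have h5 : (n + 1) * a i ≤ T i := by exact_mod_cast h4
    nlinarith
  · intro h
    by_contra hne
    obtain ⟨n, hn⟩ := ENNReal.exists_inv_nat_lt hne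
    have hn0 : 0 < n := by
      rcases Nat.eq_zero_or_pos n with rfl | h0
      · rw [Nat.cast_zero, ENNReal.inv_zero] at hn
        exact absurd hn (by simp)
      · exact h0
    have h1 : limsup (fun i => (a i : ℝ≥0∞) / T i) (hyperfilter ℕ : Filter ℕ) ≤
        (n : ℝ≥0∞)⁻¹ := by
      refine Filter.limsup_le_of_le (by isBoundedDefault) ?_
      filter_upwards [h n] with i hi
      rw [ENNReal.div_le_iff (hT0 i) (ENNReal.natCast_ne_top _)]
      have h2 : ((n : ℕ) : ℝ≥0∞) * a i ≤ T i := by exact_mod_cast hi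
      calc (a i : ℝ≥0∞) = (n : ℝ≥0∞)⁻¹ * (n * a i) := by
            rw [← mul_assoc, ENNReal.inv_mul_cancel (by exact_mod_cast hn0.ne')
              (ENNReal.natCast_ne_top _), one_mul]
        _ ≤ (n : ℝ≥0∞)⁻¹ * T i := mul_le_mul_right h2 _
    exact absurd (hn.trans_le h1) (lt_irrefl _)

section one

variable {k K : Type} [Field k] [Field K] [Algebra k K] [CharZero k] [IsFF k K] [IsAlgClosed k]

omit [IsAlgClosed k] in
/-- the number of the poles -/
theorem tsum_hgt (g : K) :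
    ∑' P : Place k K, ((-P.ord g).toNat : ℝ≥0∞) = ((hgt k g).toNat : ℝ≥0∞) := by
  classical
  have hf := finite_support (k := k) g
  rw [tsum_eq_sum (s := hf.toFinset) (by
    intro P hP
    have h1 : P.ord g = 0 := by
      by_contra h
      exact hP (hf.mem_toFinset.2 h)
    rw [h1]
    simp), hgt_finset g hf.toFinset (fun P hP => hf.mem_toFinset.2 hP)]
  have h2 : (∑ P ∈ hf.toFinset, max (-P.ord g) 0).toNat =
      ∑ P ∈ hf.toFinset, (-P.ord g).toNat := by
    zify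
    rw [Int.toNat_of_nonneg (Finset.sum_nonneg fun P _ => le_max_right _ _)]
    exact Finset.sum_congr rfl fun P _ => (Int.toNat_eq_max _).symm
  rw [h2]
  push_cast
  rfl

theorem tsum_hgt' {g : K} :
    ∑' P : Place k K, ((P.ord g).toNat : ℝ≥0∞) = ((hgt k g).toNat : ℝ≥0∞) := by
  rw [← hgt_inv, ← tsum_hgt]
  refine tsum_congr fun P => ?_
  rw [P.ord_inv, neg_neg]

theorem tsum_pol {E : Derivation k K K} (hE : E ≠ 0) :
    ∑' P : Place k K, ((-vo P E).toNat : ℝ≥0∞) = ((pol E).toNat : ℝ≥0∞) := by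
  classical
  have hf := vo_finite hE
  rw [tsum_eq_sum (s := hf.toFinset) (by
    intro P hP
    have h1 : vo P E = 0 := by
      by_contra h
      exact hP (hf.mem_toFinset.2 h)
    rw [h1]
    simp), pol_finset E hf.toFinset (fun P hP => hf.mem_toFinset.2 hP)]
  have h2 : (∑ P ∈ hf.toFinset, max (-vo P E) 0).toNat =
      ∑ P ∈ hf.toFinset, (-vo P E).toNat := by
    zify
    rw [Int.toNat_of_nonneg (Finset.sum_nonneg fun P _ => le_max_right _ _)]
    exact Finset.sum_congr rfl fun P _ => (Int.toNat_eq_max _).symm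
  rw [h2]
  push_cast
  rfl

end one

/-- the data of the ultraproduct -/
structure Pk (k : Type) [Field k] (L : ℕ → Type) [∀ i, Field (L i)] [∀ i, Algebra k (L i)]
    (F : Type) [Field F] [Algebra k F] where
  /-- the classes -/
  u : (∀ i, L i) →+* F
  /-- the derivations -/
  E : ∀ i, Derivation k (L i) (L i)
  /-- the derivation -/
  D : Derivation k F F
  /-- the scale -/
  T : ℕ → ℕ
  surj : Function.Surjective u
  zero_iff : ∀ z, u z = 0 ↔ ∀ᶠ i in (hyperfilter ℕ : Filter ℕ), z i = 0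
  D_u : ∀ z, D (u z) = u fun i => E i (z i)
  c2 : ∀ c' : k, ∃ c : ℕ → k, algebraMap k F c' = u fun i => algebraMap k (L i) (c i)
  E0 : ∀ i, E i ≠ 0
  vo_le : ∀ᶠ i in (hyperfilter ℕ : Filter ℕ), ∀ P : Place k (L i), vo P (E i) ≤ 0
  T0 : ∀ i, 0 < T i
  pol_le : ∀ n : ℕ, ∀ᶠ i in (hyperfilter ℕ : Filter ℕ), n * pol (E i) ≤ T i

namespace Pk

variable {k : Type} [Field k] {L : ℕ → Type} [∀ i, Field (L i)] [∀ i, Algebra k (L i)]
  {F : Type} [Field F] [Algebra k F] (G : Pk k L F)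

/-- the filter of the points -/
noncomputable def HH (k : Type) [Field k] (L : ℕ → Type) [∀ i, Field (L i)] [∀ i, Algebra k (L i)] :
    Filter (Σ i, Place k (L i)) := Filter.comap Sigma.fst (hyperfilter ℕ : Filter ℕ)

omit [Field F] [Algebra k F] in
theorem ev_iff {φ : (Σ i, Place k (L i)) → Prop} : (∀ᶠ p in HH k L, φ p) ↔
    ∀ᶠ i in (hyperfilter ℕ : Filter ℕ), ∀ P, φ ⟨i, P⟩ := by
  unfold HH
  rw [Filter.eventually_comap]
  constructor
  · intro h
    filter_upwards [h] with i hi P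
    exact hi ⟨i, P⟩ rfl
  · intro h
    filter_upwards [h] with i hi
    rintro ⟨j, P⟩ rfl
    exact hi P

theorem ne_iff {z : ∀ i, L i} : G.u z ≠ 0 ↔ ∀ᶠ i in (hyperfilter ℕ : Filter ℕ), z i ≠ 0 := by
  rw [Ne, G.zero_iff]
  exact Ultrafilter.eventually_not.symm

open Classical in
/-- the order at a point -/
noncomputable def oo (z : F) (p : Σ i, Place k (L i)) : ℤ :=
  if z = 0 then 0 else p.2.ord ((G.surj z).choose p.1)

theorem oo_u (w : ∀ i, L i) : ∀ᶠ p in HH k L, G.oo (G.u w) p = p.2.ord (w p.1) := by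
  rw [ev_iff]
  by_cases h0 : G.u w = 0
  · filter_upwards [(G.zero_iff w).1 h0] with i hi P
    unfold oo
    rw [if_pos h0]
    simp only [hi]
    exact P.ord_zero.symm
  · have h1 : G.u ((G.surj (G.u w)).choose - w) = 0 := by
      rw [map_sub, (G.surj (G.u w)).choose_spec, sub_self]
    filter_upwards [(G.zero_iff _).1 h1] with i hi P
    unfold oo
    rw [if_neg h0]
    have h2 : (G.surj (G.u w)).choose i = w i := sub_eq_zero.1 hi
    simp only [h2]

/-- the way of counting -/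
noncomputable def mm (β : (Σ i, Place k (L i)) → ℕ) : ℝ≥0∞ :=
  limsup (fun i => (∑' P : Place k (L i), (β ⟨i, P⟩ : ℝ≥0∞)) / G.T i) (hyperfilter ℕ : Filter ℕ)

theorem mm_mono {β γ : (Σ i, Place k (L i)) → ℕ} (h : ∀ᶠ p in HH k L, β p ≤ γ p) :
    G.mm β ≤ G.mm γ := by
  refine Filter.limsup_le_limsup ?_ (by isBoundedDefault) (by isBoundedDefault)
  filter_upwards [ev_iff.1 h] with i hi
  refine ENNReal.div_le_div_right (ENNReal.tsum_le_tsum fun P => ?_) _
  exact_mod_cast hi P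

theorem mm_add (β γ : (Σ i, Place k (L i)) → ℕ) :
    G.mm (fun p => β p + γ p) = G.mm β + G.mm γ := by
  have h1 := (tend_limsup fun i => (∑' P : Place k (L i), (β ⟨i, P⟩ : ℝ≥0∞)) / G.T i).add
    (tend_limsup fun i => (∑' P : Place k (L i), (γ ⟨i, P⟩ : ℝ≥0∞)) / G.T i)
  have h2 := h1.limsup_eq
  unfold mm
  rw [← h2]
  congr 1
  funext i
  push_cast
  rw [ENNReal.tsum_add, ENNReal.add_div]

theorem mm_mul (n : ℕ) (β : (Σ i, Place k (L i)) → ℕ) :
    G.mm (fun p => n * β p) = n * G.mm β := by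
  have h1 := ENNReal.Tendsto.const_mul (a := (n : ℝ≥0∞))
    (tend_limsup fun i => (∑' P : Place k (L i), (β ⟨i, P⟩ : ℝ≥0∞)) / G.T i)
    (Or.inr (ENNReal.natCast_ne_top n))
  have h2 := h1.limsup_eq
  unfold mm
  rw [← h2]
  congr 1
  funext i
  push_cast
  rw [ENNReal.tsum_mul_left, mul_div_assoc]

variable [IsAlgClosed k] [CharZero k] [∀ i, IsFF k (L i)]

omit [IsAlgClosed k] in
theorem mm_pl (w : ∀ i, L i) : G.mm (fun p => (-G.oo (G.u w) p).toNat) =
    limsup (fun i => ((hgt k (w i)).toNat : ℝ≥0∞) / G.T i) (hyperfilter ℕ : Filter ℕ) := by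
  unfold mm
  refine Filter.limsup_congr ?_
  filter_upwards [ev_iff.1 (G.oo_u w)] with i hi
  rw [← tsum_hgt]
  congr 2
  funext P
  rw [hi P]

theorem mm_zr (w : ∀ i, L i) : G.mm (fun p => (G.oo (G.u w) p).toNat) =
    limsup (fun i => ((hgt k (w i)).toNat : ℝ≥0∞) / G.T i) (hyperfilter ℕ : Filter ℕ) := by
  unfold mm
  refine Filter.limsup_congr ?_
  filter_upwards [ev_iff.1 (G.oo_u w)] with i hi
  rw [← tsum_hgt']
  congr 2
  funext P
  rw [hi P]

/-- the system of points -/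
noncomputable def ps : PS k F (Σ i, Place k (L i)) where
  H := HH k L
  o := G.oo
  v := fun p => vo p.2 (G.E p.1)
  m := G.mm
  D := G.D
  o_zero := fun p => if_pos rfl
  o_mul := by
    intro a b ha hb
    obtain ⟨a, rfl⟩ := G.surj a
    obtain ⟨b, rfl⟩ := G.surj b
    have h1 : G.u a * G.u b = G.u (a * b) := (map_mul _ _ _).symm
    rw [h1, ev_iff]
    filter_upwards [G.ne_iff.1 ha, G.ne_iff.1 hb, ev_iff.1 (G.oo_u a), ev_iff.1 (G.oo_u b),
      ev_iff.1 (G.oo_u (a * b))] with i h2 h3 h4 h5 h6 P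
    rw [h4, h5, h6]
    exact P.ord_mul h2 h3
  o_add := by
    intro a b ha hb hab
    obtain ⟨a, rfl⟩ := G.surj a
    obtain ⟨b, rfl⟩ := G.surj b
    have h1 : G.u a + G.u b = G.u (a + b) := (map_add _ _ _).symm
    rw [h1] at hab ⊢
    rw [ev_iff]
    filter_upwards [G.ne_iff.1 ha, G.ne_iff.1 hb, G.ne_iff.1 hab, ev_iff.1 (G.oo_u a),
      ev_iff.1 (G.oo_u b), ev_iff.1 (G.oo_u (a + b))] with i h2 h3 h3' h4 h5 h6 P
    rw [h4, h5, h6]
    exact P.ord_add h2 h3 h3'
  o_der := by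
    intro a
    obtain ⟨a, rfl⟩ := G.surj a
    rw [G.D_u, ev_iff]
    by_cases h0 : G.u (fun i => G.E i (a i)) = 0
    · filter_upwards [(G.zero_iff _).1 h0, ev_iff.1 (G.oo_u a)] with i h1 h2 P h3
      rw [h2] at h3
      exact absurd h1 (ord_der P (G.E0 i) h3).1
    · filter_upwards [ev_iff.1 (G.oo_u a), ev_iff.1 (G.oo_u fun i => G.E i (a i))]
        with i h2 h4 P h3
      rw [h2] at h3
      refine ⟨h0, ?_⟩
      rw [h2, h4]
      exact (ord_der P (G.E0 i) h3).2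
  o_der0 := by
    intro a ha
    obtain ⟨a, rfl⟩ := G.surj a
    rw [G.D_u] at ha ⊢
    rw [ev_iff]
    filter_upwards [ev_iff.1 (G.oo_u a), ev_iff.1 (G.oo_u fun i => G.E i (a i)),
      G.ne_iff.1 ha] with i h2 h4 h5 P h3
    rw [h2] at h3
    rw [h4]
    obtain ⟨g, hg, e⟩ := der_mul P (ord_unif P) (G.E0 i) (f := a i) (Or.inr h3.ge)
    have hg0 : g ≠ 0 := by
      rintro rfl
      rw [mul_zero] at e
      exact h5 e
    have hπ0 : G.E i (unif P) ≠ 0 := by
      intro h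
      rw [h, zero_mul] at e
      exact h5 e
    rw [e, P.ord_mul hπ0 hg0]
    have h6 := hg.resolve_left hg0
    change P.ord (G.E i (unif P)) ≤ _
    linarith
  v_le := ev_iff.2 G.vo_le
  m_mono := fun h => G.mm_mono h
  m_add := fun β γ => (G.mm_add β γ).le
  m_mul := fun n β => (G.mm_mul n β).ge
  m_prod := by
    intro z _
    obtain ⟨w, rfl⟩ := G.surj z
    rw [G.mm_pl, G.mm_zr]
  m_v := by
    have h1 : G.mm (fun p => (-vo p.2 (G.E p.1)).toNat) =
        limsup (fun i => ((pol (G.E i)).toNat : ℝ≥0∞) / G.T i) (hyperfilter ℕ : Filter ℕ) := by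
      unfold mm
      congr 1
      funext i
      rw [← tsum_pol (G.E0 i)]
    rw [h1, limsup_zero_iff G.T0]
    intro n
    filter_upwards [G.pol_le n] with i hi
    have h2 := pol_nonneg (G.E i)
    zify
    rw [Int.toNat_of_nonneg h2]
    exact hi

theorem m_pl (w : ∀ i, L i) : G.ps.m (G.ps.pl (G.u w)) =
    limsup (fun i => ((hgt k (w i)).toNat : ℝ≥0∞) / G.T i) (hyperfilter ℕ : Filter ℕ) :=
  G.mm_pl w

theorem pc : PC G.ps where
  o_const := by
    intro c hc
    obtain ⟨d, hd⟩ := G.c2 c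
    have h0 : algebraMap k F c ≠ 0 := (map_ne_zero _).2 hc
    change ∀ᶠ p in HH k L, G.oo (algebraMap k F c) p = 0
    rw [hd] at h0 ⊢
    rw [ev_iff]
    filter_upwards [ev_iff.1 (G.oo_u fun i => algebraMap k (L i) (d i)), G.ne_iff.1 h0]
      with i h1 h2 P
    rw [h1]
    exact P.ord_const ((map_ne_zero _).1 h2)
  ker := by
    intro z hz
    obtain ⟨w, rfl⟩ := G.surj z
    change G.D (G.u w) = 0 at hz
    rw [G.D_u, G.zero_iff] at hz
    change G.ps.m (G.ps.pl (G.u w)) = 0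
    rw [G.m_pl, limsup_zero_iff G.T0]
    intro n
    filter_upwards [hz] with i hi
    have h1 : hgt k (w i) = 0 :=
      Pool.Agent.E8helper90.AF.hgt_const (const_of_der (G.E0 i) hi)
    rw [h1]
    simp

theorem mem_SF_u (w : ∀ i, L i) : G.u w ∈ SF G.pc ↔
    ∀ n : ℕ, ∀ᶠ i in (hyperfilter ℕ : Filter ℕ), n * hgt k (w i) ≤ G.T i := by
  rw [mem_SF]
  change G.ps.m (G.ps.pl (G.u w)) = 0 ↔ _
  rw [G.m_pl, limsup_zero_iff G.T0]
  refine forall_congr' fun n => ?_
  constructor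
  · intro h
    filter_upwards [h] with i hi
    have h2 := hgt_nonneg (k := k) (w i)
    zify at hi
    rwa [Int.toNat_of_nonneg h2] at hi
  · intro h
    filter_upwards [h] with i hi
    have h2 := hgt_nonneg (k := k) (w i)
    zify
    rwa [Int.toNat_of_nonneg h2]

theorem fin_u {w : ∀ i, L i} {B : ℕ}
    (h : ∀ᶠ i in (hyperfilter ℕ : Filter ℕ), hgt k (w i) ≤ B * G.T i) :
    G.ps.m (G.ps.pl (G.u w)) ≠ ∞ := by
  rw [G.m_pl]
  refine ne_top_of_le_ne_top (ENNReal.natCast_ne_top B) ?_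
  refine Filter.limsup_le_of_le (by isBoundedDefault) ?_
  filter_upwards [h] with i h
  rw [ENNReal.div_le_iff (by exact_mod_cast (G.T0 i).ne') (ENNReal.natCast_ne_top _)]
  have h2 := hgt_nonneg (k := k) (w i)
  have h3 : (hgt k (w i)).toNat ≤ B * G.T i := by
    zify
    rw [Int.toNat_of_nonneg h2]
    exact h
  exact_mod_cast h3

end Pk

end Pool.Agent.E8helper90.RC
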