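import Pool.Agent.E8helper90.AF.Ult

/-!
The constants of an ultraproduct of function fields over the complex numbers form a field which is
isomorphic to the complex numbers, over every countable subring.
-/

set_option autoImplicit false

namespace Pool.Agent.E8helper90.RC

open FF Filter Cardinal Polynomial
open Pool.Agent.W603.CY (hgt_add_le hgt_mul_le ui mem_ui UL um um_surj um_eq um_zero_iff um_ne_iff
  um_add um_mul um_neg um_pow um_sum um_inv um_div um_alg um_aeval)
open Pool.Agent.E8helper90.AF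

/-- isomorphisms of algebraically closed fields over a countable ring -/
theorem exists_iso {R K L : Type} [CommRing R] [Field K] [Field L] [IsAlgClosed K]
    [IsAlgClosed L] (f : R →+* K) (g : R →+* L) (hf : Function.Injective f)
    (hg : Function.Injective g) (hR : #R ≤ ℵ₀) (hK : ℵ₀ < #K) (hKL : Nonempty (K ≃ L)) :
    ∃ σ : K ≃+* L, ∀ c : R, σ (f c) = g c := by
  letI iK : Algebra R K := f.toAlgebra
  letI iL : Algebra R L := g.toAlgebra
  haveI : FaithfulSMul R K := (faithfulSMul_iff_algebraMap_injective R K).2 hf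
  haveI : FaithfulSMul R L := (faithfulSMul_iff_algebraMap_injective R L).2 hg
  haveI : Nontrivial R := RingHom.domain_nontrivial f
  obtain ⟨s, hs⟩ := exists_isTranscendenceBasis R K
  obtain ⟨t, ht⟩ := exists_isTranscendenceBasis R L
  have hL : ℵ₀ < #L := by
    obtain ⟨e⟩ := hKL
    rwa [← Cardinal.mk_congr e]
  have hst : #s = #t := by
    have h1 := IsAlgClosed.cardinal_eq_cardinal_transcendence_basis_of_aleph0_lt' _ hs hR hK
    have h2 := IsAlgClosed.cardinal_eq_cardinal_transcendence_basis_of_aleph0_lt' _ ht hR hL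
    obtain ⟨e⟩ := hKL
    rw [← h1, ← h2, Cardinal.mk_congr e]
  obtain ⟨e⟩ := Cardinal.eq.1 hst
  letI := IsAlgClosed.isAlgClosure_of_transcendence_basis _ hs
  letI := IsAlgClosed.isAlgClosure_of_transcendence_basis _ ht
  let e' : Algebra.adjoin R (Set.range ((↑) : s → K)) ≃ₐ[R]
      Algebra.adjoin R (Set.range ((↑) : t → L)) :=
    hs.1.aevalEquiv.symm.trans ((MvPolynomial.renameEquiv R e).trans ht.1.aevalEquiv)
  refine ⟨IsAlgClosure.equivOfEquiv K L e'.toRingEquiv, fun c => ?_⟩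
  have h1 := IsAlgClosure.equivOfEquiv_algebraMap K L e'.toRingEquiv
    (algebraMap R (Algebra.adjoin R (Set.range ((↑) : s → K))) c)
  have h2 : e'.toRingEquiv (algebraMap R (Algebra.adjoin R (Set.range ((↑) : s → K))) c) =
      algebraMap R (Algebra.adjoin R (Set.range ((↑) : t → L))) c := e'.commutes c
  rw [h2] at h1
  exact h1

variable {k : Type} [Field k] {L : ℕ → Type} [∀ i, Field (L i)] [∀ i, Algebra k (L i)]

variable (k L)

/-- the field of the constants of the ultraproduct -/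
noncomputable def CU : IntermediateField k (UL L) where
  carrier := {z | ∃ c : ℕ → k, z = um fun i => algebraMap k (L i) (c i)}
  mul_mem' := by
    rintro _ _ ⟨c, rfl⟩ ⟨d, rfl⟩
    refine ⟨fun i => c i * d i, ?_⟩
    rw [← um_mul]
    congr 1
    funext i
    rw [map_mul]
  one_mem' := ⟨fun _ => 1, by
    have h1 : (fun i => algebraMap k (L i) 1) = (1 : ∀ i, L i) := funext fun i => map_one _
    rw [h1]
    exact (map_one (Ideal.Quotient.mk (ui L))).symm⟩
  add_mem' := by
    rintro _ _ ⟨c, rfl⟩ ⟨d, rfl⟩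
    refine ⟨fun i => c i + d i, ?_⟩
    rw [← um_add]
    congr 1
    funext i
    rw [map_add]
  zero_mem' := ⟨fun _ => 0, by
    have h1 : (fun i => algebraMap k (L i) 0) = (0 : ∀ i, L i) := funext fun i => map_zero _
    rw [h1]
    exact (map_zero (Ideal.Quotient.mk (ui L))).symm⟩
  algebraMap_mem' := fun c => ⟨fun _ => c, (um_alg c).symm⟩
  inv_mem' := by
    rintro _ ⟨c, rfl⟩
    refine ⟨fun i => (c i)⁻¹, ?_⟩
    rw [← um_inv]
    congr 1
    funext i
    rw [map_inv₀]

variable {k L}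

theorem mem_CU {z : UL L} : z ∈ CU k L ↔ ∃ c : ℕ → k, z = um fun i => algebraMap k (L i) (c i) :=
  Iff.rfl

/-- the field of the constants is algebraically closed -/
theorem CU_closed [IsAlgClosed k] : IsAlgClosed (CU k L) := by
  refine IsAlgClosed.of_exists_root _ fun p hp hirr => ?_
  obtain ⟨n, hn⟩ : ∃ n, n = p.natDegree := ⟨_, rfl⟩
  have hn0 : 0 < n := by
    rw [hn]
    exact hirr.natDegree_pos
  choose c hc using fun j => mem_CU.1 (p.coeff j).2
  have hroot : ∀ i, ∃ ρ : k, ρ ^ n + ∑ j : Fin n, c j i * ρ ^ (j : ℕ) = 0 := by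
    intro i
    have hdeg : (X ^ n + ∑ j : Fin n, C (c j i) * X ^ (j : ℕ) : k[X]).degree = n := by
      rw [degree_add_eq_left_of_degree_lt, degree_X_pow]
      rw [degree_X_pow]
      exact degree_sum_fin_lt fun j => c j i
    obtain ⟨ρ, hρ⟩ := IsAlgClosed.exists_root (X ^ n + ∑ j : Fin n, C (c j i) * X ^ (j : ℕ) : k[X])
      (by
        rw [hdeg]
        exact_mod_cast hn0.ne')
    refine ⟨ρ, ?_⟩
    rw [IsRoot.def, eval_add, eval_pow, eval_X, eval_finsetSum] at hρ
    simpa only [eval_mul, eval_C, eval_pow, eval_X] using hρ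
  choose ρ hρ using hroot
  refine ⟨⟨um fun i => algebraMap k (L i) (ρ i), ρ, rfl⟩, ?_⟩
  apply Subtype.ext
  rw [eval_eq_sum_range, ← hn, Finset.sum_range_succ]
  have h1 : p.coeff n = 1 := by
    rw [hn]
    exact hp
  rw [h1, one_mul, Finset.sum_range]
  have h2 : ((∑ j : Fin n, p.coeff j * (⟨um fun i => algebraMap k (L i) (ρ i), ρ, rfl⟩ : CU k L) ^
      (j : ℕ) + (⟨um fun i => algebraMap k (L i) (ρ i), ρ, rfl⟩ : CU k L) ^ n : CU k L) : UL L) =
      ∑ j : Fin n, (p.coeff j : UL L) * (um fun i => algebraMap k (L i) (ρ i)) ^ (j : ℕ) +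
        (um fun i => algebraMap k (L i) (ρ i)) ^ n := by
    push_cast
    rfl
  rw [h2]
  have h3 : ∀ j : Fin n, (p.coeff j : UL L) * (um fun i => algebraMap k (L i) (ρ i)) ^ (j : ℕ) =
      um fun i => algebraMap k (L i) (c j i * ρ i ^ (j : ℕ)) := by
    intro j
    rw [hc, ← um_pow, ← um_mul]
    congr 1
    funext i
    rw [map_mul, map_pow]
  rw [Finset.sum_congr rfl fun j _ => h3 j,
    ← um_sum Finset.univ (fun (j : Fin n) i => algebraMap k (L i) (c j i * ρ i ^ (j : ℕ))),
    ← um_pow, ← um_add]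
  change _ = (0 : UL L)
  rw [um_zero_iff]
  refine Eventually.of_forall fun i => ?_
  rw [← map_pow, ← map_sum, ← map_add, add_comm, hρ, map_zero]

theorem CU_card {L : ℕ → Type} [∀ i, Field (L i)] [∀ i, Algebra ℂ (L i)] :
    Nonempty (ℂ ≃ CU ℂ L) := by
  have h1 : #ℂ ≤ #(CU ℂ L) := Cardinal.mk_le_of_injective (algebraMap ℂ (CU ℂ L)).injective
  have h2 : #(CU ℂ L) ≤ #(ℕ → ℂ) := by
    refine Cardinal.mk_le_of_surjective
      (f := fun c : ℕ → ℂ => (⟨um fun i => algebraMap ℂ (L i) (c i), c, rfl⟩ : CU ℂ L)) ?_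
    rintro ⟨z, c, rfl⟩
    exact ⟨c, rfl⟩
  have h3 : #(ℕ → ℂ) = #ℂ := by
    rw [← Cardinal.power_def, Cardinal.mk_complex, Cardinal.mk_nat, Cardinal.continuum_power_aleph0]
  rw [h3] at h2
  exact Cardinal.eq.1 (le_antisymm h1 h2)

/-- derivations over another field of constants -/
theorem twist {k k' F : Type} [Field k] [Field k'] [Field F] [Algebra k F] (δ : Derivation k F F)
    [Algebra k' F] (h : ∀ c : k', δ (algebraMap k' F c) = 0) :
    ∃ D : Derivation k' F F, ∀ z, D z = δ z :=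
  ⟨Derivation.mk'
    { toFun := fun z => δ z
      map_add' := fun a b => map_add δ a b
      map_smul' := fun c z => by
        change δ (c • z) = c • δ z
        have h1 : c • z = algebraMap k' F c * z := Algebra.smul_def _ _
        have h2 : c • δ z = algebraMap k' F c * δ z := Algebra.smul_def _ _
        rw [h1, h2, δ.leibniz, h, smul_zero, add_zero, smul_eq_mul] }
    fun a b => δ.leibniz a b, fun _ => rfl⟩

/-- **The ultraproduct with a new embedding of the complex numbers.** -/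
theorem exists_package {A0 : Set ℂ} (hA0 : A0.Finite) {L : ℕ → Type} [∀ i, Field (L i)]
    [∀ i, Algebra ℂ (L i)] (E : ∀ i, Derivation ℂ (L i) (L i)) :
    ∃ (F : Type) (_ : Field F) (_ : Algebra ℂ F) (u : (∀ i, L i) →+* F) (D : Derivation ℂ F F),
      Function.Surjective u ∧
      (∀ z, u z = 0 ↔ ∀ᶠ i in (hyperfilter ℕ : Filter ℕ), z i = 0) ∧
      (∀ c ∈ A0, algebraMap ℂ F c = u fun i => algebraMap ℂ (L i) c) ∧
      (∀ z, D (u z) = u fun i => E i (z i)) ∧
      (∀ c : ℕ → ℂ, ∃ c' : ℂ, (u fun i => algebraMap ℂ (L i) (c i)) = algebraMap ℂ F c') ∧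
      ∀ c' : ℂ, ∃ c : ℕ → ℂ, algebraMap ℂ F c' = u fun i => algebraMap ℂ (L i) (c i) := by
  let R : Subfield ℂ := Subfield.closure A0
  have hR : #R ≤ ℵ₀ := by
    have h1 : #A0 ≤ ℵ₀ := hA0.countable.le_aleph0
    exact (Subfield.cardinalMk_closure_le_max A0).trans (max_le h1 le_rfl)
  haveI : IsAlgClosed (CU ℂ L) := CU_closed
  obtain ⟨σ, hσ⟩ := exists_iso (K := ℂ) (L := CU ℂ L) R.subtype
    ((algebraMap ℂ (CU ℂ L)).comp R.subtype) Subtype.val_injective
    ((algebraMap ℂ (CU ℂ L)).injective.comp Subtype.val_injective) hR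
    (by rw [Cardinal.mk_complex]; exact Cardinal.aleph0_lt_continuum) CU_card
  have hσ' : ∀ c ∈ A0, ((σ c : CU ℂ L) : UL L) = um fun i => algebraMap ℂ (L i) c := by
    intro c hc
    have h1 := hσ ⟨c, Subfield.subset_closure hc⟩
    change σ c = _ at h1
    rw [h1]
    exact (um_alg c).symm
  obtain ⟨τ, hτ⟩ : ∃ τ : ℂ →+* UL L, ∀ c, τ c = ((σ c : CU ℂ L) : UL L) :=
    ⟨(CU ℂ L).val.toRingHom.comp (σ : ℂ →+* CU ℂ L), fun _ => rfl⟩
  have hker : ∀ c, DU E (τ c) = 0 := by
    intro c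
    rw [hτ]
    obtain ⟨d, hd⟩ := mem_CU.1 (σ c).2
    rw [hd, DU_um, um_zero_iff]
    exact Eventually.of_forall fun i => (E i).map_algebraMap _
  obtain ⟨D, hD⟩ := @twist ℂ ℂ (UL L) _ _ _ _ (DU E) τ.toAlgebra hker
  refine ⟨UL L, inferInstance, τ.toAlgebra, Ideal.Quotient.mk (ui L), D,
    Ideal.Quotient.mk_surjective, fun z => um_zero_iff, ?_, ?_, ?_, ?_⟩
  · intro c hc
    exact (hτ c).trans (hσ' c hc)
  · intro z
    exact (hD _).trans (DU_um E z)
  · intro c
    refine ⟨σ.symm ⟨um fun i => algebraMap ℂ (L i) (c i), c, rfl⟩, ?_⟩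
    refine Eq.symm ((hτ _).trans ?_)
    rw [RingEquiv.apply_symm_apply]
    rfl
  · intro c'
    obtain ⟨d, hd⟩ := mem_CU.1 (σ c').2
    exact ⟨d, (hτ c').trans hd⟩

end Pool.Agent.E8helper90.RC
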