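import Pool.Agent.E8helper90.RC.Cod

/-!
Functions which are not small have a pole along a limit valuation.
-/

set_option autoImplicit false

namespace Pool.Agent.E8helper90.RC

open Filter
open scoped ENNReal
open Pool.Agent.TH600.LC (clo mem_clo inv_mem_clo subset_clo clo_le clo_mono adjoin_le_clo)

variable {k F I : Type} [Field k] [Field F] [Algebra k F]

/-- independent residues of the generators, for a quotient -/
theorem resB {r : ℕ} {G : RD k F r} {ε : Fin r → Bool} {w : F → ℤ} {m : ℕ} {u : Fin m → F}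
    (hR' : ∀ z : F, z ∈ Algebra.adjoin G.S (Set.range u) ↔ z ∈ G.R ε Set.univ)
    (hR : ∀ z ∈ G.R ε Set.univ, 0 ≤ w z) {B : Type} [CommRing B] [IsDomain B] [Algebra G.S B]
    (mk : Algebra.adjoin G.S (Set.range u) →ₐ[G.S] B) (hsur : Function.Surjective mk)
    (hmk : ∀ z, mk z = 0 ↔ (z : F) = 0 ∨ 0 < w (z : F))
    (hcod : ∀ (T : Finset (Fin m)) (_ : T.card + 2 ≤ r)
      (_ : ∀ j, IsAlgebraic (Algebra.adjoin G.S
        ((fun j => mk ⟨u j, Algebra.subset_adjoin ⟨j, rfl⟩⟩) '' (T : Set (Fin m))))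
        (mk ⟨u j, Algebra.subset_adjoin ⟨j, rfl⟩⟩))
      (Q : Finset (Algebra.adjoin G.S (Set.range u)))
      (_ : ∀ z, mk z = 0 → z ∈ Ideal.span (Q : Set (Algebra.adjoin G.S (Set.range u)))),
      ¬ ∀ q ∈ Q, (q : F) = 0 ∨ 0 < w (q : F)) :
    ∃ T : Fin (r - 1) → F, (∀ i, T i ∈ G.R ε Set.univ) ∧
      ∀ p : MvPolynomial (Fin (r - 1)) G.S, p ≠ 0 → MvPolynomial.aeval T p ≠ 0 ∧
        w (MvPolynomial.aeval T p) = 0 := by
  classical
  obtain ⟨v, hv⟩ : ∃ v : Fin m → B, v = fun j => mk ⟨u j, Algebra.subset_adjoin ⟨j, rfl⟩⟩ :=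
    ⟨_, rfl⟩
  have hgen : ∀ z, z ∈ Algebra.adjoin G.S (Set.range v) := by
    intro z
    obtain ⟨a, rfl⟩ := hsur z
    obtain ⟨a, ha⟩ := a
    induction ha using Algebra.adjoin_induction with
    | mem x hx =>
      obtain ⟨j, rfl⟩ := hx
      exact Algebra.subset_adjoin ⟨j, by rw [hv]⟩
    | algebraMap s =>
      have h1 : mk ⟨algebraMap G.S F s, Subalgebra.algebraMap_mem _ s⟩ = algebraMap G.S _ s :=
        mk.commutes s
      rw [h1]
      exact Subalgebra.algebraMap_mem _ s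
    | add x y hx hy ihx ihy =>
      have h1 : (⟨x + y, Subalgebra.add_mem _ hx hy⟩ : Algebra.adjoin G.S (Set.range u)) =
        ⟨x, hx⟩ + ⟨y, hy⟩ := rfl
      rw [h1, map_add]
      exact Subalgebra.add_mem _ ihx ihy
    | mul x y hx hy ihx ihy =>
      have h1 : (⟨x * y, Subalgebra.mul_mem _ hx hy⟩ : Algebra.adjoin G.S (Set.range u)) =
        ⟨x, hx⟩ * ⟨y, hy⟩ := rfl
      rw [h1, map_mul]
      exact Subalgebra.mul_mem _ ihx ihy
  have halg : Algebra.IsAlgebraic (Algebra.adjoin G.S (Set.range v)) B :=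
    ⟨fun z => isAlgebraic_algebraMap (⟨z, hgen z⟩ : Algebra.adjoin G.S (Set.range v))⟩
  obtain ⟨t, htv, ht⟩ := exists_isTranscendenceBasis_subset (R := G.S) (Set.range v)
  have hsurj : Set.SurjOn v Set.univ t := by
    intro z hz
    obtain ⟨j, hj⟩ := htv hz
    exact ⟨j, Set.mem_univ j, hj⟩
  obtain ⟨s', -, hbij⟩ := hsurj.exists_bijOn_subset
  obtain ⟨T, hT⟩ : ∃ T : Finset (Fin m), (T : Set (Fin m)) = s' :=
    ⟨(Set.toFinite s').toFinset, Set.Finite.coe_toFinset _⟩
  have hvT : v '' (T : Set (Fin m)) = t := by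
    rw [hT]
    exact hbij.image_eq
  by_cases hcard : T.card + 2 ≤ r
  · exfalso
    have hft : Algebra.FiniteType G.S (Algebra.adjoin G.S (Set.range u)) :=
      (Subalgebra.fg_iff_finiteType _).1 (Subalgebra.fg_def.2 ⟨Set.range u, Set.finite_range u, rfl⟩)
    have hnoe : IsNoetherianRing (Algebra.adjoin G.S (Set.range u)) :=
      Algebra.FiniteType.isNoetherianRing G.S _
    obtain ⟨Q, hQ⟩ : (RingHom.ker mk.toRingHom).FG := IsNoetherian.noetherian _
    refine hcod T hcard (fun j => ?_) Q (fun z hz => ?_) fun z hz => ?_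
    · have h1 := ht.isAlgebraic.isAlgebraic (mk ⟨u j, Algebra.subset_adjoin ⟨j, rfl⟩⟩)
      have h2 : Set.range (Subtype.val : t → B) =
          (fun j => mk ⟨u j, Algebra.subset_adjoin ⟨j, rfl⟩⟩) '' (T : Set (Fin m)) := by
        rw [Subtype.range_coe, ← hvT, hv]
      rw [h2] at h1
      exact h1
    · have h1 : z ∈ RingHom.ker mk.toRingHom := hz
      rw [← hQ] at h1
      exact h1
    · have h1 : z ∈ RingHom.ker mk.toRingHom := by
        rw [← hQ]
        exact Submodule.subset_span hz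
      exact (hmk z).1 h1
  · have hle : Fintype.card (Fin (r - 1)) ≤ Fintype.card T := by
      rw [Fintype.card_fin, Fintype.card_coe]
      omega
    obtain ⟨f⟩ := Function.Embedding.nonempty_of_card_le hle
    have hmemt : ∀ i, v (f i) ∈ t := fun i => by
      rw [← hvT]
      exact ⟨_, (f i).2, rfl⟩
    have hind : AlgebraicIndependent G.S fun i => v (f i : Fin m) := by
      have h1 := ht.1.comp (fun i : Fin (r - 1) => (⟨v (f i), hmemt i⟩ : t)) (by
        intro i j hij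
        have h2 : v (f i : Fin m) = v (f j : Fin m) := congrArg Subtype.val hij
        have h3 := hbij.injOn (by rw [← hT]; exact (f i).2) (by rw [← hT]; exact (f j).2) h2
        exact f.injective (Subtype.ext h3))
      exact h1
    refine ⟨fun i => u (f i), fun i => (hR' _).1 (Algebra.subset_adjoin ⟨_, rfl⟩), ?_⟩
    intro p hp
    obtain ⟨u', hu'⟩ : ∃ u' : Fin (r - 1) → Algebra.adjoin G.S (Set.range u),
      u' = fun i => ⟨u (f i), Algebra.subset_adjoin ⟨_, rfl⟩⟩ := ⟨_, rfl⟩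
    have h1 : mk (MvPolynomial.aeval u' p) ≠ 0 := by
      rw [MvPolynomial.comp_aeval_apply (f := u') mk p]
      have h2 : (fun i => mk (u' i)) = fun i => v (f i : Fin m) := by
        rw [hu', hv]
      rw [h2]
      intro h0
      exact hp ((algebraicIndependent_iff.1 hind) p h0)
    have h2 : ((MvPolynomial.aeval u' p : Algebra.adjoin G.S (Set.range u)) : F) =
        MvPolynomial.aeval (fun i => u (f i : Fin m)) p := by
      have h3 := MvPolynomial.comp_aeval_apply (f := u')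
        (Algebra.adjoin G.S (Set.range u)).val p
      rw [hu'] at h3 ⊢
      exact h3
    rw [Ne, hmk, h2, not_or, not_lt] at h1
    have h3 := hR (MvPolynomial.aeval (fun i => u (f i : Fin m)) p) (by
      rw [← hR', ← h2]
      exact (MvPolynomial.aeval u' p : Algebra.adjoin G.S (Set.range u)).2)
    exact ⟨h1.1, le_antisymm h1.2 h3⟩

/-- the quotient by a prime ideal -/
theorem exists_quot {S A : Type} [CommRing S] [CommRing A] [Algebra S A] (q : Ideal A)
    (hq : q.IsPrime) : ∃ (B : Type) (_ : CommRing B) (_ : IsDomain B) (_ : Algebra S B)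
      (mk : A →ₐ[S] B), Function.Surjective mk ∧ ∀ z, mk z = 0 ↔ z ∈ q :=
  ⟨A ⧸ q, inferInstance, inferInstance, inferInstance, Ideal.Quotient.mkₐ S q,
    Ideal.Quotient.mk_surjective, fun _ => Ideal.Quotient.eq_zero_iff_mem⟩

/-- the centre of a valuation -/
theorem exists_centre {S F : Type} [CommRing S] [Field F] [Algebra S F] (A : Subalgebra S F)
    {w : F → ℤ} (hw1 : w 1 = 0)
    (hmul : ∀ a ∈ A, ∀ b ∈ A, a ≠ 0 → b ≠ 0 → w (a * b) = w a + w b)
    (hadd : ∀ a ∈ A, ∀ b ∈ A, a ≠ 0 → b ≠ 0 → a + b ≠ 0 → min (w a) (w b) ≤ w (a + b))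
    (hR : ∀ z ∈ A, 0 ≤ w z) :
    ∃ q : Ideal A, q.IsPrime ∧ ∀ z, z ∈ q ↔ (z : F) = 0 ∨ 0 < w (z : F) := by
  obtain ⟨q, hq⟩ : ∃ q : Ideal A, ∀ z, z ∈ q ↔ (z : F) = 0 ∨ 0 < w (z : F) := by
    refine ⟨{ carrier := {z | (z : F) = 0 ∨ 0 < w (z : F)}, zero_mem' := Or.inl rfl,
              add_mem' := ?_, smul_mem' := ?_ }, fun _ => Iff.rfl⟩
    · intro a b ha hb
      change (a : F) + (b : F) = 0 ∨ 0 < w ((a : F) + (b : F))
      by_cases ha0 : (a : F) = 0
      · rw [ha0, zero_add]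
        exact hb
      by_cases hb0 : (b : F) = 0
      · rw [hb0, add_zero]
        exact ha
      by_cases hab : (a : F) + (b : F) = 0
      · exact Or.inl hab
      · right
        have h1 := hadd _ a.2 _ b.2 ha0 hb0 hab
        have h2 := ha.resolve_left ha0
        have h3 := hb.resolve_left hb0
        exact lt_of_lt_of_le (lt_min h2 h3) h1
    · intro c z hz
      change (c : F) * (z : F) = 0 ∨ 0 < w ((c : F) * (z : F))
      by_cases hc : (c : F) = 0
      · left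
        rw [hc, zero_mul]
      by_cases hz0 : (z : F) = 0
      · left
        rw [hz0, mul_zero]
      · right
        rw [hmul _ c.2 _ z.2 hc hz0]
        have h1 := hR _ c.2
        have h2 := hz.resolve_left hz0
        omega
  refine ⟨q, ⟨?_, ?_⟩, hq⟩
  · intro h
    have h1 : (1 : A) ∈ q := by
      rw [h]
      exact Submodule.mem_top
    rcases (hq _).1 h1 with h2 | h2
    · exact one_ne_zero h2
    · have h3 : ((1 : A) : F) = 1 := rfl
      rw [h3, hw1] at h2
      exact lt_irrefl _ h2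
  · intro a b hab
    rw [hq, hq]
    by_cases ha0 : (a : F) = 0
    · exact Or.inl (Or.inl ha0)
    by_cases hb0 : (b : F) = 0
    · exact Or.inr (Or.inl hb0)
    have h3 : ((a * b : A) : F) = (a : F) * (b : F) := rfl
    have h1 := ((hq _).1 hab).resolve_left (by
      rw [h3]
      exact mul_ne_zero ha0 hb0)
    rw [h3, hmul _ a.2 _ b.2 ha0 hb0] at h1
    by_cases h2 : 0 < w (a : F)
    · exact Or.inl (Or.inr h2)
    · right
      right
      omega

/-- independent residues of the generators -/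
theorem resT {r : ℕ} {G : RD k F r} {ε : Fin r → Bool} {w : F → ℤ} (hw1 : w 1 = 0)
    (hmul : ∀ a ∈ G.R ε Set.univ, ∀ b ∈ G.R ε Set.univ, a ≠ 0 → b ≠ 0 → w (a * b) = w a + w b)
    (hadd : ∀ a ∈ G.R ε Set.univ, ∀ b ∈ G.R ε Set.univ, a ≠ 0 → b ≠ 0 → a + b ≠ 0 →
      min (w a) (w b) ≤ w (a + b))
    (hR : ∀ z ∈ G.R ε Set.univ, 0 ≤ w z)
    (hcod : ∀ {m : ℕ} {u : Fin m → F} (_ : Set.range u = G.gen ε Set.univ)
      {B : Type} [CommRing B] [IsDomain B] [Algebra G.S B]
      (mk : Algebra.adjoin G.S (Set.range u) →ₐ[G.S] B) (T : Finset (Fin m))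
      (_ : T.card + 2 ≤ r)
      (_ : ∀ j, IsAlgebraic (Algebra.adjoin G.S
        ((fun j => mk ⟨u j, Algebra.subset_adjoin ⟨j, rfl⟩⟩) '' (T : Set (Fin m))))
        (mk ⟨u j, Algebra.subset_adjoin ⟨j, rfl⟩⟩))
      (Q : Finset (Algebra.adjoin G.S (Set.range u)))
      (_ : ∀ z, mk z = 0 → z ∈ Ideal.span (Q : Set (Algebra.adjoin G.S (Set.range u)))),
      ¬ ∀ q ∈ Q, (q : F) = 0 ∨ 0 < w (q : F)) :
    ∃ T : Fin (r - 1) → F, (∀ i, T i ∈ G.R ε Set.univ) ∧
      ∀ p : MvPolynomial (Fin (r - 1)) G.S, p ≠ 0 → MvPolynomial.aeval T p ≠ 0 ∧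
        w (MvPolynomial.aeval T p) = 0 := by
  classical
  obtain ⟨m, u, hu⟩ : ∃ (m : ℕ) (u : Fin m → F), Set.range u = G.gen ε Set.univ := by
    refine ⟨Fintype.card (Fin r × Bool), fun a => G.ch ε ((Fintype.equivFin _).symm a).1
      ((Fintype.equivFin (Fin r × Bool)).symm a).2, ?_⟩
    ext z
    constructor
    · rintro ⟨a, rfl⟩
      exact ⟨_, Set.mem_univ _, _, rfl⟩
    · rintro ⟨j, -, i, rfl⟩
      refine ⟨Fintype.equivFin _ (j, i), ?_⟩
      simp
  have hR' : ∀ z : F, z ∈ Algebra.adjoin G.S (Set.range u) ↔ z ∈ G.R ε Set.univ := fun z => by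
    rw [hu]
    exact Iff.rfl
  obtain ⟨q, hprime, hq⟩ := exists_centre (Algebra.adjoin G.S (Set.range u)) hw1
    (fun a ha b hb => hmul a ((hR' a).1 ha) b ((hR' b).1 hb))
    (fun a ha b hb => hadd a ((hR' a).1 ha) b ((hR' b).1 hb)) fun z hz => hR z ((hR' z).1 hz)
  obtain ⟨B, iB, iD, iA, mk, hsur, hker⟩ := exists_quot (S := G.S) q hprime
  exact resB hR' hR mk hsur (fun z => (hker z).trans (hq z))
    (fun T hT1 hT2 Q hQ => hcod hu mk T hT1 hT2 Q hQ)

/-- **Limit valuations.** -/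
theorem Sys.exists_LV {X : PS k F I} {r : ℕ} {G : RD k F r} (h : Sys X G) [CharZero k] {g : F}
    (hg : g ∈ clo G.S (Set.range G.x)) (hgS : g ∉ G.S) : ∃ ε w, LV G ε w ∧ w g < 0 := by
  classical
  have hA : ¬ X.Sm (ind {p | X.o g p < 0}) := fun h1 => hgS (h.crit hg h1)
  have hne : (NF X ⊓ 𝓟 {p | X.o g p < 0}).NeBot := by
    rw [neBot_iff]
    intro h1
    rw [inf_principal_eq_bot, mem_NF, compl_compl] at h1
    exact hA h1
  obtain ⟨V, hV⟩ : ∃ V : Ultrafilter I, (V : Filter I) ≤ NF X ⊓ 𝓟 {p | X.o g p < 0} :=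
    ⟨Ultrafilter.of _, Ultrafilter.of_le _⟩
  have hVN : (V : Filter I) ≤ NF X := hV.trans inf_le_left
  have hVH : ∀ {P : I → Prop}, (∀ᶠ p in X.H, P p) → ∀ᶠ p in (V : Filter I), P p :=
    fun h => (hVN.trans (NF_le X)) h
  have hVA : ∀ᶠ p in (V : Filter I), X.o g p < 0 := (hV.trans inf_le_right) (mem_principal_self _)
  have hsm : ∀ {τ : I → ℕ}, X.Sm τ → ∀ᶠ p in (V : Filter I), τ p = 0 := fun hτ =>
    hVN (NF_small hτ)
  obtain ⟨ε, hε⟩ : ∃ ε, ∀ᶠ p in (V : Filter I), Ch X G ε p := by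
    by_contra hcon
    have h1 : ∀ ε, ∀ᶠ p in (V : Filter I), ¬ Ch X G ε p := fun ε =>
      Ultrafilter.eventually_not.2 fun h => hcon ⟨ε, h⟩
    obtain ⟨p, hp, ε, hε⟩ := ((eventually_all.2 h1).and (hVH h.cov)).exists
    exact hp ε hε
  have hlim : ∀ z ∈ clo G.S (Set.range G.x), ∃ n : ℤ, ∀ᶠ p in (V : Filter I), X.o z p = n := by
    intro z hz
    by_cases hz0 : z = 0
    · exact ⟨0, Eventually.of_forall fun p => by rw [hz0, X.o_zero]⟩
    obtain ⟨n, τ, h1, h2⟩ := h.pl_L0 ε hz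
    obtain ⟨n', τ', h3, h4⟩ := h.pl_L0 ε (inv_mem_clo hz)
    have h5 : ∀ᶠ p in (V : Filter I), X.o z p ∈ Set.Icc (-(n : ℤ)) n' := by
      filter_upwards [hVH h2, hVH h4, hsm h1, hsm h3, hε, hVH (X.o_inv hz0)] with
        p e1 e2 e3 e4 e5 e6
      have e7 := e1 e5
      have e8 := e2 e5
      rw [e3] at e7
      rw [e4] at e8
      unfold PS.pl at e7 e8
      rw [e6] at e8
      constructor
      · omega
      · omega
    obtain ⟨x, -, hx⟩ := (V.map (X.o z)).eq_pure_of_finite_mem (Set.finite_Icc (-(n : ℤ)) n') h5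
    refine ⟨x, ?_⟩
    have h6 : ({x} : Set ℤ) ∈ V.map (X.o z) := by
      rw [hx]
      exact Filter.mem_pure.2 rfl
    exact h6
  obtain ⟨w, hw⟩ : ∃ w : F → ℤ, ∀ z ∈ clo G.S (Set.range G.x),
      ∀ᶠ p in (V : Filter I), X.o z p = w z := by
    refine ⟨fun z => if hz : ∃ n : ℤ, ∀ᶠ p in (V : Filter I), X.o z p = n then hz.choose else 0,
      fun z hz => ?_⟩
    have h1 := hlim z hz
    have h2 : (if hz : ∃ n : ℤ, ∀ᶠ p in (V : Filter I), X.o z p = n then hz.choose else 0) =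
      h1.choose := dif_pos h1
    filter_upwards [h1.choose_spec] with p hp
    rw [hp]
    exact h2.symm
  have hRL : ∀ z ∈ G.R ε Set.univ, z ∈ clo G.S (Set.range G.x) := fun z hz => R_le_L0 hz
  have hSL : ∀ z ∈ G.S, z ∈ clo G.S (Set.range G.x) := fun z hz =>
    Subalgebra.algebraMap_mem (clo G.S (Set.range G.x)) (⟨z, hz⟩ : G.S)
  have w0 : w 0 = 0 := by
    obtain ⟨p, hp⟩ := (hw 0 (Subalgebra.zero_mem _)).exists
    rw [← hp, X.o_zero]
  have w1 : w 1 = 0 := by
    obtain ⟨p, hp, hp'⟩ := ((hw 1 (Subalgebra.one_mem _)).and (hVH X.o_one)).exists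
    rw [← hp, hp']
  have wmul : ∀ a ∈ clo G.S (Set.range G.x), ∀ b ∈ clo G.S (Set.range G.x), a ≠ 0 → b ≠ 0 →
      w (a * b) = w a + w b := by
    intro a ha b hb ha0 hb0
    obtain ⟨p, e1, e2, e3, e4⟩ := ((hw _ (Subalgebra.mul_mem _ ha hb)).and ((hw a ha).and
      ((hw b hb).and (hVH (X.o_mul ha0 hb0))))).exists
    rw [← e1, e4, e2, e3]
  have wadd : ∀ a ∈ clo G.S (Set.range G.x), ∀ b ∈ clo G.S (Set.range G.x), a ≠ 0 → b ≠ 0 →
      a + b ≠ 0 → min (w a) (w b) ≤ w (a + b) := by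
    intro a ha b hb ha0 hb0 hab
    obtain ⟨p, e1, e2, e3, e4⟩ := ((hw _ (Subalgebra.add_mem _ ha hb)).and ((hw a ha).and
      ((hw b hb).and (hVH (X.o_add ha0 hb0 hab))))).exists
    rw [← e1, ← e2, ← e3]
    exact e4
  have wS : ∀ s ∈ G.S, w s = 0 := by
    intro s hs
    by_cases hs0 : s = 0
    · rw [hs0, w0]
    obtain ⟨p, e1, e2, e3, e4⟩ := ((hw s (hSL s hs)).and ((hsm ((h.S s).1 hs)).and
      ((hsm ((h.S s⁻¹).1 (G.S.inv_mem hs))).and (hVH (X.o_inv hs0))))).exists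
    unfold PS.pl at e2 e3
    rw [e4] at e3
    rw [← e1]
    omega
  have wR : ∀ z ∈ G.R ε Set.univ, 0 ≤ w z := by
    intro z hz
    obtain ⟨τ, h1, h2⟩ := h.pl_R ε hz
    obtain ⟨p, e1, e2, e3, e4⟩ := ((hw z (hRL z hz)).and ((hsm h1).and
      ((hVH h2).and hε))).exists
    have e5 := e3 e4
    rw [e2] at e5
    unfold PS.pl at e5
    rw [← e1]
    omega
  have wg : w g < 0 := by
    obtain ⟨p, e1, e2⟩ := ((hw g hg).and hVA).exists
    rw [← e1]
    exact e2
  refine ⟨ε, w, ⟨w0, wmul, wadd, wS, wR, ?_, ?_⟩, wg⟩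
  · -- an element of order one
    obtain ⟨n, a, ha, han, hrel⟩ := h.rel ε hg
    have hpos : 0 < w (a n) := by
      choose τ hτ1 hτ2 using fun i => h.pl_R ε (ha i)
      obtain ⟨p, e1, e2, e3, e4, e5, e6, e7⟩ := ((hw _ (hRL _ (ha n))).and ((hw g hg).and
        ((hVH (Sys.root_bound (X := X) han hrel)).and
        (((eventually_all_finset (Finset.range n)).2 fun i _ => hsm (hτ1 i)).and
        (((eventually_all_finset (Finset.range n)).2 fun i _ => hVH (hτ2 i)).and
        (hε.and hVA)))))).exists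
      have e8 := e3 (fun _ => 0) (fun i hi => by
        have h1 := e5 i (Finset.mem_range.2 hi) e6
        rw [e4 i (Finset.mem_range.2 hi)] at h1
        exact h1) e7
      simp only [Nat.cast_zero, Finset.sum_const_zero, add_zero] at e8
      rw [← e1]
      omega
    have key : ∀ l : ℕ, ∀ z ∈ G.R ε Set.univ, w z = l + 1 → ∃ t ∈ G.R ε Set.univ, w t = 1 := by
      intro l
      induction l with
      | zero => intro z hz h1; exact ⟨z, hz, by simpa using h1⟩
      | succ l ih =>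
        intro z hz h1
        have hD : G.D z ∈ G.R ε Set.univ := RD.R_stD ε z hz
        refine ih _ hD ?_
        obtain ⟨p, e1, e2, e3, e4, e5⟩ := ((hw z (hRL z hz)).and ((hw _ (hRL _ hD)).and
          ((hVH (X.o_der z)).and ((hsm X.m_v).and (hVH X.v_le))))).exists
        have e6 := e3 (by rw [e1, h1]; positivity)
        rw [h.D] at e6
        rw [← e2, e6.2, e1, h1]
        push_cast
        omega
    exact key (w (a n) - 1).toNat (a n) (ha n) (by omega)
  · refine resT w1 (fun a ha b hb => wmul a (hRL a ha) b (hRL b hb))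
      (fun a ha b hb => wadd a (hRL a ha) b (hRL b hb)) wR ?_
    intro m u hu B _ _ _ mk T hT1 hT2 Q hQ hall
    have h1 := h.cod2 ε hu mk T hT1 hT2 Q hQ
    have h2 := hsm h1
    have h3 : ∀ᶠ p in (V : Filter I), ∀ q ∈ Q, (q : F) = 0 ∨ 0 < X.o (q : F) p := by
      refine (eventually_all_finset Q).2 fun q hq => ?_
      rcases hall q hq with h4 | h4
      · exact Eventually.of_forall fun _ => Or.inl h4
      · have h6 : ∀ z : F, z ∈ Algebra.adjoin G.S (Set.range u) → z ∈ G.R ε Set.univ :=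
          fun z hz => by
            rw [hu] at hz
            exact hz
        have hqR : (q : F) ∈ G.R ε Set.univ := h6 _ q.2
        filter_upwards [hw _ (hRL _ hqR)] with p hp
        right
        rw [hp]
        exact h4
    obtain ⟨p, e1, e2, e3⟩ := (h2.and (h3.and hε)).exists
    rw [ind_of_mem (A := {p | Ch X G ε p ∧ ∀ q ∈ Q, (q : F) = 0 ∨ 0 < X.o (q : F) p})
      ⟨e3, e2⟩] at e1
    exact one_ne_zero e1

end Pool.Agent.E8helper90.RC
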