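import Pool.Agent.E8helper90.RC.Pts

/-!
Multiplicities of zeros in charts; functions with few poles are small.
-/

set_option autoImplicit false

namespace Pool.Agent.E8helper90.RC

open Filter
open scoped ENNReal
open Pool.Agent.TH600.LC (clo mem_clo inv_mem_clo subset_clo clo_le clo_mono adjoin_le_clo)

variable {k F I : Type} [Field k] [Field F] [Algebra k F]

/-- the coordinates of a chart are regular at the point -/
def Ch (X : PS k F I) {r : ℕ} (G : RD k F r) (ε : Fin r → Bool) (p : I) : Prop :=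
  ∀ j i, X.pl (G.ch ε j i) p = 0

/-- points of elliptic curves on a system of points -/
structure Sys (X : PS k F I) {r : ℕ} (G : RD k F r) : Prop where
  D : X.D = G.D
  S : ∀ z, z ∈ G.S ↔ X.Sm (X.pl z)
  cov : ∀ᶠ p in X.H, ∃ ε, Ch X G ε p
  fin : ∀ ε j i, X.m (X.pl (G.ch ε j i)) ≠ ∞

namespace Sys

variable {X : PS k F I} {r : ℕ} {G : RD k F r} (h : Sys X G)

include h

theorem pl_R (ε : Fin r → Bool) {z : F} (hz : z ∈ G.R ε Set.univ) : ∃ τ : I → ℕ, X.Sm τ ∧
    ∀ᶠ p in X.H, Ch X G ε p → X.pl z p ≤ τ p := by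
  have h1 := RD.mem_R.1 hz
  clear hz
  induction h1 using Algebra.adjoin_induction with
  | mem z hz =>
    obtain ⟨j, -, i, rfl⟩ := hz
    exact ⟨fun _ => 0, PS.Sm.zero, Eventually.of_forall fun p hp => (hp j i).le⟩
  | algebraMap s => exact ⟨X.pl (s : F), (h.S _).1 s.2, Eventually.of_forall fun p _ => le_rfl⟩
  | add u v _ _ hu hv =>
    obtain ⟨τ, h1, h2⟩ := hu
    obtain ⟨τ', h3, h4⟩ := hv
    refine ⟨fun p => τ p + τ' p, h1.add h3, ?_⟩
    filter_upwards [h2, h4, PS.pl_add u v] with p e1 e2 e3 hp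
    have := e1 hp
    have := e2 hp
    omega
  | mul u v _ _ hu hv =>
    obtain ⟨τ, h1, h2⟩ := hu
    obtain ⟨τ', h3, h4⟩ := hv
    refine ⟨fun p => τ p + τ' p, h1.add h3, ?_⟩
    filter_upwards [h2, h4, PS.pl_mul u v] with p e1 e2 e3 hp
    have := e1 hp
    have := e2 hp
    omega

/-- **Multiplicities of zeros.** -/
theorem zr_R [CharZero k] (ε : Fin r → Bool) {ψ : F} (hψ : ψ ∈ G.R ε Set.univ) (h0 : ψ ≠ 0) :
    ∃ (n : ℕ) (τ : I → ℕ), X.Sm τ ∧ ∀ᶠ p in X.H, Ch X G ε p → X.zr ψ p ≤ n + τ p := by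
  classical
  have hDS := RD.R_DS (G := G) ε Finset.univ
  rw [Finset.coe_univ] at hDS
  obtain ⟨n, c, hc, hsum⟩ := cert hDS hψ h0
  choose τ hτ1 hτ2 using fun l => h.pl_R ε (hc l)
  refine ⟨n, fun p => n * (-X.v p).toNat + ∑ l, τ l p, (PS.Sm.mul X.m_v n).add
    (PS.Sm.sum _ fun l _ => hτ1 l), ?_⟩
  filter_upwards [eventually_all.2 hτ2, eventually_all.2 fun l : Fin n => PS.ge_iter ψ (l : ℕ),
    eventually_all.2 fun l : Fin n => PS.ge_mul (c l) (X.D^[l] ψ),
    PS.ge_sum Finset.univ fun l : Fin n => c l * X.D^[l] ψ, X.o_one, X.v_le]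
    with p e1 e2 e3 e4 e5 e6 hp
  by_cases hN : X.o ψ p ≤ 0
  · have : X.zr ψ p = 0 := by
      unfold PS.zr
      omega
    rw [this]
    exact Nat.zero_le _
  push Not at hN
  have hge : X.ge ψ (X.o ψ p) p := Or.inr le_rfl
  have h1 := e4 (X.o ψ p - n * (1 - X.v p) - ∑ l, (τ l p : ℤ)) (fun l _ => by
    have h2 := e3 l _ _ (PS.ge_pl (e1 l hp)) (e2 l _ hge)
    refine h2.mono ?_
    have h3 : (l : ℤ) * (1 - X.v p) ≤ n * (1 - X.v p) :=
      mul_le_mul_of_nonneg_right (by exact_mod_cast l.2.le) (by omega)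
    have h4 : (τ l p : ℤ) ≤ ∑ l, (τ l p : ℤ) :=
      Finset.single_le_sum (f := fun l => (τ l p : ℤ)) (fun _ _ => by positivity)
        (Finset.mem_univ l)
    linarith)
  rw [h.D] at h1
  rw [hsum] at h1
  have h2 := h1.resolve_left one_ne_zero
  rw [e5] at h2
  unfold PS.zr
  zify
  rw [Int.toNat_of_nonneg hN.le, Int.toNat_of_nonneg (by omega)]
  linarith [h2]

/-- relations with coefficients in the chart ring -/
theorem rel [CharZero k] (ε : Fin r → Bool) {g : F} (hg : g ∈ clo G.S (Set.range G.x)) :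
    ∃ (n : ℕ) (a : ℕ → F), (∀ i, a i ∈ G.R ε Set.univ) ∧ a n ≠ 0 ∧
      ∑ i ∈ Finset.range (n + 1), a i * g ^ i = 0 := by
  classical
  obtain ⟨p, hp, hp0⟩ := mem_clo.1 hg
  have hM : ∀ c : Algebra.adjoin G.S (Set.range G.x), (c : F) ∈ G.M Set.univ := by
    intro c
    have h1 : ∀ z ∈ Algebra.adjoin G.S (Set.range G.x), z ∈ G.M Set.univ := by
      intro z hz
      induction hz using Algebra.adjoin_induction with
      | mem z hz => obtain ⟨j, rfl⟩ := hz; exact RD.x_mem_M (Set.mem_univ j)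
      | algebraMap s => exact RD.S_le_M s.2
      | add u v _ _ hu hv => exact (G.M Set.univ).add_mem hu hv
      | mul u v _ _ hu hv => exact (G.M Set.univ).mul_mem hu hv
    exact h1 _ c.2
  choose s hs hs0 hsc using fun i => RD.frac ε (hM (p.coeff i))
  refine ⟨p.natDegree, fun i => if i ∈ Finset.range (p.natDegree + 1) then
    (∏ j ∈ Finset.range (p.natDegree + 1), s j) * (p.coeff i : F) else 0, fun i => ?_, ?_, ?_⟩
  · dsimp only
    split_ifs with hi
    · rw [← Finset.mul_prod_erase _ _ hi, mul_comm (s i), mul_assoc]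
      exact (G.R ε Set.univ).mul_mem (Subalgebra.prod_mem _ fun j _ => hs j) (hsc i)
    · exact (G.R ε Set.univ).zero_mem
  · dsimp only
    rw [if_pos (Finset.mem_range.2 (Nat.lt_succ_self _))]
    refine mul_ne_zero (Finset.prod_ne_zero_iff.2 fun j _ => hs0 j) fun h0 => ?_
    apply hp
    have h1 : p.coeff p.natDegree = 0 := Subtype.ext h0
    exact Polynomial.leadingCoeff_eq_zero.1 h1
  · have h1 : ∑ i ∈ Finset.range (p.natDegree + 1), (p.coeff i : F) * g ^ i = 0 := by
      rw [Polynomial.aeval_eq_sum_range] at hp0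
      rw [← hp0]
      exact Finset.sum_congr rfl fun i _ => by rw [Algebra.smul_def]; rfl
    calc _ = ∑ i ∈ Finset.range (p.natDegree + 1),
        (∏ j ∈ Finset.range (p.natDegree + 1), s j) * ((p.coeff i : F) * g ^ i) := by
          refine Finset.sum_congr rfl fun i hi => ?_
          dsimp only
          rw [if_pos hi, mul_assoc]
      _ = 0 := by rw [← Finset.mul_sum, h1, mul_zero]

omit h in
/-- estimate of the order of a root -/
theorem root_bound {g : F} {n : ℕ} {a : ℕ → F} (ha : a n ≠ 0)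
    (hrel : ∑ i ∈ Finset.range (n + 1), a i * g ^ i = 0) :
    ∀ᶠ p in X.H, ∀ B : ℕ → ℕ, (∀ i, i < n → X.pl (a i) p ≤ B i) → X.o g p < 0 →
      -X.o g p ≤ X.o (a n) p + ∑ i ∈ Finset.range n, (B i : ℤ) := by
  by_cases hg : g = 0
  · refine Eventually.of_forall fun p B _ h0 => ?_
    rw [hg, X.o_zero] at h0
    exact absurd h0 (lt_irrefl _)
  have hn : n ≠ 0 := by
    rintro rfl
    simp at hrel
    exact ha hrel
  have hrel' : a n * g ^ n = -∑ i ∈ Finset.range n, a i * g ^ i := by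
    rw [Finset.sum_range_succ] at hrel
    linear_combination hrel
  filter_upwards [(eventually_all_finset (Finset.range n)).2 fun i _ => PS.ge_pow g i,
    (eventually_all_finset (Finset.range n)).2 fun i _ => PS.ge_mul (a i) (g ^ i),
    PS.ge_sum (Finset.range n) fun i => a i * g ^ i,
    X.o_neg (∑ i ∈ Finset.range n, a i * g ^ i), X.o_mul ha (pow_ne_zero n hg),
    X.o_pow hg n] with p e1 e2 e3 e4 e5 e6 B hB hneg
  have h1 := e3 (-(∑ i ∈ Finset.range n, (B i : ℤ)) + (n - 1) * X.o g p) (fun i hi => by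
    have h2 := e2 i hi _ _ (PS.ge_pl (hB i (Finset.mem_range.1 hi)))
      (e1 i hi _ (Or.inr le_rfl : X.ge g (X.o g p) p))
    refine h2.mono ?_
    have h3 : (B i : ℤ) ≤ ∑ i ∈ Finset.range n, (B i : ℤ) :=
      Finset.single_le_sum (f := fun i => (B i : ℤ)) (fun _ _ => by positivity) hi
    have h4 : (i : ℤ) + 1 ≤ n := by
      have := Finset.mem_range.1 hi
      omega
    nlinarith)
  have h2 : X.ge (a n * g ^ n) (-(∑ i ∈ Finset.range n, (B i : ℤ)) + (n - 1) * X.o g p) p := by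
    rw [hrel']
    rcases h1 with h1 | h1
    · left
      rw [h1, neg_zero]
    · right
      rw [e4]
      exact h1
  have h3 := h2.resolve_left (mul_ne_zero ha (pow_ne_zero n hg))
  rw [e5, e6] at h3
  linarith

/-- **Multiplicities of poles.** -/
theorem pl_L0 [CharZero k] (ε : Fin r → Bool) {g : F} (hg : g ∈ clo G.S (Set.range G.x)) :
    ∃ (n : ℕ) (τ : I → ℕ), X.Sm τ ∧ ∀ᶠ p in X.H, Ch X G ε p → X.pl g p ≤ n + τ p := by
  classical
  obtain ⟨n, a, ha, han, hrel⟩ := h.rel ε hg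
  obtain ⟨n', τ', h1, h2⟩ := h.zr_R ε (ha n) han
  choose τ hτ1 hτ2 using fun i => h.pl_R ε (ha i)
  refine ⟨n', fun p => τ' p + ∑ i ∈ Finset.range n, τ i p,
    h1.add (PS.Sm.sum _ fun i _ => hτ1 i), ?_⟩
  filter_upwards [h2, (eventually_all_finset (Finset.range n)).2 fun i _ => hτ2 i,
    root_bound (X := X) han hrel] with p e1 e2 e3 hp
  by_cases hneg : X.o g p < 0
  · have h4 := e3 (fun i => τ i p) (fun i hi => e2 i (Finset.mem_range.2 hi) hp) hneg
    have h5 := e1 hp
    unfold PS.zr at h5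
    unfold PS.pl
    zify
    rw [Int.toNat_of_nonneg (by omega)]
    have h6 : X.o (a n) p ≤ n' + τ' p := by omega
    linarith
  · have : X.pl g p = 0 := by
      unfold PS.pl
      omega
    rw [this]
    exact Nat.zero_le _

end Sys

/-- indicator functions -/
noncomputable def ind (A : Set I) (p : I) : ℕ := by
  classical
  exact if p ∈ A then 1 else 0

theorem ind_of_mem {A : Set I} {p : I} (hp : p ∈ A) : ind A p = 1 := by
  classical
  unfold ind
  exact if_pos hp

theorem ind_of_not {A : Set I} {p : I} (hp : p ∉ A) : ind A p = 0 := by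
  classical
  unfold ind
  exact if_neg hp

theorem Sys.crit {X : PS k F I} {r : ℕ} {G : RD k F r} (h : Sys X G) [CharZero k] {g : F}
    (hg : g ∈ clo G.S (Set.range G.x)) (hA : X.Sm (ind {p | X.o g p < 0})) : g ∈ G.S := by
  classical
  rw [h.S]
  choose n τ hτ1 hτ2 using fun ε => h.pl_L0 ε hg
  refine PS.Sm.mono (γ := fun p => ∑ ε, (n ε * ind {p | X.o g p < 0} p + τ ε p))
    (PS.Sm.sum _ fun ε _ => (PS.Sm.mul hA _).add (hτ1 ε)) ?_
  filter_upwards [h.cov, eventually_all.2 hτ2] with p ⟨ε, hε⟩ h2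
  by_cases hp : X.o g p < 0
  · have h3 : ind {p | X.o g p < 0} p = 1 := ind_of_mem hp
    refine (h2 ε hε).trans ?_
    have h4 := Finset.single_le_sum (f := fun ε => n ε * ind {p | X.o g p < 0} p + τ ε p)
      (fun _ _ => Nat.zero_le _) (Finset.mem_univ ε)
    refine le_trans ?_ h4
    rw [h3, mul_one]
  · have : X.pl g p = 0 := by
      unfold PS.pl
      omega
    rw [this]
    exact Nat.zero_le _

/-- the filter of the complements of the small sets -/
noncomputable def NF (X : PS k F I) : Filter I where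
  sets := {A | X.Sm (ind Aᶜ)}
  univ_sets := by
    change X.Sm (ind Set.univᶜ)
    refine PS.Sm.mono PS.Sm.zero (Eventually.of_forall fun p => ?_)
    rw [Set.compl_univ, ind_of_not (Set.notMem_empty p)]
  sets_of_superset := by
    intro A B hA hAB
    refine PS.Sm.mono (γ := ind Aᶜ) hA (Eventually.of_forall fun p => ?_)
    by_cases hp : p ∈ Bᶜ
    · have hpA : p ∈ Aᶜ := fun h => hp (hAB h)
      rw [ind_of_mem hp, ind_of_mem hpA]
    · rw [ind_of_not hp]
      exact Nat.zero_le _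
  inter_sets := by
    intro A B hA hB
    have hA' : X.Sm (ind Aᶜ) := hA
    have hB' : X.Sm (ind Bᶜ) := hB
    refine PS.Sm.mono (hA'.add hB') (Eventually.of_forall fun p => ?_)
    by_cases hp : p ∈ (A ∩ B)ᶜ
    · rw [ind_of_mem hp]
      by_cases hpA : p ∈ Aᶜ
      · rw [ind_of_mem hpA]
        exact Nat.le_add_right _ _
      · have hpB : p ∈ Bᶜ := fun h => hp ⟨not_not.1 hpA, h⟩
        rw [ind_of_mem hpB]
        exact Nat.le_add_left _ _
    · rw [ind_of_not hp]
      exact Nat.zero_le _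

theorem mem_NF {X : PS k F I} {A : Set I} : A ∈ NF X ↔ X.Sm (ind Aᶜ) := Iff.rfl

theorem NF_le (X : PS k F I) : NF X ≤ X.H := by
  intro A hA
  rw [mem_NF]
  refine PS.Sm.mono PS.Sm.zero ?_
  filter_upwards [hA] with p hp
  have hp' : p ∉ Aᶜ := fun h => h hp
  rw [ind_of_not hp']

theorem NF_small {X : PS k F I} {τ : I → ℕ} (hτ : X.Sm τ) : ∀ᶠ p in NF X, τ p = 0 := by
  change {p | τ p = 0} ∈ NF X
  rw [mem_NF]
  refine hτ.mono (Eventually.of_forall fun p => ?_)
  by_cases hp : τ p = 0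
  · have hp' : p ∉ {p | τ p = 0}ᶜ := fun h => h hp
    rw [ind_of_not hp']
    exact Nat.zero_le _
  · rw [ind_of_mem (A := {p | τ p = 0}ᶜ) hp]
    omega

end Pool.Agent.E8helper90.RC
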