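import Pool.Agent.E8helper90.RC.Thp
import Pool.Agent.E8helper90.RC.Dim

/-!
The exceptional set consists of finitely many subvarieties which are not of general type.
-/

set_option autoImplicit false

namespace Pool.Agent.E8helper90.RC

open FF Filter MvPolynomial Pool.Agent.E8helper90.AF
open Pool.Agent.W602.GT (GeneralType coords SubVar IsForm val IsPluri RegAt Divisorial)
open Pool.Agent.W603.LV (hgt hgt_nonneg canDeg)
open Pool.Agent.W603.PV (pht)

/-- A smooth projective curve with function field `K`, a map `f` to `P^N` and elements `β` of `K`, of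
degree at most `d`, such that `f` goes to `X = {F = 0}` but not into `{J = 0}`, such that
`H(f, β) = 0`, and such that for all `c` the point `(P_c/R_c, Q_c/R_c)(f, β)` lies on the elliptic curve
`Y² = X³ + a_c X + b_c`, unless `R_c(f, β) = 0`. -/
structure Adm {N M n : ℕ} {ι κ η : Type} (F : ι → MvPolynomial (Fin (N + 1)) ℂ)
    (J : κ → MvPolynomial (Fin (N + 1)) ℂ) (H : η → MvPolynomial (Fin (N + 1) ⊕ Fin M) ℂ)
    (P Q R : Fin n → MvPolynomial (Fin (N + 1) ⊕ Fin M) ℂ) (a b : Fin n → ℂ) {K : Type} [Field K]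
    [Algebra ℂ K] [IsFF ℂ K] (d : ℕ) (f : Fin (N + 1) → K) (β : Fin M → K) : Prop where
  ne : ∃ l, f l ≠ 0
  mem : ∀ e, val f (F e) = 0
  out : ∃ e, val f (J e) ≠ 0
  rel : ∀ e, at1 f β (H e) = 0
  deg : ∀ s, hgt ℂ (β s) ≤ d
  ell : ∀ c, at1 f β (R c) ≠ 0 → at1 f β (Q c) ^ 2 * at1 f β (R c) =
    at1 f β (P c) ^ 3 + algebraMap ℂ K (a c) * at1 f β (P c) * at1 f β (R c) ^ 2 +
      algebraMap ℂ K (b c) * at1 f β (R c) ^ 3

/-- There are a number `A`, finitely many subvarieties `Y` of `X = {F = 0}` of dimension at least `w`,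
not contained in `{J = 0}` and not of general type, and a closed set `{G = 0}` such that every
subvariety of `X` of dimension at least `w` contained in `{G = 0}` is contained in `{J = 0}` or in one
of the subvarieties `Y`, and such that the degree of `f` is at most `A (max(2g - 2, 0) + d)` for all
curves as above for which `f` does not go into `{G = 0}` or into one of the subvarieties `Y`. -/
def Concl {N M n : ℕ} {ι κ η : Type} (F : ι → MvPolynomial (Fin (N + 1)) ℂ)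
    (J : κ → MvPolynomial (Fin (N + 1)) ℂ) (w : ℕ)
    (H : η → MvPolynomial (Fin (N + 1) ⊕ Fin M) ℂ)
    (P Q R : Fin n → MvPolynomial (Fin (N + 1) ⊕ Fin M) ℂ) (a b : Fin n → ℂ) : Prop :=
  ∃ (A : ℕ) (S : Finset (Pt N)) (G : Finset (MvPolynomial (Fin (N + 1)) ℂ)),
    (∀ p ∈ G, IsForm p) ∧
    (∀ Y ∈ S, SubVar F Y.K Y.v Y.y ∧ w ≤ Y.v ∧ (∃ e, val Y.y (J e) ≠ 0) ∧
      ¬ GeneralType ℂ Y.K Y.v) ∧
    (∀ (K : Type) [Field K] [Algebra ℂ K] (v : ℕ) (y : Fin (N + 1) → K), SubVar F K v y → w ≤ v →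
      (∃ e, val y (J e) ≠ 0) → (∀ Y ∈ S, ¬ In Y.y y) → ∃ p ∈ G, val y p ≠ 0) ∧
    ∀ (K : Type) [Field K] [Algebra ℂ K] [IsFF ℂ K] (d : ℕ) (f : Fin (N + 1) → K) (β : Fin M → K),
      Adm F J H P Q R a b d f β → (∀ Y ∈ S, ¬ In Y.y f) → (∃ p ∈ G, val f p ≠ 0) →
      pht ℂ f ≤ A * (max (canDeg ℂ K) 0 + d)

theorem mulF_form {N : ℕ} {A B : Finset (MvPolynomial (Fin (N + 1)) ℂ)}
    (hA : ∀ p ∈ A, IsForm p) (hB : ∀ p ∈ B, IsForm p) : ∀ p ∈ mulF A B, IsForm p := by
  classical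
  intro p hp
  unfold mulF at hp
  obtain ⟨⟨a, b⟩, hab, rfl⟩ := Finset.mem_image.1 hp
  obtain ⟨ha, hb⟩ := Finset.mem_product.1 hab
  obtain ⟨d, hd⟩ := hA a ha
  obtain ⟨e, he⟩ := hB b hb
  exact ⟨d + e, hd.mul he⟩

/-- equations of a union -/
theorem exists_union {N : ℕ} {κ : Type} [Finite κ] {I : κ → MvPolynomial (Fin (N + 1)) ℂ}
    (hI : ∀ e, IsForm (I e)) (S : Finset (Pt N)) :
    ∃ T : Finset (MvPolynomial (Fin (N + 1)) ℂ), (∀ p ∈ T, IsForm p) ∧
      ∀ (K : Type) [Field K] [Algebra ℂ K] (y : Fin (N + 1) → K), (∃ p ∈ T, val y p ≠ 0) ↔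
        (∃ e, val y (I e) ≠ 0) ∧ ∀ Y ∈ S, ¬ In Y.y y := by
  classical
  choose B hB1 hB2 using fun Y : Pt N => exists_eqs Y.y
  have hB : ∀ (Y : Pt N) (K : Type) [Field K] [Algebra ℂ K] (y : Fin (N + 1) → K),
      (∃ p ∈ B Y, val y p ≠ 0) ↔ ¬ In Y.y y := by
    intro Y K _ _ y
    constructor
    · rintro ⟨p, hp, h1⟩ h2
      exact h1 (h2 p (hB1 Y p hp).1 (hB1 Y p hp).2)
    · intro h1
      by_contra hcon
      push Not at hcon
      exact h1 (hB2 Y K y hcon)
  induction S using Finset.induction_on with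
  | empty =>
    refine ⟨(Set.finite_range I).toFinset, fun p hp => ?_, fun K _ _ y => ?_⟩
    · obtain ⟨e, rfl⟩ := (Set.Finite.mem_toFinset _).1 hp
      exact hI e
    · constructor
      · rintro ⟨p, hp, h1⟩
        obtain ⟨e, rfl⟩ := (Set.Finite.mem_toFinset _).1 hp
        exact ⟨⟨e, h1⟩, fun Y hY => absurd hY (Finset.notMem_empty Y)⟩
      · rintro ⟨⟨e, h1⟩, -⟩
        exact ⟨I e, (Set.Finite.mem_toFinset _).2 ⟨e, rfl⟩, h1⟩
  | insert Y S _ ih =>
    obtain ⟨T, h1, h2⟩ := ih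
    refine ⟨mulF (B Y) T, mulF_form (fun p hp => (hB1 Y p hp).1) h1, fun K _ _ y => ?_⟩
    rw [mulF_ne, hB, h2]
    constructor
    · rintro ⟨h3, h4, h5⟩
      refine ⟨h4, fun Y' hY' => ?_⟩
      rcases Finset.mem_insert.1 hY' with rfl | h6
      · exact h3
      · exact h5 Y' h6
    · rintro ⟨h4, h5⟩
      exact ⟨h5 Y (Finset.mem_insert_self Y S), h4,
        fun Y' hY' => h5 Y' (Finset.mem_insert_of_mem hY')⟩

/-- **The Noetherian induction.** -/
theorem noe {N M n w : ℕ} {η : Type} [Finite η] (H : η → MvPolynomial (Fin (N + 1) ⊕ Fin M) ℂ)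
    (P Q R : Fin n → MvPolynomial (Fin (N + 1) ⊕ Fin M) ℂ) (a b : Fin n → ℂ)
    (hH : ∀ e, ∃ m, FormIn m (H e)) (hP : ∀ c, ∃ m, FormIn m (P c) ∧ FormIn m (R c))
    (hab : ∀ c, 4 * a c ^ 3 + 27 * b c ^ 2 ≠ 0) (v : ℕ) :
    ∀ {ι κ : Type} [Finite ι] [Finite κ] (F : ι → MvPolynomial (Fin (N + 1)) ℂ)
      (I : κ → MvPolynomial (Fin (N + 1)) ℂ) (_ : ∀ e, IsForm (F e)) (_ : ∀ e, IsForm (I e))
      (_ : ∀ (K : Type) [Field K] [Algebra ℂ K] (v' : ℕ) (y : Fin (N + 1) → K),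
        SubVar F K v' y → (∃ e, val y (I e) ≠ 0) → v' < v) (_ : GenFin F I w H P R),
      Concl F I w H P Q R a b := by
  classical
  induction v with
  | zero =>
    intro ι κ _ _ F I hF hI hdim hgf
    refine ⟨0, ∅, ∅, fun p hp => absurd hp (Finset.notMem_empty p),
      fun Y hY => absurd hY (Finset.notMem_empty Y), fun K _ _ v y h1 _ h2 _ =>
      absurd (hdim K v y h1 h2) (Nat.not_lt_zero v), ?_⟩
    rintro K _ _ _ d f β - - ⟨p, hp, -⟩
    exact absurd hp (Finset.notMem_empty p)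
  | succ v ih =>
    intro ι κ _ _ F I hF hI hdim hgf
    by_cases hwv : w ≤ v
    swap
    · refine ⟨0, ∅, ∅, fun p hp => absurd hp (Finset.notMem_empty p),
        fun Y hY => absurd hY (Finset.notMem_empty Y), fun K _ _ v' y h1 h3 h2 _ => ?_, ?_⟩
      · have := hdim K v' y h1 h2
        omega
      · rintro K _ _ _ d f β - - ⟨p, hp, -⟩
        exact absurd hp (Finset.notMem_empty p)
    obtain ⟨S, hS1, hS2⟩ := fin_comp (v := v) hF hI
      (fun K _ _ v' y h1 h2 => Nat.lt_succ_iff.1 (hdim K v' y h1 h2))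
      (fun Y : Pt N => SubVar F Y.K Y.v Y.y ∧ Y.v = v ∧ (∃ e, val Y.y (I e) ≠ 0) ∧
        ¬ GeneralType ℂ Y.K Y.v) (fun Y hY => ⟨by
          have h1 := hY.1
          rw [hY.2.1] at h1
          exact h1, hY.2.2.1⟩)
    obtain ⟨T, hT1, hT2⟩ := exists_union hI S
    obtain ⟨I', hI'⟩ : ∃ I' : {p // p ∈ T} → MvPolynomial (Fin (N + 1)) ℂ, ∀ e, I' e = e.1 :=
      ⟨fun e => e.1, fun _ => rfl⟩
    have hI'f : ∀ e, IsForm (I' e) := fun e => by
      rw [hI']
      exact hT1 _ e.2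
    have hout : ∀ (K : Type) [Field K] [Algebra ℂ K] (y : Fin (N + 1) → K),
        (∃ e, val y (I' e) ≠ 0) ↔ (∃ e, val y (I e) ≠ 0) ∧ ∀ Y ∈ S, ¬ In Y.y y := by
      intro K _ _ y
      rw [← hT2 K y]
      constructor
      · rintro ⟨e, he⟩
        rw [hI'] at he
        exact ⟨e.1, e.2, he⟩
      · rintro ⟨p, hp, h⟩
        refine ⟨⟨p, hp⟩, ?_⟩
        rw [hI']
        exact h
    have hgf1 : GenFin F I' v H P R := fun Ω _ _ ξ β v' k1 k2 k3 k4 k5 k6 =>
      hgf Ω ξ β v' k1 k2 ((hout Ω ξ).1 k3).1 (hwv.trans k4) k5 k6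
    obtain ⟨A1, G1, hE1, hb1⟩ := main3 F I' H P Q R a b hF hI'f hH hP hab hgf1
      (fun K _ _ v' y h1 h2 h3 => by
        by_contra hng
        obtain ⟨h4, h5⟩ := (hout K y).1 h3
        have h6 := hdim K v' y h1 h4
        have h7 : v' = v := by omega
        obtain ⟨Y', hY', h8⟩ := hS2 (Pt.mk (K := K) y v') ⟨h1, h7, h4, hng⟩
        exact h5 Y' hY' h8)
    obtain ⟨F', hF'1, hF'2⟩ : ∃ F' : ι ⊕ {p // p ∈ G1} → MvPolynomial (Fin (N + 1)) ℂ,
        (∀ e, F' (Sum.inl e) = F e) ∧ ∀ e, F' (Sum.inr e) = e.1 :=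
      ⟨Sum.elim F fun e => e.1, fun _ => rfl, fun _ => rfl⟩
    have hF'f : ∀ e, IsForm (F' e) := by
      rintro (e | e)
      · rw [hF'1]
        exact hF e
      · rw [hF'2]
        exact hE1.1 _ e.2
    have hsub : ∀ (K : Type) [Field K] [Algebra ℂ K] (v' : ℕ) (y : Fin (N + 1) → K),
        SubVar F' K v' y ↔ SubVar F K v' y ∧ ∀ p ∈ G1, val y p = 0 := by
      intro K _ _ v' y
      constructor
      · intro h
        refine ⟨⟨h.ne, fun e => ?_, h.gen, h.dim⟩, fun p hp => ?_⟩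
        · have h1 := h.mem (Sum.inl e)
          rwa [hF'1] at h1
        · have h1 := h.mem (Sum.inr ⟨p, hp⟩)
          rwa [hF'2] at h1
      · rintro ⟨h, h2⟩
        refine ⟨h.ne, ?_, h.gen, h.dim⟩
        rintro (e | e)
        · rw [hF'1]
          exact h.mem e
        · rw [hF'2]
          exact h2 _ e.2
    obtain ⟨A2, S2, G2, c1, c2, c3, c4⟩ := ih F' I' hF'f hI'f (fun K _ _ v' y h1 h2 => by
        obtain ⟨h3, h4⟩ := (hsub K v' y).1 h1
        have h5 := hdim K v' y h3 ((hout K y).1 h2).1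
        by_contra hcon
        obtain ⟨p, hp, h6⟩ := hE1.2 K v' y h3 (not_lt.1 hcon) h2
        exact h6 (h4 p hp))
      (fun Ω _ _ ξ β v' k1 k2 k3 k4 k5 k6 =>
        hgf Ω ξ β v' k1 (fun e => by
          have h1 := k2 (Sum.inl e)
          rwa [hF'1] at h1) ((hout Ω ξ).1 k3).1 k4 k5 k6)
    refine ⟨A1 + A2, S ∪ S2, G1 ∪ G2, ?_, ?_, ?_, ?_⟩
    · intro p hp
      rcases Finset.mem_union.1 hp with h | h
      · exact hE1.1 p h
      · exact c1 p h
    · intro Y hY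
      rcases Finset.mem_union.1 hY with h | h
      · obtain ⟨h1, h2, h3, h4⟩ := hS1 Y h
        exact ⟨h1, by rw [h2]; exact hwv, h3, h4⟩
      · obtain ⟨h1, h2, h3, h4⟩ := c2 Y h
        exact ⟨((hsub _ _ _).1 h1).1, h2, ((hout _ _).1 h3).1, h4⟩
    · intro K _ _ v' y h1 h2 h3 h4
      by_cases h5 : ∃ p ∈ G1, val y p ≠ 0
      · obtain ⟨p, hp, h6⟩ := h5
        exact ⟨p, Finset.mem_union_left _ hp, h6⟩
      · push Not at h5
        obtain ⟨p, hp, h6⟩ := c3 K v' y ((hsub K v' y).2 ⟨h1, h5⟩) h2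
          ((hout K y).2 ⟨h3, fun Y hY => h4 Y (Finset.mem_union_left _ hY)⟩)
          fun Y hY => h4 Y (Finset.mem_union_right _ hY)
        exact ⟨p, Finset.mem_union_right _ hp, h6⟩
    · intro K _ _ _ d f β hf h1 h2
      have hχ : 0 ≤ max (canDeg ℂ K) 0 + (d : ℤ) := by
        have := le_max_right (canDeg ℂ K) 0
        positivity
      have hout' := (hout K f).2 ⟨hf.out, fun Y hY => h1 Y (Finset.mem_union_left _ hY)⟩
      by_cases h5 : ∃ p ∈ G1, val f p ≠ 0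
      · have h6 := hb1 K d f β hf.ne hf.mem hout' hf.rel hf.deg hf.ell h5
        have h7 : (0 : ℤ) ≤ A2 * (max (canDeg ℂ K) 0 + d) := mul_nonneg (by positivity) hχ
        push_cast
        linarith
      · push Not at h5
        obtain ⟨p, hp, h6⟩ := h2
        have hp2 : p ∈ G2 := by
          rcases Finset.mem_union.1 hp with h | h
          · exact absurd (h5 p h) h6
          · exact h
        have h7 := c4 K d f β
          { ne := hf.ne
            mem := by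
              rintro (e | e)
              · rw [hF'1]
                exact hf.mem e
              · rw [hF'2]
                exact h5 _ e.2
            out := hout'
            rel := hf.rel
            deg := hf.deg
            ell := hf.ell } (fun Y hY => h1 Y (Finset.mem_union_right _ hY)) ⟨p, hp2, h6⟩
        have h8 : (0 : ℤ) ≤ A1 * (max (canDeg ℂ K) 0 + d) := mul_nonneg (by positivity) hχ
        push_cast
        linarith

/-- **The exceptional set consists of finitely many subvarieties not of general type.** -/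
theorem noe_main {N M n w : ℕ} {ι κ η : Type} [Finite ι] [Finite κ] [Finite η]
    (F : ι → MvPolynomial (Fin (N + 1)) ℂ) (I : κ → MvPolynomial (Fin (N + 1)) ℂ)
    (H : η → MvPolynomial (Fin (N + 1) ⊕ Fin M) ℂ)
    (P Q R : Fin n → MvPolynomial (Fin (N + 1) ⊕ Fin M) ℂ) (a b : Fin n → ℂ)
    (hF : ∀ e, IsForm (F e)) (hI : ∀ e, IsForm (I e)) (hH : ∀ e, ∃ m, FormIn m (H e))
    (hP : ∀ c, ∃ m, FormIn m (P c) ∧ FormIn m (R c))
    (hab : ∀ c, 4 * a c ^ 3 + 27 * b c ^ 2 ≠ 0) (hgf : GenFin F I w H P R) :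
    Concl F I w H P Q R a b :=
  noe H P Q R a b hH hP hab (N + 2) F I hF hI
    (fun _ _ _ _ _ h1 _ => Nat.lt_succ_of_le (dim_le h1)) hgf

end Pool.Agent.E8helper90.RC
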