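import Pool.Agent.E8helper90.RC.Hil
import Pool.Agent.E8helper90.RC.Dif

/-!
Elements of small degree which vanish to high order along a set of codimension at least two.
-/

set_option autoImplicit false

namespace Pool.Agent.E8helper90.RC

variable {k F : Type} [Field k] [Field F] [Algebra k F]

/-- the span of the monomials of bounded degree -/
def vs (S : IntermediateField k F) {m : ℕ} (u : Fin m → F) (e : ℕ) : Submodule S F :=
  Submodule.span S ((fun α => mon u α) '' {α : Fin m → ℕ | ∑ j, α j ≤ e})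

variable {S : IntermediateField k F} {m : ℕ} {u : Fin m → F}

theorem mon_mem_vs {α : Fin m → ℕ} {e : ℕ} (h : ∑ j, α j ≤ e) : mon u α ∈ vs S u e :=
  Submodule.subset_span ⟨α, h, rfl⟩

theorem vs_mono {e f : ℕ} (h : e ≤ f) : vs S u e ≤ vs S u f := by
  refine Submodule.span_mono ?_
  rintro z ⟨α, hα, rfl⟩
  exact ⟨α, le_trans hα h, rfl⟩

theorem vs_mul {e f : ℕ} {y z : F} (hy : y ∈ vs S u e) (hz : z ∈ vs S u f) :
    y * z ∈ vs S u (e + f) := by
  unfold vs at hy hz
  induction hy using Submodule.span_induction with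
  | mem y hy =>
    obtain ⟨α, hα, rfl⟩ := hy
    induction hz using Submodule.span_induction with
    | mem z hz =>
      obtain ⟨β, hβ, rfl⟩ := hz
      change mon u α * mon u β ∈ _
      rw [← mon_add]
      refine mon_mem_vs ?_
      simp only [Pi.add_apply, Finset.sum_add_distrib]
      exact Nat.add_le_add hα hβ
    | zero => rw [mul_zero]; exact Submodule.zero_mem _
    | add y z _ _ hy hz => rw [mul_add]; exact Submodule.add_mem _ hy hz
    | smul c z _ hz => rw [mul_smul_comm]; exact Submodule.smul_mem _ c hz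
  | zero => rw [zero_mul]; exact Submodule.zero_mem _
  | add y z _ _ hy hz => rw [add_mul]; exact Submodule.add_mem _ hy hz
  | smul c z _ hz => rw [smul_mul_assoc]; exact Submodule.smul_mem _ c hz

theorem smul_mem_vs {e : ℕ} {s z : F} (hs : s ∈ S) (hz : z ∈ vs S u e) : s * z ∈ vs S u e := by
  have h := (vs S u e).smul_mem (⟨s, hs⟩ : S) hz
  rwa [Algebra.smul_def] at h

theorem one_mem_vs (e : ℕ) : (1 : F) ∈ vs S u e := by
  rw [← mon_zero u]
  exact mon_mem_vs (by simp)

theorem u_mem_vs (j : Fin m) {e : ℕ} (he : 1 ≤ e) : u j ∈ vs S u e := by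
  rw [← pow_one (u j), ← mon_single]
  refine mon_mem_vs ?_
  rw [Finset.sum_pi_single']
  simpa using he

theorem adjoin_vs {z : F} (hz : z ∈ Algebra.adjoin S (Set.range u)) : ∃ e, z ∈ vs S u e := by
  induction hz using Algebra.adjoin_induction with
  | mem z hz => obtain ⟨j, rfl⟩ := hz; exact ⟨1, u_mem_vs j le_rfl⟩
  | algebraMap s =>
    refine ⟨0, ?_⟩
    have := smul_mem_vs (u := u) s.2 (one_mem_vs (S := S) (u := u) 0)
    rwa [mul_one] at this
  | add y z _ _ hy hz =>
    obtain ⟨e, he⟩ := hy
    obtain ⟨f, hf⟩ := hz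
    exact ⟨e + f, Submodule.add_mem _ (vs_mono (by omega) he) (vs_mono (by omega) hf)⟩
  | mul y z _ _ hy hz =>
    obtain ⟨e, he⟩ := hy
    obtain ⟨f, hf⟩ := hz
    exact ⟨e + f, vs_mul he hf⟩

theorem vs_adjoin {e : ℕ} {z : F} (hz : z ∈ vs S u e) : z ∈ Algebra.adjoin S (Set.range u) := by
  unfold vs at hz
  induction hz using Submodule.span_induction with
  | mem z hz =>
    obtain ⟨α, -, rfl⟩ := hz
    exact Subalgebra.prod_mem _ fun j _ => Subalgebra.pow_mem _
      (Algebra.subset_adjoin (Set.mem_range_self j)) _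
  | zero => exact Subalgebra.zero_mem _
  | add y z _ _ hy hz => exact Subalgebra.add_mem _ hy hz
  | smul c z _ hz => exact Subalgebra.smul_mem _ hz c

/-- the derivation raises the degree by a constant -/
theorem D_vs {D : Derivation k F F} (hS : ∀ z ∈ S, D z ∈ S) {b : ℕ}
    (hb : ∀ j, D (u j) ∈ vs S u b) {e : ℕ} {z : F} (hz : z ∈ vs S u e) :
    D z ∈ vs S u (e + b) := by
  have key : ∀ n : ℕ, ∀ α : Fin m → ℕ, ∑ j, α j = n → D (mon u α) ∈ vs S u (n + b) := by
    intro n
    induction n with
    | zero =>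
      intro α hα
      have h1 : α = 0 := by
        funext j
        have h2 : α j ≤ ∑ j, α j := Finset.single_le_sum (f := α) (fun _ _ => Nat.zero_le _)
          (Finset.mem_univ j)
        rw [hα] at h2
        exact Nat.le_zero.1 h2
      rw [h1, mon_zero, D.map_one_eq_zero]
      exact Submodule.zero_mem _
    | succ n ih =>
      intro α hα
      obtain ⟨j, hj⟩ : ∃ j, 0 < α j := by
        by_contra hcon
        push Not at hcon
        have h1 : ∑ j, α j = 0 := Finset.sum_eq_zero fun j _ => Nat.le_zero.1 (hcon j)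
        omega
      obtain ⟨β, hβ⟩ : ∃ β : Fin m → ℕ, β = Function.update α j (α j - 1) := ⟨_, rfl⟩
      have h3 : α = Pi.single j 1 + β := by
        funext i
        rw [Pi.add_apply, hβ]
        by_cases hi : i = j
        · subst hi
          rw [Pi.single_eq_same, Function.update_self]
          omega
        · rw [Pi.single_eq_of_ne hi, Function.update_of_ne hi, zero_add]
      have h4 : ∑ j, β j = n := by
        have h5 : ∑ i, α i = ∑ i, (Pi.single j 1 : Fin m → ℕ) i + ∑ i, β i := by
          rw [← Finset.sum_add_distrib]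
          exact Finset.sum_congr rfl fun i _ => by rw [← Pi.add_apply, ← h3]
        rw [Finset.sum_pi_single'] at h5
        simp only [Finset.mem_univ, if_true] at h5
        omega
      rw [h3, mon_add, mon_single, pow_one, D.leibniz, smul_eq_mul, smul_eq_mul]
      have h5 := vs_mul (u_mem_vs (S := S) (u := u) j le_rfl) (ih β h4)
      have h6 := vs_mul (mon_mem_vs (S := S) (u := u) h4.le) (hb j)
      exact Submodule.add_mem _ (vs_mono (by omega) h5) (vs_mono (by omega) h6)
  unfold vs at hz
  induction hz using Submodule.span_induction with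
  | mem z hz =>
    obtain ⟨α, hα, rfl⟩ := hz
    have hα' : ∑ j, α j ≤ e := hα
    exact vs_mono (by omega) (key _ α rfl)
  | zero => rw [map_zero]; exact Submodule.zero_mem _
  | add y z _ _ hy hz => rw [map_add]; exact Submodule.add_mem _ hy hz
  | smul c z hz' hz =>
    rw [Algebra.smul_def, D.leibniz, smul_eq_mul, smul_eq_mul]
    refine Submodule.add_mem _ (smul_mem_vs c.2 hz) ?_
    rw [mul_comm]
    have h7 : z ∈ vs S u e := hz'
    exact vs_mono (Nat.le_add_right e b) (smul_mem_vs (hS _ c.2) h7)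

theorem Dit_vs {D : Derivation k F F} (hS : ∀ z ∈ S, D z ∈ S) {b : ℕ}
    (hb : ∀ j, D (u j) ∈ vs S u b) {e : ℕ} {z : F} (hz : z ∈ vs S u e) (i : ℕ) :
    D^[i] z ∈ vs S u (e + i * b) := by
  induction i with
  | zero => rw [zero_mul, add_zero]; exact hz
  | succ i ih =>
    rw [Function.iterate_succ_apply']
    have h1 := D_vs hS hb ih
    have h2 : e + i * b + b = e + (i + 1) * b := by ring
    rwa [h2] at h1

/-- the family of linear conditions -/
theorem Dit_smul {D : Derivation k F F} (hS : ∀ z ∈ S, D z ∈ S) {Q : Submodule S F} (i : ℕ) :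
    ∀ (s : F) (φ : F), s ∈ S → (∀ j, j < i → D^[j] φ ∈ Q) →
      (∀ j, j < i → D^[j] (s * φ) ∈ Q) ∧ D^[i] (s * φ) - s * D^[i] φ ∈ Q := by
  have hsm : ∀ s ∈ S, ∀ z ∈ Q, s * z ∈ Q := fun s hs z hz => by
    have h := Q.smul_mem (⟨s, hs⟩ : S) hz
    rwa [Algebra.smul_def] at h
  induction i with
  | zero =>
    intro s φ _ _
    refine ⟨fun j hj => absurd hj (Nat.not_lt_zero j), ?_⟩
    rw [Function.iterate_zero, id, id, sub_self]
    exact Q.zero_mem
  | succ i ih =>
    intro s φ hs hφ
    have hφ' : ∀ j, j < i → D^[j] φ ∈ Q := fun j hj => hφ j (by omega)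
    obtain ⟨h1, h2⟩ := ih s φ hs hφ'
    have h3 : D^[i] (s * φ) ∈ Q := by
      have h4 := hsm s hs _ (hφ i (Nat.lt_succ_self i))
      have := Q.add_mem h2 h4
      rwa [sub_add_cancel] at this
    refine ⟨fun j hj => ?_, ?_⟩
    · rcases Nat.lt_succ_iff_lt_or_eq.1 hj with hj | rfl
      · exact h1 j hj
      · exact h3
    · have e1 : D^[i + 1] (s * φ) = D^[i] (s * D φ) + D^[i] (D s * φ) := by
        rw [Function.iterate_succ_apply, D.leibniz, smul_eq_mul, smul_eq_mul, mul_comm φ (D s)]
        exact iterate_map_add D i _ _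
      have h5 : ∀ j, j < i → D^[j] (D φ) ∈ Q := fun j hj => by
        rw [← Function.iterate_succ_apply]
        exact hφ (j + 1) (by omega)
      obtain ⟨-, h6⟩ := ih s (D φ) hs h5
      obtain ⟨h7, h8⟩ := ih (D s) φ (hS s hs) hφ'
      have h9 : D^[i] (D s * φ) ∈ Q := by
        have h4 := hsm (D s) (hS s hs) _ (hφ i (Nat.lt_succ_self i))
        have := Q.add_mem h8 h4
        rwa [sub_add_cancel] at this
      rw [e1, Function.iterate_succ_apply]
      have e2 : D^[i] (s * D φ) + D^[i] (D s * φ) - s * D^[i] (D φ) =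
          (D^[i] (s * D φ) - s * D^[i] (D φ)) + D^[i] (D s * φ) := by ring
      rw [e2]
      exact Q.add_mem h6 h9

/-- the chain of subspaces -/
theorem chain {D : Derivation k F F} (hS : ∀ z ∈ S, D z ∈ S) {Q W : Submodule S F}
    [Module.Finite S W] (K : ℕ → ℕ) (V : ℕ → Submodule S F)
    (hV : ∀ i, ∀ z ∈ W, D^[i] z ∈ V i)
    (hK : ∀ i, Module.Finite S ((V i).map Q.mkQ) ∧ Module.finrank S ((V i).map Q.mkQ) ≤ K i)
    (n : ℕ) : ∃ W' : Submodule S F, W' ≤ W ∧ (∀ φ ∈ W', ∀ j, j < n → D^[j] φ ∈ Q) ∧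
      Module.finrank S W ≤ Module.finrank S W' + ∑ i ∈ Finset.range n, K i := by
  induction n with
  | zero => exact ⟨W, le_rfl, fun φ _ j hj => absurd hj (Nat.not_lt_zero j), by simp⟩
  | succ n ih =>
    obtain ⟨W', h1, h2, h3⟩ := ih
    have hfin : Module.Finite S W' := Submodule.finiteDimensional_of_le h1
    let g : W' →ₗ[S] F ⧸ Q :=
      { toFun := fun φ => Q.mkQ (D^[n] (φ : F))
        map_add' := fun φ ψ => by
          rw [← map_add]
          congr 1
          exact iterate_map_add D n _ _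
        map_smul' := fun s φ => by
          have h4 := (Dit_smul hS (Q := Q) n (s : F) (φ : F) s.2 (h2 φ φ.2)).2
          rw [RingHom.id_apply, ← map_smul, ← sub_eq_zero, ← map_sub, Submodule.mkQ_apply,
            Submodule.Quotient.mk_eq_zero]
          have e1 : ((s • φ : W') : F) = (s : F) * (φ : F) := by
            rw [Submodule.coe_smul, Algebra.smul_def]
            rfl
          have e2 : s • D^[n] (φ : F) = (s : F) * D^[n] (φ : F) := by
            rw [Algebra.smul_def]
            rfl
          rw [e1, e2]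
          exact h4 }
    have hg : ∀ φ : W', g φ = Q.mkQ (D^[n] (φ : F)) := fun _ => rfl
    have hr : LinearMap.range g ≤ (V n).map Q.mkQ := by
      rintro _ ⟨φ, rfl⟩
      exact ⟨_, hV n φ (h1 φ.2), rfl⟩
    have hfr := (hK n).1
    have h5 := Submodule.finrank_mono hr
    have h6 := LinearMap.finrank_range_add_finrank_ker g
    refine ⟨(LinearMap.ker g).map W'.subtype, ?_, ?_, ?_⟩
    · exact (Submodule.map_subtype_le _ _).trans h1
    · rintro φ ⟨ψ, hψ, rfl⟩ j hj
      rcases Nat.lt_succ_iff_lt_or_eq.1 hj with hj | rfl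
      · exact h2 ψ ψ.2 j hj
      · have h7 : g ψ = 0 := hψ
        rw [hg, Submodule.mkQ_apply, Submodule.Quotient.mk_eq_zero] at h7
        exact h7
    · have h8 : Module.finrank S ((LinearMap.ker g).map W'.subtype) =
          Module.finrank S (LinearMap.ker g) := by
        exact (LinearEquiv.finrank_eq (Submodule.equivMapOfInjective _ W'.injective_subtype _)).symm
      rw [h8, Finset.sum_range_succ]
      have h9 := (hK n).2
      omega

/-- monomials in independent elements -/
theorem low {r : ℕ} {v : Fin r → F} (hv : AlgebraicIndependent S v) (t : ℕ) :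
    ∃ W : Submodule S F, Module.Finite S W ∧ (t + 1) ^ r = Module.finrank S W ∧
      ∀ z ∈ W, z ∈ Submodule.span S ((fun α => mon v α) '' {α : Fin r → ℕ | ∀ j, α j ≤ t}) := by
  classical
  obtain ⟨f, hf⟩ : ∃ f : (Fin r → Fin (t + 1)) → F, f = fun α => mon v fun j => (α j : ℕ) :=
    ⟨_, rfl⟩
  have h1 : LinearIndependent S f := by
    have h2 := (MvPolynomial.basisMonomials (Fin r) S).linearIndependent
    have h3 := h2.map' (MvPolynomial.aeval v).toLinearMap (LinearMap.ker_eq_bot.2 hv)
    have h4 := h3.comp (fun α : Fin r → Fin (t + 1) => Finsupp.equivFunOnFinite.symm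
      fun j => (α j : ℕ)) (by
        intro α β hαβ
        have h5 := Finsupp.equivFunOnFinite.symm.injective hαβ
        funext j
        exact Fin.ext (congrFun h5 j))
    have h5 : f = (⇑(MvPolynomial.aeval v).toLinearMap ∘
        ⇑(MvPolynomial.basisMonomials (Fin r) S)) ∘ fun α : Fin r → Fin (t + 1) =>
          Finsupp.equivFunOnFinite.symm fun j => (α j : ℕ) := by
      funext α
      rw [hf]
      simp only [Function.comp_apply, MvPolynomial.coe_basisMonomials, AlgHom.toLinearMap_apply]
      rw [MvPolynomial.aeval_monomial, map_one, one_mul, Finsupp.prod_fintype _ _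
        (fun s => pow_zero _)]
      rfl
    rw [h5]
    exact h4
  have hfin : Module.Finite S (Submodule.span S (Set.range f)) :=
    Module.Finite.span_of_finite S (Set.finite_range f)
  refine ⟨Submodule.span S (Set.range f), hfin, ?_, ?_⟩
  · rw [finrank_span_eq_card h1]
    simp
  · intro z hz
    refine Submodule.span_mono ?_ hz
    rintro _ ⟨α, rfl⟩
    rw [hf]
    exact ⟨_, fun j => Nat.lt_succ_iff.1 (α j).2, rfl⟩

/-- **The auxiliary function.** -/
theorem aux {D : Derivation k F F} (hS : ∀ z ∈ S, D z ∈ S)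
    (hR : ∀ j, D (u j) ∈ Algebra.adjoin S (Set.range u)) {r : ℕ} (e0 : Fin r → Fin m)
    (hind : AlgebraicIndependent S fun i => u (e0 i)) {B : Type} [CommRing B] [IsDomain B]
    [Algebra S B] (mk : Algebra.adjoin S (Set.range u) →ₐ[S] B) (T : Finset (Fin m))
    (hTr : T.card + 2 ≤ r)
    (hT : ∀ j, IsAlgebraic (Algebra.adjoin S ((fun j => mk ⟨u j, Algebra.subset_adjoin ⟨j, rfl⟩⟩) ''
      (T : Set (Fin m)))) (mk ⟨u j, Algebra.subset_adjoin ⟨j, rfl⟩⟩)) (A : ℕ) :
    ∃ (d : ℕ) (φ : F), 0 < d ∧ φ ≠ 0 ∧ φ ∈ vs S u d ∧ ∀ i, i ≤ A * d →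
      ∀ h : D^[i] φ ∈ Algebra.adjoin S (Set.range u), mk ⟨_, h⟩ = 0 := by
  classical
  -- a degree for the derivatives
  obtain ⟨b, hb⟩ : ∃ b, ∀ j, D (u j) ∈ vs S u b := by
    choose f hf using fun j => adjoin_vs (hR j)
    refine ⟨∑ j, f j, fun j => vs_mono ?_ (hf j)⟩
    exact Finset.single_le_sum (f := f) (fun _ _ => Nat.zero_le _) (Finset.mem_univ j)
  obtain ⟨C, hC⟩ := hilbert (fun j => mk ⟨u j, Algebra.subset_adjoin ⟨j, rfl⟩⟩) T hT
  -- the submodule of the elements of the ideal
  let Q : Submodule S F :=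
    { carrier := {z | ∃ h : z ∈ Algebra.adjoin S (Set.range u), mk ⟨z, h⟩ = 0}
      zero_mem' := ⟨Subalgebra.zero_mem _, map_zero mk⟩
      add_mem' := by
        rintro y z ⟨hy, hy'⟩ ⟨hz, hz'⟩
        refine ⟨Subalgebra.add_mem _ hy hz, ?_⟩
        have : (⟨y + z, Subalgebra.add_mem _ hy hz⟩ : Algebra.adjoin S (Set.range u)) =
            ⟨y, hy⟩ + ⟨z, hz⟩ := rfl
        rw [this, map_add, hy', hz', add_zero]
      smul_mem' := by
        rintro c z ⟨hz, hz'⟩
        refine ⟨Subalgebra.smul_mem _ hz c, ?_⟩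
        have : (⟨c • z, Subalgebra.smul_mem _ hz c⟩ : Algebra.adjoin S (Set.range u)) =
            c • ⟨z, hz⟩ := rfl
        rw [this, map_smul, hz', smul_zero] }
  have hQ : ∀ z, z ∈ Q ↔ ∃ h : z ∈ Algebra.adjoin S (Set.range u), mk ⟨z, h⟩ = 0 :=
    fun z => Iff.rfl
  -- the dimension of the images
  have hK : ∀ e : ℕ, Module.Finite S ((vs S u e).map Q.mkQ) ∧
      Module.finrank S ((vs S u e).map Q.mkQ) ≤ C * (e + 1) ^ T.card := by
    intro e
    have hfin : Module.Finite S (vs S u e) := by
      unfold vs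
      refine Module.Finite.span_of_finite S (Set.Finite.image _ ?_)
      refine Set.Finite.subset (finite_box fun _ => e) fun α hα j => ?_
      exact (Finset.single_le_sum (f := α) (fun _ _ => Nat.zero_le _) (Finset.mem_univ j)).trans hα
    refine ⟨inferInstance, ?_⟩
    -- a map from the image to the quotient
    obtain ⟨V, hV⟩ : ∃ V : Submodule S B, V = Submodule.span S
      ((fun α => mon (fun j => mk ⟨u j, Algebra.subset_adjoin ⟨j, rfl⟩⟩) α) ''
        {α : Fin m → ℕ | ∑ j, α j ≤ e}) := ⟨_, rfl⟩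
    have hVfin : Module.Finite S V := by
      rw [hV]
      refine Module.Finite.span_of_finite S (Set.Finite.image _ ?_)
      refine Set.Finite.subset (finite_box fun _ => e) fun α hα j => ?_
      exact (Finset.single_le_sum (f := α) (fun _ _ => Nat.zero_le _) (Finset.mem_univ j)).trans hα
    have hmV : ∀ z (hz : z ∈ vs S u e), mk ⟨z, vs_adjoin hz⟩ ∈ V := by
      intro z hz
      have hz' := hz
      unfold vs at hz
      induction hz using Submodule.span_induction with
      | mem z hz =>
        obtain ⟨α, hα, rfl⟩ := hz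
        rw [hV]
        refine Submodule.subset_span ⟨α, hα, ?_⟩
        have h1 : (⟨mon u α, vs_adjoin hz'⟩ : Algebra.adjoin S (Set.range u)) =
            ∏ j, (⟨u j, Algebra.subset_adjoin ⟨j, rfl⟩⟩ : Algebra.adjoin S (Set.range u)) ^ α j := by
          apply Subtype.ext
          rw [SubmonoidClass.coe_finset_prod]
          rfl
        change mon (fun j => mk ⟨u j, Algebra.subset_adjoin ⟨j, rfl⟩⟩) α = mk ⟨mon u α, _⟩
        rw [h1, map_prod]
        simp only [map_pow]
        rfl
      | zero =>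
        have : (⟨0, vs_adjoin hz'⟩ : Algebra.adjoin S (Set.range u)) = 0 := rfl
        rw [this, map_zero]
        exact V.zero_mem
      | add y z hy1 hz1 hy hz =>
        have : (⟨y + z, vs_adjoin hz'⟩ : Algebra.adjoin S (Set.range u)) =
            ⟨y, vs_adjoin hy1⟩ + ⟨z, vs_adjoin hz1⟩ := rfl
        rw [this, map_add]
        exact V.add_mem (hy hy1) (hz hz1)
      | smul c z hz1 hz =>
        have : (⟨c • z, vs_adjoin hz'⟩ : Algebra.adjoin S (Set.range u)) =
            c • ⟨z, vs_adjoin hz1⟩ := rfl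
        rw [this, map_smul]
        exact V.smul_mem c (hz hz1)
    let g : vs S u e →ₗ[S] V :=
      { toFun := fun z => ⟨mk ⟨z, vs_adjoin z.2⟩, hmV z z.2⟩
        map_add' := fun y z => Subtype.ext (by
          have : (⟨((y + z : vs S u e) : F), vs_adjoin (y + z).2⟩ : Algebra.adjoin S (Set.range u)) =
            ⟨y, vs_adjoin y.2⟩ + ⟨z, vs_adjoin z.2⟩ := rfl
          change mk _ = mk _ + mk _
          rw [this, map_add])
        map_smul' := fun c z => Subtype.ext (by
          have : (⟨((c • z : vs S u e) : F), vs_adjoin (c • z).2⟩ :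
            Algebra.adjoin S (Set.range u)) = c • ⟨z, vs_adjoin z.2⟩ := rfl
          change mk _ = c • mk _
          rw [this, map_smul]) }
    have hker : ∀ z : vs S u e, g z = 0 ↔ (z : F) ∈ Q := by
      intro z
      rw [hQ]
      constructor
      · intro h
        exact ⟨vs_adjoin z.2, congrArg Subtype.val h⟩
      · rintro ⟨h, h'⟩
        exact Subtype.ext h'
    have h1 : Module.finrank S ((vs S u e).map Q.mkQ) = Module.finrank S (LinearMap.range g) := by
      have h2 := LinearMap.finrank_range_add_finrank_ker g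
      have h3 := LinearMap.finrank_range_add_finrank_ker (Q.mkQ.domRestrict (vs S u e))
      have h4 : LinearMap.ker g = LinearMap.ker (Q.mkQ.domRestrict (vs S u e)) := by
        ext z
        rw [LinearMap.mem_ker, hker, LinearMap.mem_ker, LinearMap.domRestrict_apply,
          Submodule.mkQ_apply, Submodule.Quotient.mk_eq_zero]
      have h5 : LinearMap.range (Q.mkQ.domRestrict (vs S u e)) = (vs S u e).map Q.mkQ := by
        ext z
        constructor
        · rintro ⟨w, rfl⟩
          exact ⟨w, w.2, rfl⟩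
        · rintro ⟨w, hw, rfl⟩
          exact ⟨⟨w, hw⟩, rfl⟩
      rw [h4] at h2
      rw [h5] at h3
      omega
    rw [h1]
    refine (Submodule.finrank_le _).trans ?_
    rw [hV]
    exact hC e
  -- the parameters
  obtain ⟨s, hs⟩ : ∃ s, r = s + 2 := ⟨r - 2, by omega⟩
  have hTs : T.card ≤ s := by omega
  obtain ⟨t, ht⟩ : ∃ t : ℕ, t = (A * r + 1) * C * (r + A * r * b + 1) ^ s + 1 := ⟨_, rfl⟩
  obtain ⟨W, hW1, hW2, hW3⟩ := low hind t
  have hWv : ∀ z ∈ W, z ∈ vs S u (r * t) := by
    intro z hz
    refine (Submodule.span_le.2 ?_ : Submodule.span S ((fun α => mon (fun i => u (e0 i)) α) ''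
      {α : Fin r → ℕ | ∀ j, α j ≤ t}) ≤ vs S u (r * t)) (hW3 z hz)
    rintro _ ⟨α, hα, rfl⟩
    change mon (fun i => u (e0 i)) α ∈ vs S u (r * t)
    have key : ∀ (I : Finset (Fin r)), ∏ i ∈ I, u (e0 i) ^ α i ∈ vs S u (I.card * t) := by
      intro I
      induction I using Finset.induction_on with
      | empty =>
        rw [Finset.prod_empty]
        exact one_mem_vs _
      | insert i I hi ih =>
        rw [Finset.prod_insert hi, Finset.card_insert_of_notMem hi]
        have h1 : u (e0 i) ^ α i ∈ vs S u t := by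
          rw [← mon_single]
          refine mon_mem_vs ?_
          rw [Finset.sum_pi_single']
          simpa using hα i
        have := vs_mul h1 ih
        exact vs_mono (by ring_nf; rfl) this
    have := key Finset.univ
    rwa [Finset.card_univ, Fintype.card_fin] at this
  obtain ⟨W', h1, h2, h3⟩ := chain hS (Q := Q) (W := W)
    (fun i => C * (r * t + i * b + 1) ^ T.card) (fun i => vs S u (r * t + i * b))
    (fun i z hz => Dit_vs hS hb (hWv z hz) i) (fun i => hK _) (A * (r * t) + 1)
  have h4 : ∑ i ∈ Finset.range (A * (r * t) + 1), C * (r * t + i * b + 1) ^ T.card <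
      (t + 1) ^ r := by
    have h5 : ∀ i ∈ Finset.range (A * (r * t) + 1), C * (r * t + i * b + 1) ^ T.card ≤
        C * ((r + A * r * b + 1) * (t + 1)) ^ s := by
      intro i hi
      have h6 := Finset.mem_range.1 hi
      refine Nat.mul_le_mul_left _ ?_
      refine (Nat.pow_le_pow_right (by omega) hTs).trans (Nat.pow_le_pow_left ?_ s)
      have h7 : i * b ≤ A * (r * t) * b := Nat.mul_le_mul_right _ (by omega)
      nlinarith [Nat.zero_le (A * r * b), Nat.zero_le r, Nat.zero_le t]
    refine (Finset.sum_le_sum h5).trans_lt ?_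
    rw [Finset.sum_const, Finset.card_range, smul_eq_mul, mul_pow]
    have h6 : A * (r * t) + 1 ≤ (A * r + 1) * (t + 1) := by nlinarith [Nat.zero_le (A * r)]
    have h7 : (t + 1) ^ r = (t + 1) * (t + 1) * (t + 1) ^ s := by
      rw [hs, pow_add, pow_two]
      ring
    rw [h7]
    have hp : 0 < (t + 1) ^ s := by positivity
    calc (A * (r * t) + 1) * (C * ((r + A * r * b + 1) ^ s * (t + 1) ^ s))
        ≤ ((A * r + 1) * (t + 1)) * (C * ((r + A * r * b + 1) ^ s * (t + 1) ^ s)) :=
          Nat.mul_le_mul_right _ h6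
      _ = ((A * r + 1) * C * (r + A * r * b + 1) ^ s) * ((t + 1) * (t + 1) ^ s) := by ring
      _ < (t + 1) * ((t + 1) * (t + 1) ^ s) := by
          refine Nat.mul_lt_mul_of_pos_right ?_ (by positivity)
          rw [ht]
          omega
      _ = (t + 1) * (t + 1) * (t + 1) ^ s := by ring
  have h5 : 0 < Module.finrank S W' := by
    rw [← hW2] at h3
    omega
  have hfin' : Module.Finite S W' := Submodule.finiteDimensional_of_le h1
  have h6 : W' ≠ ⊥ := by
    rintro rfl
    rw [finrank_bot] at h5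
    exact lt_irrefl _ h5
  obtain ⟨φ, hφ, hφ0⟩ := Submodule.exists_mem_ne_zero_of_ne_bot h6
  refine ⟨r * t, φ, ?_, hφ0, hWv φ (h1 hφ), fun i hi h => ?_⟩
  · rw [hs, ht]
    positivity
  · obtain ⟨h', h''⟩ := (hQ _).1 (h2 φ hφ i (by omega))
    exact h''

end Pool.Agent.E8helper90.RC
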