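import Pool.Agent.E8helper90.RC.Tow
import Pool.Agent.E8helper90.RC.Van

/-!
Systems of points: orders at the points of a sequence of curves, and the limits of the numbers of
points.
-/

set_option autoImplicit false

namespace Pool.Agent.E8helper90.RC

open Filter
open scoped ENNReal

/-- A field with orders at points, a derivation, and a way of counting. -/
structure PS (k F I : Type) [Field k] [Field F] [Algebra k F] where
  /-- the filter -/
  H : Filter I
  /-- orders -/
  o : F → I → ℤ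
  /-- order of the derivation -/
  v : I → ℤ
  /-- the counting -/
  m : (I → ℕ) → ℝ≥0∞
  /-- the derivation -/
  D : Derivation k F F
  o_zero : ∀ p, o 0 p = 0
  o_mul : ∀ {a b : F}, a ≠ 0 → b ≠ 0 → ∀ᶠ p in H, o (a * b) p = o a p + o b p
  o_add : ∀ {a b : F}, a ≠ 0 → b ≠ 0 → a + b ≠ 0 → ∀ᶠ p in H, min (o a p) (o b p) ≤ o (a + b) p
  o_der : ∀ a : F, ∀ᶠ p in H, o a p ≠ 0 → D a ≠ 0 ∧ o (D a) p = o a p - 1 + v p
  o_der0 : ∀ {a : F}, D a ≠ 0 → ∀ᶠ p in H, o a p = 0 → v p ≤ o (D a) p
  v_le : ∀ᶠ p in H, v p ≤ 0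
  m_mono : ∀ {β γ : I → ℕ}, (∀ᶠ p in H, β p ≤ γ p) → m β ≤ m γ
  m_add : ∀ β γ : I → ℕ, m (fun p => β p + γ p) ≤ m β + m γ
  m_mul : ∀ (n : ℕ) (β : I → ℕ), n * m β ≤ m fun p => n * β p
  m_prod : ∀ {z : F}, z ≠ 0 → m (fun p => (o z p).toNat) ≤ m fun p => (-o z p).toNat
  m_v : m (fun p => (-v p).toNat) = 0

namespace PS

variable {k F I : Type} [Field k] [Field F] [Algebra k F] (X : PS k F I)

/-- poles -/
def pl (z : F) (p : I) : ℕ := (-(X.o z p)).toNat

/-- zeros -/
def zr (z : F) (p : I) : ℕ := (X.o z p).toNat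

theorem o_one : ∀ᶠ p in X.H, X.o 1 p = 0 := by
  filter_upwards [X.o_mul (one_ne_zero (α := F)) one_ne_zero] with p hp
  rw [mul_one] at hp
  omega

theorem o_inv {a : F} (ha : a ≠ 0) : ∀ᶠ p in X.H, X.o a⁻¹ p = -X.o a p := by
  filter_upwards [X.o_one, X.o_mul ha (inv_ne_zero ha)] with p h1 h2
  rw [mul_inv_cancel₀ ha] at h2
  omega

theorem o_neg (a : F) : ∀ᶠ p in X.H, X.o (-a) p = X.o a p := by
  by_cases ha : a = 0
  · rw [ha, neg_zero]
    exact Eventually.of_forall fun _ => rfl
  · filter_upwards [X.o_one, X.o_mul (neg_ne_zero.2 (one_ne_zero (α := F)))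
      (neg_ne_zero.2 (one_ne_zero (α := F))), X.o_mul (neg_ne_zero.2 (one_ne_zero (α := F))) ha]
      with p h1 h2 h3
    rw [neg_mul_neg, one_mul] at h2
    rw [neg_one_mul] at h3
    omega

theorem o_pow {a : F} (ha : a ≠ 0) (n : ℕ) : ∀ᶠ p in X.H, X.o (a ^ n) p = n * X.o a p := by
  induction n with
  | zero =>
    rw [pow_zero]
    filter_upwards [X.o_one] with p hp
    rw [hp]
    simp
  | succ n ih =>
    filter_upwards [ih, X.o_mul (pow_ne_zero n ha) ha] with p h1 h2
    rw [pow_succ, h2, h1]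
    push_cast
    ring

/-- the order is at least `n` -/
def ge (z : F) (n : ℤ) (p : I) : Prop := z = 0 ∨ n ≤ X.o z p

variable {X}

theorem ge.mono {z : F} {n n' : ℤ} {p : I} (h : X.ge z n p) (hn : n' ≤ n) : X.ge z n' p :=
  h.imp id fun h => hn.trans h

theorem ge_zero (n : ℤ) (p : I) : X.ge 0 n p := Or.inl rfl

theorem ge_add (a b : F) : ∀ᶠ p in X.H, ∀ n, X.ge a n p → X.ge b n p → X.ge (a + b) n p := by
  by_cases ha : a = 0
  · rw [ha, zero_add]
    exact Eventually.of_forall fun _ _ _ h => h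
  by_cases hb : b = 0
  · rw [hb, add_zero]
    exact Eventually.of_forall fun _ _ h _ => h
  by_cases hab : a + b = 0
  · exact Eventually.of_forall fun _ _ _ _ => Or.inl hab
  filter_upwards [X.o_add ha hb hab] with p hp n h1 h2
  have h1 := h1.resolve_left ha
  have h2 := h2.resolve_left hb
  exact Or.inr ((le_min h1 h2).trans hp)

theorem ge_mul (a b : F) :
    ∀ᶠ p in X.H, ∀ n n', X.ge a n p → X.ge b n' p → X.ge (a * b) (n + n') p := by
  by_cases ha : a = 0
  · rw [ha, zero_mul]
    exact Eventually.of_forall fun _ _ _ _ _ => Or.inl rfl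
  by_cases hb : b = 0
  · rw [hb, mul_zero]
    exact Eventually.of_forall fun _ _ _ _ _ => Or.inl rfl
  filter_upwards [X.o_mul ha hb] with p hp n n' h1 h2
  have h1 := h1.resolve_left ha
  have h2 := h2.resolve_left hb
  exact Or.inr (by rw [hp]; omega)

theorem ge_sum {ι : Type} (s : Finset ι) (f : ι → F) :
    ∀ᶠ p in X.H, ∀ n, (∀ i ∈ s, X.ge (f i) n p) → X.ge (∑ i ∈ s, f i) n p := by
  classical
  induction s using Finset.induction_on with
  | empty =>
    rw [Finset.sum_empty]
    exact Eventually.of_forall fun _ _ _ => Or.inl rfl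
  | insert i s hi ih =>
    rw [Finset.sum_insert hi]
    filter_upwards [ih, ge_add (f i) (∑ i ∈ s, f i)] with p h1 h2 n h
    exact h2 n (h i (Finset.mem_insert_self i s))
      (h1 n fun j hj => h j (Finset.mem_insert_of_mem hj))

theorem ge_pow (a : F) (l : ℕ) : ∀ᶠ p in X.H, ∀ n, X.ge a n p → X.ge (a ^ l) (l * n) p := by
  by_cases ha : a = 0
  · rcases Nat.eq_zero_or_pos l with rfl | hl
    · filter_upwards [X.o_one] with p hp n _
      right
      rw [pow_zero, hp]
      simp
    · rw [ha, zero_pow hl.ne']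
      exact Eventually.of_forall fun _ _ _ => Or.inl rfl
  · filter_upwards [X.o_pow ha l] with p hp n h
    have h := h.resolve_left ha
    right
    rw [hp]
    exact mul_le_mul_of_nonneg_left h (by positivity)

theorem ge_der (a : F) :
    ∀ᶠ p in X.H, ∀ n, X.ge a n p → X.ge (X.D a) (n - 1 + X.v p) p := by
  by_cases hD : X.D a = 0
  · rw [hD]
    exact Eventually.of_forall fun _ _ _ => Or.inl rfl
  have ha : a ≠ 0 := by
    rintro rfl
    exact hD (map_zero _)
  filter_upwards [X.o_der a, X.o_der0 hD, X.v_le] with p h1 h2 h3 n h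
  have h := h.resolve_left ha
  right
  by_cases h0 : X.o a p = 0
  · have := h2 h0
    omega
  · rw [(h1 h0).2]
    omega

theorem ge_iter (a : F) (l : ℕ) :
    ∀ᶠ p in X.H, ∀ n, X.ge a n p → X.ge (X.D^[l] a) (n - l * (1 - X.v p)) p := by
  induction l with
  | zero =>
    refine Eventually.of_forall fun p n h => ?_
    simpa using h
  | succ l ih =>
    filter_upwards [ih, ge_der (X.D^[l] a)] with p h1 h2 n h
    rw [Function.iterate_succ_apply']
    refine (h2 _ (h1 n h)).mono ?_
    push_cast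
    ring_nf
    rfl

theorem ge_pl {z : F} {p : I} {n : ℕ} (h : X.pl z p ≤ n) : X.ge z (-(n : ℤ)) p := by
  right
  unfold pl at h
  omega

variable (X)

/-- small functions -/
def Sm (τ : I → ℕ) : Prop := X.m τ = 0

variable {X}

theorem Sm.mono {β γ : I → ℕ} (h : X.Sm γ) (hβ : ∀ᶠ p in X.H, β p ≤ γ p) : X.Sm β :=
  le_antisymm ((X.m_mono hβ).trans h.le) bot_le

theorem Sm.zero : X.Sm fun _ => 0 :=
  Sm.mono (γ := fun p => (-X.v p).toNat) X.m_v (Eventually.of_forall fun _ => Nat.zero_le _)

theorem Sm.add {β γ : I → ℕ} (hβ : X.Sm β) (hγ : X.Sm γ) : X.Sm fun p => β p + γ p := by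
  refine le_antisymm ((X.m_add β γ).trans ?_) bot_le
  rw [hβ, hγ, add_zero]

theorem Sm.sum {ι : Type} (s : Finset ι) {β : ι → I → ℕ} (h : ∀ i ∈ s, X.Sm (β i)) :
    X.Sm fun p => ∑ i ∈ s, β i p := by
  classical
  induction s using Finset.induction_on with
  | empty =>
    simp only [Finset.sum_empty]
    exact Sm.zero
  | insert i s hi ih =>
    simp only [Finset.sum_insert hi]
    exact (h i (Finset.mem_insert_self i s)).add
      (ih fun j hj => h j (Finset.mem_insert_of_mem hj))

theorem Sm.mul {β : I → ℕ} (h : X.Sm β) (n : ℕ) : X.Sm fun p => n * β p := by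
  induction n with
  | zero =>
    simp only [zero_mul]
    exact Sm.zero
  | succ n ih =>
    refine (ih.add h).mono (Eventually.of_forall fun p => ?_)
    exact le_of_eq (by ring)

/-- scaling -/
theorem m_mul_le (n : ℕ) (β : I → ℕ) : X.m (fun p => n * β p) ≤ n * X.m β := by
  induction n with
  | zero =>
    simp only [zero_mul, Nat.cast_zero]
    exact (Sm.zero (X := X)).le
  | succ n ih =>
    have h1 : (fun p => (n + 1) * β p) = fun p => n * β p + β p := by
      funext p
      ring
    rw [h1]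
    refine (X.m_add _ _).trans ?_
    rw [Nat.cast_succ, add_mul, one_mul]
    exact add_le_add ih le_rfl

theorem m_sum_le {ι : Type} (s : Finset ι) (β : ι → I → ℕ) :
    X.m (fun p => ∑ i ∈ s, β i p) ≤ ∑ i ∈ s, X.m (β i) := by
  classical
  induction s using Finset.induction_on with
  | empty =>
    simp only [Finset.sum_empty]
    exact (Sm.zero (X := X)).le
  | insert i s hi ih =>
    simp only [Finset.sum_insert hi]
    exact (X.m_add _ _).trans (add_le_add le_rfl ih)

theorem pl_zero (p : I) : X.pl 0 p = 0 := by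
  unfold pl
  rw [X.o_zero]
  rfl

theorem pl_add (a b : F) : ∀ᶠ p in X.H, X.pl (a + b) p ≤ max (X.pl a p) (X.pl b p) := by
  by_cases ha : a = 0
  · rw [ha, zero_add]
    exact Eventually.of_forall fun _ => le_max_right _ _
  by_cases hb : b = 0
  · rw [hb, add_zero]
    exact Eventually.of_forall fun _ => le_max_left _ _
  by_cases hab : a + b = 0
  · rw [hab]
    exact Eventually.of_forall fun p => by rw [pl_zero]; exact Nat.zero_le _
  filter_upwards [X.o_add ha hb hab] with p hp
  unfold pl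
  omega

theorem pl_mul (a b : F) : ∀ᶠ p in X.H, X.pl (a * b) p ≤ X.pl a p + X.pl b p := by
  by_cases ha : a = 0
  · rw [ha, zero_mul]
    exact Eventually.of_forall fun p => by rw [pl_zero]; exact Nat.zero_le _
  by_cases hb : b = 0
  · rw [hb, mul_zero]
    exact Eventually.of_forall fun p => by rw [pl_zero]; exact Nat.zero_le _
  filter_upwards [X.o_mul ha hb] with p hp
  unfold pl
  omega

theorem pl_one : ∀ᶠ p in X.H, X.pl 1 p = 0 := by
  filter_upwards [X.o_one] with p hp
  unfold pl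
  rw [hp]
  rfl

theorem pl_pow (a : F) (n : ℕ) : ∀ᶠ p in X.H, X.pl (a ^ n) p ≤ n * X.pl a p := by
  induction n with
  | zero =>
    rw [pow_zero]
    filter_upwards [X.pl_one] with p hp
    rw [hp]
    exact Nat.zero_le _
  | succ n ih =>
    filter_upwards [ih, pl_mul (a ^ n) a] with p h1 h2
    rw [pow_succ]
    refine h2.trans ?_
    rw [add_mul, one_mul]
    exact Nat.add_le_add_right h1 _

theorem pl_prod {ι : Type} (s : Finset ι) (f : ι → F) :
    ∀ᶠ p in X.H, X.pl (∏ i ∈ s, f i) p ≤ ∑ i ∈ s, X.pl (f i) p := by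
  classical
  induction s using Finset.induction_on with
  | empty =>
    rw [Finset.prod_empty]
    filter_upwards [X.pl_one] with p hp
    rw [hp]
    exact Nat.zero_le _
  | insert i s hi ih =>
    rw [Finset.prod_insert hi]
    filter_upwards [ih, pl_mul (f i) (∏ i ∈ s, f i)] with p h1 h2
    rw [Finset.sum_insert hi]
    omega

/-- poles of linear combinations of monomials of bounded degree -/
theorem pl_vs {S : IntermediateField k F} (hS : ∀ s ∈ S, X.Sm (X.pl s)) {m d : ℕ}
    {u : Fin m → F} {z : F} (hz : z ∈ vs S u d) : ∃ τ : I → ℕ, X.Sm τ ∧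
      ∀ᶠ p in X.H, X.pl z p ≤ τ p + d * ∑ j, X.pl (u j) p := by
  unfold vs at hz
  induction hz using Submodule.span_induction with
  | mem z hz =>
    obtain ⟨α, hα, rfl⟩ := hz
    have hα' : ∑ j, α j ≤ d := hα
    refine ⟨fun _ => 0, Sm.zero, ?_⟩
    have h1 : ∀ᶠ p in X.H, ∀ j, X.pl (u j ^ α j) p ≤ α j * X.pl (u j) p :=
      eventually_all.2 fun j => pl_pow (u j) (α j)
    filter_upwards [h1, pl_prod Finset.univ fun j => u j ^ α j] with p h2 h3
    rw [zero_add]
    refine h3.trans ?_
    rw [Finset.mul_sum]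
    refine Finset.sum_le_sum fun j _ => (h2 j).trans (Nat.mul_le_mul_right _ ?_)
    exact (Finset.single_le_sum (f := α) (fun _ _ => Nat.zero_le _) (Finset.mem_univ j)).trans hα'
  | zero =>
    refine ⟨fun _ => 0, Sm.zero, Eventually.of_forall fun p => ?_⟩
    rw [pl_zero]
    exact Nat.zero_le _
  | add y z _ _ hy hz =>
    obtain ⟨τ, h1, h2⟩ := hy
    obtain ⟨τ', h3, h4⟩ := hz
    refine ⟨fun p => τ p + τ' p, h1.add h3, ?_⟩
    filter_upwards [h2, h4, pl_add y z] with p e1 e2 e3
    omega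
  | smul c z _ hz =>
    obtain ⟨τ, h1, h2⟩ := hz
    refine ⟨fun p => X.pl (c : F) p + τ p, (hS c c.2).add h1, ?_⟩
    have h3 : c • z = (c : F) * z := Algebra.smul_def c z
    rw [h3]
    filter_upwards [h2, pl_mul (c : F) z] with p e1 e2
    omega

end PS

end Pool.Agent.E8helper90.RC
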