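import Pool.Agent.E8helper90.RC.Iso
import Pool.Agent.E8helper90.RC.Goo

/-!
Embeddings of the complex numbers in the field of the constants of an ultraproduct, over which
given elements are algebraically independent.
-/

set_option autoImplicit false

namespace Pool.Agent.E8helper90.RC

open FF Filter Cardinal Polynomial
open Pool.Agent.W603.CY (hgt_add_le hgt_mul_le ui mem_ui UL um um_surj um_eq um_zero_iff um_ne_iff
  um_add um_mul um_neg um_pow um_sum um_inv um_div um_alg um_aeval)
open Pool.Agent.E8helper90.AF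
open Pool.Agent.TH600.LC (clo mem_clo inv_mem_clo subset_clo clo_le clo_mono adjoin_le_clo
  coe_clo)

theorem alg_clo' {S F : Type} [Field S] [Field F] [Algebra S F] {X : Set F} {z : F}
    (h1 : IsAlgebraic (clo S X) z) : z ∈ clo S X := by
  have h2 : IsAlgebraic (Algebra.adjoin S ((clo S X : Subalgebra S F) : Set F)) z := by
    rw [Algebra.adjoin_eq]
    exact h1
  exact clo_le (le_refl _) (mem_clo.2 h2)

theorem ind_of_hom {R R' F : Type} [CommRing R] [CommRing R'] [CommRing F] [Algebra R F]
    [Algebra R' F] (φ : R' →+* R) (hφ : Function.Injective φ)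
    (h : ∀ c, algebraMap R F (φ c) = algebraMap R' F c) {σ : Type} {T : σ → F}
    (hT : AlgebraicIndependent R T) : AlgebraicIndependent R' T := by
  rw [algebraicIndependent_iff]
  intro p hp
  have h1 : MvPolynomial.aeval T (MvPolynomial.map φ p) = MvPolynomial.aeval T p := by
    rw [MvPolynomial.aeval_def, MvPolynomial.eval₂_map, MvPolynomial.aeval_def]
    congr 1
    ext c
    exact h c
  have h2 := (algebraicIndependent_iff.1 hT) (MvPolynomial.map φ p) (by rw [h1, hp])
  exact MvPolynomial.map_injective φ hφ (by rw [h2, map_zero])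

/-- subfields over which given elements are algebraically independent -/
theorem exists_sub {k0 F : Type} [Field k0] [Field F] [Algebra k0 F]
    (C : IntermediateField k0 F) (hC : IsAlgClosed C) (hk0 : #k0 ≤ ℵ₀) (hCc : ℵ₀ < #C) {w : ℕ}
    {η : Fin w → F} (hη : AlgebraicIndependent k0 η) :
    ∃ k : IntermediateField k0 F, k ≤ C ∧ IsAlgClosed k ∧ #k = #C ∧ AlgebraicIndependent k η := by
  classical
  have hI : (AlgebraicIndependent.matroid k0 F).Indep (Set.range η) :=
    AlgebraicIndependent.matroid_indep_iff.2 hη.coe_range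
  obtain ⟨J, hJ, hIJ⟩ := hI.subset_isBasis_of_subset
    (X := (C : Set F) ∪ Set.range η) Set.subset_union_right (Set.subset_univ _)
  obtain ⟨T, hT⟩ : ∃ T : Set F, T = J \ Set.range η := ⟨_, rfl⟩
  have hTC : ∀ z ∈ T, z ∈ C := by
    intro z hz
    rw [hT] at hz
    rcases hJ.subset hz.1 with h | h
    · exact h
    · exact absurd h hz.2
  obtain ⟨k, hk⟩ : ∃ k : IntermediateField k0 F, ∀ z, z ∈ k ↔ z ∈ C ∧ z ∈ clo k0 T :=
    ⟨C ⊓ (clo k0 T).toIntermediateField fun _ h => inv_mem_clo h, fun z => Iff.rfl⟩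
  have hkC : k ≤ C := fun z hz => ((hk z).1 hz).1
  refine ⟨k, hkC, ?_, ?_, ?_⟩
  · refine IsAlgClosed.of_exists_root _ fun p hp hirr => ?_
    let φ : k →+* C := (IntermediateField.inclusion hkC).toRingHom
    have hdeg : (p.map φ).degree ≠ 0 := by
      rw [degree_map]
      exact hirr.degree_pos.ne'
    obtain ⟨z, hz⟩ := IsAlgClosed.exists_root (p.map φ) hdeg
    have hzF : eval₂ (algebraMap k F) (z : F) p = 0 := by
      have h1 := congrArg (fun c : C => (c : F)) hz
      have h2 : ((eval z (p.map φ) : C) : F) = eval₂ (algebraMap k F) (z : F) p := by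
        rw [eval_map, ← Polynomial.coe_eval₂RingHom]
        have h3 := Polynomial.hom_eval₂ p φ (algebraMap C F) z
        exact h3
      rw [← h2]
      exact h1
    have hzk : (z : F) ∈ k := by
      refine (hk _).2 ⟨z.2, alg_clo' ?_⟩
      let ψ : k →+* clo k0 T :=
        { toFun := fun z => ⟨z.1, ((hk z.1).1 z.2).2⟩
          map_one' := rfl
          map_mul' := fun _ _ => rfl
          map_zero' := rfl
          map_add' := fun _ _ => rfl }
      refine ⟨p.map ψ, (Polynomial.map_ne_zero_iff ψ.injective).2 hp.ne_zero, ?_⟩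
      rw [Polynomial.aeval_def, Polynomial.eval₂_map, ← hzF]
      rfl
    refine ⟨⟨z, hzk⟩, ?_⟩
    apply Subtype.ext
    have h3 := Polynomial.hom_eval₂ p (RingHom.id k) (algebraMap k F) (⟨z, hzk⟩ : k)
    rw [RingHom.comp_id] at h3
    exact h3.trans hzF
  · refine le_antisymm (Cardinal.mk_le_mk_of_subset hkC) ?_
    -- cardinalities
    have h1 : #J ≤ #k + ℵ₀ := by
      have h2 : J ⊆ (k : Set F) ∪ Set.range η := by
        intro z hz
        by_cases h : z ∈ Set.range η
        · exact Or.inr h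
        · have h3 : z ∈ T := by
            rw [hT]
            exact ⟨hz, h⟩
          exact Or.inl ((hk z).2 ⟨hTC z h3, subset_clo _ h3⟩)
      refine (Cardinal.mk_le_mk_of_subset h2).trans ((Cardinal.mk_union_le _ _).trans ?_)
      exact add_le_add le_rfl (Set.countable_range η).le_aleph0
    obtain ⟨E0, hE0⟩ : ∃ E0 : IntermediateField k0 F, ∀ z, z ∈ E0 ↔ z ∈ clo k0 J :=
      ⟨(clo k0 J).toIntermediateField fun _ h => inv_mem_clo h, fun z => Iff.rfl⟩
    have h2 : #C ≤ #E0 := by
      refine Cardinal.mk_le_mk_of_subset fun z hz => ?_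
      have h3 : z ∈ (AlgebraicIndependent.matroid k0 F).closure J := by
        rw [hJ.closure_eq_closure]
        exact (AlgebraicIndependent.matroid k0 F).subset_closure _ (Set.subset_univ _) (Or.inl hz)
      rw [← coe_clo] at h3
      exact (hE0 z).2 h3
    obtain ⟨R, hR⟩ : ∃ R : Subalgebra k0 F, R = Algebra.adjoin k0 J := ⟨_, rfl⟩
    have h3 : #E0 ≤ max #R ℵ₀ := by
      have hRE : ∀ z ∈ R, z ∈ E0 := by
        intro z hz
        rw [hR] at hz
        exact (hE0 z).2 (adjoin_le_clo J hz)
      let φ : R →+* E0 :=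
        { toFun := fun z => ⟨z.1, hRE z.1 z.2⟩
          map_one' := rfl
          map_mul' := fun _ _ => rfl
          map_zero' := rfl
          map_add' := fun _ _ => rfl }
      letI : Algebra R E0 := φ.toAlgebra
      have hinj : Function.Injective (algebraMap R E0) := by
        intro a b hab
        have : ((φ a : E0) : F) = ((φ b : E0) : F) := congrArg _ hab
        exact Subtype.ext this
      haveI : FaithfulSMul R E0 := (faithfulSMul_iff_algebraMap_injective R E0).2 hinj
      haveI : Module.IsTorsionFree R E0 := inferInstance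
      haveI : Algebra.IsAlgebraic R E0 := ⟨fun z => by
        have h4 : IsAlgebraic R (z : F) := by
          have h5 := mem_clo.1 ((hE0 z).1 z.2)
          rw [hR]
          exact h5
        obtain ⟨p, hp, hp0⟩ := h4
        refine ⟨p, hp, ?_⟩
        apply Subtype.ext
        have h6 := Polynomial.hom_eval₂ p (algebraMap R E0) (algebraMap E0 F) z
        rw [Polynomial.aeval_def] at hp0 ⊢
        exact h6.trans hp0⟩
      exact Algebra.IsAlgebraic.cardinalMk_le_max R E0
    have h4 : #R ≤ max (max #k0 #J) ℵ₀ := by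
      rw [hR]
      exact Algebra.cardinalMk_adjoin_le k0 J
    by_contra hcon
    push Not at hcon
    have h5 : #k + ℵ₀ < #C := Cardinal.add_lt_of_lt hCc.le hcon hCc
    have h6 : #E0 < #C := by
      refine h3.trans_lt (max_lt (h4.trans_lt (max_lt (max_lt (hk0.trans_lt hCc) ?_) hCc)) hCc)
      exact h1.trans_lt h5
    exact absurd (h2.trans_lt h6) (lt_irrefl _)
  · have hinj : Function.Injective η := hη.injective
    have h1 : (AlgebraicIndependent.matroid k F).Indep (Set.range η) := by
      rw [Matroid.indep_iff_forall_notMem_closure_sdiff (Set.subset_univ _)]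
      intro e he hcl
      have h2 : e ∈ clo k (Set.range η \ {e}) := by
        have : e ∈ (clo k (Set.range η \ {e}) : Set F) := by
          rw [coe_clo]
          exact hcl
        exact this
      have hTJ : T ⊆ J \ {e} := by
        intro z hz
        rw [hT] at hz
        refine ⟨hz.1, fun h => hz.2 ?_⟩
        rw [Set.mem_singleton_iff] at h
        rw [h]
        exact he
      have h3 : e ∈ clo k0 (J \ {e}) := by
        refine clo_tower (S := k) (fun z hz => clo_mono hTJ ((hk z).1 hz).2) ?_ h2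
        intro z hz
        exact subset_clo _ ⟨hIJ hz.1, hz.2⟩
      have h4 : e ∈ (AlgebraicIndependent.matroid k0 F).closure (J \ {e}) := by
        rw [← coe_clo]
        exact h3
      exact hJ.indep.notMem_closure_sdiff_of_mem (hIJ he) h4
    have h2 := AlgebraicIndependent.matroid_indep_iff.1 h1
    exact (algebraicIndependent_subtype_range hinj).1 h2

/-- **The ultraproduct with an embedding of the complex numbers over which given elements are
algebraically independent.** -/
theorem exists_package2 {A0 : Set ℂ} (hA0 : A0.Finite) {L : ℕ → Type} [∀ i, Field (L i)]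
    [∀ i, Algebra ℂ (L i)] (E : ∀ i, Derivation ℂ (L i) (L i)) {w : ℕ} (η : Fin w → ∀ i, L i)
    (hη : AlgebraicIndependent (Subfield.closure A0) fun j => um (η j)) :
    ∃ (F : Type) (_ : Field F) (_ : Algebra ℂ F) (u : (∀ i, L i) →+* F) (D : Derivation ℂ F F),
      Function.Surjective u ∧
      (∀ z, u z = 0 ↔ ∀ᶠ i in (hyperfilter ℕ : Filter ℕ), z i = 0) ∧
      (∀ c ∈ A0, algebraMap ℂ F c = u fun i => algebraMap ℂ (L i) c) ∧
      (∀ z, D (u z) = u fun i => E i (z i)) ∧
      (∀ c' : ℂ, ∃ c : ℕ → ℂ, algebraMap ℂ F c' = u fun i => algebraMap ℂ (L i) (c i)) ∧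
      AlgebraicIndependent ℂ fun j => u (η j) := by
  obtain ⟨k0, hk0⟩ : ∃ k0 : Subfield ℂ, k0 = Subfield.closure A0 := ⟨_, rfl⟩
  rw [← hk0] at hη
  have hR : #k0 ≤ ℵ₀ := by
    have h1 : #A0 ≤ ℵ₀ := hA0.countable.le_aleph0
    rw [hk0]
    exact (Subfield.cardinalMk_closure_le_max A0).trans (max_le h1 le_rfl)
  have hcl : IsAlgClosed (CU ℂ L) := CU_closed
  have hcard : #(CU ℂ L) = #ℂ := by
    obtain ⟨e⟩ := CU_card (L := L)
    exact (Cardinal.mk_congr e).symm
  have hlt : ℵ₀ < #(CU ℂ L) := by
    rw [hcard, Cardinal.mk_complex]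
    exact Cardinal.aleph0_lt_continuum
  obtain ⟨C, hC⟩ : ∃ C : IntermediateField k0 (UL L), ∀ z, z ∈ C ↔ z ∈ CU ℂ L :=
    ⟨(CU ℂ L).restrictScalars k0, fun z => Iff.rfl⟩
  have e1 : C = (CU ℂ L).restrictScalars k0 := by
    ext z
    exact hC z
  have hCcl : IsAlgClosed C := by
    rw [e1]
    exact hcl
  have hCc : #C = #(CU ℂ L) := by
    rw [e1]
    rfl
  obtain ⟨k, hkC, hkcl, hkc, hkη⟩ := exists_sub C hCcl hR (by rw [hCc]; exact hlt) hη
  obtain ⟨σ, hσ⟩ := exists_iso (K := ℂ) (L := k) k0.subtype (algebraMap k0 k)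
    Subtype.val_injective (algebraMap k0 k).injective hR
    (by rw [Cardinal.mk_complex]; exact Cardinal.aleph0_lt_continuum)
    (Cardinal.eq.1 (by rw [hkc, hCc, hcard]))
  have hσ' : ∀ c ∈ A0, ((σ c : k) : UL L) = um fun i => algebraMap ℂ (L i) c := by
    intro c hc
    have hc0 : c ∈ k0 := by
      rw [hk0]
      exact Subfield.subset_closure hc
    have h1 := hσ ⟨c, hc0⟩
    change σ c = _ at h1
    rw [h1]
    exact (um_alg c).symm
  obtain ⟨τ, hτ⟩ : ∃ τ : ℂ →+* UL L, ∀ c, τ c = ((σ c : k) : UL L) :=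
    ⟨k.val.toRingHom.comp (σ : ℂ →+* k), fun _ => rfl⟩
  have hmem : ∀ c, τ c ∈ CU ℂ L := fun c => by
    rw [hτ]
    exact (hC _).1 (hkC (σ c).2)
  have hker : ∀ c, DU E (τ c) = 0 := by
    intro c
    obtain ⟨d, hd⟩ := mem_CU.1 (hmem c)
    rw [hd, DU_um, um_zero_iff]
    exact Eventually.of_forall fun i => (E i).map_algebraMap _
  obtain ⟨D, hD⟩ := @twist ℂ ℂ (UL L) _ _ _ _ (DU E) τ.toAlgebra hker
  refine ⟨UL L, inferInstance, τ.toAlgebra, Ideal.Quotient.mk (ui L), D,
    Ideal.Quotient.mk_surjective, fun z => um_zero_iff, ?_, ?_, ?_, ?_⟩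
  · intro c hc
    exact (hτ c).trans (hσ' c hc)
  · intro z
    exact (hD _).trans (DU_um E z)
  · intro c'
    obtain ⟨d, hd⟩ := mem_CU.1 (hmem c')
    exact ⟨d, hd⟩
  · letI := τ.toAlgebra
    exact @ind_of_hom k ℂ (UL L) _ _ _ _ τ.toAlgebra (σ : ℂ →+* k) σ.injective
      (fun c => (hτ c).symm) _ _ hkη

end Pool.Agent.E8helper90.RC
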