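import Pool.Agent.E8helper90.RC.Rel
import Pool.Agent.E8helper90.RC.Fin

/-!
Varieties of general type over subfields of the field of the small functions: the main result.
-/

set_option autoImplicit false

namespace Pool.Agent.E8helper90.RC

open FF Pool.Agent.E8helper90.AF Pool.Agent.W602.GT Pool.Agent.W603.LV Filter
open scoped ENNReal
open Pool.Agent.E8helper90.GL (kerF mem_kerF ker_clo alg_of_field)
open Pool.Agent.TH600.LC (clo mem_clo inv_mem_clo subset_clo clo_le clo_mono adjoin_le_clo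
  der_mem_clo coe_clo)
open Pool.Agent.TH143.GT (Dual)

variable {k k' F : Type} [Field k] [Field k'] [Field F] [Algebra k F] [Algebra k' F]

theorem form_smallR [CharZero k] [CharZero k'] [Algebra k k'] [IsScalarTower k k' F] {r : ℕ}
    (hr : 0 < r) {G : RD k F r} (hk' : ∀ c : k', algebraMap k' F c ∈ G.S)
    (ha : ∀ j, ∃ c : k, G.a j = algebraMap k F c) (hb' : ∀ j, ∃ c : k, G.b j = algebraMap k F c)
    (hH : ∀ g ∈ clo G.S (Set.range G.x), g ∉ G.S → ∃ ε w, LV G ε w ∧ w g < 0)
    {ι : Type} {b : ι → F} (hb : FamR k' G b) {K : Type} [Field K] [Algebra k' K] [Algebra K F]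
    [IsScalarTower k' K F] [Algebra.EssFiniteType k' K]
    (hK : ∀ z : K, algebraMap K F z ∈ clo G.S (Set.range G.x)) {w N : ℕ}
    (htr : Algebra.trdeg k' K = w) (hN : 0 < N) {ω : (Fin w → Derivation k' K K) → K}
    (hω : IsPluri N ω) (hreg : ∀ P : Place k' K, Divisorial w P → RegAt P ω)
    {η : Fin w → K} {E : Fin w → Derivation k' K K} (hE : Dual η E)
    {E' : Fin w → Derivation k' F F} (hE' : ∀ i, GoodR k' G b (E' i)) :
    algebraMap K F (ω E) * (Matrix.of fun i j => E' i (algebraMap K F (η j))).det ^ N ∈ G.S := by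
  classical
  obtain ⟨g, hg⟩ : ∃ g : F, g = algebraMap K F (ω E) *
    (Matrix.of fun i j => E' i (algebraMap K F (η j))).det ^ N := ⟨_, rfl⟩
  rw [← hg]
  by_contra hgS
  have hy0 : ∀ j, G.y j ∈ clo G.S (Set.range G.x) := fun j =>
    R_le_L0 (ε := fun _ => true) (J := Set.univ) (by
      have h1 := RD.ch_mem (G := G) (ε := fun _ => true) (Set.mem_univ j) false
      have h2 : G.ch (fun _ => true) j false = G.y j := by simp [RD.ch]
      rwa [h2] at h1)
  have hEL : ∀ i, ∀ z ∈ clo G.S (Set.range G.x), E' i z ∈ clo G.S (Set.range G.x) := by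
    intro i z hz
    have hch : CharZero F := charZero_of_injective_algebraMap (algebraMap k F).injective
    have h1 := der_mem_clo (E' i) (fun c => ⟨⟨_, (hE' i).S c c.2⟩, rfl⟩) hz
    refine clo_le ?_ h1
    rintro _ (⟨j, rfl⟩ | ⟨_, ⟨j, rfl⟩, rfl⟩)
    · exact x_mem_L0 j
    · obtain ⟨c, hc⟩ := (hE' i).x j
      change E' i (G.x j) ∈ clo G.S (Set.range G.x)
      rw [hc]
      exact mem_L0.1 ((L0 G).mul_mem (mem_L0.2 (S_le_L0 (hk' c))) (mem_L0.2 (hy0 j)))
  have hgL : g ∈ clo G.S (Set.range G.x) := by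
    rw [hg]
    refine mem_L0.1 ((L0 G).mul_mem (mem_L0.2 (hK (ω E))) (pow_mem ?_ N))
    rw [Matrix.det_apply]
    refine sum_mem fun σ _ => ?_
    have h1 : ∏ i, (Matrix.of fun i j => E' i (algebraMap K F (η j))) (σ i) i ∈ L0 G :=
      prod_mem fun i _ => mem_L0.2 (hEL _ _ (hK (η i)))
    rcases Int.units_eq_one_or (Equiv.Perm.sign σ) with h | h
    · rw [h, one_smul]
      exact h1
    · rw [h, Units.neg_smul, one_smul]
      exact (L0 G).neg_mem h1
  obtain ⟨ε, wv, hv, hneg⟩ := hH g hgL hgS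
  obtain ⟨t, ht, hwt⟩ := hv.t
  obtain ⟨T, hTR, hT⟩ := hv.T
  obtain ⟨A, hA⟩ : ∃ A : Finset K, IntermediateField.adjoin k' (A : Set K) = ⊤ :=
    IntermediateField.fg_top_iff.2 inferInstance
  obtain ⟨A1, hA1⟩ : ∃ A1 : Set F, A1 = (algebraMap K F '' (A : Set K)) ∪
    ({t} ∪ (Set.range T ∪ Set.range G.y)) := ⟨_, rfl⟩
  have hA1f : A1.Finite := by
    rw [hA1]
    exact (A.finite_toSet.image _).union ((Set.finite_singleton t).union
      ((Set.finite_range T).union (Set.finite_range G.y)))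
  have hA1L : ∀ z ∈ A1, z ∈ clo G.S (Set.range G.x) := by
    rw [hA1]
    rintro z (⟨a, -, rfl⟩ | hz | ⟨i, rfl⟩ | ⟨j, rfl⟩)
    · exact hK a
    · rw [Set.mem_singleton_iff] at hz
      rw [hz]
      exact R_le_L0 ht
    · exact R_le_L0 (hTR i)
    · exact hy0 j
  obtain ⟨B, hB⟩ := clo_fin_set hA1f fun z hz => L0_cloR hb (hA1L z hz)
  obtain ⟨X, hX⟩ : ∃ X : Set F, X = Set.range G.x ∪ b '' (B : Set ι) := ⟨_, rfl⟩
  rw [← hX] at hB
  obtain ⟨L1, hL1⟩ : ∃ L1 : IntermediateField k' F, L1 = IntermediateField.adjoin k' (X ∪ A1) :=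
    ⟨_, rfl⟩
  have hXL : ∀ z ∈ X, z ∈ L1 := fun z hz => by
    rw [hL1]
    exact IntermediateField.subset_adjoin _ _ (Or.inl hz)
  have hAL : ∀ z ∈ A1, z ∈ L1 := fun z hz => by
    rw [hL1]
    exact IntermediateField.subset_adjoin _ _ (Or.inr hz)
  have hKL : ∀ z : K, algebraMap K F z ∈ L1 := by
    have h1 : (⊤ : IntermediateField k' K) ≤ L1.comap (IsScalarTower.toAlgHom k' K F) := by
      rw [← hA, IntermediateField.adjoin_le_iff]
      intro z hz
      exact hAL _ (by rw [hA1]; exact Or.inl ⟨z, hz, rfl⟩)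
    exact fun z => h1 (IntermediateField.mem_top (x := z))
  have htL : t ∈ L1 := hAL t (by rw [hA1]; exact Or.inr (Or.inl rfl))
  have hTL : ∀ i, T i ∈ L1 := fun i => hAL _ (by
    rw [hA1]; exact Or.inr (Or.inr (Or.inl ⟨i, rfl⟩)))
  have hyL : ∀ j, G.y j ∈ L1 := fun j => hAL _ (by
    rw [hA1]; exact Or.inr (Or.inr (Or.inr ⟨j, rfl⟩)))
  have hxL : ∀ j, G.x j ∈ L1 := fun j => hXL _ (by rw [hX]; exact Or.inl ⟨j, rfl⟩)
  have hbL : ∀ i ∈ B, b i ∈ L1 := fun i hi => hXL _ (by
    rw [hX]; exact Or.inr ⟨i, Finset.mem_coe.2 hi, rfl⟩)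
  have hcX : ∀ z ∈ clo k' X, z ∈ clo G.S (Set.range G.x) := by
    intro z hz
    have h1 : z ∈ clo k' (L0 G : Set F) := clo_mono (by
      intro v hv
      rw [hX] at hv
      rcases hv with ⟨j, rfl⟩ | ⟨i, -, rfl⟩
      · exact mem_L0.2 (x_mem_L0 j)
      · exact mem_L0.2 (S_le_L0 (hb.mem i))) hz
    apply alg_clo'
    refine alg_mono _ _ (fun v hv => ?_) (mem_clo.1 h1)
    induction hv using Algebra.adjoin_induction with
    | mem v hv => exact mem_L0.1 hv
    | algebraMap c => exact S_le_L0 (hk' c)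
    | add u v _ _ hu hv => exact Subalgebra.add_mem _ hu hv
    | mul u v _ _ hu hv => exact Subalgebra.mul_mem _ hu hv
  have hL1X : ∀ z ∈ L1, z ∈ clo k' X := by
    have h1 : L1 ≤ (clo k' X).toIntermediateField fun _ h => inv_mem_clo h := by
      rw [hL1, IntermediateField.adjoin_le_iff]
      rintro z (hz | hz)
      · exact subset_clo _ hz
      · exact hB z hz
    exact fun z hz => h1 hz
  have hL1L : ∀ z ∈ L1, z ∈ clo G.S (Set.range G.x) := fun z hz => hcX z (hL1X z hz)
  -- the place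
  let P : Place k' L1 :=
    { ord := fun z => wv (z : F)
      ord_zero := hv.zero
      ord_mul := fun {f g} hf hg => hv.mul _ (hL1L f f.2) _ (hL1L g g.2)
        (fun h => hf (Subtype.ext h)) fun h => hg (Subtype.ext h)
      ord_add := fun {f g} hf hg hfg => hv.add _ (hL1L f f.2) _ (hL1L g g.2)
        (fun h => hf (Subtype.ext h)) (fun h => hg (Subtype.ext h)) fun h => hfg (Subtype.ext h)
      ord_const := fun {c} _ => hv.S _ (hk' c)
      surj := ⟨⟨t, htL⟩, fun h => by
        have h1 : t = 0 := congrArg Subtype.val h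
        rw [h1, hv.zero] at hwt
        exact zero_ne_one hwt, hwt⟩ }
  have hPord : ∀ z : L1, P.ord z = wv (z : F) := fun _ => rfl
  -- the transcendence degree
  obtain ⟨m, hm⟩ : ∃ m, m = (r - 1) + B.card := ⟨_, rfl⟩
  have htrL : Algebra.trdeg k' L1 = (m + 1 : ℕ) := by
    let q1 : Fin r ⊕ B → L1 := Sum.elim (fun j => ⟨G.x j, hxL j⟩) fun i => ⟨b i, hbL i i.2⟩
    have hq0 : (fun s => (q1 s : F)) = (Sum.elim G.x b) ∘ (Sum.map id Subtype.val) := by
      funext s
      rcases s with s | s <;> rfl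
    have hq1 : AlgebraicIndependent k' q1 := by
      refine (AlgHom.algebraicIndependent_iff L1.val Subtype.val_injective).1 ?_
      change AlgebraicIndependent k' fun s => (q1 s : F)
      rw [hq0]
      exact hb.ind.comp _ (Sum.map_injective.2 ⟨Function.injective_id, Subtype.val_injective⟩)
    have hq2 : IsTranscendenceBasis k' q1 := by
      refine hq1.isTranscendenceBasis_iff_isAlgebraic.2 ⟨fun z => alg_sub L1 q1 ?_⟩
      refine clo_mono ?_ (hL1X z z.2)
      rw [hX]
      rintro z (⟨j, rfl⟩ | ⟨i, hi, rfl⟩)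
      · exact ⟨Sum.inl j, rfl⟩
      · exact ⟨Sum.inr ⟨i, hi⟩, rfl⟩
    rw [← hq2.cardinalMk_eq_trdeg]
    simp only [Cardinal.mk_sum, Cardinal.mk_fin, Cardinal.mk_coe_finset, Cardinal.lift_natCast,
      Cardinal.lift_id]
    rw [hm]
    norm_cast
    omega
  have hess : Algebra.EssFiniteType k' L1 := by
    refine IntermediateField.essFiniteType_iff.2 ?_
    rw [hL1]
    refine IntermediateField.fg_adjoin_of_finite (Set.Finite.union ?_ hA1f)
    rw [hX]
    exact (Set.finite_range _).union (B.finite_toSet.image _)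
  -- residually independent elements
  have hcard : Fintype.card (Fin (r - 1) ⊕ B) = m := by
    rw [Fintype.card_sum, Fintype.card_fin, Fintype.card_coe, hm]
  let e : Fin m ≃ Fin (r - 1) ⊕ B := (Fintype.equivFinOfCardEq hcard).symm
  let y1 : Fin (r - 1) ⊕ B → L1 := Sum.elim (fun i => ⟨T i, hTL i⟩) fun i => ⟨b i, hbL i i.2⟩
  have hy1 : (fun s => (y1 s : F)) = Sum.elim T fun i : B => b i := by
    funext s
    rcases s with s | s <;> rfl
  have hres : ∀ p : MvPolynomial (Fin m) k', p ≠ 0 →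
      MvPolynomial.aeval (fun i => y1 (e i)) p ≠ 0 ∧
        P.ord (MvPolynomial.aeval (fun i => y1 (e i)) p) = 0 := by
    intro p hp
    have h1 : ((MvPolynomial.aeval (fun i => y1 (e i)) p : L1) : F) =
        MvPolynomial.aeval (Sum.elim T fun i : B => b i) (MvPolynomial.rename e p) := by
      have h2 := MvPolynomial.comp_aeval_apply (f := fun i => y1 (e i)) L1.val p
      change ((MvPolynomial.aeval (fun i => y1 (e i)) p : L1) : F) = _ at h2
      rw [h2, MvPolynomial.aeval_rename]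
      congr 2
      funext i
      exact congrFun hy1 (e i)
    have h3 : MvPolynomial.rename e p ≠ 0 := by
      rw [Ne, ← map_zero (MvPolynomial.rename (R := k') e),
        (MvPolynomial.rename_injective e e.injective).eq_iff]
      exact hp
    obtain ⟨h4, h5⟩ := residR hk' hb B hT _ h3
    rw [← h1] at h4 h5
    exact ⟨fun h => h4 (by rw [h]; rfl), h5⟩
  have hdiv : Divisorial (m + 1) P := ⟨fun i => y1 (e i), hres⟩
  -- the derivations
  have hstab : ∀ i, ∀ z ∈ L1, E' i z ∈ L1 := by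
    intro i
    rw [hL1]
    refine stab_adjoin ?_ hB
    intro z hz
    rw [← hL1]
    rw [hX] at hz
    rcases hz with ⟨j, rfl⟩ | ⟨l, -, rfl⟩
    · obtain ⟨c, hc⟩ := (hE' i).x j
      rw [hc]
      exact L1.mul_mem (L1.algebraMap_mem c) (hyL j)
    · obtain ⟨c, hc⟩ := (hE' i).b l
      rw [hc]
      exact L1.algebraMap_mem c
  obtain ⟨D, hD⟩ : ∃ D : Fin w → Derivation k' L1 L1, ∀ i z, (D i z : F) = E' i (z : F) :=
    ⟨fun i => resDerF (E' i) L1 (hstab i), fun i z => coe_resDerF _ _ _ _⟩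
  have hDR : ∀ i, ∀ z : L1, (z : F) ∈ G.R ε Set.univ → P.Reg (D i z) := by
    intro i z hz
    right
    rw [hPord, hD]
    exact hv.R _ ((hE' i).R hk' ha hb' ε _ hz)
  have hDreg : ∀ i, DerReg P (D i) := by
    intro i
    refine der_reg' htrL P (s := ⟨t, htL⟩) (y' := fun l => y1 (e l)) hwt hres (D i) ?_ ?_
    · exact hDR i _ ht
    · intro l
      rcases h : e l with j | j
      · refine hDR i _ ?_
        exact hTR j
      · right
        rw [hPord, hD]
        obtain ⟨c, hc⟩ := (hE' i).b j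
        have h1 : E' i ((y1 (Sum.inr j) : L1) : F) = algebraMap k' F c := hc
        rw [h1, hv.S _ (hk' c)]
  let iA : Algebra K L1 := ({
    toFun := fun z => ⟨algebraMap K F z, hKL z⟩
    map_one' := Subtype.ext (map_one _)
    map_mul' := fun a b => Subtype.ext (map_mul _ a b)
    map_zero' := Subtype.ext (map_zero _)
    map_add' := fun a b => Subtype.ext (map_add _ a b) } : K →+* L1).toAlgebra
  have hst : IsScalarTower k' K L1 := IsScalarTower.of_algebraMap_eq fun c =>
    Subtype.ext (IsScalarTower.algebraMap_apply k' K F c)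
  have hfin := pluri_reg (K := K) (L := L1) htr htrL hN hω hreg hE P hdiv D hDreg
  have hcoe : ((algebraMap K L1 (ω E) *
      (Matrix.of fun i j => D i (algebraMap K L1 (η j))).det ^ N : L1) : F) = g := by
    rw [hg]
    change algebraMap K F (ω E) * (L1.val
      (Matrix.of fun i j => D i (algebraMap K L1 (η j))).det) ^ N = _
    have h1 : L1.val (Matrix.of fun i j => D i (algebraMap K L1 (η j))).det =
        (Matrix.of fun i j => E' i (algebraMap K F (η j))).det := by
      rw [AlgHom.map_det]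
      congr 1
      ext i j
      exact hD i _
    rw [h1]
  rcases hfin with h | h
  · rw [h] at hcoe
    have h0 : g = 0 := hcoe.symm
    rw [h0, hv.zero] at hneg
    exact lt_irrefl _ hneg
  · rw [hPord, hcoe] at h
    omega

/-- **Varieties of general type over subfields of the field of small functions.** -/
theorem core_algR [CharZero k] [CharZero k'] [Algebra k k'] [IsScalarTower k k' F] {r : ℕ}
    {G : RD k F r} (hk' : ∀ c : k', algebraMap k' F c ∈ G.S)
    (ha : ∀ j, ∃ c : k, G.a j = algebraMap k F c) (hb' : ∀ j, ∃ c : k, G.b j = algebraMap k F c)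
    (hH : ∀ g ∈ clo G.S (Set.range G.x), g ∉ G.S → ∃ ε w, LV G ε w ∧ w g < 0)
    {K : Type} [Field K] [Algebra k' K] [Algebra K F]
    [IsScalarTower k' K F] [Algebra.EssFiniteType k' K]
    (hK : ∀ z : K, algebraMap K F z ∈ clo G.S (Set.range G.x)) {w : ℕ}
    (hGT : GeneralType k' K w) : ∀ z : K, algebraMap K F z ∈ G.S := by
  classical
  rcases Nat.eq_zero_or_pos r with hr | hr
  · subst hr
    intro z
    apply G.closed
    have h1 := mem_clo.1 (hK z)
    have h2 : Set.range G.x = ∅ := Set.range_eq_empty _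
    rw [h2, Algebra.adjoin_empty] at h1
    obtain ⟨p, hp, hp0⟩ := h1
    let e := (Algebra.botEquiv G.S F)
    refine ⟨p.map (e : _ →+* _), (Polynomial.map_ne_zero_iff e.injective).2 hp, ?_⟩
    rw [Polynomial.aeval_def, Polynomial.eval₂_map, ← hp0, Polynomial.aeval_def]
    congr 1
    ext c
    have h4 : algebraMap G.S (⊥ : Subalgebra G.S F) (e c) = c := by
      have h5 : e (algebraMap G.S (⊥ : Subalgebra G.S F) (e c)) = e c := e.commutes (e c)
      exact e.injective h5
    change algebraMap G.S F (e c) = (c : F)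
    conv_rhs => rw [← h4]
    rfl
  obtain ⟨htr, N, hN, ω, hω, hreg, D0, hD0, hind⟩ := hGT
  obtain ⟨ι, b, hb⟩ := exists_famR G hk'
  obtain ⟨κ, η0, hη0⟩ := exists_isTranscendenceBasis' k' K
  have hcard : Cardinal.mk κ = Cardinal.mk (Fin w) := by
    rw [hη0.cardinalMk_eq_trdeg, htr, Cardinal.mk_fin]
  obtain ⟨e⟩ := Cardinal.eq.1 hcard
  obtain ⟨η, hη⟩ : ∃ η : Fin w → K, IsTranscendenceBasis k' η :=
    ⟨η0 ∘ e.symm, (isTranscendenceBasis_equiv e.symm).2 hη0⟩
  choose E hE using fun i : Fin w => Pool.Agent.W619.PQ.exists_dual η hη i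
  have hdual : Dual η E := ⟨hη, fun i j => by
    rw [hE]
    by_cases h : j = i
    · rw [if_pos h, if_pos h.symm]
    · rw [if_neg h, if_neg (Ne.symm h)]⟩
  have hηF : AlgebraicIndependent k' fun i => algebraMap K F (η i) :=
    (AlgHom.algebraicIndependent_iff (IsScalarTower.toAlgHom k' K F)
      (algebraMap K F).injective).2 hη.1
  obtain ⟨E', hE', hdet⟩ := exists_goodR (fun j => RD.y_ne (G := G) j) hb hηF fun i => hK (η i)
  have hgS : ∀ a, algebraMap K F (ω a E) *
      (Matrix.of fun i j => E' i (algebraMap K F (η j))).det ^ N ∈ G.S :=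
    fun a => form_smallR hr hk' ha hb' hH hb hK htr hN (hω a) (fun P hP => hreg P hP a) hdual hE'
  have hω0 : ∀ a, ω a D0 = (Matrix.of fun i j => D0 i (η j)).det ^ N * ω a E :=
    fun a => pluri_eq (hω a) hdual D0
  have hd0 : (Matrix.of fun i j => D0 i (η j)).det ^ N ≠ 0 := fun h => hD0 (by
    rw [hω0, h, zero_mul])
  have hrat : ∀ i : Fin w, algebraMap K F (ω i.succ D0 / ω 0 D0) ∈ G.S := by
    intro i
    have h1 : algebraMap K F (ω i.succ D0 / ω 0 D0) =
        (algebraMap K F (ω i.succ E) *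
          (Matrix.of fun i j => E' i (algebraMap K F (η j))).det ^ N) /
        (algebraMap K F (ω 0 E) *
          (Matrix.of fun i j => E' i (algebraMap K F (η j))).det ^ N) := by
      have h2 : ω i.succ D0 / ω 0 D0 = ω i.succ E / ω 0 E := by
        rw [hω0, hω0, mul_div_mul_left _ _ hd0]
      rw [h2, mul_div_mul_right _ _ (pow_ne_zero N hdet), map_div₀]
    rw [h1]
    exact G.S.div_mem (hgS _) (hgS _)
  have hbas : IsTranscendenceBasis k' fun i : Fin w => ω i.succ D0 / ω 0 D0 := by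
    apply hind.isTranscendenceBasis_of_lift_trdeg_le_of_finite
    rw [htr]
    simp
  intro z
  apply G.closed
  obtain ⟨p, hp, hp0⟩ := hbas.isAlgebraic.isAlgebraic z
  have hle : ∀ c ∈ Algebra.adjoin k' (Set.range fun i : Fin w => ω i.succ D0 / ω 0 D0),
      algebraMap K F c ∈ G.S := by
    intro c hc
    induction hc using Algebra.adjoin_induction with
    | mem v hv =>
      obtain ⟨i, rfl⟩ := hv
      exact hrat i
    | algebraMap c =>
      rw [← IsScalarTower.algebraMap_apply]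
      exact hk' c
    | add u v _ _ hu hv => rw [map_add]; exact G.S.add_mem hu hv
    | mul u v _ _ hu hv => rw [map_mul]; exact G.S.mul_mem hu hv
  let φ : Algebra.adjoin k' (Set.range fun i : Fin w => ω i.succ D0 / ω 0 D0) →+* G.S :=
    { toFun := fun c => ⟨algebraMap K F c, hle _ c.2⟩
      map_one' := Subtype.ext (map_one _)
      map_mul' := fun a b => Subtype.ext (map_mul _ _ _)
      map_zero' := Subtype.ext (map_zero _)
      map_add' := fun a b => Subtype.ext (map_add _ _ _) }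
  have hφ : Function.Injective φ := by
    intro a b hab
    have h1 : algebraMap K F (a : K) = algebraMap K F (b : K) :=
      congrArg (fun s : G.S => (s : F)) hab
    exact Subtype.ext ((algebraMap K F).injective h1)
  refine ⟨p.map φ, (Polynomial.map_ne_zero_iff hφ).2 hp, ?_⟩
  have h4 := Polynomial.hom_eval₂ p (algebraMap _ K) (algebraMap K F) z
  rw [Polynomial.aeval_def] at hp0
  rw [hp0, map_zero] at h4
  rw [Polynomial.aeval_def, Polynomial.eval₂_map, h4]
  rfl

/-- **Quotients of relative pluricanonical forms.** -/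
theorem ratio_smallR [CharZero k] [CharZero k'] [Algebra k k'] [IsScalarTower k k' F] {r : ℕ}
    {G : RD k F r} (hk' : ∀ c : k', algebraMap k' F c ∈ G.S)
    (ha : ∀ j, ∃ c : k, G.a j = algebraMap k F c) (hb' : ∀ j, ∃ c : k, G.b j = algebraMap k F c)
    (hH : ∀ g ∈ clo G.S (Set.range G.x), g ∉ G.S → ∃ ε w, LV G ε w ∧ w g < 0)
    {K : Type} [Field K] [Algebra k' K] [Algebra K F]
    [IsScalarTower k' K F] [Algebra.EssFiniteType k' K]
    (hK : ∀ z : K, algebraMap K F z ∈ clo G.S (Set.range G.x)) {w N : ℕ}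
    (htr : Algebra.trdeg k' K = w) (hN : 0 < N) {ω ω' : (Fin w → Derivation k' K K) → K}
    (hω : IsPluri N ω) (hω' : IsPluri N ω')
    (hreg : ∀ P : Place k' K, Divisorial w P → RegAt P ω)
    (hreg' : ∀ P : Place k' K, Divisorial w P → RegAt P ω')
    {D0 : Fin w → Derivation k' K K} (hD0 : ω D0 ≠ 0) : algebraMap K F (ω' D0 / ω D0) ∈ G.S := by
  classical
  rcases Nat.eq_zero_or_pos r with hr | hr
  · subst hr
    apply G.closed
    have h1 := mem_clo.1 (hK (ω' D0 / ω D0))
    have h2 : Set.range G.x = ∅ := Set.range_eq_empty _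
    rw [h2, Algebra.adjoin_empty] at h1
    obtain ⟨p, hp, hp0⟩ := h1
    let e := (Algebra.botEquiv G.S F)
    refine ⟨p.map (e : _ →+* _), (Polynomial.map_ne_zero_iff e.injective).2 hp, ?_⟩
    rw [Polynomial.aeval_def, Polynomial.eval₂_map, ← hp0, Polynomial.aeval_def]
    congr 1
    ext c
    have h4 : algebraMap G.S (⊥ : Subalgebra G.S F) (e c) = c := by
      have h5 : e (algebraMap G.S (⊥ : Subalgebra G.S F) (e c)) = e c := e.commutes (e c)
      exact e.injective h5
    change algebraMap G.S F (e c) = (c : F)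
    conv_rhs => rw [← h4]
    rfl
  obtain ⟨ι, b, hb⟩ := exists_famR G hk'
  obtain ⟨κ, η0, hη0⟩ := exists_isTranscendenceBasis' k' K
  have hcard : Cardinal.mk κ = Cardinal.mk (Fin w) := by
    rw [hη0.cardinalMk_eq_trdeg, htr, Cardinal.mk_fin]
  obtain ⟨e⟩ := Cardinal.eq.1 hcard
  obtain ⟨η, hη⟩ : ∃ η : Fin w → K, IsTranscendenceBasis k' η :=
    ⟨η0 ∘ e.symm, (isTranscendenceBasis_equiv e.symm).2 hη0⟩
  choose E hE using fun i : Fin w => Pool.Agent.W619.PQ.exists_dual η hη i
  have hdual : Dual η E := ⟨hη, fun i j => by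
    rw [hE]
    by_cases h : j = i
    · rw [if_pos h, if_pos h.symm]
    · rw [if_neg h, if_neg (Ne.symm h)]⟩
  have hηF : AlgebraicIndependent k' fun i => algebraMap K F (η i) :=
    (AlgHom.algebraicIndependent_iff (IsScalarTower.toAlgHom k' K F)
      (algebraMap K F).injective).2 hη.1
  obtain ⟨E', hE', hdet⟩ := exists_goodR (fun j => RD.y_ne (G := G) j) hb hηF fun i => hK (η i)
  have hg1 := form_smallR hr hk' ha hb' hH hb hK htr hN hω hreg hdual hE'
  have hg2 := form_smallR hr hk' ha hb' hH hb hK htr hN hω' hreg' hdual hE'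
  have hω0 : ω D0 = (Matrix.of fun i j => D0 i (η j)).det ^ N * ω E := pluri_eq hω hdual D0
  have hω1 : ω' D0 = (Matrix.of fun i j => D0 i (η j)).det ^ N * ω' E := pluri_eq hω' hdual D0
  have hd0 : (Matrix.of fun i j => D0 i (η j)).det ^ N ≠ 0 := fun h => hD0 (by
    rw [hω0, h, zero_mul])
  have h1 : algebraMap K F (ω' D0 / ω D0) =
      (algebraMap K F (ω' E) *
        (Matrix.of fun i j => E' i (algebraMap K F (η j))).det ^ N) /
      (algebraMap K F (ω E) *
        (Matrix.of fun i j => E' i (algebraMap K F (η j))).det ^ N) := by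
    have h2 : ω' D0 / ω D0 = ω' E / ω E := by
      rw [hω0, hω1, mul_div_mul_left _ _ hd0]
    rw [h2, mul_div_mul_right _ _ (pow_ne_zero N hdet), map_div₀]
  rw [h1]
  exact G.S.div_mem hg2 hg1

/-- **Quotients of relative pluricanonical forms are small.** -/
theorem abs_ratioR {I : Type} {X : PS k F I} (h : PC X) [CharZero k] [CharZero k'] [Algebra k k']
    [IsScalarTower k k' F] {n : ℕ} (x y : Fin n → F) (a b : Fin n → k)
    (hab : ∀ j, 4 * a j ^ 3 + 27 * b j ^ 2 ≠ 0)
    (hxy : ∀ j, y j ^ 2 = x j ^ 3 + algebraMap k F (a j) * x j + algebraMap k F (b j))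
    (c : Fin n → F) (hc : ∀ j, c j ∈ SF h) (hD : ∀ j, X.D (x j) = c j * y j)
    (hfin : ∀ j, X.m (X.pl (x j)) ≠ ∞) (hk' : ∀ c : k', algebraMap k' F c ∈ SF h)
    {K : Type} [Field K] [Algebra k' K] [Algebra K F] [IsScalarTower k' K F]
    [Algebra.EssFiniteType k' K] (hK : ∀ z : K, algebraMap K F z ∈ clo (SF h) (Set.range x))
    {w N : ℕ} (htr : Algebra.trdeg k' K = w) (hN : 0 < N)
    {ω ω' : (Fin w → Derivation k' K K) → K}
    (hω : IsPluri N ω) (hω' : IsPluri N ω')
    (hreg : ∀ P : Place k' K, Divisorial w P → RegAt P ω)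
    (hreg' : ∀ P : Place k' K, Divisorial w P → RegAt P ω')
    {D0 : Fin w → Derivation k' K K} (hD0 : ω D0 ≠ 0) :
    algebraMap K F (ω' D0 / ω D0) ∈ SF h := by
  obtain ⟨r, G, h1, h2, h3, h4, h5⟩ := exists_RD h x y a b hab hxy c hc hD hfin
  exact (h1 _).1 (ratio_smallR (fun c => (h1 _).2 (hk' c)) h2 h3 h5
    (fun z => h4 _ (hK z)) htr hN hω hω' hreg hreg' hD0)

/-- **Functions on varieties of general type over fields of small functions are small.** -/
theorem abs_rel {I : Type} {X : PS k F I} (h : PC X) [CharZero k] [CharZero k'] [Algebra k k']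
    [IsScalarTower k k' F] {n : ℕ} (x y : Fin n → F) (a b : Fin n → k)
    (hab : ∀ j, 4 * a j ^ 3 + 27 * b j ^ 2 ≠ 0)
    (hxy : ∀ j, y j ^ 2 = x j ^ 3 + algebraMap k F (a j) * x j + algebraMap k F (b j))
    (c : Fin n → F) (hc : ∀ j, c j ∈ SF h) (hD : ∀ j, X.D (x j) = c j * y j)
    (hfin : ∀ j, X.m (X.pl (x j)) ≠ ∞) (hk' : ∀ c : k', algebraMap k' F c ∈ SF h)
    {K : Type} [Field K] [Algebra k' K] [Algebra K F] [IsScalarTower k' K F]
    [Algebra.EssFiniteType k' K] (hK : ∀ z : K, algebraMap K F z ∈ clo (SF h) (Set.range x))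
    {w : ℕ} (hGT : GeneralType k' K w) : ∀ z : K, algebraMap K F z ∈ SF h := by
  obtain ⟨r, G, h1, h2, h3, h4, h5⟩ := exists_RD h x y a b hab hxy c hc hD hfin
  exact fun z => (h1 _).1 (core_algR (fun c => (h1 _).2 (hk' c)) h2 h3 h5
    (fun z => h4 _ (hK z)) hGT z)

end Pool.Agent.E8helper90.RC
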