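import Pool.Agent.E8helper90.RC.Ulg

/-!
Varieties with quasi-finite maps to products of elliptic curves and affine spaces.
-/

set_option autoImplicit false

namespace Pool.Agent.E8helper90.RC

open FF Filter MvPolynomial Pool.Agent.E8helper90.AF
open Pool.Agent.W602.GT (GeneralType coords)
open Pool.Agent.W603.LV (hgt hgt_nonneg hgt_finset hgt_inv canDeg)
open Pool.Agent.W603.PV (pht pht_le hgt_mvpolyF)
open Pool.Agent.W603.CY (hgt_add_le hgt_mul_le)
open Pool.Agent.W603.CX (hgt_le_pht)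
open Pool.Agent.TH600.LC (clo mem_clo inv_mem_clo subset_clo clo_le clo_mono adjoin_le_clo
  coe_clo)

section one

variable {K : Type} [Field K] [Algebra ℂ K] [IsFF ℂ K]

theorem hgt_le_pht' {N : ℕ} (f : Fin (N + 1) → K) {l : Fin (N + 1)} (hl : f l ≠ 0)
    (j : Fin (N + 1)) : hgt ℂ (f j / f l) ≤ pht ℂ f := by
  by_cases hj : f j = 0
  · have h1 := hgt_le_pht (k := ℂ) f hl hl
    rw [div_self hl] at h1
    rw [hj, zero_div, hgt_const ⟨0, (map_zero _).symm⟩]
    rwa [hgt_const ⟨1, (map_one _).symm⟩] at h1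
  · exact hgt_le_pht f hj hl

/-- heights of values of polynomials -/
theorem hgt_at3 {N r M : ℕ} (f : Fin (N + 1) → K) {l : Fin (N + 1)} (hl : f l ≠ 0)
    (t : Fin r → ℂ) (β : Fin M → K) {d : ℕ} (hβ : ∀ s, hgt ℂ (β s) ≤ d)
    (G : MvPolynomial (Fin (N + 1) ⊕ Fin r ⊕ Fin M) ℂ) :
    hgt ℂ (at3 (fun j => f j / f l) t β G) ≤
      (G.totalDegree * (N + 1 + M) : ℕ) * (pht ℂ f + d) := by
  have h1 := hgt_mvpolyF (k := ℂ) (Sum.elim (fun j => f j / f l)
    (Sum.elim (fun l => algebraMap ℂ K (t l)) β)) G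
  have h2 : ∑ α ∈ G.support, hgt ℂ (algebraMap ℂ K (G.coeff α)) = 0 :=
    Finset.sum_eq_zero fun α _ => hgt_const ⟨_, rfl⟩
  rw [h2, add_zero] at h1
  refine h1.trans ?_
  have h3 : ∑ s, hgt ℂ ((Sum.elim (fun j => f j / f l)
      (Sum.elim (fun l => algebraMap ℂ K (t l)) β) : Fin (N + 1) ⊕ Fin r ⊕ Fin M → K) s) ≤
      ((N + 1 + M : ℕ) : ℤ) * (pht ℂ f + d) := by
    rw [Fintype.sum_sum_type, Fintype.sum_sum_type]
    simp only [Sum.elim_inl, Sum.elim_inr]
    have h4 : ∑ j, hgt ℂ (f j / f l) ≤ ∑ j : Fin (N + 1), (pht ℂ f + d) :=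
      Finset.sum_le_sum fun j _ => by
        have := hgt_le_pht' f hl j
        have h0 : (0 : ℤ) ≤ d := by positivity
        linarith
    have h5 : ∑ j : Fin r, hgt ℂ (algebraMap ℂ K (t j)) = 0 :=
      Finset.sum_eq_zero fun j _ => hgt_const ⟨_, rfl⟩
    have hp : 0 ≤ pht ℂ f := by
      have h6 := hgt_le_pht' f hl l
      exact (hgt_nonneg _).trans h6
    have h6 : ∑ j, hgt ℂ (β j) ≤ ∑ j : Fin M, (pht ℂ f + d) :=
      Finset.sum_le_sum fun j _ => by
        have := hβ j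
        linarith
    rw [Finset.sum_const, Finset.card_univ, Fintype.card_fin, nsmul_eq_mul] at h4 h6
    rw [h5, zero_add]
    push_cast at h4 ⊢
    linarith
  refine (mul_le_mul_of_nonneg_left h3 (by positivity)).trans (le_of_eq ?_)
  push_cast
  ring

omit [IsFF ℂ K] in
theorem at3_div {N r M m : ℕ} (f : Fin (N + 1) → K) {l : Fin (N + 1)} (hl : f l ≠ 0)
    (t : Fin r → ℂ) (β : Fin M → K) {P R : MvPolynomial (Fin (N + 1) ⊕ Fin r ⊕ Fin M) ℂ}
    (hP : FormIn m P) (hR : FormIn m R) :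
    at3 (fun j => f j / f l) t β P / at3 (fun j => f j / f l) t β R =
      at3 f t β P / at3 f t β R := by
  unfold at3
  rw [hP.scale hl f, hR.scale hl f, mul_div_mul_left _ _ (pow_ne_zero m hl)]

end one

/-- **Varieties of general type which are quasi-finite over a product of elliptic curves and an
affine space.** -/
theorem main {N r M n : ℕ} {ι κ η : Type} [Finite ι] [Finite κ] [Finite η]
    (F : ι → MvPolynomial (Fin (N + 1) ⊕ Fin r) ℂ) (J : κ → MvPolynomial (Fin (N + 1) ⊕ Fin r) ℂ)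
    (H : η → MvPolynomial (Fin (N + 1) ⊕ Fin r ⊕ Fin M) ℂ)
    (P Q R : Fin n → MvPolynomial (Fin (N + 1) ⊕ Fin r ⊕ Fin M) ℂ)
    (hF : ∀ e, ∃ m, FormIn m (F e)) (hJ : ∀ e, ∃ m, FormIn m (J e))
    (hH : ∀ e, ∃ m, FormIn m (H e))
    (hP : ∀ c, ∃ m, FormIn m (P c) ∧ FormIn m (R c))
    (hGT : SubGT F J) (hqf : QFin F J H P R) :
    ∃ A : ℕ, ∀ (K : Type) [Field K] [Algebra ℂ K] [IsFF ℂ K] (d : ℕ) (t : Fin r → ℂ)
      (f : Fin (N + 1) → K) (β : Fin M → K) (a b : Fin n → ℂ),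
      (∃ l, f l ≠ 0) → (∀ e, at2 f t (F e) = 0) → (∃ e, at2 f t (J e) ≠ 0) →
      (∀ e, at3 f t β (H e) = 0) → (∀ s, hgt ℂ (β s) ≤ d) →
      (∀ c, 4 * a c ^ 3 + 27 * b c ^ 2 ≠ 0) →
      (∀ c, at3 f t β (R c) ≠ 0 → at3 f t β (Q c) ^ 2 * at3 f t β (R c) =
        at3 f t β (P c) ^ 3 + algebraMap ℂ K (a c) * at3 f t β (P c) * at3 f t β (R c) ^ 2 +
          algebraMap ℂ K (b c) * at3 f t β (R c) ^ 3) →
      pht ℂ f ≤ A * (max (canDeg ℂ K) 0 + d) := by
  classical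
  by_contra hcon
  push Not at hcon
  choose L hi1 hi2 hi3 d t f β a b q1 q2 q3 q4 q5 q6 q7 q8 using hcon
  choose lf hlf0 using q1
  obtain ⟨g, hg⟩ : ∃ g : Fin (N + 1) → ∀ i, L i, ∀ j i, g j i = f i j / f i (lf i) :=
    ⟨fun j i => f i j / f i (lf i), fun _ _ => rfl⟩
  obtain ⟨A0, hA0⟩ : ∃ A0 : Set ℂ, A0 = (⋃ e, (fun α => (F e).coeff α) '' (F e).support) ∪
    ((⋃ e, (fun α => (J e).coeff α) '' (J e).support) ∪
    ((⋃ e, (fun α => (H e).coeff α) '' (H e).support) ∪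
    ((⋃ e, (fun α => (P e).coeff α) '' (P e).support) ∪
    ⋃ e, (fun α => (R e).coeff α) '' (R e).support))) := ⟨_, rfl⟩
  have hA0f : A0.Finite := by
    rw [hA0]
    refine (Set.finite_iUnion fun i => (Finset.finite_toSet _).image _).union
      ((Set.finite_iUnion fun i => (Finset.finite_toSet _).image _).union
      ((Set.finite_iUnion fun i => (Finset.finite_toSet _).image _).union
      ((Set.finite_iUnion fun i => (Finset.finite_toSet _).image _).union
      (Set.finite_iUnion fun i => (Finset.finite_toSet _).image _))))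
  have cF : ∀ e, ∀ α ∈ (F e).support, (F e).coeff α ∈ A0 := fun e α hα => by
    rw [hA0]
    exact Or.inl (Set.mem_iUnion.2 ⟨e, ⟨α, hα, rfl⟩⟩)
  have cJ : ∀ e, ∀ α ∈ (J e).support, (J e).coeff α ∈ A0 := fun e α hα => by
    rw [hA0]
    exact Or.inr (Or.inl (Set.mem_iUnion.2 ⟨e, ⟨α, hα, rfl⟩⟩))
  have cH : ∀ e, ∀ α ∈ (H e).support, (H e).coeff α ∈ A0 := fun e α hα => by
    rw [hA0]
    exact Or.inr (Or.inr (Or.inl (Set.mem_iUnion.2 ⟨e, ⟨α, hα, rfl⟩⟩)))
  have cP : ∀ e, ∀ α ∈ (P e).support, (P e).coeff α ∈ A0 := fun e α hα => by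
    rw [hA0]
    exact Or.inr (Or.inr (Or.inr (Or.inl (Set.mem_iUnion.2 ⟨e, ⟨α, hα, rfl⟩⟩))))
  have cR : ∀ e, ∀ α ∈ (R e).support, (R e).coeff α ∈ A0 := fun e α hα => by
    rw [hA0]
    exact Or.inr (Or.inr (Or.inr (Or.inr (Set.mem_iUnion.2 ⟨e, ⟨α, hα, rfl⟩⟩))))
  choose s hs using fun (i : ℕ) (c : Fin n) => IsAlgClosed.exists_pow_nat_eq (b i c) (n := 2)
    (by norm_num)
  obtain ⟨x, hx⟩ : ∃ x : ∀ i, Fin n → L i, ∀ i c,
      x i c = at3 (f i) (t i) (β i) (P c) / at3 (f i) (t i) (β i) (R c) :=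
    ⟨fun i c => at3 (f i) (t i) (β i) (P c) / at3 (f i) (t i) (β i) (R c), fun _ _ => rfl⟩
  obtain ⟨y, hy⟩ : ∃ y : ∀ i, Fin n → L i, ∀ i c,
      y i c = if at3 (f i) (t i) (β i) (R c) = 0 then algebraMap ℂ (L i) (s i c) else
        at3 (f i) (t i) (β i) (Q c) / at3 (f i) (t i) (β i) (R c) :=
    ⟨fun i c => if at3 (f i) (t i) (β i) (R c) = 0 then algebraMap ℂ (L i) (s i c) else
        at3 (f i) (t i) (β i) (Q c) / at3 (f i) (t i) (β i) (R c), fun _ _ => rfl⟩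
  have hxy : ∀ i c, y i c ^ 2 = x i c ^ 3 + algebraMap ℂ (L i) (a i c) * x i c +
      algebraMap ℂ (L i) (b i c) := by
    intro i c
    rw [hx, hy]
    by_cases h0 : at3 (f i) (t i) (β i) (R c) = 0
    · rw [if_pos h0, h0, div_zero, ← map_pow, hs]
      ring
    · rw [if_neg h0]
      have h1 := q7 i c h0
      field_simp
      linear_combination h1
  obtain ⟨D, hD⟩ : ∃ D : ℕ, D = ∑ c, ((P c).totalDegree + (R c).totalDegree) * (N + 1 + M) :=
    ⟨_, rfl⟩
  have hxh : ∀ i c, hgt ℂ (x i c) ≤ D * (pht ℂ (f i) + d i) := by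
    intro i c
    obtain ⟨m, hm1, hm2⟩ := hP c
    rw [hx, ← at3_div (f i) (hlf0 i) (t i) (β i) hm1 hm2]
    refine (hgt_div_le _ _).trans ?_
    have h1 := hgt_at3 (f i) (hlf0 i) (t i) (β i) (q5 i) (P c)
    have h2 := hgt_at3 (f i) (hlf0 i) (t i) (β i) (q5 i) (R c)
    have h3 : ((P c).totalDegree + (R c).totalDegree) * (N + 1 + M) ≤ D := by
      rw [hD]
      exact Finset.single_le_sum
        (f := fun c => ((P c).totalDegree + (R c).totalDegree) * (N + 1 + M))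
        (fun _ _ => Nat.zero_le _) (Finset.mem_univ c)
    have hp : 0 ≤ pht ℂ (f i) + d i := by
      have h6 := hgt_le_pht' (f i) (hlf0 i) (lf i)
      have h7 := hgt_nonneg (k := ℂ) (f i (lf i) / f i (lf i))
      exact add_nonneg (h7.trans h6) (by positivity)
    have h4 : ((((P c).totalDegree + (R c).totalDegree) * (N + 1 + M) : ℕ) : ℤ) *
        (pht ℂ (f i) + d i) ≤ D * (pht ℂ (f i) + d i) :=
      mul_le_mul_of_nonneg_right (by exact_mod_cast h3) hp
    refine le_trans ?_ h4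
    push_cast at h1 h2 ⊢
    linarith
  obtain ⟨χ, hχ⟩ : ∃ χ : ℕ → ℤ, ∀ i, χ i = max (canDeg ℂ (L i)) 0 + d i := ⟨_, fun _ => rfl⟩
  refine ult3 (L := L) (D := D) hF hJ hGT hA0f cF cJ d χ hχ t f x y a b q2 q3 q6 hxy hxh lf hlf0
    g hg ?_ (fun i => by
      rw [hχ]
      exact q8 i)
  intro U _ _ u τ S hU hFU hJU j
  obtain ⟨l0, hl0⟩ := hU.one
  have hdχ : ∀ i, (d i : ℤ) ≤ χ i := by
    intro i
    rw [hχ]
    have := le_max_right (canDeg ℂ (L i)) 0
    linarith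
  have hβS : ∀ s, (u fun i => β i s) ∈ S := by
    intro s
    refine hU.small _ ⟨1, Eventually.of_forall fun i => ?_⟩
    rw [Nat.cast_one, one_mul]
    exact (q5 i s).trans (hdχ i)
  have hev : ∀ G : MvPolynomial (Fin (N + 1) ⊕ Fin r ⊕ Fin M) ℂ,
      (∀ α ∈ G.support, G.coeff α ∈ A0) →
      at3 (fun j => u (g j)) τ (fun s => u fun i => β i s) G =
        u fun i => at3 (fun j => f i j / f i (lf i)) (t i) (β i) G := by
    intro G hG
    have h1 := u_aeval u (Sum.elim g (Sum.elim (fun l i => algebraMap ℂ (L i) (t i l))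
      fun s i => β i s)) (H := G) fun α hα => hU.A0 _ (hG α hα)
    unfold at3
    have h2 : (fun s => u ((Sum.elim g (Sum.elim (fun l i => algebraMap ℂ (L i) (t i l))
        fun s i => β i s) : Fin (N + 1) ⊕ Fin r ⊕ Fin M → ∀ i, L i) s)) =
        Sum.elim (fun j => u (g j)) (Sum.elim (fun l => algebraMap ℂ U (τ l))
          fun s => u fun i => β i s) := by
      funext s
      rcases s with s | s | s
      · rfl
      · exact hU.t s
      · rfl
    rw [h2] at h1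
    rw [h1]
    congr 1
    funext i
    congr 2
    funext s
    rcases s with s | s | s
    · exact hg s i
    · rfl
    · rfl
  have hHU : ∀ e, at3 (fun j => u (g j)) τ (fun s => u fun i => β i s) (H e) = 0 := by
    intro e
    rw [hev _ (cH e), hU.zero_iff]
    refine Eventually.of_forall fun i => ?_
    obtain ⟨m, hm⟩ := hH e
    exact (hm.zero (hlf0 i) (f i) _).2 (q4 i e)
  have hPR : ∀ c, at3 (fun j => u (g j)) τ (fun s => u fun i => β i s) (P c) /
      at3 (fun j => u (g j)) τ (fun s => u fun i => β i s) (R c) = u fun i => x i c := by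
    intro c
    obtain ⟨m, hm1, hm2⟩ := hP c
    rw [hev _ (cP c), hev _ (cR c), div_eq_mul_inv, ← u_inv hU.zero_iff, ← map_mul]
    congr 1
    funext i
    rw [hx, ← at3_div (f i) (hlf0 i) (t i) (β i) hm1 hm2, div_eq_mul_inv]
    rfl
  have h1 := hqf τ U (fun j => u (g j)) (fun s => u fun i => β i s)
    ⟨l0, by rw [hl0]; exact one_ne_zero⟩ hFU hJU hHU j l0
  simp only [hl0, div_one] at h1
  apply alg_clo
  refine alg_mono _ _ (fun z hz => ?_) h1
  induction hz using Algebra.adjoin_induction with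
  | mem w hw =>
    rcases hw with ⟨s, rfl⟩ | ⟨c, rfl⟩
    · exact Subalgebra.algebraMap_mem _ (⟨_, hβS s⟩ : S)
    · exact subset_clo _ ⟨c, (hPR c).symm⟩
  | algebraMap c => exact Subalgebra.algebraMap_mem _ (algebraMap ℂ S c)
  | add u v _ _ hu hv => exact Subalgebra.add_mem _ hu hv
  | mul u v _ _ hu hv => exact Subalgebra.mul_mem _ hu hv

end Pool.Agent.E8helper90.RC
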