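import Pool.Agent.E8helper90.RC.UlR
import Pool.Agent.E8helper90.RC.Thp

/-!
Curves outside an exceptional set on varieties which are generically finite over a product of a
base, elliptic curves and an affine space; quotients of relative pluricanonical forms.
-/

set_option autoImplicit false

namespace Pool.Agent.E8helper90.RC

open FF Filter MvPolynomial Pool.Agent.E8helper90.AF
open Pool.Agent.W602.GT (GeneralType coords SubVar IsForm val IsPluri RegAt Divisorial)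
open Pool.Agent.W603.LV (hgt hgt_nonneg hgt_finset hgt_inv canDeg)
open Pool.Agent.W603.PV (pht pht_le hgt_mvpolyF)
open Pool.Agent.W603.CY (UL um)
open Pool.Agent.W603.CX (hgt_le_pht)
open Pool.Agent.TH600.LC (clo mem_clo inv_mem_clo subset_clo clo_le clo_mono adjoin_le_clo
  coe_clo)

/-- For all fields `Ω ⊇ ℂ`, all points `ξ` of `X = {F = 0}` outside `{J = 0}` with coordinates in `Ω`
which are generic points of subvarieties of dimension `v ≥ w`, that is, the quotients of the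
coordinates generate a field of transcendence degree `v` over `ℂ`, and all `β` in `Ω^M` with
`H(ξ, β) = 0`, the quotients of the coordinates of `ξ` are algebraic over
`ℂ(β, (B/C)(ξ), (P/R)(ξ, β))`: the map `(ξ, β) ↦ (β, (B/C)(ξ), (P/R)(ξ, β))` is generically finite on
these subvarieties. Functions `B/C` and `P/R` whose denominator is zero are left out: here the quotient
is zero. -/
def GenFinR {N M n t : ℕ} {ι κ η : Type} (F : ι → MvPolynomial (Fin (N + 1)) ℂ)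
    (J : κ → MvPolynomial (Fin (N + 1)) ℂ) (w : ℕ) (B C : Fin t → MvPolynomial (Fin (N + 1)) ℂ)
    (H : η → MvPolynomial (Fin (N + 1) ⊕ Fin M) ℂ)
    (P R : Fin n → MvPolynomial (Fin (N + 1) ⊕ Fin M) ℂ) : Prop :=
  ∀ (Ω : Type) [Field Ω] [Algebra ℂ Ω] (ξ : Fin (N + 1) → Ω) (β : Fin M → Ω) (v : ℕ),
    (∃ l, ξ l ≠ 0) → (∀ e, val ξ (F e) = 0) → (∃ e, val ξ (J e) ≠ 0) → w ≤ v →
    Algebra.trdeg ℂ (coords ℂ ξ) = v → (∀ e, at1 ξ β (H e) = 0) → ∀ i l,
    IsAlgebraic (Algebra.adjoin ℂ (Set.range β ∪ ((Set.range fun s => val ξ (B s) / val ξ (C s)) ∪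
      Set.range fun c => at1 ξ β (P c) / at1 ξ β (R c)))) (ξ i / ξ l)

open Classical in
/-- **Quotients of relative pluricanonical forms on curves outside an exceptional set.** -/
theorem main2R {N M n w t : ℕ} {ι κ η : Type} [Finite ι] [Finite κ] [Finite η]
    (F : ι → MvPolynomial (Fin (N + 1)) ℂ) (I : κ → MvPolynomial (Fin (N + 1)) ℂ)
    (H : η → MvPolynomial (Fin (N + 1) ⊕ Fin M) ℂ)
    (P Q R : Fin n → MvPolynomial (Fin (N + 1) ⊕ Fin M) ℂ) (a b : Fin n → ℂ)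
    (hF : ∀ e, IsForm (F e)) (hI : ∀ e, IsForm (I e)) (hH : ∀ e, ∃ m, FormIn m (H e))
    (hP : ∀ c, ∃ m, FormIn m (P c) ∧ FormIn m (R c))
    (hab : ∀ c, 4 * a c ^ 3 + 27 * b c ^ 2 ≠ 0)
    {B C : Fin t → MvPolynomial (Fin (N + 1)) ℂ}
    (hBC : ∀ s, ∃ m, (B s).IsHomogeneous m ∧ (C s).IsHomogeneous m)
    (hgf : GenFinR F I w B C H P R) {V W : MvPolynomial (Fin (N + 1)) ℂ} {m : ℕ}
    (hV : V.IsHomogeneous m) (hW : W.IsHomogeneous m)
    (halg : ∀ (K : Type) [Field K] [Algebra ℂ K] (v : ℕ) (y : Fin (N + 1) → K), SubVar F K v y →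
      w ≤ v → (∃ e, val y (I e) ≠ 0) → ∃ q : ℕ, Algebra.trdeg (baseF B C y) K = q ∧
        IsAlgebraic (pluriField (baseF B C y) K q) (val y V / val y W))
    (m0 : ℕ) :
    ∃ (A : ℕ) (G : Finset (MvPolynomial (Fin (N + 1)) ℂ)), Exc F I w G ∧
      ∀ (K : Type) [Field K] [Algebra ℂ K] [IsFF ℂ K] (d : ℕ) (f : Fin (N + 1) → K)
      (β : Fin M → K), (∃ l, f l ≠ 0) → (∀ e, val f (F e) = 0) → (∃ e, val f (I e) ≠ 0) →
      (∀ e, at1 f β (H e) = 0) → (∀ s, hgt ℂ (β s) ≤ d) →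
      (∀ s, hgt ℂ (val f (B s) / val f (C s)) ≤ d) →
      (∀ c, at1 f β (R c) ≠ 0 → at1 f β (Q c) ^ 2 * at1 f β (R c) =
        at1 f β (P c) ^ 3 + algebraMap ℂ K (a c) * at1 f β (P c) * at1 f β (R c) ^ 2 +
          algebraMap ℂ K (b c) * at1 f β (R c) ^ 3) →
      (∃ p ∈ G, val f p ≠ 0) →
      m0 * hgt ℂ (val f V / val f W) ≤ pht ℂ f + A * (max (canDeg ℂ K) 0 + d) := by
  by_contra hcon
  push Not at hcon
  obtain ⟨A0, hA0⟩ : ∃ A0 : Set ℂ, A0 = ((⋃ e, (fun α => (F e).coeff α) '' (F e).support) ∪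
    (⋃ e, (fun α => (I e).coeff α) '' (I e).support)) ∪
    ((⋃ e, (fun α => (H e).coeff α) '' (H e).support) ∪
    ((⋃ e, (fun α => (P e).coeff α) '' (P e).support) ∪
    ((⋃ e, (fun α => (R e).coeff α) '' (R e).support) ∪
    ((Set.range a ∪ Set.range b) ∪
    ((((fun α => V.coeff α) '' V.support) ∪ ((fun α => W.coeff α) '' W.support)) ∪
    ((⋃ e, (fun α => (B e).coeff α) '' (B e).support) ∪
    (⋃ e, (fun α => (C e).coeff α) '' (C e).support))))))) :=
      ⟨_, rfl⟩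
  have hA0f : A0.Finite := by
    rw [hA0]
    refine ((Set.finite_iUnion fun i => (Finset.finite_toSet _).image _).union
      (Set.finite_iUnion fun i => (Finset.finite_toSet _).image _)).union
      ((Set.finite_iUnion fun i => (Finset.finite_toSet _).image _).union
      ((Set.finite_iUnion fun i => (Finset.finite_toSet _).image _).union
      ((Set.finite_iUnion fun i => (Finset.finite_toSet _).image _).union
      (((Set.finite_range a).union (Set.finite_range b)).union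
      ((((Finset.finite_toSet _).image _).union ((Finset.finite_toSet _).image _)).union
      ((Set.finite_iUnion fun i => (Finset.finite_toSet _).image _).union
      (Set.finite_iUnion fun i => (Finset.finite_toSet _).image _)))))))
  have cF : ∀ e, ∀ α ∈ (F e).support, (F e).coeff α ∈ A0 := fun e α hα => by
    rw [hA0]
    exact Or.inl (Or.inl (Set.mem_iUnion.2 ⟨e, ⟨α, hα, rfl⟩⟩))
  have cI : ∀ e, ∀ α ∈ (I e).support, (I e).coeff α ∈ A0 := fun e α hα => by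
    rw [hA0]
    exact Or.inl (Or.inr (Set.mem_iUnion.2 ⟨e, ⟨α, hα, rfl⟩⟩))
  have cH : ∀ e, ∀ α ∈ (H e).support, (H e).coeff α ∈ A0 := fun e α hα => by
    rw [hA0]
    exact Or.inr (Or.inl (Set.mem_iUnion.2 ⟨e, ⟨α, hα, rfl⟩⟩))
  have cP : ∀ e, ∀ α ∈ (P e).support, (P e).coeff α ∈ A0 := fun e α hα => by
    rw [hA0]
    exact Or.inr (Or.inr (Or.inl (Set.mem_iUnion.2 ⟨e, ⟨α, hα, rfl⟩⟩)))
  have cR : ∀ e, ∀ α ∈ (R e).support, (R e).coeff α ∈ A0 := fun e α hα => by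
    rw [hA0]
    exact Or.inr (Or.inr (Or.inr (Or.inl (Set.mem_iUnion.2 ⟨e, ⟨α, hα, rfl⟩⟩))))
  have ca : ∀ e, a e ∈ A0 := fun e => by
    rw [hA0]
    exact Or.inr (Or.inr (Or.inr (Or.inr (Or.inl (Or.inl ⟨e, rfl⟩)))))
  have cb : ∀ e, b e ∈ A0 := fun e => by
    rw [hA0]
    exact Or.inr (Or.inr (Or.inr (Or.inr (Or.inl (Or.inr ⟨e, rfl⟩)))))
  have cV : ∀ α ∈ V.support, V.coeff α ∈ A0 := fun α hα => by
    rw [hA0]
    exact Or.inr (Or.inr (Or.inr (Or.inr (Or.inr (Or.inl (Or.inl ⟨α, hα, rfl⟩))))))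
  have cW : ∀ α ∈ W.support, W.coeff α ∈ A0 := fun α hα => by
    rw [hA0]
    exact Or.inr (Or.inr (Or.inr (Or.inr (Or.inr (Or.inl (Or.inr ⟨α, hα, rfl⟩))))))
  have cB : ∀ e, ∀ α ∈ (B e).support, (B e).coeff α ∈ A0 := fun e α hα => by
    rw [hA0]
    exact Or.inr (Or.inr (Or.inr (Or.inr (Or.inr (Or.inr (Or.inl
      (Set.mem_iUnion.2 ⟨e, ⟨α, hα, rfl⟩⟩)))))))
  have cC : ∀ e, ∀ α ∈ (C e).support, (C e).coeff α ∈ A0 := fun e α hα => by
    rw [hA0]
    exact Or.inr (Or.inr (Or.inr (Or.inr (Or.inr (Or.inr (Or.inr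
      (Set.mem_iUnion.2 ⟨e, ⟨α, hα, rfl⟩⟩)))))))
  have hk0 : Cardinal.mk (Subfield.closure A0) ≤ Cardinal.aleph0 := by
    have h1 : Cardinal.mk A0 ≤ Cardinal.aleph0 := hA0f.countable.le_aleph0
    exact (Subfield.cardinalMk_closure_le_max A0).trans (max_le h1 le_rfl)
  obtain ⟨S, hSE, hS⟩ := exists_seq F I w hk0
  have hcon' := fun i : ℕ => hcon i (S i) (hSE i)
  choose L hi1 hi2 hi3 d f β q1 q2 q3 q4 q5 q6 q7 q9 q8 using hcon'
  obtain ⟨l0, J, hl0, hJ⟩ := generic f hS q9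
  obtain ⟨g, hg⟩ : ∃ g : Fin (N + 1) → ∀ i, L i, ∀ j i, g j i = f i j / f i l0 :=
    ⟨fun j i => f i j / f i l0, fun _ _ => rfl⟩
  choose s hs using fun c : Fin n => IsAlgClosed.exists_pow_nat_eq (b c) (n := 2)
    (by norm_num)
  obtain ⟨x, hx⟩ : ∃ x : ∀ i, Fin n → L i, ∀ i c,
      x i c = at1 (f i) (β i) (P c) / at1 (f i) (β i) (R c) :=
    ⟨fun i c => at1 (f i) (β i) (P c) / at1 (f i) (β i) (R c), fun _ _ => rfl⟩
  obtain ⟨y, hy⟩ : ∃ y : ∀ i, Fin n → L i, ∀ i c,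
      y i c = if at1 (f i) (β i) (R c) = 0 then algebraMap ℂ (L i) (s c) else
        at1 (f i) (β i) (Q c) / at1 (f i) (β i) (R c) :=
    ⟨fun i c => if at1 (f i) (β i) (R c) = 0 then algebraMap ℂ (L i) (s c) else
        at1 (f i) (β i) (Q c) / at1 (f i) (β i) (R c), fun _ _ => rfl⟩
  have hxy : ∀ i c, y i c ^ 2 = x i c ^ 3 + algebraMap ℂ (L i) (a c) * x i c +
      algebraMap ℂ (L i) (b c) := by
    intro i c
    rw [hx, hy]
    by_cases h0 : at1 (f i) (β i) (R c) = 0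
    · rw [if_pos h0, h0, div_zero, ← map_pow, hs]
      ring
    · rw [if_neg h0]
      have h1 := q7 i c h0
      field_simp
      linear_combination h1
  obtain ⟨D, hD⟩ : ∃ D : ℕ, D = ∑ c, ((P c).totalDegree + (R c).totalDegree) * (N + 1 + M) :=
    ⟨_, rfl⟩
  have hxh : ∀ i c, hgt ℂ (x i c) ≤ D * (pht ℂ (f i) + d i) := by
    intro i c
    obtain ⟨m, hm1, hm2⟩ := hP c
    obtain ⟨l, hl⟩ := q1 i
    rw [hx, ← at1_div (f i) hl (β i) hm1 hm2]
    refine (hgt_div_le _ _).trans ?_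
    have h1 := hgt_at1 (f i) hl (β i) (q5 i) (P c)
    have h2 := hgt_at1 (f i) hl (β i) (q5 i) (R c)
    have h3 : ((P c).totalDegree + (R c).totalDegree) * (N + 1 + M) ≤ D := by
      rw [hD]
      exact Finset.single_le_sum
        (f := fun c => ((P c).totalDegree + (R c).totalDegree) * (N + 1 + M))
        (fun _ _ => Nat.zero_le _) (Finset.mem_univ c)
    have hp : 0 ≤ pht ℂ (f i) + d i := by
      have h6 := hgt_le_pht' (f i) hl l
      have h7 := hgt_nonneg (k := ℂ) (f i l / f i l)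
      exact add_nonneg (h7.trans h6) (by positivity)
    have h4 : ((((P c).totalDegree + (R c).totalDegree) * (N + 1 + M) : ℕ) : ℤ) *
        (pht ℂ (f i) + d i) ≤ D * (pht ℂ (f i) + d i) :=
      mul_le_mul_of_nonneg_right (by exact_mod_cast h3) hp
    refine le_trans ?_ h4
    push_cast at h1 h2 ⊢
    linarith
  obtain ⟨χ, hχ⟩ : ∃ χ : ℕ → ℤ, ∀ i, χ i = max (canDeg ℂ (L i)) 0 + d i := ⟨_, fun _ => rfl⟩
  have hJ' : AlgebraicIndependent (Subfield.closure A0) fun s => (um (g (J s)) : UL L) := by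
    have h1 : (fun s => (um (g (J s)) : UL L)) = fun s => um fun i => f i (J s) / f i l0 := by
      funext s
      congr 1
      funext i
      exact hg (J s) i
    rw [h1]
    exact hJ
  have key := ult4R (L := L) (D := D) hF hI hA0f cF cI d χ hχ f q1 x y ca cb q2 q3 hab hxy hxh hl0
    g hg hJ' ?_ hV hW cV cW hBC cB cC q6 halg (2 * m0)
  · obtain ⟨i, h1⟩ := key.exists
    have h2 := q8 i
    rw [← hχ] at h2
    have h3 : 0 ≤ χ i := by
      rw [hχ]
      have := le_max_right (canDeg ℂ (L i)) 0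
      positivity
    have h4 : (0 : ℤ) ≤ i * χ i := mul_nonneg (by positivity) h3
    have h5 : 0 ≤ pht ℂ (f i) := by
      obtain ⟨l, hl⟩ := q1 i
      exact (hgt_nonneg _).trans (hgt_le_pht' (f i) hl l)
    push_cast at h1
    linarith
  intro U _ _ u T hU hFU hIU j
  obtain ⟨l1, hl1⟩ := hU.one
  obtain ⟨v, hwv, hv⟩ := hU.tr
  have hdχ : ∀ i, (d i : ℤ) ≤ χ i := by
    intro i
    rw [hχ]
    have := le_max_right (canDeg ℂ (L i)) 0
    linarith
  have hβS : ∀ s, (u fun i => β i s) ∈ T := by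
    intro s
    refine hU.small _ ⟨1, Eventually.of_forall fun i => ?_⟩
    rw [Nat.cast_one, one_mul]
    exact (q5 i s).trans (hdχ i)
  have hBS : ∀ s, val (fun j => u (g j)) (B s) / val (fun j => u (g j)) (C s) ∈ T := by
    intro s
    obtain ⟨m, h1, h2⟩ := hBC s
    have h3 : ∀ G : MvPolynomial (Fin (N + 1)) ℂ, (∀ α ∈ G.support, G.coeff α ∈ A0) →
        val (fun j => u (g j)) G = u fun i => val (fun j => f i j / f i l0) G := by
      intro G hG
      have h4 := u_aeval u g (H := G) fun α hα => hU.A0 _ (hG α hα)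
      unfold val
      rw [h4]
      congr 1
      funext i
      congr 2
      funext s
      exact hg s i
    have h5 : val (fun j => u (g j)) (B s) / val (fun j => u (g j)) (C s) =
        u fun i => val (f i) (B s) / val (f i) (C s) := by
      rw [h3 _ (cB s), h3 _ (cC s), div_eq_mul_inv, ← u_inv hU.zero_iff, ← map_mul,
        ← sub_eq_zero, ← map_sub, hU.zero_iff]
      filter_upwards [hl0] with i hi
      rw [Pi.sub_apply, Pi.mul_apply, ← div_eq_mul_inv, val_div h1 h2 hi, sub_self]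
    rw [h5]
    refine hU.small _ ⟨1, Eventually.of_forall fun i => ?_⟩
    rw [Nat.cast_one, one_mul]
    exact (q6 i s).trans (hdχ i)
  have hev : ∀ G : MvPolynomial (Fin (N + 1) ⊕ Fin M) ℂ,
      (∀ α ∈ G.support, G.coeff α ∈ A0) →
      at1 (fun j => u (g j)) (fun s => u fun i => β i s) G =
        u fun i => at1 (fun j => f i j / f i l0) (β i) G := by
    intro G hG
    have h1 := u_aeval u (Sum.elim g fun s i => β i s) (H := G) fun α hα => hU.A0 _ (hG α hα)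
    unfold at1
    have h2 : (fun s => u ((Sum.elim g (fun s i => β i s) : Fin (N + 1) ⊕ Fin M → ∀ i, L i) s)) =
        Sum.elim (fun j => u (g j)) fun s => u fun i => β i s := by
      funext s
      rcases s with s | s
      · rfl
      · rfl
    rw [h2] at h1
    rw [h1]
    congr 1
    funext i
    congr 2
    funext s
    rcases s with s | s
    · exact hg s i
    · rfl
  have hHU : ∀ e, at1 (fun j => u (g j)) (fun s => u fun i => β i s) (H e) = 0 := by
    intro e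
    rw [hev _ (cH e), hU.zero_iff]
    filter_upwards [hl0] with i hi
    obtain ⟨m, hm⟩ := hH e
    exact (hm.zero hi (f i) _).2 (q4 i e)
  have hPR : ∀ c, at1 (fun j => u (g j)) (fun s => u fun i => β i s) (P c) /
      at1 (fun j => u (g j)) (fun s => u fun i => β i s) (R c) = u fun i => x i c := by
    intro c
    obtain ⟨m, hm1, hm2⟩ := hP c
    rw [hev _ (cP c), hev _ (cR c), div_eq_mul_inv, ← u_inv hU.zero_iff, ← map_mul,
      ← sub_eq_zero, ← map_sub, hU.zero_iff]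
    filter_upwards [hl0] with i hi
    rw [Pi.sub_apply, Pi.mul_apply, ← div_eq_mul_inv, hx, at1_div (f i) hi (β i) hm1 hm2,
      sub_self]
  have h1 := hgf U (fun j => u (g j)) (fun s => u fun i => β i s) v
    ⟨l1, by rw [hl1]; exact one_ne_zero⟩ hFU hIU hwv hv hHU j l1
  simp only [hl1, div_one] at h1
  apply alg_clo
  refine alg_mono _ _ (fun z hz => ?_) h1
  induction hz using Algebra.adjoin_induction with
  | mem w hw =>
    rcases hw with ⟨s, rfl⟩ | ⟨s, rfl⟩ | ⟨c, rfl⟩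
    · exact Subalgebra.algebraMap_mem _ (⟨_, hβS s⟩ : T)
    · exact Subalgebra.algebraMap_mem _ (⟨_, hBS s⟩ : T)
    · exact subset_clo _ ⟨c, (hPR c).symm⟩
  | algebraMap c => exact Subalgebra.algebraMap_mem _ (algebraMap ℂ T c)
  | add u v _ _ hu hv => exact Subalgebra.add_mem _ hu hv
  | mul u v _ _ hu hv => exact Subalgebra.mul_mem _ hu hv

/-- functions on varieties of general type -/
theorem gt_algR {k K : Type} [Field k] [Field K] [Algebra k K] {w : ℕ}
    (hGT : GeneralType k K w) (z : K) : IsAlgebraic (pluriField k K w) z := by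
  obtain ⟨htr, N, hN, ω, hω, hreg, D0, hD0, hind⟩ := hGT
  have hbas : IsTranscendenceBasis k fun i : Fin w => ω i.succ D0 / ω 0 D0 := by
    apply hind.isTranscendenceBasis_of_lift_trdeg_le_of_finite
    rw [htr]
    simp
  have h1 := hbas.isAlgebraic.isAlgebraic z
  refine alg_mono _ (pluriField k K w).toSubalgebra (fun v hv => ?_) h1
  have h2 : Algebra.adjoin k (Set.range fun i : Fin w => ω i.succ D0 / ω 0 D0) ≤
      (pluriField k K w).toSubalgebra := by
    refine Algebra.adjoin_le ?_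
    rintro _ ⟨i, rfl⟩
    exact IntermediateField.subset_adjoin _ _ ⟨N, ω 0, ω i.succ, D0, hN, hω 0, hω i.succ,
      fun P hP => ⟨hreg P hP 0, hreg P hP i.succ⟩, hD0, rfl⟩
  exact h2 hv

/-- **Curves outside an exceptional set on varieties of general type over the base.** -/
theorem main3R {N M n w t : ℕ} {ι κ η : Type} [Finite ι] [Finite κ] [Finite η]
    (F : ι → MvPolynomial (Fin (N + 1)) ℂ) (I : κ → MvPolynomial (Fin (N + 1)) ℂ)
    (H : η → MvPolynomial (Fin (N + 1) ⊕ Fin M) ℂ)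
    (P Q R : Fin n → MvPolynomial (Fin (N + 1) ⊕ Fin M) ℂ) (a b : Fin n → ℂ)
    (hF : ∀ e, IsForm (F e)) (hI : ∀ e, IsForm (I e)) (hH : ∀ e, ∃ m, FormIn m (H e))
    (hP : ∀ c, ∃ m, FormIn m (P c) ∧ FormIn m (R c))
    (hab : ∀ c, 4 * a c ^ 3 + 27 * b c ^ 2 ≠ 0)
    {B C : Fin t → MvPolynomial (Fin (N + 1)) ℂ}
    (hBC : ∀ s, ∃ m, (B s).IsHomogeneous m ∧ (C s).IsHomogeneous m)
    (hgf : GenFinR F I w B C H P R)
    (hGT : ∀ (K : Type) [Field K] [Algebra ℂ K] (v : ℕ) (y : Fin (N + 1) → K), SubVar F K v y →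
      w ≤ v → (∃ e, val y (I e) ≠ 0) → ∃ q : ℕ, GeneralType (baseF B C y) K q) :
    ∃ (A : ℕ) (G : Finset (MvPolynomial (Fin (N + 1)) ℂ)), Exc F I w G ∧
      ∀ (K : Type) [Field K] [Algebra ℂ K] [IsFF ℂ K] (d : ℕ) (f : Fin (N + 1) → K)
      (β : Fin M → K), (∃ l, f l ≠ 0) → (∀ e, val f (F e) = 0) → (∃ e, val f (I e) ≠ 0) →
      (∀ e, at1 f β (H e) = 0) → (∀ s, hgt ℂ (β s) ≤ d) →
      (∀ s, hgt ℂ (val f (B s) / val f (C s)) ≤ d) →
      (∀ c, at1 f β (R c) ≠ 0 → at1 f β (Q c) ^ 2 * at1 f β (R c) =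
        at1 f β (P c) ^ 3 + algebraMap ℂ K (a c) * at1 f β (P c) * at1 f β (R c) ^ 2 +
          algebraMap ℂ K (b c) * at1 f β (R c) ^ 3) →
      (∃ p ∈ G, val f p ≠ 0) →
      pht ℂ f ≤ A * (max (canDeg ℂ K) 0 + d) := by
  have hX : ∀ q : Fin (N + 1) × Fin (N + 1), ∃ (A : ℕ)
      (G : Finset (MvPolynomial (Fin (N + 1)) ℂ)), Exc F I w G ∧
      ∀ (K : Type) [Field K] [Algebra ℂ K] [IsFF ℂ K] (d : ℕ) (f : Fin (N + 1) → K)
      (β : Fin M → K), (∃ l, f l ≠ 0) → (∀ e, val f (F e) = 0) → (∃ e, val f (I e) ≠ 0) →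
      (∀ e, at1 f β (H e) = 0) → (∀ s, hgt ℂ (β s) ≤ d) →
      (∀ s, hgt ℂ (val f (B s) / val f (C s)) ≤ d) →
      (∀ c, at1 f β (R c) ≠ 0 → at1 f β (Q c) ^ 2 * at1 f β (R c) =
        at1 f β (P c) ^ 3 + algebraMap ℂ K (a c) * at1 f β (P c) * at1 f β (R c) ^ 2 +
          algebraMap ℂ K (b c) * at1 f β (R c) ^ 3) →
      (∃ p ∈ G, val f p ≠ 0) →
      ((N + 2 : ℕ) : ℤ) * hgt ℂ (f q.1 / f q.2) ≤ pht ℂ f + A * (max (canDeg ℂ K) 0 + d) := by
    intro q
    obtain ⟨A, G, hG, h1⟩ := main2R F I H P Q R a b hF hI hH hP hab hBC hgf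
      (isHomogeneous_X ℂ q.1) (isHomogeneous_X ℂ q.2)
      (fun K _ _ v y hy hv he => by
        obtain ⟨q', hq'⟩ := hGT K v y hy hv he
        exact ⟨q', hq'.1, gt_algR hq' _⟩) (N + 2)
    refine ⟨A, G, hG, fun K _ _ _ d f β k1 k2 k7 k3 k4 k8 k5 k6 => ?_⟩
    have h2 := h1 K d f β k1 k2 k7 k3 k4 k8 k5 k6
    have h3 : ∀ j, val f (X j : MvPolynomial (Fin (N + 1)) ℂ) = f j := fun j => aeval_X _ _
    rwa [h3, h3] at h2
  choose A G hG hX using hX
  obtain ⟨S, hS, hS2⟩ := exists_prod G hG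
  refine ⟨∑ q, A q, S, hS, fun K _ _ _ d f β k1 k2 k7 k3 k4 k8 k5 k6 => ?_⟩
  obtain ⟨l, hl⟩ := k1
  have h1 := pht_le (k := ℂ) f hl
  have hχ : 0 ≤ max (canDeg ℂ K) 0 + (d : ℤ) := by
    have := le_max_right (canDeg ℂ K) 0
    positivity
  have h2 : ∀ j, ((N + 2 : ℕ) : ℤ) * hgt ℂ (f j / f l) ≤
      pht ℂ f + A (j, l) * (max (canDeg ℂ K) 0 + d) := fun j =>
    hX (j, l) K d f β ⟨l, hl⟩ k2 k7 k3 k4 k8 k5 (hS2 K f k6 (j, l))
  have h3 : ∑ j, ((N + 2 : ℕ) : ℤ) * hgt ℂ (f j / f l) ≤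
      ∑ j : Fin (N + 1), (pht ℂ f + A (j, l) * (max (canDeg ℂ K) 0 + d)) :=
    Finset.sum_le_sum fun j _ => h2 j
  rw [← Finset.mul_sum, Finset.sum_add_distrib, Finset.sum_const, Finset.card_univ,
    Fintype.card_fin, nsmul_eq_mul, ← Finset.sum_mul] at h3
  have h4 : ∑ j, (A (j, l) : ℤ) ≤ ∑ q, (A q : ℤ) := by
    rw [Fintype.sum_prod_type]
    exact Finset.sum_le_sum fun j _ => Finset.single_le_sum (f := fun l => (A (j, l) : ℤ))
      (fun _ _ => by positivity) (Finset.mem_univ l)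
  have h5 := mul_le_mul_of_nonneg_right h4 hχ
  have h6 : ((N + 2 : ℕ) : ℤ) * pht ℂ f ≤ ((N + 2 : ℕ) : ℤ) * ∑ j, hgt ℂ (f j / f l) :=
    mul_le_mul_of_nonneg_left h1 (by positivity)
  push_cast at h3 h6 ⊢
  linarith

end Pool.Agent.E8helper90.RC
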