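import Pool.Agent.E8helper90.RC.EllP
import Pool.Agent.E8helper90.AF.Dat

/-!
The coordinate rings of several independent moving points are differentially simple.
-/

set_option autoImplicit false

namespace Pool.Agent.E8helper90.RC

open Pool.Agent.E8helper90.AF
open Pool.Agent.TH600.LC (clo mem_clo inv_mem_clo subset_clo clo_le clo_mono adjoin_le_clo
  der_mem_clo)

/-- independent moving points of elliptic curves in a differential field -/
structure RD (k F : Type) [Field k] [Field F] [Algebra k F] (r : ℕ) where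
  /-- the derivation -/
  D : Derivation k F F
  /-- the field of the coefficients -/
  S : IntermediateField k F
  /-- first coordinates -/
  x : Fin r → F
  /-- second coordinates -/
  y : Fin r → F
  /-- coefficients -/
  a : Fin r → F
  /-- coefficients -/
  b : Fin r → F
  /-- speeds -/
  c : Fin r → F
  cst : ∀ z, D z = 0 → z ∈ S
  st : ∀ z ∈ S, D z ∈ S
  closed : ∀ z, IsAlgebraic S z → z ∈ S
  cS : ∀ j, c j ∈ S
  hxy : ∀ j, y j ^ 2 = x j ^ 3 + a j * x j + b j
  disc : ∀ j, 4 * a j ^ 3 + 27 * b j ^ 2 ≠ 0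
  Da : ∀ j, D (a j) = 0
  Db : ∀ j, D (b j) = 0
  Dx : ∀ j, D (x j) = c j * y j
  ind : AlgebraicIndependent S x

namespace RD

variable {k F : Type} [Field k] [Field F] [Algebra k F] {r : ℕ} (G : RD k F r)

theorem c0 (j : Fin r) : G.c j ≠ 0 := by
  intro h
  have h1 := G.Dx j
  rw [h, zero_mul] at h1
  have h2 := G.ind.transcendental j
  exact h2 (isAlgebraic_algebraMap (⟨G.x j, G.cst _ h1⟩ : G.S))

/-- the coordinates in a chart -/
noncomputable def ch (ε : Fin r → Bool) (j : Fin r) : Bool → F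
  | true => if ε j then G.x j else G.x j * (G.y j)⁻¹
  | false => if ε j then G.y j else (G.y j)⁻¹

/-- the generators of a chart ring -/
def gen (ε : Fin r → Bool) (J : Set (Fin r)) : Set F := {z | ∃ j ∈ J, ∃ i, z = G.ch ε j i}

/-- the chart ring of the points with index in `J` -/
def R (ε : Fin r → Bool) (J : Set (Fin r)) : Subalgebra k F :=
  (Algebra.adjoin G.S (G.gen ε J)).restrictScalars k

variable {G}

theorem mem_R {ε : Fin r → Bool} {J : Set (Fin r)} {z : F} :
    z ∈ G.R ε J ↔ z ∈ Algebra.adjoin G.S (G.gen ε J) := Iff.rfl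

theorem S_le_R {ε : Fin r → Bool} {J : Set (Fin r)} {z : F} (hz : z ∈ G.S) : z ∈ G.R ε J :=
  mem_R.2 (Subalgebra.algebraMap_mem _ (⟨z, hz⟩ : G.S))

theorem ch_mem {ε : Fin r → Bool} {J : Set (Fin r)} {j : Fin r} (hj : j ∈ J) (i : Bool) :
    G.ch ε j i ∈ G.R ε J := mem_R.2 (Algebra.subset_adjoin ⟨j, hj, i, rfl⟩)

theorem R_mono {ε : Fin r → Bool} {J J' : Set (Fin r)} (h : J ⊆ J') : G.R ε J ≤ G.R ε J' := by
  intro z hz
  refine Algebra.adjoin_mono ?_ (mem_R.1 hz)
  rintro z ⟨j, hj, i, rfl⟩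
  exact ⟨j, h hj, i, rfl⟩

variable (G)

/-- the field generated by the points with index in `J` -/
noncomputable def M (J : Set (Fin r)) : IntermediateField k F :=
  IntermediateField.adjoin k ((G.S : Set F) ∪ (G.x '' J ∪ G.y '' J))

variable {G}

theorem S_le_M {J : Set (Fin r)} {z : F} (hz : z ∈ G.S) : z ∈ G.M J :=
  IntermediateField.subset_adjoin _ _ (Or.inl hz)

theorem x_mem_M {J : Set (Fin r)} {j : Fin r} (hj : j ∈ J) : G.x j ∈ G.M J :=
  IntermediateField.subset_adjoin _ _ (Or.inr (Or.inl ⟨j, hj, rfl⟩))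

theorem y_mem_M {J : Set (Fin r)} {j : Fin r} (hj : j ∈ J) : G.y j ∈ G.M J :=
  IntermediateField.subset_adjoin _ _ (Or.inr (Or.inr ⟨j, hj, rfl⟩))

theorem ch_mem_M {ε : Fin r → Bool} {J : Set (Fin r)} {j : Fin r} (hj : j ∈ J) (i : Bool) :
    G.ch ε j i ∈ G.M J := by
  have hx := x_mem_M (G := G) hj
  have hy := y_mem_M (G := G) hj
  cases i
  · unfold ch
    split_ifs
    · exact hy
    · exact (G.M J).inv_mem hy
  · unfold ch
    split_ifs
    · exact hx
    · exact (G.M J).mul_mem hx ((G.M J).inv_mem hy)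

theorem R_le_M {ε : Fin r → Bool} {J : Set (Fin r)} {z : F} (hz : z ∈ G.R ε J) : z ∈ G.M J := by
  have h1 := mem_R.1 hz
  clear hz
  induction h1 using Algebra.adjoin_induction with
  | mem z hz => obtain ⟨j, hj, i, rfl⟩ := hz; exact ch_mem_M hj i
  | algebraMap s => exact S_le_M s.2
  | add u v _ _ hu hv => exact (G.M J).add_mem hu hv
  | mul u v _ _ hu hv => exact (G.M J).mul_mem hu hv

theorem x_clo {J : Set (Fin r)} {j : Fin r} (hj : j ∈ J) : G.x j ∈ clo G.S (G.x '' J) :=
  subset_clo _ ⟨j, hj, rfl⟩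

theorem y_clo {J : Set (Fin r)} {j : Fin r} (hj : j ∈ J) : G.y j ∈ clo G.S (G.x '' J) := by
  have h1 : G.y j ^ 2 ∈ clo G.S (G.x '' J) := by
    rw [G.hxy]
    exact Subalgebra.add_mem _ (Subalgebra.add_mem _ (Subalgebra.pow_mem _ (x_clo hj) 3)
      (Subalgebra.mul_mem _ (Subalgebra.algebraMap_mem _ (⟨_, G.cst _ (G.Da j)⟩ : G.S)) (x_clo hj)))
      (Subalgebra.algebraMap_mem _ (⟨_, G.cst _ (G.Db j)⟩ : G.S))
  exact mem_clo.2 ((mem_clo.1 h1).of_pow (by norm_num))

theorem M_clo {J : Set (Fin r)} {z : F} (hz : z ∈ G.M J) : z ∈ clo G.S (G.x '' J) := by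
  unfold M at hz
  induction hz using IntermediateField.adjoin_induction with
  | mem z hz =>
    rcases hz with hz | ⟨j, hj, rfl⟩ | ⟨j, hj, rfl⟩
    · exact Subalgebra.algebraMap_mem _ (⟨z, hz⟩ : G.S)
    · exact x_clo hj
    · exact y_clo hj
  | algebraMap s => exact Subalgebra.algebraMap_mem _ (algebraMap k G.S s)
  | add u v _ _ hu hv => exact Subalgebra.add_mem _ hu hv
  | inv u _ hu => exact inv_mem_clo hu
  | mul u v _ _ hu hv => exact Subalgebra.mul_mem _ hu hv

/-- elements which are algebraic over a field in a closure -/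
theorem alg_clo {S M : IntermediateField k F} {T : Set F} (hM : ∀ z ∈ M, z ∈ clo S T) {z : F}
    (hz : IsAlgebraic M z) : z ∈ clo S T := by
  obtain ⟨p, hp, hp0⟩ := hz
  let φ : M →+* clo S T :=
    { toFun := fun z => ⟨z.1, hM z.1 z.2⟩
      map_one' := rfl
      map_mul' := fun _ _ => rfl
      map_zero' := rfl
      map_add' := fun _ _ => rfl }
  have hφ : Function.Injective φ := by
    intro a b hab
    have : (φ a : F) = (φ b : F) := congrArg _ hab
    exact Subtype.ext this
  have h1 : IsAlgebraic (clo S T) z := by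
    refine ⟨p.map φ, (Polynomial.map_ne_zero_iff hφ).2 hp, ?_⟩
    rw [← hp0, Polynomial.aeval_def, Polynomial.aeval_def, Polynomial.eval₂_map]
    rfl
  have h2 : IsAlgebraic (Algebra.adjoin S ((clo S T : Subalgebra S F) : Set F)) z := by
    rw [Algebra.adjoin_eq]
    exact h1
  exact clo_le (le_refl _) (mem_clo.2 h2)

theorem tr (j : Fin r) {J : Set (Fin r)} (hj : j ∉ J) : Transcendental (G.M J) (G.x j) := by
  intro halg
  have h1 := alg_clo (S := G.S) (T := G.x '' J) (fun z hz => M_clo hz) halg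
  exact G.ind.transcendental_adjoin hj (mem_clo.1 h1)

variable [CharZero k]

theorem y_ne (j : Fin r) : G.y j ≠ 0 := by
  intro h
  have h1 := G.hxy j
  rw [h] at h1
  have h2 := G.Dx j
  rw [h, mul_zero] at h2
  have h3 := G.ind.transcendental j
  exact h3 (isAlgebraic_algebraMap (⟨G.x j, G.cst _ h2⟩ : G.S))

theorem Dy' (j : Fin r) : G.D (G.y j) =
    algebraMap k F (1 / 2) * (G.c j * (3 * G.x j ^ 2 + G.a j)) := by
  have e := congrArg G.D (G.hxy j)
  rw [map_add, map_add, Derivation.leibniz_pow, Derivation.leibniz_pow, Derivation.leibniz,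
    G.Da, G.Db, G.Dx] at e
  simp only [smul_eq_mul, nsmul_eq_mul, Nat.cast_ofNat] at e
  have h1 : 2 * G.D (G.y j) = G.c j * (3 * G.x j ^ 2 + G.a j) := by
    apply mul_left_cancel₀ (y_ne (G := G) j)
    linear_combination e
  have h2 := half k (F := F)
  linear_combination (algebraMap k F (1 / 2)) * h1 - G.D (G.y j) * h2

theorem M_st {J : Set (Fin r)} : ∀ z ∈ G.M J, G.D z ∈ G.M J := by
  intro z hz
  unfold M at hz ⊢
  refine der_adjoinF G.D ?_ hz
  change ∀ g ∈ _, G.D g ∈ G.M J
  have h3 : (3 : F) ∈ G.M J := by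
    have := (G.M J).natCast_mem 3
    exact_mod_cast this
  rintro z (hz | ⟨j, hj, rfl⟩ | ⟨j, hj, rfl⟩)
  · exact S_le_M (G.st z hz)
  · rw [G.Dx]
    exact (G.M J).mul_mem (S_le_M (G.cS j)) (y_mem_M hj)
  · rw [Dy']
    exact (G.M J).mul_mem ((G.M J).algebraMap_mem _) ((G.M J).mul_mem (S_le_M (G.cS j))
      ((G.M J).add_mem ((G.M J).mul_mem h3 (pow_mem (x_mem_M hj) 2))
        (S_le_M (G.cst _ (G.Da j)))))

theorem ellPt (j : Fin r) {J : Set (Fin r)} (hj : j ∉ J) :
    EllPt G.D (G.M J) (G.x j) (G.y j) (G.a j) (G.b j) (G.c j) where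
  eq := G.hxy j
  disc := G.disc j
  Da := G.Da j
  Db := G.Db j
  cM := S_le_M (G.cS j)
  c0 := G.c0 j
  Dx := G.Dx j
  st := M_st
  cst := fun z hz => S_le_M (G.cst z hz)
  tr := tr j hj

/-- derivatives of the coordinates -/
theorem D_ch (ε : Fin r → Bool) (j : Fin r) (i : Bool) (E : Derivation k F F)
    (hx : ∃ e ∈ G.S, E (G.x j) = e * G.y j) (ha : E (G.a j) = 0) (hb : E (G.b j) = 0)
    {J : Set (Fin r)} (hj : j ∈ J) : E (G.ch ε j i) ∈ G.R ε J := by
  obtain ⟨e, he, hx⟩ := hx
  have hch : CharZero F := charZero_of_injective_algebraMap (algebraMap k F).injective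
  have hy0 := y_ne (G := G) j
  have hhalf := half k (F := F)
  have h3 : (3 : F) ∈ G.R ε J := by
    have := (G.R ε J).natCast_mem 3
    exact_mod_cast this
  have hh : algebraMap k F (1 / 2) ∈ G.R ε J := (G.R ε J).algebraMap_mem _
  have heR : e ∈ G.R ε J := S_le_R he
  have haR : G.a j ∈ G.R ε J := S_le_R (G.cst _ (G.Da j))
  have hbR : G.b j ∈ G.R ε J := S_le_R (G.cst _ (G.Db j))
  have hE : E (G.y j) = algebraMap k F (1 / 2) * (e * (3 * G.x j ^ 2 + G.a j)) := by
    have e' := congrArg E (G.hxy j)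
    rw [map_add, map_add, Derivation.leibniz_pow, Derivation.leibniz_pow, Derivation.leibniz,
      ha, hb, hx] at e'
    simp only [smul_eq_mul, nsmul_eq_mul, Nat.cast_ofNat] at e'
    have h1 : 2 * E (G.y j) = e * (3 * G.x j ^ 2 + G.a j) := by
      apply mul_left_cancel₀ hy0
      linear_combination e'
    linear_combination (algebraMap k F (1 / 2)) * h1 - E (G.y j) * hhalf
  by_cases hε : ε j = true
  · have c1 : G.ch ε j true = G.x j := by simp [ch, hε]
    have c2 : G.ch ε j false = G.y j := by simp [ch, hε]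
    have m1 := ch_mem (G := G) (ε := ε) hj true
    have m2 := ch_mem (G := G) (ε := ε) hj false
    rw [c1] at m1
    rw [c2] at m2
    cases i
    · rw [c2, hE]
      exact (G.R ε J).mul_mem hh ((G.R ε J).mul_mem heR ((G.R ε J).add_mem
        ((G.R ε J).mul_mem h3 ((G.R ε J).pow_mem m1 2)) haR))
    · rw [c1, hx]
      exact (G.R ε J).mul_mem heR m2
  · have c1 : G.ch ε j true = G.x j * (G.y j)⁻¹ := by simp [ch, hε]
    have c2 : G.ch ε j false = (G.y j)⁻¹ := by simp [ch, hε]
    have m1 := ch_mem (G := G) (ε := ε) hj true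
    have m2 := ch_mem (G := G) (ε := ε) hj false
    rw [c1] at m1
    rw [c2] at m2
    have d2 : E ((G.y j)⁻¹) = -(algebraMap k F (1 / 2) * e * (3 * (G.x j * (G.y j)⁻¹) ^ 2 +
        G.a j * ((G.y j)⁻¹) ^ 2)) := by
      rw [Derivation.leibniz_inv, smul_eq_mul, hE]
      field_simp
    have d1 : E (G.x j * (G.y j)⁻¹) = e * (-(algebraMap k F (1 / 2)) +
        G.a j * (G.x j * (G.y j)⁻¹) * (G.y j)⁻¹ +
        algebraMap k F (1 / 2) * 3 * G.b j * ((G.y j)⁻¹) ^ 2) := by
      rw [E.leibniz, smul_eq_mul, smul_eq_mul, d2, hx]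
      have heq := G.hxy j
      field_simp
      linear_combination (-(e * G.y j ^ 2) + e * G.a j * G.x j) * hhalf +
        3 * e * algebraMap k F (1 / 2) * heq
    cases i
    · rw [c2, d2]
      exact (G.R ε J).neg_mem ((G.R ε J).mul_mem ((G.R ε J).mul_mem hh heR)
        ((G.R ε J).add_mem ((G.R ε J).mul_mem h3 ((G.R ε J).pow_mem m1 2))
          ((G.R ε J).mul_mem haR ((G.R ε J).pow_mem m2 2))))
    · rw [c1, d1]
      exact (G.R ε J).mul_mem heR ((G.R ε J).add_mem ((G.R ε J).add_mem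
        ((G.R ε J).neg_mem hh) ((G.R ε J).mul_mem ((G.R ε J).mul_mem haR m1) m2))
        ((G.R ε J).mul_mem ((G.R ε J).mul_mem ((G.R ε J).mul_mem hh h3) hbR)
          ((G.R ε J).pow_mem m2 2)))

/-- derivations which preserve the chart rings -/
theorem R_st (ε : Fin r → Bool) {J : Set (Fin r)} (E : Derivation k F F)
    (hS : ∀ z ∈ G.S, E z ∈ G.S) (hx : ∀ j ∈ J, ∃ e ∈ G.S, E (G.x j) = e * G.y j)
    (ha : ∀ j ∈ J, E (G.a j) = 0) (hb : ∀ j ∈ J, E (G.b j) = 0) :
    ∀ z ∈ G.R ε J, E z ∈ G.R ε J := by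
  intro z hz
  refine adjoin_stable hS ?_ (mem_R.1 hz)
  rintro z ⟨j, hj, i, rfl⟩
  exact D_ch ε j i E (hx j hj) (ha j hj) (hb j hj) hj

theorem R_stD (ε : Fin r → Bool) {J : Set (Fin r)} : ∀ z ∈ G.R ε J, G.D z ∈ G.R ε J :=
  R_st ε G.D G.st (fun j _ => ⟨_, G.cS j, G.Dx j⟩) (fun j _ => G.Da j) fun j _ => G.Db j

/-- elements of the field are quotients -/
theorem frac (ε : Fin r → Bool) {J : Set (Fin r)} {z : F} (hz : z ∈ G.M J) :
    ∃ s ∈ G.R ε J, s ≠ 0 ∧ s * z ∈ G.R ε J := by
  unfold M at hz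
  induction hz using IntermediateField.adjoin_induction with
  | mem z hz =>
    rcases hz with hz | ⟨j, hj, rfl⟩ | ⟨j, hj, rfl⟩
    · exact ⟨1, (G.R ε J).one_mem, one_ne_zero, by rw [one_mul]; exact S_le_R hz⟩
    · by_cases hε : ε j = true
      · have c1 : G.ch ε j true = G.x j := by simp [ch, hε]
        refine ⟨1, (G.R ε J).one_mem, one_ne_zero, ?_⟩
        rw [one_mul, ← c1]
        exact ch_mem hj true
      · have c1 : G.ch ε j true = G.x j * (G.y j)⁻¹ := by simp [ch, hε]
        have c2 : G.ch ε j false = (G.y j)⁻¹ := by simp [ch, hε]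
        refine ⟨(G.y j)⁻¹, ?_, inv_ne_zero (y_ne j), ?_⟩
        · rw [← c2]
          exact ch_mem hj false
        · rw [mul_comm, ← c1]
          exact ch_mem hj true
    · by_cases hε : ε j = true
      · have c1 : G.ch ε j false = G.y j := by simp [ch, hε]
        refine ⟨1, (G.R ε J).one_mem, one_ne_zero, ?_⟩
        rw [one_mul, ← c1]
        exact ch_mem hj false
      · have c2 : G.ch ε j false = (G.y j)⁻¹ := by simp [ch, hε]
        refine ⟨(G.y j)⁻¹, ?_, inv_ne_zero (y_ne j), ?_⟩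
        · rw [← c2]
          exact ch_mem hj false
        · rw [inv_mul_cancel₀ (y_ne j)]
          exact (G.R ε J).one_mem
  | algebraMap s =>
    exact ⟨1, (G.R ε J).one_mem, one_ne_zero, by rw [one_mul]; exact (G.R ε J).algebraMap_mem s⟩
  | add u v _ _ hu hv =>
    obtain ⟨s, hs, hs0, h1⟩ := hu
    obtain ⟨t, ht, ht0, h2⟩ := hv
    refine ⟨s * t, (G.R ε J).mul_mem hs ht, mul_ne_zero hs0 ht0, ?_⟩
    have e : s * t * (u + v) = t * (s * u) + s * (t * v) := by ring
    rw [e]
    exact (G.R ε J).add_mem ((G.R ε J).mul_mem ht h1) ((G.R ε J).mul_mem hs h2)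
  | inv u _ hu =>
    obtain ⟨s, hs, hs0, h1⟩ := hu
    by_cases hu0 : u = 0
    · exact ⟨1, (G.R ε J).one_mem, one_ne_zero, by rw [hu0, inv_zero, mul_zero]; exact (G.R ε J).zero_mem⟩
    · refine ⟨s * u, h1, mul_ne_zero hs0 hu0, ?_⟩
      rw [mul_assoc, mul_inv_cancel₀ hu0, mul_one]
      exact hs
  | mul u v _ _ hu hv =>
    obtain ⟨s, hs, hs0, h1⟩ := hu
    obtain ⟨t, ht, ht0, h2⟩ := hv
    refine ⟨s * t, (G.R ε J).mul_mem hs ht, mul_ne_zero hs0 ht0, ?_⟩
    have e : s * t * (u * v) = (s * u) * (t * v) := by ring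
    rw [e]
    exact (G.R ε J).mul_mem h1 h2

/-- **The chart rings are differentially simple.** -/
theorem R_DS (ε : Fin r → Bool) (J : Finset (Fin r)) : DS G.D (G.R ε (J : Set (Fin r))) := by
  classical
  induction J using Finset.induction_on with
  | empty =>
    refine ⟨R_stD ε, fun I hI hne => ?_⟩
    obtain ⟨z, hz, hz0⟩ := hne
    have h1 : ∀ w ∈ G.R ε ((∅ : Finset (Fin r)) : Set (Fin r)), w ∈ G.S := by
      intro w hw
      have h2 := mem_R.1 hw
      have h3 : G.gen ε ((∅ : Finset (Fin r)) : Set (Fin r)) = ∅ := by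
        ext z
        simp [gen]
      rw [h3, Algebra.adjoin_empty] at h2
      obtain ⟨s, hs⟩ := Algebra.mem_bot.1 h2
      rw [← hs]
      exact s.2
    have h2 := hI.mul z⁻¹ (S_le_R (G.S.inv_mem (h1 z (hI.sub hz)))) z hz
    rwa [inv_mul_cancel₀ hz0] at h2
  | insert j J hj ih =>
    have hj' : j ∉ (J : Set (Fin r)) := by exact_mod_cast hj
    have hE := ellPt (G := G) j hj'
    have hsub : (J : Set (Fin r)) ⊆ ((insert j J : Finset (Fin r)) : Set (Fin r)) := by
      intro i hi
      rw [Finset.coe_insert]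
      exact Or.inr hi
    have hjm : j ∈ ((insert j J : Finset (Fin r)) : Set (Fin r)) := by
      rw [Finset.coe_insert]
      exact Or.inl rfl
    have hfr : ∀ z ∈ G.M (J : Set (Fin r)), ∃ s ∈ G.R ε (J : Set (Fin r)), s ≠ 0 ∧
        s * z ∈ G.R ε ((insert j J : Finset (Fin r)) : Set (Fin r)) := fun z hz => by
      obtain ⟨s, hs, hs0, h1⟩ := frac ε hz
      exact ⟨s, hs, hs0, R_mono hsub h1⟩
    have hadj : ∀ (T : Set F), (∀ z ∈ T, z ∈ G.R ε ((insert j J : Finset (Fin r)) : Set (Fin r))) →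
        ∀ z ∈ Algebra.adjoin (G.M (J : Set (Fin r))) T, ∃ s ∈ G.R ε (J : Set (Fin r)), s ≠ 0 ∧
        s * z ∈ G.R ε ((insert j J : Finset (Fin r)) : Set (Fin r)) := by
      intro T hT z hz
      have h12 : G.R ε (J : Set (Fin r)) ≤ G.R ε ((insert j J : Finset (Fin r)) : Set (Fin r)) :=
        R_mono hsub
      generalize G.R ε (J : Set (Fin r)) = R1 at hfr h12 ⊢
      generalize G.R ε ((insert j J : Finset (Fin r)) : Set (Fin r)) = R2 at hfr h12 hT ⊢
      induction hz using Algebra.adjoin_induction with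
      | mem z hz => exact ⟨1, R1.one_mem, one_ne_zero, by rw [one_mul]; exact hT z hz⟩
      | algebraMap s => exact hfr s s.2
      | add u v _ _ hu hv =>
        obtain ⟨s, hs, hs0, h1⟩ := hu
        obtain ⟨t, ht, ht0, h2⟩ := hv
        refine ⟨s * t, R1.mul_mem hs ht, mul_ne_zero hs0 ht0, ?_⟩
        have e : s * t * (u + v) = t * (s * u) + s * (t * v) := by ring
        rw [e]
        exact R2.add_mem (R2.mul_mem (h12 ht) h1) (R2.mul_mem (h12 hs) h2)
      | mul u v _ _ hu hv =>
        obtain ⟨s, hs, hs0, h1⟩ := hu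
        obtain ⟨t, ht, ht0, h2⟩ := hv
        refine ⟨s * t, R1.mul_mem hs ht, mul_ne_zero hs0 ht0, ?_⟩
        have e : s * t * (u * v) = (s * u) * (t * v) := by ring
        rw [e]
        exact R2.mul_mem h1 h2
    by_cases hε : ε j = true
    · have c1 : G.ch ε j true = G.x j := by simp [ch, hε]
      have c2 : G.ch ε j false = G.y j := by simp [ch, hε]
      refine ih.tower (R_mono hsub) (R_stD ε) hE.aff_DS ?_ ?_
      · intro z hz
        have h1 := mem_R.1 hz
        induction h1 using Algebra.adjoin_induction with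
        | mem z hz' =>
          obtain ⟨i, hi, e, rfl⟩ := hz'
          rw [Finset.coe_insert] at hi
          rcases hi with rfl | hi
          · cases e
            · rw [c2]; exact y_mem
            · rw [c1]; exact x_mem
          · exact M_le_affR _ (ch_mem_M hi e)
        | algebraMap s => exact M_le_affR _ (S_le_M s.2)
        | add u v hu' hv' hu hv => exact Subalgebra.add_mem _ (hu (mem_R.2 hu')) (hv (mem_R.2 hv'))
        | mul u v hu' hv' hu hv => exact Subalgebra.mul_mem _ (hu (mem_R.2 hu')) (hv (mem_R.2 hv'))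
      · intro z hz
        refine hadj _ ?_ z (mem_affR.1 hz)
        rintro z (rfl | hz)
        · rw [← c1]; exact ch_mem hjm true
        · rw [Set.mem_singleton_iff] at hz
          rw [hz, ← c2]
          exact ch_mem hjm false
    · have c1 : G.ch ε j true = G.x j * (G.y j)⁻¹ := by simp [ch, hε]
      have c2 : G.ch ε j false = (G.y j)⁻¹ := by simp [ch, hε]
      refine ih.tower (R_mono hsub) (R_stD ε) hE.proj_DS ?_ ?_
      · intro z hz
        have h1 := mem_R.1 hz
        induction h1 using Algebra.adjoin_induction with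
        | mem z hz' =>
          obtain ⟨i, hi, e, rfl⟩ := hz'
          rw [Finset.coe_insert] at hi
          rcases hi with rfl | hi
          · cases e
            · rw [c2]; exact w_mem
            · rw [c1]; exact z_mem
          · exact M_le_projR _ (ch_mem_M hi e)
        | algebraMap s => exact M_le_projR _ (S_le_M s.2)
        | add u v hu' hv' hu hv => exact Subalgebra.add_mem _ (hu (mem_R.2 hu')) (hv (mem_R.2 hv'))
        | mul u v hu' hv' hu hv => exact Subalgebra.mul_mem _ (hu (mem_R.2 hu')) (hv (mem_R.2 hv'))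
      · intro z hz
        refine hadj _ ?_ z (mem_projR.1 hz)
        rintro z (rfl | hz)
        · rw [← c1]; exact ch_mem hjm true
        · rw [Set.mem_singleton_iff] at hz
          rw [hz, ← c2]
          exact ch_mem hjm false

end RD

end Pool.Agent.E8helper90.RC
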