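import Pool.Agent.E8helper90.RC.Ulh
import Pool.Agent.E8helper90.RC.RelB

/-!
The ultraproduct of counterexamples which avoid the exceptional sets: relative pluricanonical forms.
-/

set_option autoImplicit false

namespace Pool.Agent.E8helper90.RC

open FF Filter MvPolynomial Pool.Agent.E8helper90.AF
open Pool.Agent.W602.GT (GeneralType coords SubVar IsForm val IsPluri RegAt Divisorial)
open Pool.Agent.W603.LV (hgt hgt_nonneg hgt_finset hgt_inv vo unif ord_unif ord_der der_mul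
  vo_finite const_of_der Ge canDeg exists_der hgt_root)
open Pool.Agent.W603.PV (pht pht_le)
open Pool.Agent.W603.CX (hgt_le_pht)
open Pool.Agent.W603.CY (ui UL um)
open Pool.Agent.TH600.LC (clo mem_clo inv_mem_clo subset_clo clo_le clo_mono adjoin_le_clo
  coe_clo)
open scoped ENNReal

/-- The function field of the image of the variety with the generic point `y` under the rational map
`(B_1 / C_1, …, B_L / C_L)` to the affine space `A^L`: the subfield of `K` which is generated over `ℂ`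
by the values of the functions `B_s / C_s` at `y`. (The quotient is `0` if `C_s` vanishes at `y`.) -/
noncomputable def baseF {K : Type} [Field K] [Algebra ℂ K] {N L : ℕ}
    (B C : Fin L → MvPolynomial (Fin (N + 1)) ℂ) (y : Fin (N + 1) → K) : IntermediateField ℂ K :=
  IntermediateField.adjoin ℂ (Set.range fun s => val y (B s) / val y (C s))

/-- algebraic elements and homomorphisms -/
theorem alg_mapR {k1 k2 K U : Type} [Field k1] [Field k2] [Field K] [Field U] [Algebra k1 K]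
    [Algebra k2 U] (φ : K →+* U) (A : IntermediateField k1 K) (B : IntermediateField k2 U)
    (h : ∀ z ∈ A, φ z ∈ B) {z : K} (hz : IsAlgebraic A z) : IsAlgebraic B (φ z) := by
  obtain ⟨p, hp, hp0⟩ := hz
  let ψ : A →+* B :=
    { toFun := fun z => ⟨φ z.1, h z.1 z.2⟩
      map_one' := Subtype.ext (map_one φ)
      map_mul' := fun _ _ => Subtype.ext (map_mul φ _ _)
      map_zero' := Subtype.ext (map_zero φ)
      map_add' := fun _ _ => Subtype.ext (map_add φ _ _) }
  refine ⟨p.map ψ, (Polynomial.map_ne_zero_iff ψ.injective).2 hp, ?_⟩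
  have h4 := Polynomial.hom_eval₂ p (algebraMap A K) φ z
  rw [Polynomial.aeval_def] at hp0
  rw [hp0, map_zero] at h4
  rw [Polynomial.aeval_def, Polynomial.eval₂_map]
  exact h4.symm

/-- quotients of relative pluricanonical forms -/
theorem pluri_small {k F : Type} [Field k] [Field F] [Algebra k F] {I : Type} {X : PS k F I}
    (h : PC X) [CharZero k] {n : ℕ} (x y : Fin n → F) (a b : Fin n → k)
    (hab : ∀ j, 4 * a j ^ 3 + 27 * b j ^ 2 ≠ 0)
    (hxy : ∀ j, y j ^ 2 = x j ^ 3 + algebraMap k F (a j) * x j + algebraMap k F (b j))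
    (c : Fin n → F) (hc : ∀ j, c j ∈ SF h) (hD : ∀ j, X.D (x j) = c j * y j)
    (hfin : ∀ j, X.m (X.pl (x j)) ≠ ∞) (K : IntermediateField k F) (hKfg : K.FG)
    (hK : ∀ v ∈ K, v ∈ clo (SF h) (Set.range x)) (B : IntermediateField k K)
    (hB : ∀ c ∈ B, (c : F) ∈ SF h) {q : ℕ} (htr : Algebra.trdeg B K = q) :
    ∀ v ∈ pluriField B K q, (v : F) ∈ SF h := by
  have : Algebra.EssFiniteType k K := IntermediateField.essFiniteType_iff.2 hKfg
  have : Algebra.EssFiniteType B K := Algebra.EssFiniteType.of_comp k B K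
  have : CharZero B := charZero_of_injective_algebraMap (algebraMap k B).injective
  obtain ⟨T, hT⟩ : ∃ T : IntermediateField B K, ∀ v : K, v ∈ T ↔ (v : F) ∈ SF h :=
    ⟨IntermediateField.extendScalars (F := B) (E := (SF h).comap K.val) fun c hc => hB c hc,
      fun v => Iff.rfl⟩
  have h2 : pluriField B K q ≤ T := by
    unfold pluriField
    rw [IntermediateField.adjoin_le_iff]
    rintro _ ⟨N', ω, ω', D', hN', hω, hω', hreg, hD', rfl⟩
    refine (hT _).2 ?_
    exact abs_ratioR h x y a b hab hxy c hc hD hfin (k' := B) (fun c => hB _ c.2) (K := K)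
      (fun z => hK _ z.2) htr hN' hω hω' (fun P hP => (hreg P hP).1)
      (fun P hP => (hreg P hP).2) hD'
  exact fun v hv => (hT v).1 (h2 hv)

theorem ult4R {L : ℕ → Type} [∀ i, Field (L i)] [∀ i, Algebra ℂ (L i)] [∀ i, IsFF ℂ (L i)]
    {N n D w t : ℕ} {ι κ : Type} [Finite κ] {F : ι → MvPolynomial (Fin (N + 1)) ℂ}
    {I : κ → MvPolynomial (Fin (N + 1)) ℂ} (hF : ∀ e, IsForm (F e)) (hI : ∀ e, IsForm (I e))
    {A0 : Set ℂ} (hA0f : A0.Finite) (hFA : ∀ e, ∀ α ∈ (F e).support, (F e).coeff α ∈ A0)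
    (hIA : ∀ e, ∀ α ∈ (I e).support, (I e).coeff α ∈ A0)
    (d : ℕ → ℕ) (χ : ℕ → ℤ) (hχd : ∀ i, χ i = max (canDeg ℂ (L i)) 0 + d i)
    (f : ∀ i, Fin (N + 1) → L i) (hf0 : ∀ i, ∃ l, f i l ≠ 0) (x y : ∀ i, Fin n → L i)
    {a b : Fin n → ℂ} (haA : ∀ c, a c ∈ A0) (hbA : ∀ c, b c ∈ A0)
    (hFe : ∀ i e, val (f i) (F e) = 0) (hIe : ∀ i, ∃ e, val (f i) (I e) ≠ 0)
    (hab : ∀ j, 4 * a j ^ 3 + 27 * b j ^ 2 ≠ 0)
    (hxy : ∀ i j, y i j ^ 2 = x i j ^ 3 + algebraMap ℂ (L i) (a j) * x i j +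
      algebraMap ℂ (L i) (b j))
    (hx : ∀ i j, hgt ℂ (x i j) ≤ D * (pht ℂ (f i) + d i))
    {l0 : Fin (N + 1)} (hl0 : ∀ᶠ i in (hyperfilter ℕ : Filter ℕ), f i l0 ≠ 0)
    (g : Fin (N + 1) → ∀ i, L i) (hg : ∀ j i, g j i = f i j / f i l0)
    {J : Fin w → Fin (N + 1)}
    (hJ : AlgebraicIndependent (Subfield.closure A0) fun s => (um (g (J s)) : UL L))
    (hclo : ∀ (U : Type) [Field U] [Algebra ℂ U] (u : (∀ i, L i) →+* U)
      (S : IntermediateField ℂ U), UlD A0 χ g w U u S →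
      (∀ e, val (fun j => u (g j)) (F e) = 0) → (∃ e, val (fun j => u (g j)) (I e) ≠ 0) →
      ∀ j, u (g j) ∈ clo S (Set.range fun c => u fun i => x i c))
    {V W : MvPolynomial (Fin (N + 1)) ℂ} {m : ℕ} (hV : V.IsHomogeneous m)
    (hW : W.IsHomogeneous m) (hVA : ∀ α ∈ V.support, V.coeff α ∈ A0)
    (hWA : ∀ α ∈ W.support, W.coeff α ∈ A0) {B C : Fin t → MvPolynomial (Fin (N + 1)) ℂ}
    (hBC : ∀ s, ∃ m, (B s).IsHomogeneous m ∧ (C s).IsHomogeneous m)
    (hBA : ∀ s, ∀ α ∈ (B s).support, (B s).coeff α ∈ A0)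
    (hCA : ∀ s, ∀ α ∈ (C s).support, (C s).coeff α ∈ A0)
    (hbd : ∀ i s, hgt ℂ (val (f i) (B s) / val (f i) (C s)) ≤ d i)
    (halg : ∀ (K : Type) [Field K] [Algebra ℂ K] (v : ℕ) (y : Fin (N + 1) → K), SubVar F K v y →
      w ≤ v → (∃ e, val y (I e) ≠ 0) → ∃ q : ℕ, Algebra.trdeg (baseF B C y) K = q ∧
        IsAlgebraic (pluriField (baseF B C y) K q) (val y V / val y W))
    (m0 : ℕ) :
    ∀ᶠ i in (hyperfilter ℕ : Filter ℕ),
      (m0 : ℤ) * hgt ℂ (val (f i) V / val (f i) W) ≤ pht ℂ (f i) + i * χ i + 1 := by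
  classical
  have hχ : ∀ i, 0 ≤ χ i := by
    intro i
    rw [hχd]
    have := le_max_right (canDeg ℂ (L i)) 0
    positivity
  have hdχ : ∀ i, (d i : ℤ) ≤ χ i := by
    intro i
    rw [hχd]
    have := le_max_right (canDeg ℂ (L i)) 0
    linarith
  have hp0 : ∀ i, 0 ≤ pht ℂ (f i) := by
    intro i
    obtain ⟨l, hl⟩ := hf0 i
    exact (hgt_nonneg _).trans (hgt_le_pht (k := ℂ) (f i) hl hl)
  obtain ⟨T, hTd⟩ : ∃ T : ℕ → ℕ, ∀ i, (T i : ℤ) = pht ℂ (f i) + i * χ i + 1 := by
    refine ⟨fun i => (pht ℂ (f i) + i * χ i + 1).toNat, fun i => Int.toNat_of_nonneg ?_⟩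
    have h1 : (0 : ℤ) ≤ i * χ i := mul_nonneg (by positivity) (hχ i)
    have h2 := hp0 i
    linarith
  have hT0 : ∀ i, 0 < T i := by
    intro i
    have h1 : (0 : ℤ) ≤ i * χ i := mul_nonneg (by positivity) (hχ i)
    have h2 := hp0 i
    have h3 := hTd i
    omega
  have hlarge : ∀ C : ℕ, ∀ᶠ i in (hyperfilter ℕ : Filter ℕ), C ≤ i := fun C =>
    Nat.hyperfilter_le_atTop (eventually_ge_atTop C)
  have hχT : ∀ n : ℕ, ∀ᶠ i in (hyperfilter ℕ : Filter ℕ), (n : ℤ) * χ i ≤ T i := by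
    intro n
    filter_upwards [hlarge n] with i hi
    have h1 : (n : ℤ) * χ i ≤ i * χ i := mul_le_mul_of_nonneg_right (by exact_mod_cast hi) (hχ i)
    have h2 := hp0 i
    rw [hTd]
    linarith
  have hTp : ∀ i, pht ℂ (f i) ≤ T i := by
    intro i
    have h1 : (0 : ℤ) ≤ i * χ i := mul_nonneg (by positivity) (hχ i)
    rw [hTd]
    linarith
  obtain ⟨e1, he1⟩ := exists_index hIe
  -- evaluation in the ultraproduct
  have hev1 : ∀ (U : Type) [Field U] [Algebra ℂ U] (u : (∀ i, L i) →+* U),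
      (∀ c ∈ A0, algebraMap ℂ U c = u fun i => algebraMap ℂ (L i) c) →
      ∀ (H : MvPolynomial (Fin (N + 1)) ℂ), (∀ α ∈ H.support, H.coeff α ∈ A0) →
        val (fun j => u (g j)) H = u fun i => val (fun j => f i j / f i l0) H := by
    intro U _ _ u hA0u H hH
    have h1 := u_aeval u g (H := H) fun α hα => hA0u _ (hH α hα)
    unfold val
    rw [h1]
    congr 1
    funext i
    congr 2
    funext s
    exact hg s i
  have hev0 : ∀ (U : Type) [Field U] [Algebra ℂ U] (u : (∀ i, L i) →+* U),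
      (∀ z, u z = 0 ↔ ∀ᶠ i in (hyperfilter ℕ : Filter ℕ), z i = 0) →
      (∀ c ∈ A0, algebraMap ℂ U c = u fun i => algebraMap ℂ (L i) c) →
      (∀ e, val (fun j => u (g j)) (F e) = 0) ∧ val (fun j => u (g j)) (I e1) ≠ 0 ∧
      u (g l0) = 1 ∧ ∀ (V W : MvPolynomial (Fin (N + 1)) ℂ) (m : ℕ), V.IsHomogeneous m →
        W.IsHomogeneous m → (∀ α ∈ V.support, V.coeff α ∈ A0) →
        (∀ α ∈ W.support, W.coeff α ∈ A0) →
        val (fun j => u (g j)) V / val (fun j => u (g j)) W =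
          u fun i => val (f i) V / val (f i) W := by
    intro U _ _ u hzero hA0u
    refine ⟨fun e => ?_, ?_, ?_, ?_⟩
    · rw [hev1 U u hA0u (F e) (hFA e), hzero]
      filter_upwards [hl0] with i hi
      obtain ⟨m, hm⟩ := hF e
      have h1 := val_scale hm hi (f i)
      rw [hFe] at h1
      exact (mul_eq_zero.1 h1.symm).resolve_left (pow_ne_zero m hi)
    · rw [hev1 U u hA0u (I e1) (hIA e1), Ne, hzero]
      refine Ultrafilter.eventually_not.1 ?_
      filter_upwards [hl0, he1] with i hi h2 h3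
      obtain ⟨m, hm⟩ := hI e1
      rw [val_scale hm hi (f i), h3, mul_zero] at h2
      exact h2 rfl
    · rw [← sub_eq_zero, ← map_one u, ← map_sub, hzero]
      filter_upwards [hl0] with i hi
      rw [Pi.sub_apply, Pi.one_apply, hg, div_self hi, sub_self]
    · intro V W m hV hW hVA hWA
      rw [hev1 U u hA0u V hVA, hev1 U u hA0u W hWA, div_eq_mul_inv, ← u_inv hzero, ← map_mul,
        ← sub_eq_zero, ← map_sub, hzero]
      filter_upwards [hl0] with i hi
      rw [Pi.sub_apply, Pi.mul_apply, ← div_eq_mul_inv, val_div hV hW hi, sub_self]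
  by_cases hnc : ∀ᶠ i in (hyperfilter ℕ : Filter ℕ), ∃ j, ∀ c : ℂ, x i j ≠ algebraMap ℂ (L i) c
  swap
  · -- all points are constant
    have hcst : ∀ᶠ i in (hyperfilter ℕ : Filter ℕ), ∀ j, ∃ c : ℂ, x i j = algebraMap ℂ (L i) c := by
      filter_upwards [Ultrafilter.eventually_not.2 hnc] with i hi
      push Not at hi
      exact hi
    obtain ⟨U, iU, aU, u, δ, hsurj, hzero, hA0u, hδ, hc2, hind⟩ := exists_package2 hA0f
      (fun i => (0 : Derivation ℂ (L i) (L i))) (fun s => g (J s)) hJ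
    obtain ⟨h1, h0, h2, h3⟩ := hev0 U u hzero hA0u
    replace h3 := h3 V W m hV hW hVA hWA
    obtain ⟨w', K, z, hww', hKfg, hz, hsub, hco, htr⟩ :=
      sub_field (Z := fun j => u (g j)) h2 h1 hind
    have key := hclo U u (smallU hzero hc2 χ) ⟨hzero, hA0u, fun w hw => mem_smallU.2 hw,
      ⟨l0, h2⟩, ⟨w', hww', by rw [hco]; exact htr⟩⟩ h1 ⟨e1, h0⟩
    have hX : ∀ c, (u fun i => x i c) ∈ smallU hzero hc2 χ := by
      intro c
      rw [mem_smallU]
      refine ⟨0, ?_⟩
      filter_upwards [hcst] with i hi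
      rw [hgt_const (hi c)]
      simp
    have key2 : ∀ j, u (g j) ∈ smallU hzero hc2 χ := by
      intro j
      apply smallU_closed hsurj
      have h4 : ∀ z ∈ Algebra.adjoin (smallU hzero hc2 χ) (Set.range fun c => u fun i => x i c),
          z ∈ (smallU hzero hc2 χ).toSubalgebra := by
        intro z hz
        induction hz using Algebra.adjoin_induction with
        | mem w hw =>
          obtain ⟨c, rfl⟩ := hw
          exact hX c
        | algebraMap s => exact s.2
        | add u v _ _ hu hv => exact Subalgebra.add_mem _ hu hv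
        | mul u v _ _ hu hv => exact Subalgebra.mul_mem _ hu hv
      exact alg_mono _ _ h4 (mem_clo.1 (key j))
    have key3 : (u fun i => val (f i) V / val (f i) W) ∈ smallU hzero hc2 χ := by
      rw [← h3]
      exact div_mem (val_mem _ key2 V) (val_mem _ key2 W)
    obtain ⟨B, hB⟩ := mem_smallU.1 key3
    filter_upwards [hB, hχT (m0 * B)] with i h4 h5
    rw [← hTd]
    push_cast at h5
    have h6 : (m0 : ℤ) * hgt ℂ (val (f i) V / val (f i) W) ≤ m0 * (B * χ i) :=
      mul_le_mul_of_nonneg_left h4 (by positivity)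
    linarith
  -- the derivations
  have hder : ∀ i, ∃ E : Derivation ℂ (L i) (L i), E ≠ 0 ∧
      ((∃ j, ∀ c : ℂ, x i j ≠ algebraMap ℂ (L i) c) → (∀ P, vo P E ≤ 0) ∧ pol E ≤ χ i) := by
    intro i
    by_cases hi : ∃ j, ∀ c : ℂ, x i j ≠ algebraMap ℂ (L i) c
    · obtain ⟨j, hj⟩ := hi
      obtain ⟨D0, hD0⟩ := exists_der (k := ℂ) (K := L i)
      obtain ⟨-, -, h1, h2⟩ := ell_norm (hab j) (hxy i j) hD0 hj ∅
      refine ⟨_, h1, fun _ => ⟨fun P => (h2 P).2 (Finset.notMem_empty P), ?_⟩⟩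
      have h3 := pol_le h1 ∅ h2
      rw [Finset.card_empty, Nat.cast_zero, add_zero] at h3
      have h4 := le_max_left (canDeg ℂ (L i)) 0
      have h5 := hχd i
      have h6 : (0 : ℤ) ≤ d i := by positivity
      linarith
    · obtain ⟨E, hE⟩ := exists_der (k := ℂ) (K := L i)
      exact ⟨E, hE, fun h => absurd h hi⟩
  choose E hE0 hEp using hder
  -- the package
  obtain ⟨U, iU, aU, u, δ, hsurj, hzero, hA0u, hδ, hc2, hind⟩ := exists_package2 hA0f E
    (fun s => g (J s)) hJ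
  let G : Pk ℂ L U :=
    { u := u
      E := E
      D := δ
      T := T
      surj := hsurj
      zero_iff := hzero
      D_u := hδ
      c2 := hc2
      E0 := hE0
      vo_le := by
        filter_upwards [hnc] with i hi
        exact (hEp i hi).1
      T0 := hT0
      pol_le := by
        intro m
        filter_upwards [hnc, hχT m] with i hi h1
        exact (mul_le_mul_of_nonneg_left (hEp i hi).2 (by positivity)).trans h1 }
  have hGu : G.u = u := rfl
  have small : ∀ w : ∀ i, L i, (∃ B : ℕ, ∀ᶠ i in (hyperfilter ℕ : Filter ℕ),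
      hgt ℂ (w i) ≤ B * χ i) → u w ∈ SF G.pc := by
    rintro w ⟨B, hB⟩
    rw [← hGu, G.mem_SF_u]
    intro m
    filter_upwards [hB, hχT (m * B)] with i h1 h2
    have h3 : (m : ℤ) * hgt ℂ (w i) ≤ m * (B * χ i) := mul_le_mul_of_nonneg_left h1 (by positivity)
    push_cast at h2
    have h4 : ((G.T i : ℕ) : ℤ) = T i := rfl
    rw [h4]
    linarith
  -- the points
  obtain ⟨X, hX⟩ : ∃ X : Fin n → U, ∀ j, X j = u fun i => x i j := ⟨_, fun _ => rfl⟩
  obtain ⟨Y, hY⟩ : ∃ Y : Fin n → U, ∀ j, Y j = u fun i => y i j := ⟨_, fun _ => rfl⟩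
  have hXY : ∀ j, Y j ^ 2 = X j ^ 3 + algebraMap ℂ U (a j) * X j + algebraMap ℂ U (b j) := by
    intro j
    rw [hX, hY, hA0u _ (haA j), hA0u _ (hbA j), ← map_pow, ← map_pow, ← map_mul, ← map_add,
      ← map_add]
    congr 1
    funext i
    exact hxy i j
  have hDX : ∀ j, G.ps.D (X j) = (u fun i => E i (x i j) / y i j) * Y j := by
    intro j
    change δ (X j) = _
    rw [hX, hY, hδ, ← map_mul]
    congr 1
    funext i
    exact (speed_x (hab j) (hxy i j) (hE0 i) ∅).1
  have hcS : ∀ j, (u fun i => E i (x i j) / y i j) ∈ SF G.pc := by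
    intro j
    refine small _ ⟨1, ?_⟩
    filter_upwards [hnc] with i hi
    have h1 := (speed_x (hab j) (hxy i j) (hE0 i) ∅).2
    rw [Finset.card_empty, Nat.cast_zero, add_zero] at h1
    refine h1.trans ?_
    rw [Nat.cast_one, one_mul]
    exact (hEp i hi).2
  have hfin : ∀ j, G.ps.m (G.ps.pl (X j)) ≠ ⊤ := by
    intro j
    rw [hX]
    refine G.fin_u (w := fun i => x i j) (B := 2 * D) ?_
    filter_upwards [hχT 1] with i h1
    refine (hx i j).trans ?_
    have h2 : (d i : ℤ) ≤ T i := by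
      have := hdχ i
      push_cast at h1
      linarith
    have h4 := hTp i
    have h3 : (D : ℤ) * (pht ℂ (f i) + d i) ≤ D * (T i + T i) :=
      mul_le_mul_of_nonneg_left (by linarith) (by positivity)
    refine h3.trans (le_of_eq ?_)
    change _ = ((2 * D : ℕ) : ℤ) * (T i : ℤ)
    push_cast
    ring
  -- the coordinates
  obtain ⟨Z, hZ⟩ : ∃ Z : Fin (N + 1) → U, ∀ j, Z j = u (g j) := ⟨_, fun _ => rfl⟩
  have hZf : (fun j => u (g j)) = Z := funext fun j => (hZ j).symm
  have hXr : (fun c => u fun i => x i c) = X := funext fun j => (hX j).symm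
  obtain ⟨hFU, hIU, hZl, hq⟩ := hev0 U u hzero hA0u
  have hVW := hq V W m hV hW hVA hWA
  have hBC2 : ∀ s, val (fun j => u (g j)) (B s) / val (fun j => u (g j)) (C s) ∈ SF G.pc := by
    intro s
    obtain ⟨m, h1, h2⟩ := hBC s
    rw [hq (B s) (C s) m h1 h2 (hBA s) (hCA s)]
    refine small _ ⟨1, Eventually.of_forall fun i => ?_⟩
    rw [Nat.cast_one, one_mul]
    exact (hbd i s).trans (hdχ i)
  have hFU' := hFU
  have hIU' := hIU
  rw [hZf] at hFU hVW hIU hBC2
  rw [← hZ] at hZl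
  have hindZ : AlgebraicIndependent ℂ fun s => Z (J s) := by
    simp only [hZ]
    exact hind
  obtain ⟨w', K, z, hww', hKfg, hz, hsub, hco, htr⟩ := sub_field hZl hFU hindZ
  have hZclo := hclo U u (SF G.pc) ⟨hzero, hA0u, small, ⟨l0, by rw [← hZ]; exact hZl⟩, w', hww',
    by
      rw [hZf, hco]
      exact htr⟩ hFU' ⟨e1, hIU'⟩
  rw [hXr] at hZclo
  simp only [← hZ] at hZclo
  have hKclo : ∀ v ∈ K, v ∈ clo (SF G.pc) (Set.range X) := by
    have h2 : K ≤ ((clo (SF G.pc) (Set.range X)).toIntermediateField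
        fun _ h => inv_mem_clo h).restrictScalars ℂ := by
      rw [← hco]
      unfold coords
      rw [IntermediateField.adjoin_le_iff]
      rintro _ ⟨i, j, _, rfl⟩
      exact div_mem (S := IntermediateField ℂ U) (hZclo i) (hZclo j)
    exact fun v hv => h2 hv
  have hev : ∀ H : MvPolynomial (Fin (N + 1)) ℂ, K.val (val z H) = val Z H := by
    intro H
    have h2 := MvPolynomial.comp_aeval_apply (f := z) K.val H
    have h3 : (fun i => K.val (z i)) = Z := funext hz
    rw [h3] at h2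
    exact h2
  have hIz : val z (I e1) ≠ 0 := by
    intro h
    apply hIU
    rw [← hev, h, map_zero]
  obtain ⟨q, hq1, hq2⟩ := halg K w' z hsub hww' ⟨e1, hIz⟩
  have hbase : ∀ c ∈ baseF B C z, (c : U) ∈ SF G.pc := by
    have h2 : baseF B C z ≤ (SF G.pc).comap K.val := by
      unfold baseF
      rw [IntermediateField.adjoin_le_iff]
      rintro _ ⟨s, rfl⟩
      change K.val (val z (B s) / val z (C s)) ∈ SF G.pc
      rw [map_div₀, hev, hev]
      exact hBC2 s
    exact fun v hv => h2 hv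
  have hpl := pluri_small G.pc X Y a b hab hXY _ hcS hDX hfin K hKfg hKclo (baseF B C z) hbase hq1
  have h5 : IsAlgebraic (SF G.pc) (K.val (val z V / val z W)) :=
    alg_mapR (K.val : K →+* U) _ _ hpl hq2
  have h6 := SF_closed h5
  rw [map_div₀, hev, hev, hVW, ← hGu, G.mem_SF_u] at h6
  filter_upwards [h6 m0] with i h7
  have h8 : ((G.T i : ℕ) : ℤ) = T i := rfl
  rw [← hTd]
  rw [h8] at h7
  exact h7

end Pool.Agent.E8helper90.RC
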