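import Pool.Agent.E8helper90.RC.Fin

/-!
The ultraproduct of counterexamples.
-/

set_option autoImplicit false

namespace Pool.Agent.E8helper90.RC

open FF Filter MvPolynomial Pool.Agent.E8helper90.AF
open Pool.Agent.W602.GT (GeneralType coords)
open Pool.Agent.W603.LV (hgt hgt_nonneg hgt_finset hgt_inv vo unif ord_unif ord_der der_mul
  vo_finite const_of_der Ge canDeg exists_der hgt_root)
open Pool.Agent.W603.PV (pht pht_le)
open Pool.Agent.TH600.LC (clo mem_clo inv_mem_clo subset_clo clo_le clo_mono adjoin_le_clo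
  coe_clo)

/-- the rules of evaluation in the ultraproduct -/
structure UlData {L : ℕ → Type} [∀ i, Field (L i)] [∀ i, Algebra ℂ (L i)] {N r : ℕ}
    (A0 : Set ℂ) (χ : ℕ → ℤ) (t : ℕ → Fin r → ℂ) (g : Fin (N + 1) → ∀ i, L i) (U : Type)
    [Field U] [Algebra ℂ U] (u : (∀ i, L i) →+* U) (τ : Fin r → ℂ) (S : IntermediateField ℂ U) :
    Prop where
  zero_iff : ∀ z, u z = 0 ↔ ∀ᶠ i in (hyperfilter ℕ : Filter ℕ), z i = 0
  A0 : ∀ c ∈ A0, algebraMap ℂ U c = u fun i => algebraMap ℂ (L i) c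
  t : ∀ l, (u fun i => algebraMap ℂ (L i) (t i l)) = algebraMap ℂ U (τ l)
  small : ∀ w : ∀ i, L i, (∃ B : ℕ, ∀ᶠ i in (hyperfilter ℕ : Filter ℕ),
    hgt ℂ (w i) ≤ B * χ i) → u w ∈ S
  one : ∃ l, u (g l) = 1

theorem ult3 {L : ℕ → Type} [∀ i, Field (L i)] [∀ i, Algebra ℂ (L i)] [∀ i, IsFF ℂ (L i)]
    {N r n D : ℕ} {ι κ : Type} [Finite κ]
    {F : ι → MvPolynomial (Fin (N + 1) ⊕ Fin r) ℂ} {J : κ → MvPolynomial (Fin (N + 1) ⊕ Fin r) ℂ}
    (hF : ∀ e, ∃ m, FormIn m (F e)) (hJ : ∀ e, ∃ m, FormIn m (J e)) (hGT : SubGT F J)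
    {A0 : Set ℂ} (hA0f : A0.Finite) (hFA : ∀ e, ∀ α ∈ (F e).support, (F e).coeff α ∈ A0)
    (hJA : ∀ e, ∀ α ∈ (J e).support, (J e).coeff α ∈ A0)
    (d : ℕ → ℕ) (χ : ℕ → ℤ) (hχd : ∀ i, χ i = max (canDeg ℂ (L i)) 0 + d i)
    (t : ℕ → Fin r → ℂ) (f : ∀ i, Fin (N + 1) → L i) (x y : ∀ i, Fin n → L i)
    (a b : ℕ → Fin n → ℂ)
    (hFe : ∀ i e, aeval (Sum.elim (f i) fun l => algebraMap ℂ (L i) (t i l)) (F e) = 0)
    (hJe : ∀ i, ∃ e, aeval (Sum.elim (f i) fun l => algebraMap ℂ (L i) (t i l)) (J e) ≠ 0)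
    (hab : ∀ i j, 4 * a i j ^ 3 + 27 * b i j ^ 2 ≠ 0)
    (hxy : ∀ i j, y i j ^ 2 = x i j ^ 3 + algebraMap ℂ (L i) (a i j) * x i j +
      algebraMap ℂ (L i) (b i j))
    (hx : ∀ i j, hgt ℂ (x i j) ≤ D * (pht ℂ (f i) + d i))
    (lf : ℕ → Fin (N + 1)) (hlf0 : ∀ i, f i (lf i) ≠ 0) (g : Fin (N + 1) → ∀ i, L i)
    (hg : ∀ j i, g j i = f i j / f i (lf i))
    (hclo : ∀ (U : Type) [Field U] [Algebra ℂ U] (u : (∀ i, L i) →+* U) (τ : Fin r → ℂ)
      (S : IntermediateField ℂ U), UlData A0 χ t g U u τ S →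
      (∀ e, aeval (Sum.elim (fun j => u (g j)) fun l => algebraMap ℂ U (τ l)) (F e) = 0) →
      (∃ e, aeval (Sum.elim (fun j => u (g j)) fun l => algebraMap ℂ U (τ l)) (J e) ≠ 0) →
      ∀ j, u (g j) ∈ clo S (Set.range fun c => u fun i => x i c))
    (hT : ∀ i : ℕ, (i : ℤ) * χ i < pht ℂ (f i)) : False := by
  classical
  have hχ : ∀ i, 0 ≤ χ i := by
    intro i
    rw [hχd]
    have := le_max_right (canDeg ℂ (L i)) 0
    positivity
  have hdχ : ∀ i, (d i : ℤ) ≤ χ i := by
    intro i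
    rw [hχd]
    have := le_max_right (canDeg ℂ (L i)) 0
    linarith
  obtain ⟨T, hTd⟩ : ∃ T : ℕ → ℕ, ∀ i, (T i : ℤ) = pht ℂ (f i) := by
    refine ⟨fun i => (pht ℂ (f i)).toNat, fun i => Int.toNat_of_nonneg ?_⟩
    have h1 : (0 : ℤ) ≤ i * χ i := mul_nonneg (by positivity) (hχ i)
    exact (h1.trans_lt (hT i)).le
  simp only [← hTd] at hT hx
  have hT0 : ∀ i, 0 < T i := by
    intro i
    have h1 : (0 : ℤ) ≤ i * χ i := mul_nonneg (by positivity) (hχ i)
    exact_mod_cast h1.trans_lt (hT i)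
  have hlarge : ∀ C : ℕ, ∀ᶠ i in (hyperfilter ℕ : Filter ℕ), C ≤ i := fun C =>
    Nat.hyperfilter_le_atTop (eventually_ge_atTop C)
  have hχT : ∀ n : ℕ, ∀ᶠ i in (hyperfilter ℕ : Filter ℕ), (n : ℤ) * χ i ≤ T i := by
    intro n
    filter_upwards [hlarge n] with i hi
    have h1 : (n : ℤ) * χ i ≤ i * χ i := mul_le_mul_of_nonneg_right (by exact_mod_cast hi) (hχ i)
    exact h1.trans (hT i).le
  obtain ⟨l0, hl0⟩ := exists_index (κ := Fin (N + 1)) (p := fun l i => lf i = l)
    fun i => ⟨lf i, rfl⟩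
  obtain ⟨e1, he1⟩ := exists_index hJe
  -- evaluation in the ultraproduct
  have hev0 : ∀ (U : Type) [Field U] [Algebra ℂ U] (u : (∀ i, L i) →+* U) (τ : Fin r → ℂ),
      (∀ z, u z = 0 ↔ ∀ᶠ i in (hyperfilter ℕ : Filter ℕ), z i = 0) →
      (∀ c ∈ A0, algebraMap ℂ U c = u fun i => algebraMap ℂ (L i) c) →
      (∀ l, (u fun i => algebraMap ℂ (L i) (t i l)) = algebraMap ℂ U (τ l)) →
      (∀ e, aeval (Sum.elim (fun j => u (g j)) fun l => algebraMap ℂ U (τ l)) (F e) = 0) ∧
      (aeval (Sum.elim (fun j => u (g j)) fun l => algebraMap ℂ U (τ l)) (J e1) ≠ 0) ∧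
      u (g l0) = 1 := by
    intro U _ _ u τ hzero hA0u hτ
    have hcoef : ∀ (H : MvPolynomial (Fin (N + 1) ⊕ Fin r) ℂ),
        (∀ α ∈ H.support, H.coeff α ∈ A0) →
        aeval (Sum.elim (fun j => u (g j)) fun l => algebraMap ℂ U (τ l)) H =
          u fun i => aeval (Sum.elim (fun j => f i j / f i (lf i))
            fun l => algebraMap ℂ (L i) (t i l)) H := by
      intro H hH
      have h1 := u_aeval u (Sum.elim g fun l i => algebraMap ℂ (L i) (t i l))
        (H := H) fun α hα => hA0u _ (hH α hα)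
      have h2 : (fun s => u (Sum.elim g (fun l i => algebraMap ℂ (L i) (t i l)) s)) =
          Sum.elim (fun j => u (g j)) fun l => algebraMap ℂ U (τ l) := by
        funext s
        rcases s with s | s
        · rfl
        · exact hτ s
      rw [h2] at h1
      rw [h1]
      congr 1
      funext i
      congr 2
      funext s
      rcases s with s | s
      · exact hg s i
      · rfl
    refine ⟨fun e => ?_, ?_, ?_⟩
    · rw [hcoef (F e) (hFA e), hzero]
      refine Eventually.of_forall fun i => ?_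
      obtain ⟨m, hm⟩ := hF e
      rw [hm.zero (hlf0 i)]
      exact hFe i e
    · rw [hcoef (J e1) (hJA e1), Ne, hzero]
      refine Ultrafilter.eventually_not.1 ?_
      filter_upwards [he1] with i hi
      obtain ⟨m, hm⟩ := hJ e1
      rw [hm.zero (hlf0 i)]
      exact hi
    · rw [← sub_eq_zero, ← map_one u, ← map_sub, hzero]
      filter_upwards [hl0] with i hi
      rw [Pi.sub_apply, Pi.one_apply, hg, ← hi, div_self (hlf0 i), sub_self]
  by_cases hnc : ∀ᶠ i in (hyperfilter ℕ : Filter ℕ), ∃ j, ∀ c : ℂ, x i j ≠ algebraMap ℂ (L i) c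
  swap
  · -- all points are constant
    have hcst : ∀ᶠ i in (hyperfilter ℕ : Filter ℕ), ∀ j, ∃ c : ℂ, x i j = algebraMap ℂ (L i) c := by
      filter_upwards [Ultrafilter.eventually_not.2 hnc] with i hi
      push Not at hi
      exact hi
    obtain ⟨U, iU, aU, u, δ, hsurj, hzero, hA0u, hδ, hc1, hc2⟩ := exists_package hA0f
      (fun i => (0 : Derivation ℂ (L i) (L i)))
    choose τ hτ using fun l => hc1 fun i => t i l
    obtain ⟨h1, h2, h3⟩ := hev0 U u τ hzero hA0u hτ
    have key := hclo U u τ (smallU hzero hc2 χ) ⟨hzero, hA0u, hτ, fun w hw => mem_smallU.2 hw,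
      l0, h3⟩ h1 ⟨e1, h2⟩
    have hX : ∀ c, (u fun i => x i c) ∈ smallU hzero hc2 χ := by
      intro c
      rw [mem_smallU]
      refine ⟨0, ?_⟩
      filter_upwards [hcst] with i hi
      rw [hgt_const (hi c)]
      simp
    have key2 : ∀ j, u (g j) ∈ smallU hzero hc2 χ := by
      intro j
      apply smallU_closed hsurj
      have h4 : ∀ z ∈ Algebra.adjoin (smallU hzero hc2 χ) (Set.range fun c => u fun i => x i c),
          z ∈ (smallU hzero hc2 χ).toSubalgebra := by
        intro z hz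
        induction hz using Algebra.adjoin_induction with
        | mem w hw =>
          obtain ⟨c, rfl⟩ := hw
          exact hX c
        | algebraMap s => exact s.2
        | add u v _ _ hu hv => exact Subalgebra.add_mem _ hu hv
        | mul u v _ _ hu hv => exact Subalgebra.mul_mem _ hu hv
      exact alg_mono _ _ h4 (mem_clo.1 (key j))
    choose B hB using fun j => mem_smallU.1 (key2 j)
    obtain ⟨i, h4, h5⟩ := ((hlarge (∑ j, B j)).and (eventually_all.2 hB)).exists
    have h6 := pht_le (k := ℂ) (f i) (hlf0 i)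
    have h7 : ∑ j, hgt ℂ (f i j / f i (lf i)) ≤ ∑ j, (B j : ℤ) * χ i :=
      Finset.sum_le_sum fun j _ => by
        rw [← hg]
        exact h5 j
    rw [← Finset.sum_mul] at h7
    have h8 : ((∑ j, B j : ℕ) : ℤ) ≤ i := by exact_mod_cast h4
    push_cast at h8
    have h9 := mul_le_mul_of_nonneg_right h8 (hχ i)
    have h10 := hT i
    rw [hTd] at h10
    linarith
  -- the derivations
  have hder : ∀ i, ∃ E : Derivation ℂ (L i) (L i), E ≠ 0 ∧
      ((∃ j, ∀ c : ℂ, x i j ≠ algebraMap ℂ (L i) c) → (∀ P, vo P E ≤ 0) ∧ pol E ≤ χ i) := by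
    intro i
    by_cases hi : ∃ j, ∀ c : ℂ, x i j ≠ algebraMap ℂ (L i) c
    · obtain ⟨j, hj⟩ := hi
      obtain ⟨D0, hD0⟩ := exists_der (k := ℂ) (K := L i)
      obtain ⟨-, -, h1, h2⟩ := ell_norm (hab i j) (hxy i j) hD0 hj ∅
      refine ⟨_, h1, fun _ => ⟨fun P => (h2 P).2 (Finset.notMem_empty P), ?_⟩⟩
      have h3 := pol_le h1 ∅ h2
      rw [Finset.card_empty, Nat.cast_zero, add_zero] at h3
      have h4 := le_max_left (canDeg ℂ (L i)) 0
      have h5 := hχd i
      have h6 : (0 : ℤ) ≤ d i := by positivity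
      linarith
    · obtain ⟨E, hE⟩ := exists_der (k := ℂ) (K := L i)
      exact ⟨E, hE, fun h => absurd h hi⟩
  choose E hE0 hEp using hder
  -- the package
  obtain ⟨U, iU, aU, u, δ, hsurj, hzero, hA0u, hδ, hc1, hc2⟩ := exists_package hA0f E
  let G : Pk ℂ L U :=
    { u := u
      E := E
      D := δ
      T := T
      surj := hsurj
      zero_iff := hzero
      D_u := hδ
      c2 := hc2
      E0 := hE0
      vo_le := by
        filter_upwards [hnc] with i hi
        exact (hEp i hi).1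
      T0 := hT0
      pol_le := by
        intro m
        filter_upwards [hnc, hχT m] with i hi h1
        exact (mul_le_mul_of_nonneg_left (hEp i hi).2 (by positivity)).trans h1 }
  have hGu : G.u = u := rfl
  have small : ∀ w : ∀ i, L i, (∃ B : ℕ, ∀ᶠ i in (hyperfilter ℕ : Filter ℕ),
      hgt ℂ (w i) ≤ B * χ i) → u w ∈ SF G.pc := by
    rintro w ⟨B, hB⟩
    rw [← hGu, G.mem_SF_u]
    intro m
    filter_upwards [hB, hχT (m * B)] with i h1 h2
    have h3 : (m : ℤ) * hgt ℂ (w i) ≤ m * (B * χ i) := mul_le_mul_of_nonneg_left h1 (by positivity)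
    push_cast at h2
    have h4 : ((G.T i : ℕ) : ℤ) = T i := rfl
    rw [h4]
    linarith
  -- the points
  obtain ⟨X, hX⟩ : ∃ X : Fin n → U, ∀ j, X j = u fun i => x i j := ⟨_, fun _ => rfl⟩
  obtain ⟨Y, hY⟩ : ∃ Y : Fin n → U, ∀ j, Y j = u fun i => y i j := ⟨_, fun _ => rfl⟩
  choose A hA using fun j => hc1 fun i => a i j
  choose B hB using fun j => hc1 fun i => b i j
  choose τ hτ using fun l => hc1 fun i => t i l
  have hXY : ∀ j, Y j ^ 2 = X j ^ 3 + algebraMap ℂ U (A j) * X j + algebraMap ℂ U (B j) := by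
    intro j
    rw [hX, hY, ← hA, ← hB, ← map_pow, ← map_pow, ← map_mul, ← map_add, ← map_add]
    congr 1
    funext i
    exact hxy i j
  have hAB : ∀ j, 4 * A j ^ 3 + 27 * B j ^ 2 ≠ 0 := by
    intro j h0
    have h1 : (u fun i => algebraMap ℂ (L i) (4 * a i j ^ 3 + 27 * b i j ^ 2)) = 0 := by
      have h2 : (fun i => algebraMap ℂ (L i) (4 * a i j ^ 3 + 27 * b i j ^ 2)) =
          4 * (fun i => algebraMap ℂ (L i) (a i j)) ^ 3 +
            27 * (fun i => algebraMap ℂ (L i) (b i j)) ^ 2 := by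
        funext i
        simp only [map_add, map_mul, map_pow, map_ofNat]
        rfl
      rw [h2, map_add, map_mul, map_mul, map_pow, map_pow, hA, hB, map_ofNat, map_ofNat]
      have h3 := congrArg (algebraMap ℂ U) h0
      simp only [map_add, map_mul, map_pow, map_ofNat, map_zero] at h3
      exact h3
    obtain ⟨i, hi⟩ := ((hzero _).1 h1).exists
    rw [map_eq_zero] at hi
    exact hab i j hi
  have hDX : ∀ j, G.ps.D (X j) = (u fun i => E i (x i j) / y i j) * Y j := by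
    intro j
    change δ (X j) = _
    rw [hX, hY, hδ, ← map_mul]
    congr 1
    funext i
    exact (speed_x (hab i j) (hxy i j) (hE0 i) ∅).1
  have hcS : ∀ j, (u fun i => E i (x i j) / y i j) ∈ SF G.pc := by
    intro j
    refine small _ ⟨1, ?_⟩
    filter_upwards [hnc] with i hi
    have h1 := (speed_x (hab i j) (hxy i j) (hE0 i) ∅).2
    rw [Finset.card_empty, Nat.cast_zero, add_zero] at h1
    refine h1.trans ?_
    rw [Nat.cast_one, one_mul]
    exact (hEp i hi).2
  have hfin : ∀ j, G.ps.m (G.ps.pl (X j)) ≠ ⊤ := by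
    intro j
    rw [hX]
    refine G.fin_u (w := fun i => x i j) (B := 2 * D) ?_
    filter_upwards [hχT 1] with i h1
    refine (hx i j).trans ?_
    have h2 : (d i : ℤ) ≤ T i := by
      have := hdχ i
      push_cast at h1
      linarith
    have h3 : (D : ℤ) * (T i + d i) ≤ D * (T i + T i) :=
      mul_le_mul_of_nonneg_left (by linarith) (by positivity)
    refine h3.trans (le_of_eq ?_)
    change _ = ((2 * D : ℕ) : ℤ) * (T i : ℤ)
    push_cast
    ring
  -- the coordinates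
  obtain ⟨Z, hZ⟩ : ∃ Z : Fin (N + 1) → U, ∀ j, Z j = u (g j) := ⟨_, fun _ => rfl⟩
  have hZf : (fun j => u (g j)) = Z := funext fun j => (hZ j).symm
  have hXr : (fun c => u fun i => x i c) = X := funext fun j => (hX j).symm
  obtain ⟨hFU, hJU, hZl⟩ := hev0 U u τ hzero hA0u hτ
  have hZclo := hclo U u τ (SF G.pc) ⟨hzero, hA0u, hτ, small, l0, hZl⟩ hFU ⟨e1, hJU⟩
  rw [hZf] at hFU hJU
  rw [hXr] at hZclo
  simp only [← hZ] at hZclo hZl
  -- the field
  obtain ⟨K, hK⟩ : ∃ K : IntermediateField ℂ U, K = IntermediateField.adjoin ℂ (Set.range Z) :=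
    ⟨_, rfl⟩
  have hZK : ∀ j, Z j ∈ K := fun j => by
    rw [hK]
    exact IntermediateField.subset_adjoin _ _ ⟨j, rfl⟩
  have hKfg : K.FG := by
    rw [hK]
    exact IntermediateField.fg_adjoin_of_finite (Set.finite_range Z)
  obtain ⟨z, hz⟩ : ∃ z : Fin (N + 1) → K, ∀ j, (z j : U) = Z j := ⟨fun j => ⟨Z j, hZK j⟩,
    fun _ => rfl⟩
  have htop : coords ℂ z = ⊤ := by
    rw [eq_top_iff, ← adjoin_top Z K hK z hz]
    unfold coords
    rw [IntermediateField.adjoin_le_iff]
    rintro _ ⟨j, rfl⟩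
    refine IntermediateField.subset_adjoin _ _ ⟨j, l0, ?_, ?_⟩
    · intro h
      have h1 := congrArg Subtype.val h
      rw [hz, hZl] at h1
      exact one_ne_zero h1
    · have h1 : z l0 = 1 := Subtype.ext (by rw [hz, hZl]; rfl)
      rw [h1, div_one]
  obtain ⟨w, hw⟩ : ∃ w : ℕ, Algebra.trdeg ℂ K = w := by
    have h1 : Algebra.EssFiniteType ℂ K := IntermediateField.essFiniteType_iff.2 hKfg
    exact Cardinal.lt_aleph0.1 (trdeg_lt_aleph0 ℂ K)
  have hev : ∀ H : MvPolynomial (Fin (N + 1) ⊕ Fin r) ℂ,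
      ((aeval (Sum.elim z fun l => algebraMap ℂ K (τ l)) H : K) : U) =
      aeval (Sum.elim Z fun l => algebraMap ℂ U (τ l)) H := by
    intro H
    have h2 := MvPolynomial.comp_aeval_apply
      (f := (Sum.elim z fun l => algebraMap ℂ K (τ l) : Fin (N + 1) ⊕ Fin r → K)) K.val H
    have h3 : (fun i => K.val ((Sum.elim z fun l => algebraMap ℂ K (τ l)) i)) =
        Sum.elim Z fun l => algebraMap ℂ U (τ l) := by
      funext i
      rcases i with i | i
      · exact hz i
      · rfl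
    rw [h3] at h2
    exact h2
  have key : ∀ j, Z j ∈ SF G.pc := by
    rcases Nat.eq_zero_or_pos w with h0 | h0
    · intro j
      have h1 : Algebra.IsAlgebraic ℂ K := by
        rw [← trdeg_eq_zero_iff, hw, h0, Nat.cast_zero]
      have h2 := h1.isAlgebraic (z j)
      have h3 : IsAlgebraic ℂ (Z j) := by
        have := h2.algebraMap (A := U)
        rw [← hz]
        exact this
      obtain ⟨c, hc⟩ : ∃ c : ℂ, algebraMap ℂ U c = Z j := by
        have h4 := IsAlgClosed.degree_eq_one_of_irreducible ℂ (minpoly.irreducible h3.isIntegral)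
        obtain ⟨c, hc⟩ := minpoly.mem_range_of_degree_eq_one ℂ (Z j) h4
        exact ⟨c, hc⟩
      rw [← hc]
      exact (SF G.pc).algebraMap_mem c
    · have h1 : GeneralType ℂ K w := by
        refine hGT τ K z w ⟨l0, fun h => ?_⟩ htop hw h0 (fun e => ?_) ⟨e1, fun h => ?_⟩
        · have h1 := congrArg Subtype.val h
          rw [hz, hZl] at h1
          exact one_ne_zero h1
        · exact Subtype.ext ((hev (F e)).trans (hFU e))
        · have h1 := congrArg Subtype.val h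
          exact hJU ((hev (J e1)).symm.trans h1)
      have hKclo : ∀ v ∈ K, v ∈ clo (SF G.pc) (Set.range X) := by
        have h2 : K ≤ ((clo (SF G.pc) (Set.range X)).toIntermediateField
            fun _ h => inv_mem_clo h).restrictScalars ℂ := by
          rw [hK, IntermediateField.adjoin_le_iff]
          rintro _ ⟨j, rfl⟩
          exact hZclo j
        exact fun v hv => h2 hv
      have h2 := abs_main G.pc X Y A B hAB hXY _ hcS hDX hfin K hKfg hKclo h1
      exact fun j => h2 _ (hZK j)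
  have hfin2 : ∀ j, ∀ᶠ i in (hyperfilter ℕ : Filter ℕ),
      ((N + 2 : ℕ) : ℤ) * hgt ℂ (g j i) ≤ T i := by
    intro j
    have h1 := key j
    rw [hZ, ← hGu, G.mem_SF_u] at h1
    exact h1 (N + 2)
  obtain ⟨i, h1⟩ := (eventually_all.2 hfin2).exists
  have h3 := pht_le (k := ℂ) (f i) (hlf0 i)
  have h4 : ∑ j, ((N + 2 : ℕ) : ℤ) * hgt ℂ (f i j / f i (lf i)) ≤ ∑ j : Fin (N + 1), (T i : ℤ) :=
    Finset.sum_le_sum fun j _ => by
      rw [← hg]
      exact h1 j
  rw [← Finset.mul_sum, Finset.sum_const, Finset.card_univ, Fintype.card_fin, nsmul_eq_mul] at h4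
  rw [← hTd] at h3
  have h5 : ((N + 2 : ℕ) : ℤ) * T i ≤ ((N + 1 : ℕ) : ℤ) * T i :=
    (mul_le_mul_of_nonneg_left h3 (by positivity)).trans h4
  have h6 : (0 : ℤ) < T i := by exact_mod_cast hT0 i
  push_cast at h5
  linarith

end Pool.Agent.E8helper90.RC
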